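import Pool.Agent.MP_542436_nt.H96.Spec

/-! The final assembly: from the three lower bounds for linear forms to the abc inequality. -/

namespace Pool.Agent.MP_542436_nt.H96

namespace ABC

open Finset

theorem cast_prod {K : Type} [Field K] (u : ℕ) (hu : u ≠ 0) (S : Finset ℕ)
    (hS : u.primeFactors ⊆ S) : (u : K) = ∏ r ∈ S, (r : K) ^ (u.factorization r) := by
  have h : ∏ r ∈ S, r ^ (u.factorization r) = u := by
    rw [← Finsupp.prod_of_support_subset u.factorization (by simpa using hS) (· ^ ·)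
      (by intro i _; simp)]
    exact Nat.prod_factorization_pow_eq_self hu
  conv_lhs => rw [← h]
  push_cast
  rfl

/-- exponents of a power of a quotient -/
def bb (e u v : ℕ) (r : ℕ) : ℤ := e * ((u.factorization r : ℤ) - v.factorization r)

theorem prod_bb {K : Type} [Field K] [CharZero K] (e u v : ℕ) (hu : u ≠ 0) (hv : v ≠ 0) :
    ∏ r ∈ (u * v).primeFactors, (r : K) ^ (bb e u v r) = ((u : K) / v) ^ e := by
  have h1 := cast_prod (K := K) u hu (u * v).primeFactors
    (Nat.primeFactors_mono (Dvd.intro _ rfl) (mul_ne_zero hu hv))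
  have h2 := cast_prod (K := K) v hv (u * v).primeFactors
    (Nat.primeFactors_mono (Dvd.intro_left _ rfl) (mul_ne_zero hu hv))
  conv_rhs => rw [h1, h2, ← Finset.prod_div_distrib, ← Finset.prod_pow]
  refine Finset.prod_congr rfl fun r hr => ?_
  have hr0 : (r : K) ≠ 0 := by
    exact_mod_cast (Nat.prime_of_mem_primeFactors hr).ne_zero
  rw [bb, mul_comm, zpow_mul, zpow_sub₀ hr0, zpow_natCast, zpow_natCast, zpow_natCast]

theorem prod_mono {S N : Finset ℕ} (h : S ⊆ N) (hN : ∀ r ∈ N, r.Prime) :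
    ∏ r ∈ S, (r : ℝ) ≤ ∏ r ∈ N, (r : ℝ) :=
  Finset.prod_le_prod_of_subset_of_one_le h (fun i _ => by positivity)
    (fun i hi _ => by exact_mod_cast (hN i hi).one_lt.le)

theorem one_le_prod {N : Finset ℕ} (hN : ∀ r ∈ N, r.Prime) : 1 ≤ ∏ r ∈ N, (r : ℝ) := by
  simpa using prod_mono (Finset.empty_subset N) hN

theorem half_lt_log_two : (1 / 2 : ℝ) < Real.log 2 := by
  have := Real.log_two_gt_d9
  linarith

theorem card_le (hA : RowARI) {S : Finset ℕ} (hS : ∀ r ∈ S, r.Prime) {R : ℝ}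
    (hR : ∏ r ∈ S, (r : ℝ) ≤ R) : (S.card : ℝ) ≤ 2 * Real.log R := by
  have h1 := ((hA.card S hS).1).trans hR
  have h2 := Real.log_le_log (by positivity) h1
  rw [Real.log_pow] at h2
  have h3 : (0 : ℝ) ≤ S.card := by positivity
  nlinarith [half_lt_log_two]

theorem fac_le {u c : ℕ} (hu : u ≠ 0) (huc : u ≤ c) {r : ℕ} (hr : r.Prime) :
    (u.factorization r : ℝ) ≤ 2 * Real.log c := by
  have h1 : 2 ^ u.factorization r ≤ c :=
    ((Nat.pow_le_pow_left hr.two_le _).trans (Nat.ordProj_le r hu)).trans huc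
  have h1' : (2 : ℝ) ^ u.factorization r ≤ c := by exact_mod_cast h1
  have h2 := Real.log_le_log (by positivity) h1'
  rw [Real.log_pow] at h2
  have h3 : (0 : ℝ) ≤ u.factorization r := by positivity
  nlinarith [half_lt_log_two]

theorem one_le_log {c : ℕ} (hc : 4 ≤ c) : 1 ≤ Real.log c := by
  have h : (4 : ℝ) ≤ c := by exact_mod_cast hc
  have h2 := Real.log_le_log (by norm_num) h
  have h3 : Real.log 4 = 2 * Real.log 2 := by
    rw [show (4 : ℝ) = 2 ^ 2 by norm_num, Real.log_pow]; norm_num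
  linarith [half_lt_log_two]

theorem frm (hA : RowARI) {e u v c : ℕ} {R : ℝ} (he1 : 1 ≤ e) (he2 : e ≤ 2) (hu : u ≠ 0)
    (hv : v ≠ 0) (huv : Nat.Coprime u v) (h1 : 1 < u * v) (huc : u ≤ c) (hvc : v ≤ c)
    (hc : 4 ≤ c) (hR : ∏ r ∈ (u * v).primeFactors, (r : ℝ) ≤ R) :
    Frm (u * v).primeFactors (bb e u v) (3 + 2 * Real.log R + Real.log (Real.log c)) := by
  have hP : ∀ r ∈ (u * v).primeFactors, r.Prime := fun r hr => Nat.prime_of_mem_primeFactors hr
  have hR1 : 1 ≤ R := (one_le_prod hP).trans hR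
  have hlR : 0 ≤ Real.log R := Real.log_nonneg hR1
  have hX := one_le_log hc
  have hlX : 0 ≤ Real.log (Real.log c) := Real.log_nonneg hX
  refine ⟨hP, ?_, by linarith, ?_, ?_, ?_⟩
  · obtain ⟨r, hr, hd⟩ := Nat.exists_prime_and_dvd (n := u * v) (by omega)
    refine ⟨r, Nat.mem_primeFactors.2 ⟨hr, hd, mul_ne_zero hu hv⟩, ?_⟩
    refine mul_ne_zero (by exact_mod_cast (by omega : e ≠ 0)) ?_
    rcases (Nat.Prime.dvd_mul hr).1 hd with h | h
    · have h2 : ¬ r ∣ v := fun h' => hr.one_lt.ne' (Nat.eq_one_of_dvd_coprimes huv h h')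
      have := hr.factorization_pos_of_dvd hu h
      rw [Nat.factorization_eq_zero_of_not_dvd h2]
      omega
    · have h2 : ¬ r ∣ u := fun h' => hr.one_lt.ne' (Nat.eq_one_of_dvd_coprimes huv h' h)
      have := hr.factorization_pos_of_dvd hv h
      rw [Nat.factorization_eq_zero_of_not_dvd h2]
      omega
  · have := card_le hA hP hR
    linarith
  · rw [← Real.log_prod (fun r hr => by exact_mod_cast (hP r hr).ne_zero)]
    have := Real.log_le_log (lt_of_lt_of_le one_pos (one_le_prod hP)) hR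
    linarith
  · intro r hr
    have a1 := fac_le hu huc (hP r hr)
    have a2 := fac_le hv hvc (hP r hr)
    have a3 : (0 : ℝ) ≤ u.factorization r := by positivity
    have a4 : (0 : ℝ) ≤ v.factorization r := by positivity
    have a5 : |(u.factorization r : ℝ) - v.factorization r| ≤ 2 * Real.log c := by
      rw [abs_le]; constructor <;> linarith
    have a6 : (e : ℝ) ≤ 2 := by exact_mod_cast he2
    have a7 : |((bb e u v r : ℤ) : ℝ)| ≤ 2 * (2 * Real.log c) := by
      rw [bb]; push_cast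
      rw [abs_mul, abs_of_nonneg (by positivity : (0 : ℝ) ≤ e)]
      exact mul_le_mul a6 a5 (abs_nonneg _) (by norm_num)
    refine a7.trans ?_
    rw [Real.exp_add, Real.exp_log (by linarith)]
    have a8 : (4 : ℝ) ≤ Real.exp (3 + 2 * Real.log R) := by
      have := Real.add_one_le_exp (3 + 2 * Real.log R)
      linarith
    nlinarith

theorem padic {t u v p : ℕ} [Fact p.Prime] (hu : u ≠ 0) (hv : v ≠ 0)
    (hpv : ¬ p ∣ v) (hd : (t : ℤ) ∣ (u : ℤ) ^ 2 - (v : ℤ) ^ 2) {B : ℝ}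
    (hB : Real.exp (-B) ≤ ‖∏ r ∈ (u * v).primeFactors, (r : ℚ_[p]) ^ bb 2 u v r - 1‖) :
    (t.factorization p : ℝ) * Real.log p ≤ B := by
  have hp : p.Prime := Fact.out
  rw [prod_bb 2 u v hu hv] at hB
  have hv0 : (v : ℚ_[p]) ≠ 0 := by exact_mod_cast hv
  have e1 : ((u : ℚ_[p]) / v) ^ 2 - 1 = (((u : ℤ) ^ 2 - (v : ℤ) ^ 2 : ℤ) : ℚ_[p]) / (v : ℚ_[p]) ^ 2 := by
    push_cast
    field_simp
  have e2 : ‖(v : ℚ_[p])‖ = 1 :=
    Padic.norm_natCast_eq_one_iff.2 ((Nat.Prime.coprime_iff_not_dvd hp).2 hpv)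
  rw [e1, norm_div, norm_pow, e2, one_pow, div_one] at hB
  have e3 : ((p : ℤ) ^ t.factorization p) ∣ (u : ℤ) ^ 2 - (v : ℤ) ^ 2 := by
    refine dvd_trans ?_ hd
    exact_mod_cast Nat.ordProj_dvd t p
  have e4 := hB.trans ((Padic.norm_int_le_pow_iff_dvd _ _).2 e3)
  have e5 := Real.log_le_log (Real.exp_pos _) e4
  rw [Real.log_exp, Real.log_zpow] at e5
  push_cast at e5
  linarith

theorem pow_self_le (m : ℕ) : ((m + 2 : ℕ) : ℝ) ^ (m + 2) ≤ ((m + 2 : ℕ) : ℝ) ^ 2 *
    (((2 : ℝ) ^ m) ^ 2 * (m : ℝ) ^ m) := by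
  rw [pow_add, mul_comm]
  refine mul_le_mul_of_nonneg_left ?_ (by positivity)
  rcases Nat.eq_zero_or_pos m with h | h
  · subst h; simp
  · rw [← pow_mul, mul_comm m 2, pow_mul, ← mul_pow]
    refine pow_le_pow_left₀ (by positivity) ?_ _
    have : (1 : ℝ) ≤ m := by exact_mod_cast h
    push_cast
    linarith

/-- the bound at one prime -/
theorem prime_bound (h1 : RowP1) (h2 : RowP2) (hA : RowARI) :
    ∃ (η C : ℝ) (k : ℕ), 0 < η ∧ η ≤ 1 / 12 ∧ 1 ≤ C ∧ ∀ (p : ℕ) [Fact p.Prime] (P : Finset ℕ)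
      (b : ℕ → ℤ) (H R : ℝ) (q q' : ℕ), Frm P b H → p ∉ P → q ∈ P → q' ∈ P → q ≠ q' → p ≤ q →
      p ≤ q' → (p : ℝ) * ∏ r ∈ P, (r : ℝ) ≤ R → Real.log R ≤ H →
      Real.exp (-(C * R ^ (1 / 3 - η / 2) * H ^ k)) ≤ ‖∏ r ∈ P, (r : ℚ_[p]) ^ b r - 1‖ := by
  obtain ⟨δ, c, C1, k1, hδ, hc, hC1, H1⟩ := h1
  obtain ⟨C2, k2, hC2, H2⟩ := h2
  set η : ℝ := min (min (min δ (1 / 2) / 48) (c / 48)) (1 / 12) with hη
  have hδ' : 0 < min δ (1 / 2) := lt_min hδ (by norm_num)
  have hη0 : 0 < η := lt_min (lt_min (by positivity) (by positivity)) (by norm_num)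
  have hη1 : η ≤ min δ (1 / 2) / 48 := (min_le_left _ _).trans (min_le_left _ _)
  have hη2 : η ≤ c / 48 := (min_le_left _ _).trans (min_le_right _ _)
  have hη3 : η ≤ 1 / 12 := min_le_right _ _
  obtain ⟨D1, hD1, G1⟩ := hA.prod 1 (η / 2) (by norm_num) (by positivity)
  obtain ⟨D2, hD2, G2⟩ := hA.prod C2 (η / 2) (by linarith) (by positivity)
  set C0 : ℝ := max C1 (Real.exp (4 / c)) with hC0
  have hC01 : 1 ≤ C0 := hC1.trans (le_max_left _ _)
  refine ⟨η, C1 * D1 + C2 * D2 * C0, k1 + k2 + 2, hη0, hη3, ?_, ?_⟩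
  · have a1 : 1 ≤ C1 * D1 := one_le_mul_of_one_le_of_one_le hC1 hD1
    have a2 : 0 ≤ C2 * D2 * C0 := by positivity
    linarith
  intro p _ P b H R q q' hF hpP hq hq' hqq hpq hpq' hR hRH
  have hp : p.Prime := Fact.out
  have hp1 : (1 : ℝ) ≤ p := by exact_mod_cast hp.one_lt.le
  have hP1 := one_le_prod hF.prime
  have hPR : ∏ r ∈ P, (r : ℝ) ≤ R := by nlinarith
  have hpR : (p : ℝ) ≤ R := by nlinarith
  have hR1 : 1 ≤ R := hp1.trans hpR
  have hR0 : 0 < R := by linarith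
  have hH := hF.one
  have hpH : Real.log p ≤ H := (Real.log_le_log (by linarith) hpR).trans hRH
  have hε : (∏ r ∈ P, (r : ℝ)) ^ (η / 2) ≤ R ^ (η / 2) :=
    Real.rpow_le_rpow (by linarith) hPR (by positivity)
  have hlog0 : 0 ≤ ∏ r ∈ P, Real.log r :=
    Finset.prod_nonneg fun r _ => Real.log_natCast_nonneg r
  have hθ : 0 ≤ R ^ (1 / 3 - η / 2) := by positivity
  by_cases hcase : (p : ℝ) ≤ C0 * R ^ (1 / 3 - η)
  · refine le_trans ?_ (H2 p P b H hF hpP hpH)
    rw [Real.exp_le_exp, neg_le_neg_iff]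
    have a1 : C2 ^ P.card * ∏ r ∈ P, Real.log r ≤ D2 * R ^ (η / 2) := by
      have := G2 P hF.prime
      rw [Finset.prod_mul_distrib, Finset.prod_const] at this
      exact this.trans (mul_le_mul_of_nonneg_left hε (by linarith))
    have a2 : H ^ k2 ≤ H ^ (k1 + k2 + 2) := pow_le_pow_right₀ hH (by omega)
    have a3 : R ^ (1 / 3 - η / 2) = R ^ (η / 2) * R ^ (1 / 3 - η) := by
      rw [← Real.rpow_add hR0]; congr 1; ring
    calc C2 ^ (P.card + 1) * p * (∏ r ∈ P, Real.log r) * H ^ k2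
        = C2 * (C2 ^ P.card * ∏ r ∈ P, Real.log r) * p * H ^ k2 := by ring
      _ ≤ C2 * (D2 * R ^ (η / 2)) * (C0 * R ^ (1 / 3 - η)) * H ^ (k1 + k2 + 2) := by
          gcongr
      _ = C2 * D2 * C0 * R ^ (1 / 3 - η / 2) * H ^ (k1 + k2 + 2) := by rw [a3]; ring
      _ ≤ _ := by
          gcongr
          have : 0 ≤ C1 * D1 := by positivity
          linarith
  · push Not at hcase
    have b0 : 1 ≤ R ^ (1 / 3 - η) := Real.one_le_rpow hR1 (by linarith)
    have b1 : C0 ≤ p := by nlinarith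
    have b2 : R ^ (1 / 3 - η) ≤ p := by nlinarith
    set Q := (P.erase q).erase q' with hQ
    have hq'' : q' ∈ P.erase q := Finset.mem_erase.2 ⟨hqq.symm, hq'⟩
    have hQP : ∀ r ∈ Q, r.Prime := fun r hr =>
      hF.prime r (Finset.mem_of_mem_erase (Finset.mem_of_mem_erase hr))
    have hcard : P.card = Q.card + 2 := by
      have e1 := Finset.card_erase_add_one hq
      have e2 := Finset.card_erase_add_one hq''
      rw [hQ]; omega
    have hprod : ∏ r ∈ P, (r : ℝ) = q * (q' * ∏ r ∈ Q, (r : ℝ)) := by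
      rw [← Finset.mul_prod_erase P _ hq, ← Finset.mul_prod_erase (P.erase q) _ hq'']
    have hQ1 := one_le_prod hQP
    set Qr := ∏ r ∈ Q, (r : ℝ) with hQr
    have b3 : (p : ℝ) ^ 3 * Qr ≤ R := by
      have e1 : (p : ℝ) ≤ q := by exact_mod_cast hpq
      have e2 : (p : ℝ) ≤ q' := by exact_mod_cast hpq'
      calc (p : ℝ) ^ 3 * Qr = p * (p * (p * Qr)) := by ring
        _ ≤ p * (q * (q' * Qr)) := by gcongr
        _ ≤ R := by rw [← hprod]; exact hR
    have hlp : 0 ≤ Real.log p := Real.log_nonneg hp1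
    have hlR : 0 ≤ Real.log R := Real.log_nonneg hR1
    have b4 : (1 / 3 - η) * Real.log R ≤ Real.log p := by
      have := Real.log_le_log (by linarith) b2
      rwa [Real.log_rpow hR0] at this
    have b5 : 3 * Real.log p + Real.log Qr ≤ Real.log R := by
      have := Real.log_le_log (by positivity) b3
      rw [Real.log_mul (by positivity) (by positivity), Real.log_pow] at this
      exact_mod_cast this
    have b6 : Real.log Qr ≤ 3 * η * Real.log R := by nlinarith
    have b7 : Real.log R ≤ 4 * Real.log p := by nlinarith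
    have b8 : (Q.card : ℝ) ≤ 2 * Real.log Qr := card_le hA hQP le_rfl
    have b9 : 4 / c ≤ Real.log p := by
      have := Real.log_le_log (Real.exp_pos _) ((le_max_right _ _).trans b1)
      rwa [Real.log_exp] at this
    have b10 : (P.card : ℝ) ≤ c * Real.log p := by
      rw [hcard]; push_cast
      have e1 : 4 ≤ c * Real.log p := by
        rw [div_le_iff₀ hc] at b9; linarith
      have e2 : η * Real.log R ≤ c / 48 * (4 * Real.log p) :=
        mul_le_mul hη2 b7 hlR (by positivity)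
      nlinarith
    refine le_trans ?_ (H1 p P b H hF hpP hpH ((le_max_left _ _).trans b1) b10)
    rw [Real.exp_le_exp, neg_le_neg_iff]
    have a1 : ∏ r ∈ P, Real.log r ≤ D1 * R ^ (η / 2) := by
      have := G1 P hF.prime
      simp only [one_mul] at this
      exact this.trans (mul_le_mul_of_nonneg_left hε (by linarith))
    have a2 : (P.card : ℝ) ^ P.card ≤ H ^ 2 * R ^ (15 * η) := by
      have e1 := pow_self_le Q.card
      rw [← hcard] at e1
      obtain ⟨e2, e3⟩ := hA.card Q hQP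
      have e4 : (P.card : ℝ) ^ 2 ≤ H ^ 2 := pow_le_pow_left₀ (by positivity) hF.card _
      have e5 : ((2 : ℝ) ^ Q.card) ^ 2 * (Q.card : ℝ) ^ Q.card ≤ Qr ^ 2 * Qr ^ 3 := by gcongr
      have e6 : Qr ^ 2 * Qr ^ 3 ≤ R ^ (15 * η) := by
        rw [← pow_add, ← Real.log_le_log_iff (by positivity) (by positivity), Real.log_pow,
          Real.log_rpow hR0]
        push_cast
        linarith
      exact e1.trans (mul_le_mul e4 (e5.trans e6) (by positivity) (by positivity))
    have a3 : (p : ℝ) ^ (1 - δ) ≤ R ^ (1 / 3 - 16 * η) := by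
      rw [← Real.log_le_log_iff (by positivity) (by positivity), Real.log_rpow hR0,
        Real.log_rpow (by linarith)]
      have e1 : min δ (1 / 2) ≤ δ := min_le_left _ _
      have e2 : 0 ≤ Real.log Qr := Real.log_nonneg hQ1
      have e3 : (1 - δ) * Real.log p ≤ (1 - 48 * η) * Real.log p :=
        mul_le_mul_of_nonneg_right (by linarith) hlp
      have e4 : min δ (1 / 2) ≤ 1 / 2 := min_le_right _ _
      have e5 : (1 - 48 * η) * (3 * Real.log p) ≤ (1 - 48 * η) * Real.log R :=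
        mul_le_mul_of_nonneg_left (by linarith) (by linarith)
      linarith
    have a4 : R ^ (1 / 3 - η / 2) = R ^ (15 * η) * R ^ (1 / 3 - 16 * η) * R ^ (η / 2) := by
      rw [← Real.rpow_add hR0, ← Real.rpow_add hR0]; congr 1; ring
    have a5 : H ^ (k1 + 2) ≤ H ^ (k1 + k2 + 2) := pow_le_pow_right₀ hH (by omega)
    calc C1 * (P.card : ℝ) ^ P.card * (p : ℝ) ^ (1 - δ) * (∏ r ∈ P, Real.log r) * H ^ k1
        ≤ C1 * (H ^ 2 * R ^ (15 * η)) * R ^ (1 / 3 - 16 * η) * (D1 * R ^ (η / 2)) * H ^ k1 := by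
          gcongr
      _ = C1 * D1 * R ^ (1 / 3 - η / 2) * H ^ (k1 + 2) := by rw [a4]; ring
      _ ≤ _ := by
          gcongr
          have : 0 ≤ C2 * D2 * C0 := by positivity
          linarith

/-- the bound for the member of the triple with the least largest prime -/
theorem key (hA : RowARI) {θ C : ℝ} {k : ℕ} (hC : 1 ≤ C)
    (hB : ∀ (p : ℕ) [Fact p.Prime] (P : Finset ℕ)
      (b : ℕ → ℤ) (H R : ℝ) (q q' : ℕ), Frm P b H → p ∉ P → q ∈ P → q' ∈ P → q ≠ q' → p ≤ q →
      p ≤ q' → (p : ℝ) * ∏ r ∈ P, (r : ℝ) ≤ R → Real.log R ≤ H →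
      Real.exp (-(C * R ^ θ * H ^ k)) ≤ ‖∏ r ∈ P, (r : ℚ_[p]) ^ b r - 1‖)
    {t u v c q q' : ℕ} {R : ℝ} (ht : t ≠ 0) (hu : u ≠ 0) (hv : v ≠ 0) (htu : Nat.Coprime t u)
    (htv : Nat.Coprime t v) (huv : Nat.Coprime u v) (huc : u ≤ c) (hvc : v ≤ c) (hc : 4 ≤ c)
    (hd : (t : ℤ) ∣ (u : ℤ) ^ 2 - (v : ℤ) ^ 2) (hq : q ∈ u.primeFactors) (hq' : q' ∈ v.primeFactors)
    (hle : ∀ p ∈ t.primeFactors, p ≤ q ∧ p ≤ q')
    (hR : ∏ r ∈ (t * u * v).primeFactors, (r : ℝ) ≤ R) :
    Real.log t ≤ C * R ^ θ * (3 + 2 * Real.log R + Real.log (Real.log c)) ^ (k + 1) := by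
  have hN : ∀ r ∈ (t * u * v).primeFactors, r.Prime := fun r hr => Nat.prime_of_mem_primeFactors hr
  have h0 : t * u * v ≠ 0 := mul_ne_zero (mul_ne_zero ht hu) hv
  have hs1 : (u * v).primeFactors ⊆ (t * u * v).primeFactors :=
    Nat.primeFactors_mono (Dvd.intro_left t (by ring)) h0
  have hs2 : t.primeFactors ⊆ (t * u * v).primeFactors :=
    Nat.primeFactors_mono (Dvd.intro (u * v) (by ring)) h0
  have hqp := Nat.prime_of_mem_primeFactors hq
  have hqu := Nat.dvd_of_mem_primeFactors hq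
  have hqv := Nat.dvd_of_mem_primeFactors hq'
  have h1 : 1 < u * v :=
    lt_of_lt_of_le hqp.one_lt (Nat.le_of_dvd (Nat.pos_of_ne_zero (mul_ne_zero hu hv))
      (hqu.mul_right v))
  have hF := frm hA (e := 2) (by norm_num) le_rfl hu hv huv h1 huc hvc hc
    ((prod_mono hs1 hN).trans hR)
  set H := 3 + 2 * Real.log R + Real.log (Real.log c) with hH
  have hR1 : 1 ≤ R := (one_le_prod hN).trans hR
  have hlR : 0 ≤ Real.log R := Real.log_nonneg hR1
  have hlX : 0 ≤ Real.log (Real.log c) := Real.log_nonneg (one_le_log hc)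
  have hH1 := hF.one
  have hterm : ∀ p ∈ t.primeFactors, (t.factorization p : ℝ) * Real.log p ≤ C * R ^ θ * H ^ k := by
    intro p hp
    have hpp := Nat.prime_of_mem_primeFactors hp
    have hpt := Nat.dvd_of_mem_primeFactors hp
    have : Fact p.Prime := ⟨hpp⟩
    have hpu : ¬ p ∣ u := fun h => hpp.one_lt.ne' (Nat.eq_one_of_dvd_coprimes htu hpt h)
    have hpv : ¬ p ∣ v := fun h => hpp.one_lt.ne' (Nat.eq_one_of_dvd_coprimes htv hpt h)
    have hpP : p ∉ (u * v).primeFactors := fun h => by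
      rcases (Nat.Prime.dvd_mul hpp).1 (Nat.dvd_of_mem_primeFactors h) with h | h
      exacts [hpu h, hpv h]
    refine padic hu hv hpv hd (hB p _ _ H R q q' hF hpP ?_ ?_ ?_ (hle p hp).1 (hle p hp).2 ?_ ?_)
    · exact Nat.primeFactors_mono (Dvd.intro _ rfl) (mul_ne_zero hu hv) hq
    · exact Nat.primeFactors_mono (Dvd.intro_left _ rfl) (mul_ne_zero hu hv) hq'
    · intro h
      subst h
      exact hqp.one_lt.ne' (Nat.eq_one_of_dvd_coprimes huv hqu hqv)
    · rw [← Finset.prod_insert (f := fun r : ℕ => (r : ℝ)) hpP]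
      exact (prod_mono (Finset.insert_subset (hs2 hp) hs1) hN).trans hR
    · linarith
  have hsum : Real.log t = ∑ p ∈ t.primeFactors, (t.factorization p : ℝ) * Real.log p := by
    conv_lhs => rw [cast_prod (K := ℝ) t ht t.primeFactors subset_rfl]
    rw [Real.log_prod]
    · exact Finset.sum_congr rfl fun p _ => Real.log_pow _ _
    · intro p hp
      exact pow_ne_zero _ (by exact_mod_cast (Nat.prime_of_mem_primeFactors hp).ne_zero)
  have hcard : (t.primeFactors.card : ℝ) ≤ H := by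
    have := card_le hA (fun r hr => hN r (hs2 hr)) ((prod_mono hs2 hN).trans hR)
    linarith
  rw [hsum]
  refine (Finset.sum_le_card_nsmul _ _ _ hterm).trans ?_
  rw [nsmul_eq_mul, pow_succ]
  have : 0 ≤ C * R ^ θ * H ^ k := by positivity
  nlinarith

/-- the case of a small summand -/
theorem small (h3 : RowP3) (hA : RowARI) {θ : ℝ} (hθ : 0 < θ) :
    ∃ (C : ℝ) (k : ℕ), 1 ≤ C ∧ ∀ (a b c : ℕ) (R : ℝ), 0 < a → 0 < b → a + b = c →
      Nat.Coprime c b → 4 ≤ c → a ^ 2 < c → ∏ r ∈ (c * b).primeFactors, (r : ℝ) ≤ R →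
      Real.log c ≤ C * R ^ θ * (3 + 2 * Real.log R + Real.log (Real.log c)) ^ k := by
  obtain ⟨C3, k3, hC3, H3⟩ := h3
  obtain ⟨D, hD, G⟩ := hA.prod C3 θ (by linarith) hθ
  have hCD : 1 ≤ C3 * D := one_le_mul_of_one_le_of_one_le hC3 hD
  refine ⟨2 * (C3 * D) + 2, k3, by linarith, ?_⟩
  intro a b c R ha hb habc hcb hc hac hR
  have hc0 : c ≠ 0 := by omega
  have hF := frm hA (e := 1) le_rfl (by norm_num) hc0 hb.ne' hcb (by nlinarith) le_rfl
    (by omega) hc hR
  set H := 3 + 2 * Real.log R + Real.log (Real.log c) with hH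
  have hH1 := hF.one
  have hP1 := one_le_prod hF.prime
  have hR1 : 1 ≤ R := hP1.trans hR
  have h := H3 _ _ _ hF
  have e1 : ∑ r ∈ (c * b).primeFactors, ((bb 1 c b r : ℤ) : ℝ) * Real.log r =
      Real.log ((c : ℝ) / b) := by
    have := prod_bb (K := ℝ) 1 c b hc0 hb.ne'
    rw [pow_one] at this
    rw [← this, Real.log_prod]
    · exact Finset.sum_congr rfl fun p _ => (Real.log_zpow _ _).symm
    · intro p hp
      exact zpow_ne_zero _ (by exact_mod_cast (Nat.prime_of_mem_primeFactors hp).ne_zero)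
  have hb' : (0 : ℝ) < b := by exact_mod_cast hb
  have ha' : (0 : ℝ) < a := by exact_mod_cast ha
  have habc' : (a : ℝ) + b = c := by exact_mod_cast habc
  have hc' : (4 : ℝ) ≤ c := by exact_mod_cast hc
  have hac' : (a : ℝ) ^ 2 < c := by exact_mod_cast hac
  have e2 : 0 ≤ Real.log ((c : ℝ) / b) :=
    Real.log_nonneg ((one_le_div hb').2 (by linarith))
  have e3 : Real.log ((c : ℝ) / b) ≤ a / b := by
    have := Real.log_le_sub_one_of_pos (show 0 < (c : ℝ) / b by positivity)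
    have e : (c : ℝ) / b - 1 = a / b := by rw [← habc']; field_simp; ring
    linarith
  rw [e1, abs_of_nonneg e2] at h
  set B := C3 ^ ((c * b).primeFactors.card + 1) * (∏ r ∈ (c * b).primeFactors, Real.log r) *
    H ^ k3 with hBdef
  have e4 : 2 * (a : ℝ) ≤ c := by nlinarith
  have e5 : ((a : ℝ) / b) ^ 2 ≤ 4 / c := by
    rw [div_pow, div_le_div_iff₀ (by positivity) (by positivity)]
    nlinarith
  have e6 : Real.exp (-B) ^ 2 ≤ 4 / c :=
    (pow_le_pow_left₀ (Real.exp_pos _).le (h.trans e3) 2).trans e5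
  have e7 := Real.log_le_log (by positivity) e6
  rw [Real.log_pow, Real.log_exp, Real.log_div (by norm_num) (by linarith)] at e7
  have e8 : Real.log 4 ≤ 2 := by
    rw [show (4 : ℝ) = 2 ^ 2 by norm_num, Real.log_pow]
    have := Real.log_two_lt_d9
    push_cast
    linarith
  have e9 : B ≤ C3 * D * (R ^ θ * H ^ k3) := by
    have a1 : C3 ^ (c * b).primeFactors.card * ∏ r ∈ (c * b).primeFactors, Real.log r ≤
        D * R ^ θ := by
      have := G _ hF.prime
      rw [Finset.prod_mul_distrib, Finset.prod_const] at this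
      exact this.trans (mul_le_mul_of_nonneg_left
        (Real.rpow_le_rpow (by linarith) hR hθ.le) (by linarith))
    calc B = C3 * (C3 ^ (c * b).primeFactors.card * ∏ r ∈ (c * b).primeFactors, Real.log r) *
          H ^ k3 := by rw [hBdef]; ring
      _ ≤ C3 * (D * R ^ θ) * H ^ k3 := by gcongr
      _ = _ := by ring
  have e10 : 1 ≤ R ^ θ * H ^ k3 :=
    one_le_mul_of_one_le_of_one_le (Real.one_le_rpow hR1 hθ.le) (one_le_pow₀ hH1)
  push_cast at e7
  nlinarith

theorem exists_top {n : ℕ} (hn : 2 ≤ n) : ∃ q ∈ n.primeFactors, ∀ p ∈ n.primeFactors, p ≤ q :=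
  Finset.exists_max_image n.primeFactors id (Nat.nonempty_primeFactors.2 hn)

end ABC

open ABC in
theorem rowABC : RowP1 → RowP2 → RowP3 → RowARI → RowABC := by
  intro h1 h2 h3 hA
  obtain ⟨η, C, k, hη0, hη1, hC, hB⟩ := prime_bound h1 h2 hA
  obtain ⟨D, l, hD, hS⟩ := small h3 hA (θ := 1 / 3 - η / 2) (by linarith)
  obtain ⟨C', hC'⟩ := hA.boot (2 * C + D) (1 / 3 - η / 2) (η / 4) (k + 1 + l) (by linarith)
    (by linarith) (by positivity)
  refine ⟨η / 4, max C' 2, by positivity, ?_⟩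
  intro a b c ha hb habc hab
  have hN : ∀ r ∈ (a * b * c).primeFactors, r.Prime := fun r hr => Nat.prime_of_mem_primeFactors hr
  have hR1 := one_le_prod hN
  have hc0 : c ≠ 0 := by omega
  have h0 : a * b * c ≠ 0 := mul_ne_zero (mul_ne_zero ha.ne' hb.ne') hc0
  have hca : Nat.Coprime c a := by rw [← habc]; simpa using hab.symm
  have hcb : Nat.Coprime c b := by rw [← habc]; simpa using hab
  have hpos : 1 ≤ (∏ r ∈ (a * b * c).primeFactors, (r : ℝ)) ^ (1 / 3 - η / 4) :=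
    Real.one_le_rpow hR1 (by linarith)
  rcases lt_or_ge c 4 with hc | hc
  · have e1 : (c : ℝ) ≤ 3 := by exact_mod_cast (by omega : c ≤ 3)
    have e2 : (0 : ℝ) < c := by exact_mod_cast Nat.pos_of_ne_zero hc0
    have e3 := Real.log_le_sub_one_of_pos e2
    have e4 := le_max_right C' 2
    nlinarith
  have hX := one_le_log hc
  have sub : ∀ n : ℕ, n ∣ a * b * c → ∏ r ∈ n.primeFactors, (r : ℝ) ≤
      ∏ r ∈ (a * b * c).primeFactors, (r : ℝ) := fun n hn =>
    prod_mono (Nat.primeFactors_mono hn h0) hN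
  set R := ∏ r ∈ (a * b * c).primeFactors, (r : ℝ) with hR
  set H := 3 + 2 * Real.log R + Real.log (Real.log c) with hH
  have hH1 : 1 ≤ H := by
    have := Real.log_nonneg hR1
    have := Real.log_nonneg hX
    linarith
  have hθ : 0 ≤ R ^ (1 / 3 - η / 2) := by positivity
  have p1 : H ^ (k + 1) ≤ H ^ (k + 1 + l) := pow_le_pow_right₀ hH1 (by omega)
  have p2 : H ^ l ≤ H ^ (k + 1 + l) := pow_le_pow_right₀ hH1 (by omega)
  have main : Real.log c ≤ (2 * C + D) * R ^ (1 / 3 - η / 2) * H ^ (k + 1 + l) := by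
    have s1 : Real.log c ≤ D * R ^ (1 / 3 - η / 2) * H ^ l →
        Real.log c ≤ (2 * C + D) * R ^ (1 / 3 - η / 2) * H ^ (k + 1 + l) := fun h =>
      h.trans (by gcongr; linarith)
    have s2 : ∀ t : ℕ, c ≤ t ^ 2 → Real.log t ≤ C * R ^ (1 / 3 - η / 2) * H ^ (k + 1) →
        Real.log c ≤ (2 * C + D) * R ^ (1 / 3 - η / 2) * H ^ (k + 1 + l) := by
      intro t ht h
      have e1 : (c : ℝ) ≤ (t : ℝ) ^ 2 := by exact_mod_cast ht
      have e2 := Real.log_le_log (by exact_mod_cast Nat.pos_of_ne_zero hc0) e1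
      rw [Real.log_pow] at e2
      push_cast at e2
      calc Real.log c ≤ (2 * C) * R ^ (1 / 3 - η / 2) * H ^ (k + 1) := by linarith
        _ ≤ _ := by gcongr; linarith
    rcases lt_or_ge (a ^ 2) c with h | ha2
    · exact s1 (hS a b c R ha hb habc hcb hc h (sub _ (Dvd.intro_left a (by ring))))
    rcases lt_or_ge (b ^ 2) c with h | hb2
    · exact s1 (hS b a c R hb ha (by omega) hca hc h (sub _ (Dvd.intro_left b (by ring))))
    obtain ⟨qa, hqa, Ha⟩ := exists_top (n := a) (by nlinarith)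
    obtain ⟨qb, hqb, Hb⟩ := exists_top (n := b) (by nlinarith)
    obtain ⟨qc, hqc, Hc⟩ := exists_top (n := c) (by omega)
    have hz : (c : ℤ) = a + b := by exact_mod_cast habc.symm
    by_cases c1 : qa ≤ qb ∧ qa ≤ qc
    · refine s2 a ha2 (key hA hC hB ha.ne' hb.ne' hc0 hab hca.symm hcb.symm (by omega) le_rfl hc
        ⟨-(a + 2 * b), by rw [hz]; ring⟩ hqb hqc
        (fun p hp => ⟨(Ha p hp).trans c1.1, (Ha p hp).trans c1.2⟩) (sub _ dvd_rfl))
    by_cases c2 : qb ≤ qa ∧ qb ≤ qc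
    · refine s2 b hb2 (key hA hC hB hb.ne' ha.ne' hc0 hab.symm hcb.symm hca.symm (by omega) le_rfl
        hc ⟨-(2 * a + b), by rw [hz]; ring⟩ hqa hqc
        (fun p hp => ⟨(Hb p hp).trans c2.1, (Hb p hp).trans c2.2⟩)
        (sub _ (dvd_of_eq (by ring))))
    · refine s2 c (by nlinarith) (key hA hC hB hc0 ha.ne' hb.ne' hca hcb hab (by omega) (by omega)
        hc ⟨a - b, by rw [hz]; ring⟩ hqa hqb
        (fun p hp => ⟨(Hc p hp).trans (by omega), (Hc p hp).trans (by omega)⟩)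
        (sub _ (dvd_of_eq (by ring))))
  have fin := hC' _ R hX hR1 main
  rw [show 1 / 3 - η / 2 + η / 4 = 1 / 3 - η / 4 by ring] at fin
  exact fin.trans (mul_le_mul_of_nonneg_right (le_max_left _ _) (by linarith))

end Pool.Agent.MP_542436_nt.H96
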