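import Pool.Agent.MP_542436_nt.H96.Spec

/-! Products of small powers of primes. -/

namespace Pool.Agent.MP_542436_nt.H96

namespace BOX

theorem inj {r z z' i j : ℕ} (hr : r.Prime) (hz : ¬ r ∣ z) (hz' : ¬ r ∣ z')
    (h : z * r ^ i = z' * r ^ j) : z = z' ∧ i = j := by
  have hz0 : z ≠ 0 := fun e => hz (e ▸ dvd_zero r)
  have hz0' : z' ≠ 0 := fun e => hz' (e ▸ dvd_zero r)
  have hij : i = j := by
    have := congrArg (fun n => n.factorization r) h
    simp only [Nat.factorization_mul hz0 (pow_ne_zero _ hr.ne_zero),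
      Nat.factorization_mul hz0' (pow_ne_zero _ hr.ne_zero), Nat.factorization_pow,
      Finsupp.add_apply, Finsupp.smul_apply, hr.factorization_self, smul_eq_mul, mul_one,
      Nat.factorization_eq_zero_of_not_dvd hz, Nat.factorization_eq_zero_of_not_dvd hz',
      zero_add] at this
    exact this
  subst hij
  exact ⟨Nat.eq_of_mul_eq_mul_right (pow_pos hr.pos _) h, rfl⟩

end BOX

theorem rowBOX : RowBOX := by
  intro P t hP ht
  induction P using Finset.induction_on with
  | empty => exact ⟨{1}, by simp, by simp⟩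
  | insert r P hrP ih =>
    obtain ⟨Z, hZ, hz⟩ := ih fun s hs => hP s (Finset.mem_insert_of_mem hs)
    have hr : r.Prime := hP r (Finset.mem_insert_self _ _)
    have hl : 0 < Real.log r := Real.log_pos (by exact_mod_cast hr.one_lt)
    have hnd : ∀ z ∈ Z, ¬ r ∣ z := by
      intro z hzZ hd
      obtain ⟨-, -, e, rfl⟩ := hz z hzZ
      obtain ⟨s, hs, hd⟩ := (Prime.dvd_finsetProd_iff hr.prime _).1 hd
      have := (Nat.prime_dvd_prime_iff_eq hr (hP s (Finset.mem_insert_of_mem hs))).1
        (hr.dvd_of_dvd_pow hd)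
      exact hrP (this ▸ hs)
    refine ⟨(Z ×ˢ Finset.range (⌊t / Real.log r⌋₊ + 1)).image fun x => x.1 * r ^ x.2, ?_, ?_⟩
    · rw [Finset.card_image_of_injOn, Finset.card_product, Finset.card_range,
        Finset.card_insert_of_notMem hrP, Finset.prod_insert hrP, pow_succ]
      · have h1 : t ≤ ((⌊t / Real.log r⌋₊ + 1 : ℕ) : ℝ) * Real.log r := by
          rw [← div_le_iff₀ hl]
          push_cast
          exact (Nat.lt_floor_add_one _).le
        calc t ^ P.card * t ≤ (Z.card * ∏ s ∈ P, Real.log s) *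
              (((⌊t / Real.log r⌋₊ + 1 : ℕ) : ℝ) * Real.log r) :=
              mul_le_mul hZ h1 ht ((pow_nonneg ht _).trans hZ)
          _ = _ := by push_cast; ring
      · rintro ⟨z, i⟩ h ⟨z', j⟩ h' e
        simp only [Finset.coe_product, Set.mem_prod, Finset.mem_coe] at h h'
        obtain ⟨h1, h2⟩ := BOX.inj hr (hnd z h.1) (hnd z' h'.1) e
        exact Prod.ext h1 h2
    · intro y hy
      obtain ⟨⟨z, i⟩, hx, rfl⟩ := Finset.mem_image.1 hy
      obtain ⟨hzZ, hi⟩ := Finset.mem_product.1 hx
      obtain ⟨h0, hle, e, he⟩ := hz z hzZ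
      refine ⟨Nat.mul_pos h0 (pow_pos hr.pos _), ?_, Function.update e r i, ?_⟩
      · have hi' : (i : ℝ) * Real.log r ≤ t := by
          rw [← le_div_iff₀ hl, ← Nat.le_floor_iff (div_nonneg ht hl.le)]
          exact Nat.lt_succ_iff.1 (Finset.mem_range.1 hi)
        have h2 : ((r : ℝ)) ^ i ≤ Real.exp t := by
          rw [← Real.exp_log (pow_pos (by exact_mod_cast hr.pos : (0 : ℝ) < r) i), Real.log_pow]
          exact Real.exp_le_exp.2 hi'
        rw [Finset.card_insert_of_notMem hrP]
        push_cast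
        rw [add_mul, one_mul, Real.exp_add]
        exact mul_le_mul hle h2 (by positivity) (Real.exp_pos _).le
      · rw [Finset.prod_insert hrP, Function.update_self, mul_comm, he]
        congr 1
        refine Finset.prod_congr rfl fun s hs => ?_
        rw [Function.update_of_ne (fun h : s = r => hrP (h ▸ hs))]

end Pool.Agent.MP_542436_nt.H96
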