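import Pool.Agent.MP_542436_nt.H96.Spec

/-! The descent. -/

namespace Pool.Agent.MP_542436_nt.H96

open NumberField

namespace CORE

section Loc

variable {K A : Type} [Field K] [NormedField A] {ι : K →+* A} {E : A → A} {B : AddSubgroup A}
  {q : ℕ} {κ ρ : ℝ}

theorem Epow (h : Loc ι E B q κ ρ) {a : A} (ha : a ∈ B) (n : ℕ) : E (a * n) = E a ^ n := by
  induction n with
  | zero => simp [h.zero]
  | succ n ih =>
    have hn : a * n ∈ B := by
      rw [mul_comm, ← nsmul_eq_mul]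
      exact nsmul_mem ha n
    rw [Nat.cast_succ, mul_add, mul_one, h.add _ hn _ ha, ih, pow_succ]

theorem div_mem (h : Loc ι E B q κ ρ) {a : A} (ha : a ∈ B) (j : ℕ) : a / (q : A) ^ j ∈ B := by
  induction j with
  | zero => simpa using ha
  | succ j ih =>
    rw [pow_succ, ← div_div]
    exact h.div _ ih

theorem q_prime (h : Loc ι E B q κ ρ) : q.Prime := by
  rcases h.q23 with rfl | rfl
  · exact Nat.prime_two
  · exact Nat.prime_three

theorem E_root [CharZero A] (h : Loc ι E B q κ ρ) {a : A} (ha : a ∈ B) (j : ℕ) :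
    E (a / (q : A) ^ j) ^ q ^ j = E a := by
  have hq : (q : A) ≠ 0 := Nat.cast_ne_zero.2 (q_prime h).ne_zero
  rw [← Epow h (div_mem h ha j), Nat.cast_pow, div_mul_cancel₀ _ (pow_ne_zero _ hq)]

theorem E_succ [CharZero A] (h : Loc ι E B q κ ρ) {a : A} (ha : a ∈ B) (j : ℕ) :
    E (a / (q : A) ^ (j + 1)) ^ q = E (a / (q : A) ^ j) := by
  have hq : (q : A) ≠ 0 := Nat.cast_ne_zero.2 (q_prime h).ne_zero
  rw [← Epow h (div_mem h ha _), pow_succ, ← div_div, div_mul_cancel₀ _ hq]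

end Loc

/-- the coefficients -/
def co {Y : Type} {n : ℕ} (c : Y → ℤ) (x : Y → Fin n → ℤ) (τ : Fin n → ℕ) (y : Y) : ℤ :=
  c y * ∏ i, x y i ^ τ i

theorem co_succ {Y : Type} {n : ℕ} (c : Y → ℤ) (x : Y → Fin n → ℤ) (τ : Fin n → ℕ) (y : Y)
    (i : Fin n) : co c x (τ + Pi.single i 1) y = co c x τ y * x y i := by
  have : ∏ k, x y k ^ (Pi.single i 1 : Fin n → ℕ) k = x y i := by
    rw [Fintype.prod_eq_single i fun k hk => by simp [hk]]
    simp
  simp only [co, Pi.add_apply, pow_add, Finset.prod_mul_distrib, this, mul_assoc]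

theorem lam_pow {Y A : Type} [Field A] {n : ℕ} (c : Y → ℤ) (x : Y → Fin n → ℤ) (t : Finset Y)
    (F : Y → A) (ξ : Fin n → A) (u v : A) (U T : ℕ)
    (h : ∀ τ : Fin n → ℕ, ∑ i, τ i + U ≤ T → ∑ y ∈ t, (co c x τ y : A) * F y = 0) (m : ℕ) :
    ∀ τ : Fin n → ℕ, ∑ i, τ i + m + U ≤ T →
      ∑ y ∈ t, (co c x τ y : A) * ((∑ i, ξ i * x y i - u) / v) ^ m * F y = 0 := by
  induction m with
  | zero => intro τ hτ; simpa using h τ hτ
  | succ m ih =>
    intro τ hτ
    have e : ∀ y, (co c x τ y : A) * ((∑ i, ξ i * x y i - u) / v) ^ (m + 1) * F y =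
        (∑ i, ξ i * ((co c x (τ + Pi.single i 1) y : A) * ((∑ i, ξ i * x y i - u) / v) ^ m * F y) -
          u * ((co c x τ y : A) * ((∑ i, ξ i * x y i - u) / v) ^ m * F y)) / v := fun y => by
      generalize hz : ((∑ i, ξ i * x y i - u) / v) ^ m = z
      rw [pow_succ, hz]
      simp only [co_succ, Int.cast_mul]
      have : ∑ i, ξ i * ((co c x τ y : A) * x y i * z * F y) =
          (∑ i, ξ i * x y i) * ((co c x τ y : A) * z * F y) := by
        rw [Finset.sum_mul]
        exact Finset.sum_congr rfl fun i _ => by ring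
      rw [this]
      ring
    simp only [e]
    rw [← Finset.sum_div, Finset.sum_sub_distrib, Finset.sum_comm, ← Finset.mul_sum,
      ih τ (by omega), mul_zero, sub_zero, Finset.sum_eq_zero, zero_div]
    intro i _
    rw [← Finset.mul_sum, ih, mul_zero]
    simp only [Pi.add_apply, Finset.sum_add_distrib, Finset.sum_pi_single', Finset.mem_univ,
      if_true]
    omega

theorem num {V w a b : ℝ} (h1 : V ≤ 2 * Real.exp (w - a)) (h2 : Real.exp (-b) ≤ V)
    (h3 : b + w + 1 ≤ a) : False := by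
  have e1 : Real.exp (w - a) * Real.exp 1 ≤ Real.exp (-b) := by
    rw [← Real.exp_add]
    exact Real.exp_le_exp.2 (by linarith)
  have e2 := Real.exp_one_gt_d9
  have e3 := Real.exp_pos (w - a)
  nlinarith

theorem lio (hK : RowKUM) {K A M : Type} [Field K] [NumberField K] [NormedField A] [Field M]
    [NumberField M] [Algebra K M] (ι : K →+* A) (j : M →+* A)
    (hj : ∀ x : K, j (algebraMap K M x) = ι x) (hA : Lv A) (t : Finset Kˣ) (a : Kˣ → ℤ)
    (θ : Kˣ → A) (b : Kˣ) (Q s ν : ℕ) (L w : ℝ) (hQ : 0 < Q) (hL : 0 ≤ L) (hw : 0 ≤ w)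
    (hν : Module.finrank K M ≤ ν) (hb : ‖ι b‖ ≤ Real.exp L)
    (ht : ∀ y ∈ t, θ y ∈ j.range ∧ θ y ^ Q = ι (y / b : Kˣ) ∧ IsIntegral ℤ (y : K) ∧
      ∀ σ : K →+* ℂ, ‖σ y‖ ≤ Real.exp (L / Module.finrank ℚ K))
    (ha : ∑ y ∈ t, |(a y : ℝ)| ≤ Real.exp w) (h0 : ∑ y ∈ t, (a y : A) * θ y ^ s ≠ 0) :
    Real.exp (-(ν * (Module.finrank ℚ K * w + 2 * s * L / Q))) ≤
      ‖∑ y ∈ t, (a y : A) * θ y ^ s‖ := by
  classical
  have hD : (0 : ℝ) < Module.finrank ℚ K := Nat.cast_pos.2 Module.finrank_pos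
  have hfin : Module.Finite K M := Module.Finite.of_restrictScalars_finite ℚ K M
  have hν1 : (1 : ℝ) ≤ ν := by exact_mod_cast le_trans Module.finrank_pos hν
  let z : Kˣ → M := fun y => if h : θ y ∈ j.range then h.choose else 0
  have hz : ∀ y ∈ t, j (z y) = θ y := fun y hy => by
    simp only [z, dif_pos (ht y hy).1]
    exact (ht y hy).1.choose_spec
  have es : j (∑ y ∈ t, (a y : M) * z y ^ s) = ∑ y ∈ t, (a y : A) * θ y ^ s := by
    rw [map_sum]
    exact Finset.sum_congr rfl fun y hy => by rw [map_mul, map_pow, hz y hy, map_intCast]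
  have key := hK.lio A M j Kˣ t a z (fun y => algebraMap K M y) (algebraMap K M b) Q s
    (Module.finrank ℚ K * ν) (L / Module.finrank ℚ K) w hA hQ (by positivity) hw
    (by rw [← Module.finrank_mul_finrank ℚ K M]; exact Nat.mul_le_mul_left _ hν)
    (by simp) (by
      rw [hj]
      refine hb.trans (Real.exp_le_exp.2 ?_)
      push_cast
      rw [← mul_assoc, div_mul_cancel₀ _ hD.ne']
      nlinarith)
    (fun y hy => by
      obtain ⟨-, h2, h3, h4⟩ := ht y hy
      refine ⟨j.injective ?_, h3.algebraMap, fun σ => h4 (σ.comp (algebraMap K M))⟩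
      rw [map_mul, map_pow, hz y hy, h2, hj, hj, ← map_mul, ← Units.val_mul, div_mul_cancel])
    ha (fun h => h0 (by rw [← es, h, map_zero]))
  rw [es] at key
  convert key using 3
  push_cast
  field_simp

end CORE

open CORE in
theorem rowCORE : RowKUM → RowCORE := by
  intro hK K A _ _ _ ι E B q κ ρ hL Γ R X n k0 J T c x γ ξ S Δ L w ε hsat hR hRc hk0 hL0 hw0 hε0
    hκ0 hX hXX hco hS1 hpar hT h0 b hb
  classical
  by_contra hcb
  have : CharZero A := (RingHom.charZero_iff ι.injective).1 inferInstance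
  have hqp := q_prime hL
  have hq3 : (q : ℝ) ≤ 3 := by rcases hL.q23 with rfl | rfl <;> norm_num
  have hq2 : (2 : ℝ) ≤ q := by exact_mod_cast hqp.two_le
  have hq0 : (q : A) ≠ 0 := Nat.cast_ne_zero.2 hqp.ne_zero
  have hD : (0 : ℝ) ≤ Module.finrank ℚ K := Nat.cast_nonneg _
  set g : ℕ → Kˣ → A := fun j y => (γ y - γ b) / (q : A) ^ j with hg
  set Xj : ℕ → Finset Kˣ := fun j => X.filter fun y => E (g j y) ∈ ι.range with hXj
  have gB : ∀ j, ∀ y ∈ X, g j y ∈ B := fun j y hy => div_mem hL (hXX y hy b hb).2.1 j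
  have gpow : ∀ j, ∀ y ∈ X, E (g j y) ^ q ^ j = ι (y / b : Kˣ) := fun j y hy => by
    rw [(hXX y hy b hb).2.2.1]
    exact E_root hL (hXX y hy b hb).2.1 j
  have gsucc : ∀ j, ∀ y ∈ X, E (g (j + 1) y) ^ q = E (g j y) := fun j y hy =>
    E_succ hL (hXX y hy b hb).2.1 j
  have sub : ∀ j, Xj j ⊆ X := fun j => Finset.filter_subset _ _
  have root : ∀ j, ∀ y ∈ Xj j, ∃ z ∈ Γ, ι (z : K) = E (g j y) ∧ z ^ q ^ j = y / b := by
    intro j y hy
    obtain ⟨hy, z, hz⟩ := Finset.mem_filter.1 hy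
    have e1 : z ^ q ^ j = (y / b : Kˣ) := ι.injective (by rw [map_pow, hz, gpow j y hy])
    have z0 : z ≠ 0 := fun h => by
      rw [h, zero_pow (pow_pos hqp.pos j).ne'] at e1
      exact Units.ne_zero _ e1.symm
    have e2 : Units.mk0 z z0 ^ q ^ j = y / b := Units.ext (by simpa using e1)
    have sat : ∀ (k : ℕ) (u : Kˣ), u ^ q ^ k ∈ Γ → u ∈ Γ := fun k => by
      induction k with
      | zero => simp
      | succ k ih => exact fun u hu => hsat u (ih _ (by rwa [← pow_mul, ← pow_succ']))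
    exact ⟨_, sat j _ (e2 ▸ (hXX y hy b hb).1), hz, e2⟩
  have cobd : ∀ j (τ : Fin n → ℕ), ∑ i, τ i ≤ T →
      ∑ y ∈ Xj j, |(co c x τ y : ℝ)| ≤ Real.exp w := fun j τ hτ =>
    (Finset.sum_le_sum_of_subset_of_nonneg (sub j) fun _ _ _ => abs_nonneg _).trans (hco τ hτ)
  let P : ℕ → ℕ → ℕ → Prop := fun j S' U => ∀ i < S', ∀ τ : Fin n → ℕ, ∑ i, τ i + U ≤ T →
    ∑ y ∈ Xj j, (co c x τ y : A) * E (g j y) ^ (1 + q * i) = 0
  have small : ∀ j < J, ∀ S' U, P j S' U → 1 ≤ S' → S' ≤ 2 ^ k0 * S j → ∀ τ : Fin n → ℕ,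
      ∑ i, τ i + (U + Δ j) ≤ T → ∀ s u : ℕ, s ≤ 2 * q * S' → (u = 1 ∨ u = q) →
      ‖∑ y ∈ Xj j, (co c x τ y : A) * E (g j y * ((s : A) / u))‖ ≤
        2 * Real.exp (w - κ * (S' * Δ j)) := by
    intro j hj S' U hP hS' hS'' τ hτ s u hs hu
    obtain ⟨-, hΔ, -, hε⟩ := hpar j hj
    have hS1' : (1 : ℝ) ≤ S' := by exact_mod_cast hS'
    have hS2' : (S' : ℝ) ≤ 2 ^ k0 * S j := by exact_mod_cast hS''
    have hek : 1 ≤ Real.exp κ := Real.one_le_exp hκ0
    have b1 : (1 : ℝ) ≤ 100 * q * S' := by nlinarith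
    have b2 : (1 : ℝ) ≤ 100 * q * S' * Real.exp κ := by nlinarith
    have hε' : ε * (100 * q * S' * Real.exp κ) ^ (S' * Δ j) ≤ 1 := by
      refine le_trans (mul_le_mul_of_nonneg_left ?_ hε0) hε
      refine (pow_le_pow_right₀ b2 (Nat.mul_le_mul_right _ hS'')).trans ?_
      gcongr
    have hε1 : ε ≤ 1 := le_trans (le_mul_of_one_le_right hε0 (one_le_pow₀ b2)) hε'
    have hε2 : ε * (100 * q * S' : ℝ) ^ (S' * Δ j) ≤ Real.exp (-(κ * (S' * Δ j))) := by
      rw [mul_pow, ← Real.exp_nat_mul, ← mul_assoc] at hε'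
      rw [Real.exp_neg, ← one_div, le_div_iff₀ (Real.exp_pos _)]
      rwa [Nat.cast_mul, mul_comm _ κ] at hε'
    have := hL.ext S' (Δ j) ε Kˣ (Xj j) (co c x τ) (g j)
      (fun y => (∑ i, ξ i * x y i - γ b) / (q : A) ^ j) hS' hΔ hε0 hε1
      (fun y hy => ⟨gB j y (sub j hy), (hXX y (sub j hy) b hb).2.2.2.1 j hj, by
        simp only [hg]
        rw [← sub_div, sub_sub_sub_cancel_right, div_eq_mul_inv, norm_mul, ← inv_pow, norm_pow]
        exact (mul_le_of_le_one_right (norm_nonneg _)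
          (pow_le_one₀ (norm_nonneg _) hL.qinv)).trans (hX y (sub j hy)).2.2.2⟩)
      (fun i hi m hm => by
        rw [← lam_pow c x (Xj j) (fun y => E (g j y) ^ (1 + q * i)) ξ (γ b) ((q : A) ^ j) U T
          (hP i hi) m τ (by omega)]
        exact Finset.sum_congr rfl fun y hy => by rw [Epow hL (gB j y (sub j hy))])
      s u hs hu
    refine this.trans ?_
    rw [sub_eq_add_neg, Real.exp_add, mul_left_comm 2]
    exact mul_le_mul (cobd j τ (by omega)) (by linarith) (by positivity) (Real.exp_pos _).le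
  have par : ∀ j < J, ∀ S' : ℝ, S j ≤ S' → (Module.finrank ℚ K + 1) * w + 1 +
      12 * S' * L / (q : ℝ) ^ j ≤ κ * (S' * Δ j) := by
    intro j hj S' hS'
    obtain ⟨-, -, h, -⟩ := hpar j hj
    have h1 : (1 : ℝ) ≤ S j := by exact_mod_cast hS1 j hj.le
    have h2 : (Module.finrank ℚ K + 1) * w + 1 ≤
        S' * (((Module.finrank ℚ K + 1) * w + 1) / S j) := by
      rw [mul_div_left_comm]
      exact le_mul_of_one_le_right (by positivity) ((one_le_div (by linarith)).2 hS')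
    have h3 := mul_le_mul_of_nonneg_left h (by linarith : 0 ≤ S')
    have h4 : 12 * S' * L / (q : ℝ) ^ j = S' * (12 * L / (q : ℝ) ^ j) := by ring
    nlinarith
  have dbl : ∀ j < J, ∀ S' U, P j S' U → S j ≤ S' → S' ≤ 2 ^ k0 * S j →
      P j (2 * S') (U + Δ j) := by
    intro j hj S' U hP h1 h2 i hi τ hτ
    by_contra hne
    have hs : 1 + q * i ≤ 2 * q * S' := by nlinarith [hqp.pos]
    have a1 := small j hj S' U hP ((hS1 j hj.le).trans h1) h2 τ hτ (1 + q * i) 1 hs (Or.inl rfl)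
    rw [Finset.sum_congr rfl fun y hy => by
      rw [Nat.cast_one, div_one, Epow hL (gB j y (sub j hy))]] at a1
    have a2 := lio hK ι ι (fun _ => rfl) hL.lv (Xj j) (co c x τ) (fun y => E (g j y)) b (q ^ j)
      (1 + q * i) 1 L w (pow_pos hqp.pos j) hL0 hw0 (by simp) (hX b hb).2.2.1
      (fun y hy => ⟨(Finset.mem_filter.1 hy).2, gpow j y (sub j hy), (hX y (sub j hy)).1,
        (hX y (sub j hy)).2.1⟩) (cobd j τ (by omega)) hne
    refine num a1 a2 (le_trans ?_ (par j hj S' (by exact_mod_cast h1)))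
    have hs' : ((1 + q * i : ℕ) : ℝ) ≤ 6 * S' := by
      have : ((1 + q * i : ℕ) : ℝ) ≤ 2 * q * S' := by exact_mod_cast hs
      nlinarith [Nat.cast_nonneg (α := ℝ) S']
    have : 2 * ((1 + q * i : ℕ) : ℝ) * L / ((q ^ j : ℕ) : ℝ) ≤ 12 * S' * L / (q : ℝ) ^ j := by
      rw [Nat.cast_pow]
      gcongr ?_ * L / _
      linarith
    rw [Nat.cast_one]
    linarith
  have dbls : ∀ j < J, ∀ U, P j (S j) U → ∀ k ≤ k0, P j (2 ^ k * S j) (U + k * Δ j) := by
    intro j hj U hP k
    induction k with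
    | zero => simpa using hP
    | succ k ih =>
      intro hk
      have := dbl j hj _ _ (ih (by omega)) (Nat.le_mul_of_pos_left _ (by positivity))
        (Nat.mul_le_mul_right _ (Nat.pow_le_pow_right two_pos (by omega)))
      convert this using 1 <;> ring
  obtain ⟨M, _, _, _, jm, hjm, hM, hMr⟩ := hK.fld K A ι q Γ R hqp.pos hL.root hR
  have step : ∀ j < J, ∀ U, P j (S j) U → P (j + 1) (S (j + 1)) (U + (k0 + 1) * Δ j) := by
    intro j hj U hP i hi τ hτ
    have hP' := dbls j hj U hP k0 le_rfl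
    have h4 := (hpar j hj).1
    have hs0 : 1 + q * i ≤ q * (4 * S j) := by nlinarith [hqp.pos]
    have hk2 : 2 ≤ 2 ^ k0 := by simpa using Nat.pow_le_pow_right two_pos hk0
    have hs : 1 + q * i ≤ 2 * q * (2 ^ k0 * S j) := by
      refine hs0.trans ?_
      have := Nat.mul_le_mul_right (S j) hk2
      nlinarith
    have z0 : ∑ y ∈ Xj j, (co c x τ y : A) * E (g (j + 1) y) ^ (1 + q * i) = 0 := by
      by_contra hne
      have a1 := small j hj _ _ hP' (Nat.mul_pos (by positivity) (hS1 j hj.le)) le_rfl τ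
        (by nlinarith) (1 + q * i) q hs (Or.inr rfl)
      rw [Finset.sum_congr rfl fun y hy => by
        rw [show g j y * (((1 + q * i : ℕ) : A) / q) = g (j + 1) y * ((1 + q * i : ℕ) : A) by
          simp only [hg]; field_simp; ring, Epow hL (gB _ y (sub j hy))]] at a1
      have a2 := lio hK ι jm hjm hL.lv (Xj j) (co c x τ) (fun y => E (g (j + 1) y)) b
        (q ^ (j + 1)) (1 + q * i) (2 ^ k0) L w (pow_pos hqp.pos _) hL0 hw0 (hM.trans hRc)
        (hX b hb).2.2.1
        (fun y hy => ⟨by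
          obtain ⟨z, hz, e, -⟩ := root j y hy
          exact hMr _ ⟨z, hz, by rw [gsucc j y (sub j hy), e]⟩, gpow _ y (sub j hy),
          (hX y (sub j hy)).1, (hX y (sub j hy)).2.1⟩) (cobd j τ (by omega)) hne
      refine num a1 a2 ?_
      have p1 := par j hj (S j) le_rfl
      have hs' : ((1 + q * i : ℕ) : ℝ) ≤ q * (4 * S j) := by exact_mod_cast hs0
      have p2 : 2 * ((1 + q * i : ℕ) : ℝ) * L / ((q ^ (j + 1) : ℕ) : ℝ) ≤
          12 * S j * L / (q : ℝ) ^ j := by
        rw [Nat.cast_pow, pow_succ', ← div_div]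
        gcongr
        rw [div_le_iff₀ (by linarith)]
        have : 0 ≤ (q : ℝ) * S j * L := by positivity
        nlinarith
      have p3 : (1 : ℝ) ≤ ((2 ^ k0 : ℕ) : ℝ) := by exact_mod_cast Nat.one_le_two_pow
      rw [Nat.cast_mul]
      generalize ((2 ^ k0 : ℕ) : ℝ) = ν at *
      have p4 := mul_le_mul_of_nonneg_left p1 (by linarith : 0 ≤ ν)
      have p5 := mul_le_mul_of_nonneg_left p2 (by linarith : 0 ≤ ν)
      nlinarith
    choose! z hz using root j
    have := hK.ind K A ι q Kˣ (Xj j) (fun y => (co c x τ y : K) * (z y : K) ^ i)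
      (fun y => E (g (j + 1) y)) hqp hL.root
      (fun y hy => by rw [gsucc j y (sub j hy)]; exact (Finset.mem_filter.1 hy).2)
    have e : ∀ y ∈ Xj j, ι ((co c x τ y : K) * (z y : K) ^ i) * E (g (j + 1) y) =
        (co c x τ y : A) * E (g (j + 1) y) ^ (1 + q * i) := fun y hy => by
      rw [map_mul, map_pow, map_intCast, (hz y hy).2.1, pow_add, pow_mul, gsucc j y (sub j hy)]
      ring
    rw [Finset.sum_congr rfl e] at this
    have := this z0
    rw [Finset.sum_congr rfl fun y hy => e y (Finset.mem_filter.1 hy).1] at this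
    rw [← this]
    refine Finset.sum_congr ?_ fun _ _ => rfl
    ext y
    simp only [hXj, Finset.mem_filter]
    refine ⟨fun h => ⟨⟨h.1, ?_⟩, h.2⟩, fun h => ⟨h.1.1, h.2⟩⟩
    rw [← gsucc j y h.1]
    exact pow_mem h.2 _
  have all : ∀ j ≤ J, P j (S j) ((k0 + 1) * ∑ i ∈ Finset.range j, Δ i) := by
    intro j
    induction j with
    | zero =>
      intro _ i hi τ hτ
      have e : Xj 0 = X := Finset.filter_true_of_mem fun y hy => ⟨_, by
        rw [← gpow 0 y hy, pow_zero, pow_one]⟩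
      have := congrArg (fun u => ι u / ι b ^ (1 + q * i)) (h0 i hi τ (by omega))
      simp only [map_sum, map_zero, zero_div, Finset.sum_div] at this
      rw [e, ← this]
      refine Finset.sum_congr rfl fun y hy => ?_
      have := gpow 0 y hy
      rw [pow_zero, pow_one] at this
      rw [this, map_mul, map_intCast, map_pow, Units.val_div_eq_div_val, map_div₀, div_pow,
        mul_div_assoc]
      rfl
    | succ j ih =>
      intro hj
      rw [Finset.sum_range_succ, mul_add]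
      exact step j hj _ (ih (by omega))
  have fin := all J le_rfl 0 (hS1 J le_rfl) 0 (by simpa using hT)
  have eb : E (g J b) = 1 := by simp [hg, hL.zero]
  rw [Finset.sum_eq_single b, eb] at fin
  · exact hcb (by simpa [co] using fin)
  · intro y hy hne
    obtain ⟨z, hz, -, e⟩ := root J y hy
    exact absurd ((hXX y (sub J hy) b hb).2.2.2.2 z hz (by rw [e, div_mul_cancel])) hne
  · intro h
    exact absurd (Finset.mem_filter.2 ⟨hb, by rw [eb]; exact one_mem _⟩) h

end Pool.Agent.MP_542436_nt.H96
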