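import Pool.Agent.MP_542436_nt.H96.Spec

/-! The `p`-adic exponential and logarithm. -/

namespace Pool.Agent.MP_542436_nt.H96

namespace EXP

variable {p : ℕ} [hp : Fact p.Prime]

theorem fac (k : ℕ) : ‖((k.factorial : ℚ_[p]))⁻¹‖ ≤ 2 ^ (k - 1) := by
  have h0 : (k.factorial : ℚ_[p]) ≠ 0 := Nat.cast_ne_zero.2 k.factorial_ne_zero
  rw [norm_inv, Padic.norm_eq_zpow_neg_valuation h0, Padic.valuation_natCast, zpow_neg, inv_inv,
    zpow_natCast]
  have h1 : (p - 1) * padicValNat p k.factorial ≤ k - 1 := by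
    rcases Nat.eq_zero_or_pos k with rfl | hk
    · simp
    · have := sub_one_mul_padicValNat_factorial_lt_of_ne_zero p hk.ne'
      omega
  have h2 : p ≤ 2 ^ (p - 1) := by
    have := Nat.lt_two_pow_self (n := p - 1)
    have := hp.out.pos
    omega
  have h3 : p ^ padicValNat p k.factorial ≤ 2 ^ (k - 1) :=
    calc p ^ padicValNat p k.factorial ≤ (2 ^ (p - 1)) ^ padicValNat p k.factorial :=
          Nat.pow_le_pow_left h2 _
      _ = 2 ^ ((p - 1) * padicValNat p k.factorial) := by rw [← pow_mul]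
      _ ≤ 2 ^ (k - 1) := Nat.pow_le_pow_right (by norm_num) h1
  exact_mod_cast h3

theorem term_succ {x : ℚ_[p]} (hx : ‖x‖ ≤ 1 / 4) (k : ℕ) :
    ‖x ^ (k + 1) / ((k + 1).factorial : ℚ_[p])‖ ≤ ‖x‖ * (1 / 2) ^ k := by
  rw [div_eq_mul_inv, norm_mul, norm_pow, pow_succ', mul_assoc]
  refine mul_le_mul_of_nonneg_left ?_ (norm_nonneg _)
  have h1 := fac (p := p) (k + 1)
  rw [Nat.add_sub_cancel] at h1
  calc ‖x‖ ^ k * ‖(((k + 1).factorial : ℚ_[p]))⁻¹‖ ≤ (1 / 4) ^ k * 2 ^ k :=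
        mul_le_mul (pow_le_pow_left₀ (norm_nonneg _) hx k) h1 (norm_nonneg _) (by positivity)
    _ = (1 / 2) ^ k := by rw [← mul_pow]; norm_num

theorem summable_norm {x : ℚ_[p]} (hx : ‖x‖ ≤ 1 / 4) :
    Summable fun k : ℕ => ‖x ^ k / (k.factorial : ℚ_[p])‖ := by
  rw [← summable_nat_add_iff 1]
  exact Summable.of_nonneg_of_le (fun _ => norm_nonneg _) (term_succ hx)
    ((summable_geometric_of_lt_one (by norm_num) (by norm_num)).mul_left _)

theorem sum {x : ℚ_[p]} (hx : ‖x‖ ≤ 1 / 4) :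
    HasSum (fun k : ℕ => x ^ k / (k.factorial : ℚ_[p])) (Ep p x) :=
  (summable_norm hx).of_norm.hasSum

theorem add {x y : ℚ_[p]} (hx : ‖x‖ ≤ 1 / 4) (hy : ‖y‖ ≤ 1 / 4) :
    Ep p (x + y) = Ep p x * Ep p y := by
  unfold Ep
  rw [tsum_mul_tsum_eq_tsum_sum_antidiagonal_of_summable_norm (summable_norm hx) (summable_norm hy)]
  refine tsum_congr fun n => ?_
  rw [(Commute.all x y).add_pow', Finset.sum_div]
  refine Finset.sum_congr rfl fun kl hkl => ?_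
  replace hkl : kl.1 + kl.2 = n := Finset.HasAntidiagonal.mem_antidiagonal.1 hkl
  have h1 : ((n.choose kl.1 : ℕ) : ℚ_[p]) * (kl.1.factorial : ℚ_[p]) * (kl.2.factorial : ℚ_[p]) =
      (n.factorial : ℚ_[p]) := by
    have := Nat.add_choose_mul_factorial_mul_factorial kl.2 kl.1
    rw [← hkl, add_comm kl.1 kl.2]
    rw [mul_right_comm] at this
    exact_mod_cast this
  have ha : (kl.1.factorial : ℚ_[p]) ≠ 0 := Nat.cast_ne_zero.2 (Nat.factorial_ne_zero _)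
  have hb : (kl.2.factorial : ℚ_[p]) ≠ 0 := Nat.cast_ne_zero.2 (Nat.factorial_ne_zero _)
  have hc : (n.factorial : ℚ_[p]) ≠ 0 := Nat.cast_ne_zero.2 (Nat.factorial_ne_zero _)
  rw [nsmul_eq_mul, div_mul_div_comm, div_eq_div_iff hc (mul_ne_zero ha hb), ← h1]
  ring

theorem second {x : ℚ_[p]} (hx : ‖x‖ ≤ 1 / 4) : ‖Ep p x - 1 - x‖ ≤ ‖x‖ / 2 := by
  have h := (sum hx).summable.sum_add_tsum_nat_add 2
  have h2 : Ep p x - 1 - x = ∑' k : ℕ, x ^ (k + 2) / ((k + 2).factorial : ℚ_[p]) := by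
    unfold Ep
    rw [← h]
    simp [Finset.sum_range_succ]
    ring
  rw [h2]
  refine IsUltrametricDist.norm_tsum_le_of_forall_le_of_nonneg (by positivity) fun k => ?_
  refine (term_succ hx (k + 1)).trans ?_
  rw [div_eq_mul_one_div ‖x‖ 2]
  refine mul_le_mul_of_nonneg_left ?_ (norm_nonneg _)
  rw [pow_succ]
  exact mul_le_of_le_one_left (by norm_num) (pow_le_one₀ (by norm_num) (by norm_num))

theorem norm_sub_le_max (a b : ℚ_[p]) : ‖a - b‖ ≤ max ‖a‖ ‖b‖ := by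
  simpa [sub_eq_add_neg] using IsUltrametricDist.norm_add_le_max a (-b)

theorem first {x : ℚ_[p]} (hx : ‖x‖ ≤ 1 / 4) : ‖Ep p x - 1‖ = ‖x‖ := by
  have h := second hx
  have h0 := norm_nonneg x
  refine le_antisymm ?_ ?_
  · have := IsUltrametricDist.norm_add_le_max (Ep p x - 1 - x) x
    rw [sub_add_cancel] at this
    exact this.trans (max_le (by linarith) le_rfl)
  · have := norm_sub_le_max (Ep p x - 1) (Ep p x - 1 - x)
    rw [sub_sub_cancel] at this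
    rcases le_max_iff.1 this with h1 | h1
    · exact h1
    · have : ‖x‖ = 0 := by linarith
      rw [this]
      exact norm_nonneg _

theorem norm_le_one {x : ℚ_[p]} (hx : ‖x‖ ≤ 1 / 4) : ‖Ep p x‖ ≤ 1 := by
  have := IsUltrametricDist.norm_add_le_max (Ep p x - 1) 1
  rw [sub_add_cancel, first hx, norm_one] at this
  exact this.trans (max_le (by linarith) le_rfl)

theorem lip {x y : ℚ_[p]} (hx : ‖x‖ ≤ 1 / 4) (hy : ‖y‖ ≤ 1 / 4) :
    ‖Ep p x - Ep p y - (x - y)‖ ≤ ‖x - y‖ / 2 := by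
  have hh : ‖x - y‖ ≤ 1 / 4 := (norm_sub_le_max x y).trans (max_le hx hy)
  have h1 : Ep p x = Ep p y * Ep p (x - y) := by rw [← add hy hh, add_sub_cancel]
  have h2 : Ep p x - Ep p y - (x - y) =
      Ep p y * (Ep p (x - y) - 1 - (x - y)) + (Ep p y - 1) * (x - y) := by
    rw [h1]; ring
  rw [h2]
  refine (IsUltrametricDist.norm_add_le_max _ _).trans (max_le ?_ ?_)
  · rw [norm_mul]
    exact (mul_le_of_le_one_left (norm_nonneg _) (norm_le_one hy)).trans (second hh)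
  · rw [norm_mul, first hy]
    nlinarith [norm_nonneg (x - y)]

theorem inj {x y : ℚ_[p]} (hx : ‖x‖ ≤ 1 / 4) (hy : ‖y‖ ≤ 1 / 4) (h : Ep p x = Ep p y) : x = y := by
  have h1 := lip hx hy
  rw [h, sub_self, zero_sub, norm_neg] at h1
  have : ‖x - y‖ = 0 := by linarith [norm_nonneg (x - y)]
  exact sub_eq_zero.1 (norm_eq_zero.1 this)

theorem surj {u : ℚ_[p]} (hu : ‖u - 1‖ ≤ 1 / 4) : ∃ x : ℚ_[p], ‖x‖ ≤ 1 / 4 ∧ Ep p x = u := by
  have hm : Set.MapsTo (fun x : ℚ_[p] => x - (Ep p x - u)) (Metric.closedBall 0 (1 / 4))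
      (Metric.closedBall 0 (1 / 4)) := by
    intro x hx
    rw [mem_closedBall_zero_iff] at hx ⊢
    have h1 : x - (Ep p x - u) = (u - 1) - (Ep p x - 1 - x) := by ring
    show ‖x - (Ep p x - u)‖ ≤ 1 / 4
    rw [h1]
    exact (norm_sub_le_max _ _).trans (max_le hu ((second hx).trans (by linarith [norm_nonneg x])))
  have hc : ContractingWith (1 / 2) (hm.restrict _ _ _) := by
    refine ⟨by norm_num, LipschitzWith.of_dist_le_mul fun x y => ?_⟩
    have hx := mem_closedBall_zero_iff.1 x.2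
    have hy := mem_closedBall_zero_iff.1 y.2
    rw [Subtype.dist_eq, Subtype.dist_eq, Set.MapsTo.val_restrict_apply,
      Set.MapsTo.val_restrict_apply, dist_eq_norm, dist_eq_norm]
    have h1 : x.1 - (Ep p x.1 - u) - (y.1 - (Ep p y.1 - u)) =
        -(Ep p x.1 - Ep p y.1 - (x.1 - y.1)) := by ring
    rw [h1, norm_neg]
    refine (lip hx hy).trans (le_of_eq ?_)
    push_cast
    ring
  obtain ⟨y, hy, hf, -⟩ := hc.exists_fixedPoint' Metric.isClosed_closedBall.isComplete hm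
    (x := 0) (Metric.mem_closedBall_self (by norm_num)) (edist_ne_top _ _)
  refine ⟨y, mem_closedBall_zero_iff.1 hy, ?_⟩
  have h1 : y - (Ep p y - u) = y := hf
  linear_combination -h1

open Classical in
/-- the inverse of the exponential -/
noncomputable def l0 (u : ℚ_[p]) : ℚ_[p] := if h : ‖u - 1‖ ≤ 1 / 4 then (surj h).choose else 0

theorem l0_spec {u : ℚ_[p]} (h : ‖u - 1‖ ≤ 1 / 4) : ‖l0 u‖ ≤ 1 / 4 ∧ Ep p (l0 u) = u := by
  rw [l0, dif_pos h]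
  exact (surj h).choose_spec

theorem l0_mul {u v : ℚ_[p]} (hu : ‖u - 1‖ ≤ 1 / 4) (hv : ‖v - 1‖ ≤ 1 / 4) :
    ‖u * v - 1‖ ≤ 1 / 4 ∧ l0 (u * v) = l0 u + l0 v := by
  obtain ⟨h1, h2⟩ := l0_spec hu
  obtain ⟨h3, h4⟩ := l0_spec hv
  have h5 : ‖l0 u + l0 v‖ ≤ 1 / 4 := (IsUltrametricDist.norm_add_le_max _ _).trans (max_le h1 h3)
  have h6 : Ep p (l0 u + l0 v) = u * v := by rw [add h1 h3, h2, h4]
  have h7 : ‖u * v - 1‖ ≤ 1 / 4 := by rw [← h6, first h5]; exact h5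
  exact ⟨h7, inj (l0_spec h7).1 h5 (by rw [(l0_spec h7).2, h6])⟩

theorem l0_pow {u : ℚ_[p]} (hu : ‖u - 1‖ ≤ 1 / 4) (n : ℕ) :
    ‖u ^ (n + 1) - 1‖ ≤ 1 / 4 ∧ l0 (u ^ (n + 1)) = ((n + 1 : ℕ) : ℚ_[p]) * l0 u := by
  induction n with
  | zero => simpa using hu
  | succ n ih =>
    obtain ⟨h1, h2⟩ := l0_mul ih.1 hu
    rw [← pow_succ] at h1 h2
    refine ⟨h1, ?_⟩
    rw [h2, ih.2]
    push_cast
    ring

theorem pow_tot {u : ℚ_[p]} (hu : ‖u‖ = 1) : ‖u ^ (p ^ 2).totient - 1‖ ≤ 1 / 4 := by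
  let z : ℤ_[p] := ⟨u, hu.le⟩
  have hz : IsUnit z := PadicInt.isUnit_iff.2 hu
  obtain ⟨w, hw⟩ := hz.map (PadicInt.toZModPow (p := p) 2)
  have h1 : PadicInt.toZModPow 2 (z ^ (p ^ 2).totient - 1) = 0 := by
    rw [map_sub, map_pow, map_one, ← hw, ← Units.val_pow_eq_pow_val, ZMod.pow_totient]
    simp
  rw [← RingHom.mem_ker, PadicInt.ker_toZModPow, ← PadicInt.norm_le_pow_iff_mem_span_pow] at h1
  have h2 : ‖u ^ (p ^ 2).totient - 1‖ = ‖z ^ (p ^ 2).totient - 1‖ := by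
    rw [PadicInt.norm_def, PadicInt.coe_sub, PadicInt.coe_pow, PadicInt.coe_one]
  rw [h2]
  refine h1.trans ?_
  have h3 : (2 : ℝ) ≤ p := by exact_mod_cast hp.out.two_le
  rw [zpow_neg, zpow_natCast, one_div]
  exact inv_anti₀ (by norm_num) (by nlinarith)

theorem log : ∃ l : ℚ_[p] → ℚ_[p],
    (∀ u v, ‖u‖ = 1 → ‖v‖ = 1 → l (u * v) = l u + l v) ∧
      ∀ u, ‖u - 1‖ ≤ 1 / 4 → ‖l u‖ ≤ ‖u - 1‖ ∧ Ep p (l u) = u := by
  obtain ⟨n, hn⟩ : ∃ n, (p ^ 2).totient = n + 1 :=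
    Nat.exists_eq_succ_of_ne_zero (Nat.totient_pos.2 (pow_pos hp.out.pos 2)).ne'
  refine ⟨fun u => l0 (u ^ (n + 1)) / ((n + 1 : ℕ) : ℚ_[p]), fun u v hu hv => ?_, fun u hu => ?_⟩
  · have h1 := pow_tot hu
    have h2 := pow_tot hv
    rw [hn] at h1 h2
    simp only
    rw [mul_pow, (l0_mul h1 h2).2, add_div]
  · have h0 : ((n + 1 : ℕ) : ℚ_[p]) ≠ 0 := Nat.cast_ne_zero.2 n.succ_ne_zero
    simp only
    rw [(l0_pow hu n).2, mul_div_cancel_left₀ _ h0]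
    obtain ⟨h1, h2⟩ := l0_spec hu
    refine ⟨?_, h2⟩
    rw [← first h1, h2]

end EXP

theorem rowEXP : RowEXP where
  fac := fun _ _ k => EXP.fac k
  sum := fun _ _ _ hx => EXP.sum hx
  add := fun _ _ _ _ hx hy => EXP.add hx hy
  log := fun _ _ => EXP.log

end Pool.Agent.MP_542436_nt.H96
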