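import Pool.Agent.MP_542436_nt.H96.Spec

/-! Sums of roots: the inequality of Liouville, the Kummer field, the trace argument. -/

namespace Pool.Agent.MP_542436_nt.H96

open Polynomial

namespace KUM

theorem integral {M : Type} [Field M] {X : Type} (t : Finset X) (a : X → ℤ) (θ Y : X → M) (b : M)
    {Q : ℕ} (s : ℕ) (hQ : 0 < Q) (h : ∀ y ∈ t, θ y ^ Q * b = Y y ∧ IsIntegral ℤ (Y y)) :
    IsIntegral ℤ ((∑ y ∈ t, (a y : M) * θ y ^ s) ^ Q * b ^ s) := by
  let f : M →ₐ[ℤ] AlgebraicClosure M := (algebraMap M (AlgebraicClosure M)).toIntAlgHom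
  obtain ⟨β, hβ⟩ := IsAlgClosed.exists_pow_nat_eq (f b) hQ
  have h1 : ∀ y ∈ t, IsIntegral ℤ (f (θ y) * β) := fun y hy => by
    refine IsIntegral.of_pow hQ ?_
    rw [mul_pow, hβ, ← map_pow, ← map_mul, (h y hy).1]
    exact (h y hy).2.map f
  have h2 : IsIntegral ℤ (∑ y ∈ t, (a y : AlgebraicClosure M) * (f (θ y) * β) ^ s) :=
    IsIntegral.sum _ fun y hy => (isIntegral_algebraMap (x := a y)).mul ((h1 y hy).pow s)
  rw [← isIntegral_algHom_iff f (algebraMap M (AlgebraicClosure M)).injective]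
  convert h2.pow Q using 1
  rw [map_mul, map_pow, map_pow, ← hβ, ← pow_mul, mul_comm Q s, pow_mul, ← mul_pow, map_sum,
    Finset.sum_mul]
  congr 1
  refine Finset.sum_congr rfl fun y _ => ?_
  rw [map_mul, map_pow, map_intCast, mul_pow, mul_assoc]

theorem bound {M : Type} [Field M] {X : Type} (t : Finset X) (a : X → ℤ) (θ Y : X → M) (b : M)
    {Q : ℕ} (s : ℕ) (hQ : 0 < Q) {h w : ℝ} (σ : M →+* ℂ)
    (h1 : ∀ y ∈ t, θ y ^ Q * b = Y y ∧ ‖σ (Y y)‖ ≤ Real.exp h)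
    (h2 : ∑ y ∈ t, |(a y : ℝ)| ≤ Real.exp w) :
    ‖σ ((∑ y ∈ t, (a y : M) * θ y ^ s) ^ Q * b ^ s)‖ ≤ Real.exp (Q * w + s * h) := by
  obtain ⟨c, hc0, hc⟩ : ∃ c : ℝ, 0 ≤ c ∧ c ^ Q = ‖σ b‖ :=
    ⟨‖σ b‖ ^ (Q : ℝ)⁻¹, by positivity, Real.rpow_inv_natCast_pow (norm_nonneg _) hQ.ne'⟩
  have hQ' : (Q : ℝ) ≠ 0 := by positivity
  have h3 : ∀ y ∈ t, ‖σ (θ y)‖ * c ≤ Real.exp (h / Q) := fun y hy => by
    refine le_of_pow_le_pow_left₀ hQ.ne' (Real.exp_pos _).le ?_
    rw [mul_pow, hc, ← norm_pow, ← norm_mul, ← map_pow, ← map_mul, (h1 y hy).1, ← Real.exp_nat_mul,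
      mul_div_cancel₀ _ hQ']
    exact (h1 y hy).2
  have h4 : ‖σ (∑ y ∈ t, (a y : M) * θ y ^ s)‖ * c ^ s ≤ Real.exp (w + s * (h / Q)) := by
    rw [map_sum, Real.exp_add, Real.exp_nat_mul]
    refine (mul_le_mul_of_nonneg_right (norm_sum_le _ _) (by positivity)).trans ?_
    refine le_trans ?_ (mul_le_mul_of_nonneg_right h2 (by positivity))
    rw [Finset.sum_mul, Finset.sum_mul]
    refine Finset.sum_le_sum fun y hy => ?_
    rw [map_mul, map_pow, map_intCast, norm_mul, norm_pow, Complex.norm_intCast, mul_assoc,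
      ← mul_pow]
    exact mul_le_mul_of_nonneg_left (pow_le_pow_left₀ (by positivity) (h3 y hy) s) (abs_nonneg _)
  rw [map_mul, map_pow, map_pow, norm_mul, norm_pow, norm_pow, ← hc, ← pow_mul, mul_comm Q s,
    pow_mul, ← mul_pow]
  refine (pow_le_pow_left₀ (by positivity) h4 Q).trans (le_of_eq ?_)
  rw [← Real.exp_nat_mul]
  congr 1
  field_simp

theorem lio (A M : Type) [NormedField A] [Field M] [NumberField M] (j : M →+* A) (X : Type)
    (t : Finset X) (a : X → ℤ) (θ Y : X → M) (b : M) (Q s d : ℕ) (h w : ℝ) (hL : Lv A)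
    (hQ : 0 < Q) (hh : 0 ≤ h) (hw : 0 ≤ w) (hd : Module.finrank ℚ M ≤ d) (hb : b ≠ 0)
    (hj : ‖j b‖ ≤ Real.exp (h * d))
    (h1 : ∀ y ∈ t, θ y ^ Q * b = Y y ∧ IsIntegral ℤ (Y y) ∧ ∀ σ : M →+* ℂ, ‖σ (Y y)‖ ≤ Real.exp h)
    (h2 : ∑ y ∈ t, |(a y : ℝ)| ≤ Real.exp w) (h0 : ∑ y ∈ t, (a y : M) * θ y ^ s ≠ 0) :
    Real.exp (-(d * (w + 2 * s * h / Q))) ≤ ‖j (∑ y ∈ t, (a y : M) * θ y ^ s)‖ := by
  have hW : 1 ≤ Real.exp (Q * w + s * h) := Real.one_le_exp (by positivity)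
  have h3 := hL M j _ _ (integral t a θ Y b s hQ fun y hy => ⟨(h1 y hy).1, (h1 y hy).2.1⟩)
    (mul_ne_zero (pow_ne_zero _ h0) (pow_ne_zero _ hb)) hW
    fun σ => bound t a θ Y b s hQ σ (fun y hy => ⟨(h1 y hy).1, (h1 y hy).2.2 σ⟩) h2
  have hQ' : (Q : ℝ) ≠ 0 := by positivity
  set x := ‖j (∑ y ∈ t, (a y : M) * θ y ^ s)‖ with hx
  have hx0 : 0 ≤ x := norm_nonneg _
  rw [map_mul, map_pow, map_pow, norm_mul, norm_pow, norm_pow, ← hx] at h3
  have h4 : x ^ Q * ‖j b‖ ^ s * Real.exp (Q * w + s * h) ^ Module.finrank ℚ M ≤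
      x ^ Q * Real.exp (h * d) ^ s * Real.exp (Q * w + s * h) ^ d := by
    gcongr
  have h5 : Real.exp (h * d) ^ s * Real.exp (Q * w + s * h) ^ d =
      Real.exp (d * (w + 2 * s * h / Q)) ^ Q := by
    rw [← Real.exp_nat_mul, ← Real.exp_nat_mul, ← Real.exp_nat_mul, ← Real.exp_add]
    congr 1
    field_simp
    ring
  rw [mul_assoc (x ^ Q) (Real.exp _ ^ s), h5, ← mul_pow] at h4
  have h6 : 1 ≤ x * Real.exp (d * (w + 2 * s * h / Q)) :=
    le_of_pow_le_pow_left₀ hQ.ne' (by positivity) (by rw [one_pow]; exact h3.trans h4)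
  rw [Real.exp_neg, inv_le_iff_one_le_mul₀ (Real.exp_pos _)]
  exact h6

theorem int_of_pow {K A : Type} [Field K] [Field A] [Algebra K A] {q : ℕ} (hq : 0 < q) {θ : A}
    {c : K} (h : θ ^ q = algebraMap K A c) : IsIntegral K θ :=
  IsIntegral.of_pow hq (h ▸ isIntegral_algebraMap)

theorem fld (K A : Type) [Field K] [NumberField K] [Field A] (ι : K →+* A) (q : ℕ)
    (Γ : Subgroup Kˣ) (R : Finset Kˣ) (hq : 0 < q) (hζ : ∀ ζ : A, ζ ^ q = 1 → ζ ∈ ι.range)
    (hR : ∀ z ∈ Γ, ∃ r ∈ R, ∃ u : Kˣ, z = r * u ^ q) :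
    ∃ (M : Type) (_ : Field M) (_ : NumberField M) (_ : Algebra K M) (j : M →+* A),
      (∀ x : K, j (algebraMap K M x) = ι x) ∧ Module.finrank K M ≤ R.card ∧
      ∀ θ : A, (∃ z ∈ Γ, θ ^ q = ι (z : K)) → θ ∈ j.range := by
  classical
  let : Algebra K A := ι.toAlgebra
  let Θ : Submonoid A :=
    { carrier := {θ | ∃ z ∈ Γ, θ ^ q = ι (z : K)}
      one_mem' := ⟨1, Γ.one_mem, by simp⟩
      mul_mem' := by
        rintro a b ⟨z, hz, h⟩ ⟨z', hz', h'⟩
        exact ⟨z * z', Γ.mul_mem hz hz', by rw [mul_pow, h, h', Units.val_mul, map_mul]⟩ }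
  let ρ : Kˣ → A := fun r => if h : ∃ θ : A, θ ^ q = ι (r : K) then h.choose else 0
  let M := IntermediateField.adjoin K (Θ : Set A)
  have hM : Subalgebra.toSubmodule M.toSubalgebra ≤ Submodule.span K (R.image ρ : Set A) := by
    rw [IntermediateField.adjoin_toSubalgebra_of_isAlgebraic (by
      rintro θ ⟨z, -, h⟩
      exact (int_of_pow (c := (z : K)) hq h).isAlgebraic), Algebra.adjoin_eq_span, Submonoid.closure_eq,
      Submodule.span_le]
    rintro θ ⟨z, hz, h⟩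
    obtain ⟨r, hr, u, rfl⟩ := hR z hz
    have hu : ι (u : K) ≠ 0 := (map_ne_zero ι).2 u.ne_zero
    have hr0 : ι (r : K) ≠ 0 := (map_ne_zero ι).2 r.ne_zero
    have h1 : (θ / ι (u : K)) ^ q = ι (r : K) := by
      rw [div_pow, h, Units.val_mul, Units.val_pow_eq_pow_val, map_mul, map_pow,
        mul_div_cancel_right₀ _ (pow_ne_zero _ hu)]
    have h2 : ρ r ^ q = ι (r : K) := by
      have h3 : ∃ θ : A, θ ^ q = ι (r : K) := ⟨_, h1⟩
      simp only [ρ, dif_pos h3]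
      exact h3.choose_spec
    have h3 : ρ r ≠ 0 := fun h0 => hr0 (by rw [← h2, h0, zero_pow hq.ne'])
    obtain ⟨k, hk⟩ := hζ (θ / ι (u : K) / ρ r) (by rw [div_pow, h1, h2, div_self hr0])
    have h4 : θ = (k * u) • ρ r := by
      change θ = ι (k * u) * ρ r
      rw [map_mul, hk]
      field_simp
    rw [h4]
    exact Submodule.smul_mem _ _ (Submodule.subset_span
      (Finset.mem_coe.2 (Finset.mem_image_of_mem ρ hr)))
  have hfin : Module.Finite K M := Submodule.finiteDimensional_of_le hM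
  refine ⟨M, inferInstance, NumberField.of_module_finite K M, inferInstance, algebraMap M A,
    fun _ => rfl, ?_, fun θ h => ⟨⟨θ, IntermediateField.subset_adjoin K _ h⟩, rfl⟩⟩
  exact (Submodule.finrank_mono hM).trans
    ((finrank_span_finset_le_card _).trans Finset.card_image_le)

theorem trace_zero {K M : Type} [Field K] [Field M] [Algebra K M] [FiniteDimensional K M] {q : ℕ}
    (hq : q.Prime) {θ : M} {c : K} (h : θ ^ q = algebraMap K M c) (hc : ∀ b : K, b ^ q ≠ c) :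
    Algebra.trace K M θ = 0 := by
  have h1 : X ^ q - C c = minpoly K θ :=
    minpoly.eq_of_irreducible_of_monic ((X_pow_sub_C_irreducible_iff_of_prime hq).2 hc)
      (by simp [h]) (monic_X_pow_sub_C c hq.ne_zero)
  have h2 := hq.two_le
  rw [trace_eq_finrank_mul_minpoly_nextCoeff, ← h1,
    nextCoeff_of_natDegree_pos (by rw [natDegree_X_pow_sub_C]; omega), natDegree_X_pow_sub_C,
    coeff_sub, coeff_X_pow, coeff_C, if_neg (by omega), if_neg (by omega)]
  simp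

theorem ind (K A : Type) [Field K] [NumberField K] [Field A] (ι : K →+* A) (q : ℕ) (X : Type)
    (t : Finset X) (a : X → K) (θ : X → A) [DecidablePred fun y => θ y ∈ ι.range] (hq : q.Prime)
    (hζ : ∀ ζ : A, ζ ^ q = 1 → ζ ∈ ι.range) (h1 : ∀ y ∈ t, θ y ^ q ∈ ι.range)
    (h2 : ∑ y ∈ t, ι (a y) * θ y = 0) : ∑ y ∈ t with θ y ∈ ι.range, ι (a y) * θ y = 0 := by
  classical
  let : Algebra K A := ι.toAlgebra
  let M := IntermediateField.adjoin K (t.image θ : Set A)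
  have hfin : FiniteDimensional K M := IntermediateField.finiteDimensional_adjoin fun x hx => by
    obtain ⟨y, hy, rfl⟩ := Finset.mem_image.1 (Finset.mem_coe.1 hx)
    obtain ⟨c, hc⟩ := h1 y hy
    exact int_of_pow hq.pos hc.symm
  let θ' : X → M := fun y => if h : θ y ∈ M then ⟨θ y, h⟩ else 0
  have hθ : ∀ y ∈ t, (θ' y : A) = θ y := fun y hy => by
    have h3 : θ y ∈ M := IntermediateField.subset_adjoin K _
      (Finset.mem_coe.2 (Finset.mem_image_of_mem θ hy))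
    simp only [θ', dif_pos h3]
  have h3 : ∑ y ∈ t, a y • θ' y = 0 := by
    apply Subtype.ext
    rw [AddSubmonoidClass.coe_finsetSum, ZeroMemClass.coe_zero, ← h2]
    refine Finset.sum_congr rfl fun y hy => ?_
    rw [← hθ y hy]
    rfl
  have h4 := congrArg (fun x => ι (Algebra.trace K M x)) h3
  simp only [map_sum, map_smul, map_zero, smul_eq_mul, map_mul] at h4
  have h5 : ∀ y ∈ t, ι (a y) * ι (Algebra.trace K M (θ' y)) =
      (Module.finrank K M : A) * if θ y ∈ ι.range then ι (a y) * θ y else 0 := fun y hy => by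
    split_ifs with h
    · obtain ⟨k, hk⟩ := h
      have h6 : θ' y = algebraMap K M k := Subtype.ext ((hθ y hy).trans hk.symm)
      rw [h6, Algebra.trace_algebraMap, nsmul_eq_mul, map_mul, map_natCast, hk, mul_left_comm]
    · obtain ⟨c, hc⟩ := h1 y hy
      rw [trace_zero (c := c) hq (Subtype.ext ?_) fun b hb => h ?_, map_zero, mul_zero, mul_zero]
      · rw [SubmonoidClass.coe_pow, hθ y hy]
        exact hc.symm
      · by_cases hb0 : b = 0
        · rw [← hb, hb0, zero_pow hq.ne_zero, map_zero] at hc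
          rw [pow_eq_zero_iff hq.ne_zero |>.1 hc.symm]
          exact zero_mem _
        · have hb1 : ι b ≠ 0 := (map_ne_zero ι).2 hb0
          obtain ⟨k, hk⟩ := hζ (θ y / ι b) (by
            rw [div_pow, ← hc, ← hb, map_pow, div_self (pow_ne_zero _ hb1)])
          exact ⟨k * b, by rw [map_mul, hk, div_mul_cancel₀ _ hb1]⟩
  rw [Finset.sum_congr rfl h5, ← Finset.mul_sum, ← Finset.sum_filter] at h4
  refine (mul_eq_zero.1 h4).resolve_left ?_
  rw [← map_natCast ι]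
  exact (map_ne_zero ι).2 (Nat.cast_ne_zero.2 Module.finrank_pos.ne')

end KUM

theorem rowKUM : RowKUM := ⟨KUM.lio, KUM.fld, KUM.ind⟩

end Pool.Agent.MP_542436_nt.H96
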