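import Pool.Agent.MP_542436_nt.H96.Spec

/-! Small integer coordinates on a lattice. -/

namespace Pool.Agent.MP_542436_nt.H96

open Module

namespace LAT

/-- A basis inside a finite set in which all points of the set have small coordinates. -/
lemma good_basis {V : Type} [AddCommGroup V] [Module ℝ V] {m : ℕ} (e : Basis (Fin m) ℝ V)
    (S : Set V) (hS : S.Finite) (he : ∀ i, e i ∈ S) :
    ∃ b : Basis (Fin m) ℝ V, (∀ i, b i ∈ S) ∧ ∀ v ∈ S, ∀ i, |b.repr v i| ≤ 1 := by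
  obtain ⟨a, ha, hm⟩ := Set.exists_max_image {a : Fin m → V | ∀ i, a i ∈ S} (fun a => |e.det a|)
    (Set.Finite.pi' fun _ => hS) ⟨e, he⟩
  have h1 : 0 < |e.det a| := by
    have := hm e he
    rw [e.det_self, abs_one] at this
    exact one_pos.trans_le this
  obtain ⟨h2, h3⟩ := e.is_basis_iff_det.2 (abs_pos.1 h1).isUnit
  refine ⟨Basis.mk h2 h3.ge, fun i => by rw [Basis.coe_mk]; exact ha i, fun v hv i => ?_⟩
  have h4 := LinearMap.congr_fun (e.det_smul_mk_coord_eq_det_update h2 h3.ge i) v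
  have h5 := hm (Function.update a i v) fun k => by
    by_cases h : k = i
    · rw [h, Function.update_self]; exact hv
    · rw [Function.update_of_ne h]; exact ha k
  have h6 : e.det (Function.update a i v) = e.det a * (Basis.mk h2 h3.ge).repr v i := h4.symm
  rw [h6, abs_mul] at h5
  exact le_of_mul_le_mul_left (by rwa [mul_one]) h1

/-- A common denominator of the coordinates. -/
lemma den {H : Type} [AddCommGroup H] {n m : ℕ} (Λ : H →+ (Fin n → ℝ)) (c : H →+ (Fin m → ℝ))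
    (g : Fin m → H) {l r : ℝ} (hl : 0 < l) (hr : 0 ≤ r) (hm : m ≤ n)
    (sep : ∀ a, ‖Λ a‖ < l → Λ a = 0) (hg : ∀ i, ‖Λ (g i)‖ ≤ r)
    (h1 : ∀ a, Λ a = ∑ i, c a i • Λ (g i)) (h2 : ∀ i, c (g i) = Pi.single i 1)
    (h3 : ∀ a, Λ a = 0 → c a = 0) :
    ∃ N : ℕ, N ≠ 0 ∧ (N : ℝ) ≤ (2 * n * r / l + 1) ^ n ∧ ∀ a i, ∃ z : ℤ, (z : ℝ) = N * c a i := by
  let L : AddSubgroup H :=
    { carrier := {a | ∀ i, ∃ z : ℤ, (z : ℝ) = c a i}
      zero_mem' := fun i => ⟨0, by simp⟩
      add_mem' := fun ha hb i => by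
        obtain ⟨z, hz⟩ := ha i
        obtain ⟨w, hw⟩ := hb i
        exact ⟨z + w, by simp [hz, hw]⟩
      neg_mem' := fun ha i => by
        obtain ⟨z, hz⟩ := ha i
        exact ⟨-z, by simp [hz]⟩ }
  let ρ : H → H := fun a => a - ∑ i, ⌊c a i⌋ • g i
  have ρ1 : ∀ a i, c (ρ a) i = Int.fract (c a i) := fun a i => by
    simp [ρ, map_sum, h2, Finset.sum_apply, Pi.single_apply]
  have ρ2 : ∀ a k, |Λ (ρ a) k| ≤ n * r := fun a k => by
    refine (norm_le_pi_norm (Λ (ρ a)) k).trans ?_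
    rw [h1]
    refine (norm_sum_le _ _).trans ((Finset.sum_le_card_nsmul _ _ r fun i _ => ?_).trans ?_)
    · rw [norm_smul, ρ1, Real.norm_eq_abs, Int.abs_fract]
      exact (mul_le_of_le_one_left (norm_nonneg _) (Int.fract_lt_one _).le).trans (hg i)
    · rw [Finset.card_univ, Fintype.card_fin, nsmul_eq_mul]
      exact mul_le_mul_of_nonneg_right (Nat.cast_le.2 hm) hr
  have pos : ∀ a k, 0 ≤ (Λ (ρ a) k + n * r) / l := fun a k =>
    div_nonneg (by linarith [(abs_le.1 (ρ2 a k)).1]) hl.le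
  let f : H → Fin n → Fin (⌊2 * n * r / l⌋₊ + 1) := fun a k => ⟨⌊(Λ (ρ a) k + n * r) / l⌋₊,
    Nat.lt_succ_of_le (Nat.floor_mono (div_le_div_of_nonneg_right
      (by linarith [(abs_le.1 (ρ2 a k)).2]) hl.le))⟩
  have inj : Function.Injective fun y : H ⧸ L => f y.out := by
    intro y y' h
    have h4 : Λ (ρ y.out - ρ y'.out) = 0 := by
      refine sep _ ((pi_norm_lt_iff hl).2 fun k => ?_)
      have e : ⌊(Λ (ρ y.out) k + n * r) / l⌋₊ = ⌊(Λ (ρ y'.out) k + n * r) / l⌋₊ :=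
        congrArg Fin.val (congrFun h k)
      have a1 := Nat.floor_le (pos y.out k)
      have a2 := Nat.lt_floor_add_one ((Λ (ρ y.out) k + n * r) / l)
      have a3 := Nat.floor_le (pos y'.out k)
      have a4 := Nat.lt_floor_add_one ((Λ (ρ y'.out) k + n * r) / l)
      rw [e] at a1 a2
      have a5 : |(Λ (ρ y.out) k + n * r) / l - (Λ (ρ y'.out) k + n * r) / l| < 1 :=
        abs_lt.2 ⟨by linarith, by linarith⟩
      rw [← sub_div, abs_div, abs_of_pos hl, div_lt_one hl, add_sub_add_right_eq_sub] at a5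
      rw [map_sub]
      exact a5
    rw [← y.out_eq', ← y'.out_eq', QuotientAddGroup.eq]
    intro i
    have h5 := congrFun (h3 _ h4) i
    rw [map_sub, Pi.sub_apply, ρ1, ρ1, Int.fract, Int.fract, Pi.zero_apply] at h5
    refine ⟨⌊c y'.out i⌋ - ⌊c y.out i⌋, ?_⟩
    simp only [map_add, map_neg, Pi.add_apply, Pi.neg_apply, Int.cast_sub]
    linarith
  have fin : Finite (H ⧸ L) := Finite.of_injective _ inj
  refine ⟨L.index, AddSubgroup.index_ne_zero_of_finite, ?_, fun a i => ?_⟩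
  · have h4 : L.index ≤ (⌊2 * n * r / l⌋₊ + 1) ^ n := by
      simpa [AddSubgroup.index] using Nat.card_le_card_of_injective _ inj
    refine (Nat.cast_le.2 h4).trans ?_
    push_cast
    gcongr
    exact Nat.floor_le (by positivity)
  · obtain ⟨z, hz⟩ := L.nsmul_index_mem a i
    exact ⟨z, by simpa using hz⟩

/-- Residues modulo `q`. -/
lemma res {H : Type} [AddCommGroup H] {m : ℕ} (Ψ : H →+ (Fin m → ℤ)) {q : ℕ} (hq : 0 < q) :
    ∃ R : Finset H, R.card ≤ q ^ m ∧ ∀ a, ∃ b ∈ R, ∃ a', Ψ (a - b - q • a') = 0 := by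
  classical
  let M : Submodule ℤ (Fin m → ℤ) := Ψ.toIntLinearMap.range
  let U := (nsmulAddMonoidHom (α := M) q).range
  have h1 : U.index = q ^ finrank ℤ M := AddSubgroup.index_range_nsmul M q
  have h2 : finrank ℤ M ≤ m := by simpa using M.finrank_le
  have : Fintype (M ⧸ U) := AddSubgroup.fintypeOfIndexNeZero (by rw [h1]; positivity)
  have h3 : ∀ x : M, ∃ a, Ψ a = x := fun x => x.2
  choose s hs using h3
  refine ⟨Finset.univ.image fun y : M ⧸ U => s y.out, Finset.card_image_le.trans ?_, fun a => ?_⟩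
  · rw [Finset.card_univ, ← Nat.card_eq_fintype_card, ← AddSubgroup.index, h1]
    exact Nat.pow_le_pow_right hq h2
  · obtain ⟨⟨_, z, rfl⟩, h⟩ := QuotientAddGroup.mk_out_eq_add U (⟨Ψ a, a, rfl⟩ : M)
    refine ⟨_, Finset.mem_image_of_mem _ (Finset.mem_univ ((⟨Ψ a, a, rfl⟩ : M) : M ⧸ U)), -s z, ?_⟩
    simp [hs, h]

end LAT

open LAT

theorem rowLAT : RowLAT := by
  classical
  intro G _ n Λ P l r hl hr sep hP
  let V := Submodule.span ℝ (Λ '' P)
  obtain ⟨f, f1, f2, f3⟩ := Submodule.exists_fun_fin_finrank_span_eq ℝ (Λ '' P)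
  have hm : finrank ℝ V ≤ n := by simpa using V.finrank_le
  let e : Basis (Fin (finrank ℝ V)) ℝ V := (Basis.span f3).map (LinearEquiv.ofEq _ _ f2)
  obtain ⟨b, b1, b2⟩ := good_basis e (Subtype.val ⁻¹' (Λ '' P))
    ((P.finite_toSet.image Λ).preimage Subtype.val_injective.injOn) fun i => by
      simpa [e, Basis.span_apply] using f1 i
  let H : AddSubgroup G := V.toAddSubgroup.comap Λ
  have hH : ∀ a ∈ P, a ∈ H := fun a ha => Submodule.subset_span ⟨a, ha, rfl⟩
  choose g g1 g2 using b1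
  let Λ' : H →+ V := (Λ.comp H.subtype).codRestrict V fun a => a.2
  let c : H →+ (Fin (finrank ℝ V) → ℝ) := b.equivFun.toLinearMap.toAddMonoidHom.comp Λ'
  have hc : ∀ a, c a = b.equivFun (Λ' a) := fun _ => rfl
  have c0 : ∀ a : H, c a = 0 ↔ Λ a = 0 := fun a => by
    rw [hc, map_eq_zero_iff _ b.equivFun.injective, Subtype.ext_iff]
    rfl
  obtain ⟨N, N0, N1, N2⟩ := den (Λ.comp H.subtype) c (fun i => ⟨g i, hH _ (g1 i)⟩) hl hr hm
    (fun a => sep a) (fun i => hP _ (g1 i)) (fun a => by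
      have := congrArg Subtype.val (b.sum_equivFun (Λ' a))
      simp only [Submodule.coe_sum, Submodule.coe_smul, ← g2] at this
      exact this.symm) (fun i => by
      rw [hc, show Λ' ⟨g i, hH _ (g1 i)⟩ = b i from Subtype.ext (g2 i)]
      funext k
      simp [Pi.single_apply, eq_comm]) fun a => (c0 a).2
  choose z hz using N2
  let Ψ : H →+ (Fin (finrank ℝ V) → ℤ) := AddMonoidHom.mk' z fun a a' => funext fun i =>
    Int.cast_injective (α := ℝ) (by simp [hz, mul_add])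
  have Ψ0 : ∀ a : H, Ψ a = 0 ↔ Λ a = 0 := fun a => by
    rw [← c0, funext_iff, funext_iff]
    refine forall_congr' fun i => ?_
    rw [← Int.cast_inj (α := ℝ)]
    show (z a i : ℝ) = _ ↔ _
    simp [hz, N0]
  refine ⟨_, H, Ψ, hm, hH, fun a k hk h => ?_, Ψ0, fun a ha i => ?_, fun q hq => ?_⟩
  · have h1 : (k : ℝ) • Λ a ∈ V := by
      rw [Nat.cast_smul_eq_nsmul, ← map_nsmul]
      exact h
    exact (V.smul_mem_iff (Nat.cast_ne_zero.2 hk)).1 h1
  · show |(z a i : ℝ)| ≤ _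
    rw [hz, abs_mul, Nat.abs_cast]
    exact (mul_le_of_le_one_right N.cast_nonneg (b2 (Λ' a) ⟨a, ha, rfl⟩ i)).trans N1
  · obtain ⟨R, R1, R2⟩ := res Ψ hq
    refine ⟨R.image Subtype.val, Finset.card_image_le.trans R1, fun a ha => ?_⟩
    obtain ⟨x, hx, y, h⟩ := R2 ⟨a, ha⟩
    exact ⟨x, Finset.mem_image_of_mem _ hx, y, (Ψ0 _).1 h⟩

end Pool.Agent.MP_542436_nt.H96
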