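import Pool.Agent.MP_542436_nt.H96.Spec

/-! The local data at a prime: extrapolation of zeros of exponential sums over the `p`-adic numbers. -/

namespace Pool.Agent.MP_542436_nt.H96

open Polynomial Filter Topology

namespace LOCP

variable {p : ℕ} [Fact p.Prime]

theorem norm_int_le_abs (a : ℤ) : ‖(a : ℚ_[p])‖ ≤ |(a : ℝ)| := by
  by_cases h : a = 0
  · simp [h]
  · refine (Padic.norm_int_le_one a).trans ?_
    exact_mod_cast Int.one_le_abs h

theorem norm_nat_le_one (a : ℕ) : ‖(a : ℚ_[p])‖ ≤ 1 := by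
  simpa using Padic.norm_int_le_one (p := p) (a : ℤ)

theorem inv_norm_le_abs (b : ℤ) : ‖(b : ℚ_[p])‖⁻¹ ≤ |(b : ℝ)| := by
  by_cases h : b = 0
  · simp [h]
  have hb : (b : ℚ_[p]) ≠ 0 := by exact_mod_cast h
  rw [Padic.norm_eq_zpow_neg_valuation hb, Padic.valuation_intCast, zpow_neg, inv_inv,
    zpow_natCast]
  have h1 := Int.le_of_dvd (abs_pos.mpr h) ((dvd_abs _ _).mpr (padicValInt_dvd (p := p) b))
  exact_mod_cast h1

theorem norm_q : ‖(((if p = 2 then 3 else 2 : ℕ)) : ℚ_[p])‖ = 1 := by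
  rw [Padic.norm_natCast_eq_one_iff]
  have hp : p.Prime := Fact.out
  split_ifs with h
  · subst h; decide
  · exact (Nat.coprime_primes hp Nat.prime_two).mpr h

theorem cube_root (ζ : ℚ_[2]) (h : ζ ^ 3 = 1) : ζ = 1 := by
  by_contra hne
  have h2 : ζ ^ 2 + ζ + 1 = 0 := by
    have : (ζ - 1) * (ζ ^ 2 + ζ + 1) = 0 := by linear_combination h
    exact (mul_eq_zero.mp this).resolve_left (sub_ne_zero.mpr hne)
  have hn : ‖ζ‖ ≤ 1 := by
    have h3 : ‖ζ‖ ^ 3 = 1 := by rw [← norm_pow, h, norm_one]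
    exact ((pow_eq_one_iff_of_nonneg (norm_nonneg _) (by norm_num)).mp h3).le
  let z : ℤ_[2] := ⟨ζ, hn⟩
  have hz : z ^ 2 + z + 1 = 0 := by
    apply Subtype.ext
    push_cast
    exact h2
  have h4 := congrArg (PadicInt.toZMod (p := 2)) hz
  simp only [map_add, map_pow, map_one, map_zero] at h4
  revert h4
  generalize PadicInt.toZMod (p := 2) z = w
  revert w
  decide

theorem term_le (hE : RowEXP) (g : ℚ_[p]) (η : ℝ) (hg : ‖g‖ ≤ η) (k : ℕ) :
    ‖g ^ k / (k.factorial : ℚ_[p])‖ ≤ (2 * η) ^ k := by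
  rw [div_eq_mul_inv, norm_mul, norm_pow, mul_pow, mul_comm ((2 : ℝ) ^ k)]
  have h0 : 0 ≤ η := (norm_nonneg _).trans hg
  refine mul_le_mul (pow_le_pow_left₀ (norm_nonneg _) hg k) ((hE.fac p k).trans ?_)
    (norm_nonneg _) (pow_nonneg h0 k)
  exact pow_le_pow_right₀ one_le_two (Nat.sub_le _ _)

theorem norm_Ep_le (hE : RowEXP) (z : ℚ_[p]) (hz : ‖z‖ ≤ 1 / 4) : ‖Ep p z‖ ≤ 1 := by
  refine IsUltrametricDist.norm_tsum_le_of_forall_le_of_nonneg zero_le_one fun k => ?_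
  exact (term_le hE z _ hz k).trans (pow_le_one₀ (by norm_num) (by norm_num))

theorem pow_sub_le (g l : ℚ_[p]) (ε : ℝ) (hg : ‖g‖ ≤ 1) (hε : ε ≤ 1) (h : ‖g - l‖ ≤ ε) (m : ℕ) :
    ‖g ^ m - l ^ m‖ ≤ ε := by
  have hl : ‖l‖ ≤ 1 := by
    have : l = g + -(g - l) := by ring
    rw [this]
    refine (IsUltrametricDist.norm_add_le_max _ _).trans (max_le hg ?_)
    rw [norm_neg]; exact h.trans hε
  rw [← geom_sum₂_mul, norm_mul]
  have h1 : ‖∑ i ∈ Finset.range m, g ^ i * l ^ (m - 1 - i)‖ ≤ 1 := by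
    refine IsUltrametricDist.norm_sum_le_of_forall_le_of_nonneg zero_le_one fun i _ => ?_
    rw [norm_mul, norm_pow, norm_pow]
    exact mul_le_one₀ (pow_le_one₀ (norm_nonneg _) hg) (pow_nonneg (norm_nonneg _) _)
      (pow_le_one₀ (norm_nonneg _) hl)
  calc _ ≤ 1 * ε := mul_le_mul h1 h (norm_nonneg _) zero_le_one
    _ = ε := one_mul ε

theorem hasSum_deriv (hE : RowEXP) (g ν : ℚ_[p]) (h : ‖g * ν‖ ≤ 1 / 4) (m : ℕ) :
    HasSum (fun k : ℕ => (k.choose m : ℚ_[p]) * (g ^ k / (k.factorial : ℚ_[p])) * ν ^ (k - m))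
      (g ^ m / (m.factorial : ℚ_[p]) * Ep p (g * ν)) := by
  rw [← hasSum_nat_add_iff' m]
  have h0 : ∑ i ∈ Finset.range m,
      (i.choose m : ℚ_[p]) * (g ^ i / (i.factorial : ℚ_[p])) * ν ^ (i - m) = 0 := by
    refine Finset.sum_eq_zero fun i hi => ?_
    rw [Nat.choose_eq_zero_of_lt (Finset.mem_range.mp hi)]; simp
  rw [h0, sub_zero]
  have h1 := (hE.sum p (g * ν) h).mul_left (g ^ m / (m.factorial : ℚ_[p]))
  have h2 : (fun n : ℕ => ((n + m).choose m : ℚ_[p]) *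
      (g ^ (n + m) / ((n + m).factorial : ℚ_[p])) * ν ^ (n + m - m)) =
      fun i : ℕ => g ^ m / (m.factorial : ℚ_[p]) * ((g * ν) ^ i / (i.factorial : ℚ_[p])) := by
    funext n
    have hf : (((n + m).choose m : ℕ) : ℚ_[p]) * (n.factorial : ℚ_[p]) * (m.factorial : ℚ_[p]) =
        ((n + m).factorial : ℚ_[p]) := by
      exact_mod_cast Nat.add_choose_mul_factorial_mul_factorial n m
    have hn : (n.factorial : ℚ_[p]) ≠ 0 := by exact_mod_cast n.factorial_ne_zero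
    have hm : (m.factorial : ℚ_[p]) ≠ 0 := by exact_mod_cast m.factorial_ne_zero
    have hc : (((n + m).choose m : ℕ) : ℚ_[p]) ≠ 0 := by
      exact_mod_cast (Nat.choose_pos (Nat.le_add_left m n)).ne'
    rw [Nat.add_sub_cancel, ← hf]
    field_simp
    ring
  rw [h2]
  exact h1

theorem monic_Wz {A : Type} [Field A] (ν : ℕ → A) (S Δ : ℕ) : (Wz ν S Δ).Monic :=
  monic_prod_of_monic _ _ fun i _ => (monic_X_sub_C (ν i)).pow Δ

theorem natDegree_Wz {A : Type} [Field A] (ν : ℕ → A) (S Δ : ℕ) :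
    (Wz ν S Δ).natDegree = S * Δ := by
  rw [Wz, natDegree_prod_of_monic _ _ fun i _ => (monic_X_sub_C (ν i)).pow Δ]
  simp [natDegree_pow]

/-- the part of a polynomial with small coefficients which is divisible by `Wz` -/
theorem quo_le (hN : RowNEW) (ν : ℕ → ℚ_[p]) (S Δ n : ℕ) (x : ℚ_[p]) (c : ℕ → ℚ_[p]) (A r : ℝ)
    (hA : 0 ≤ A) (hr0 : 0 ≤ r) (hr : r ≤ 1) (hc : ∀ k, ‖c k‖ ≤ A * r ^ k) (hx : ‖x‖ ≤ 1)
    (hν : ∀ i < S, ‖ν i‖ ≤ 1) :
    ‖(∑ k ∈ Finset.range n, monomial k (c k)).eval x -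
      ((∑ k ∈ Finset.range n, monomial k (c k)) %ₘ Wz ν S Δ).eval x‖ ≤ A * r ^ (S * Δ) := by
  have hW : ‖(Wz ν S Δ).eval x‖ ≤ 1 := by
    rw [Wz, eval_prod, norm_prod]
    refine Finset.prod_le_one (fun i _ => norm_nonneg _) fun i hi => ?_
    rw [eval_pow, norm_pow]
    refine pow_le_one₀ (norm_nonneg _) ?_
    simp only [eval_sub, eval_X, eval_C]
    rw [sub_eq_add_neg]
    refine (IsUltrametricDist.norm_add_le_max _ _).trans (max_le hx ?_)
    rw [norm_neg]; exact hν i (Finset.mem_range.mp hi)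
  have h1 : (∑ k ∈ Finset.range n, monomial k (c k)) %ₘ Wz ν S Δ =
      ∑ k ∈ Finset.range n, c k • ((X : ℚ_[p][X]) ^ k %ₘ Wz ν S Δ) := by
    rw [← modByMonicHom_apply, map_sum]
    refine Finset.sum_congr rfl fun k _ => ?_
    rw [← modByMonicHom_apply, ← map_smul, smul_X_eq_monomial]
  rw [h1, eval_finsetSum, eval_finsetSum, ← Finset.sum_sub_distrib]
  refine IsUltrametricDist.norm_sum_le_of_forall_le_of_nonneg
    (mul_nonneg hA (pow_nonneg hr0 _)) fun k _ => ?_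
  have h2 := congrArg (eval x) (modByMonic_add_div ((X : ℚ_[p][X]) ^ k) (Wz ν S Δ))
  simp only [eval_add, eval_mul, eval_pow, eval_X] at h2
  have h3 : eval x (monomial k (c k)) - eval x (c k • ((X : ℚ_[p][X]) ^ k %ₘ Wz ν S Δ)) =
      c k * (eval x (Wz ν S Δ) * eval x ((X : ℚ_[p][X]) ^ k /ₘ Wz ν S Δ)) := by
    rw [eval_monomial, eval_smul, smul_eq_mul, ← h2]; ring
  rw [h3]
  by_cases hk : k < S * Δ
  · have : (X : ℚ_[p][X]) ^ k /ₘ Wz ν S Δ = 0 := by
      rw [divByMonic_eq_zero_iff (monic_Wz ν S Δ), degree_X_pow,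
        degree_eq_natDegree (monic_Wz ν S Δ).ne_zero, natDegree_Wz]
      exact_mod_cast hk
    rw [this]
    simp only [eval_zero, mul_zero, norm_zero]
    exact mul_nonneg hA (pow_nonneg hr0 _)
  · rw [norm_mul, norm_mul]
    have h4 := hN.ult ℚ_[p] ν S Δ k x hx hν
    have h5 : ‖c k‖ ≤ A * r ^ (S * Δ) :=
      (hc k).trans (mul_le_mul_of_nonneg_left (pow_le_pow_of_le_one hr0 hr (not_lt.mp hk)) hA)
    calc _ ≤ (A * r ^ (S * Δ)) * 1 :=
          mul_le_mul h5 (mul_le_one₀ hW (norm_nonneg _) h4)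
            (mul_nonneg (norm_nonneg _) (norm_nonneg _)) (mul_nonneg hA (pow_nonneg hr0 _))
      _ = _ := mul_one _

theorem ext (hN : RowNEW) (hE : RowEXP) (q : ℕ) (hq1 : 1 ≤ q) (hq : ‖(q : ℚ_[p])‖ = 1) (η κ : ℝ)
    (h : 0 ≤ η) (h4 : η ≤ 1 / 4) (hκ : 2 * η ≤ Real.exp (-κ)) :
    Ext (Ep p) (Bp p η h) q κ 1 := by
  intro S Δ ε Y t a g lam hS hΔ hε0 hε1 hg hz s u _ hu
  have hg' : ∀ y ∈ t, ‖g y‖ ≤ η := fun y hy => (hg y hy).1
  set A0 : ℝ := ∑ y ∈ t, |(a y : ℝ)| with hA0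
  have hA : 0 ≤ A0 := Finset.sum_nonneg fun y _ => abs_nonneg _
  set ν : ℕ → ℚ_[p] := fun i => ((1 + q * i : ℕ) : ℚ_[p]) with hνdef
  set x : ℚ_[p] := (s : ℚ_[p]) / u with hxdef
  have hν : ∀ i, ‖ν i‖ ≤ 1 := fun i => norm_nat_le_one _
  have hx : ‖x‖ ≤ 1 := by
    have hu1 : ‖(u : ℚ_[p])‖ = 1 := by
      rcases hu with rfl | rfl
      · simp
      · exact hq
    rw [hxdef, norm_div, hu1, div_one]
    exact norm_nat_le_one _
  have hgz : ∀ y ∈ t, ∀ z : ℚ_[p], ‖z‖ ≤ 1 → ‖g y * z‖ ≤ 1 / 4 := by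
    intro y hy z hz
    rw [norm_mul]
    calc _ ≤ η * 1 := mul_le_mul (hg' y hy) hz (norm_nonneg _) h
      _ ≤ 1 / 4 := by linarith
  let c : ℕ → ℚ_[p] := fun k => ∑ y ∈ t, (a y : ℚ_[p]) * (g y ^ k / (k.factorial : ℚ_[p]))
  have hc : ∀ k, ‖c k‖ ≤ A0 * (2 * η) ^ k := by
    intro k
    refine (norm_sum_le _ _).trans ?_
    rw [hA0, Finset.sum_mul]
    refine Finset.sum_le_sum fun y hy => ?_
    rw [norm_mul]
    exact mul_le_mul (norm_int_le_abs _) (term_le hE _ _ (hg' y hy) k) (norm_nonneg _)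
      (abs_nonneg _)
  let P : ℕ → ℚ_[p][X] := fun n => ∑ k ∈ Finset.range n, monomial k (c k)
  let D : ℕ → ℚ_[p] → ℚ_[p] := fun m z =>
    ∑ y ∈ t, (a y : ℚ_[p]) * (g y ^ m / (m.factorial : ℚ_[p]) * Ep p (g y * z))
  have hlim : ∀ m (z : ℚ_[p]), ‖z‖ ≤ 1 →
      Tendsto (fun n => (hasseDeriv m (P n)).eval z) atTop (𝓝 (D m z)) := by
    intro m z hz
    have h1 : HasSum (fun k : ℕ => ∑ y ∈ t, (a y : ℚ_[p]) *
        ((k.choose m : ℚ_[p]) * (g y ^ k / (k.factorial : ℚ_[p])) * z ^ (k - m))) (D m z) :=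
      hasSum_sum fun y hy => (hasSum_deriv hE (g y) z (hgz y hy z hz) m).mul_left _
    refine h1.tendsto_sum_nat.congr fun n => ?_
    simp only [P, map_sum, eval_finsetSum, hasseDeriv_monomial, eval_monomial]
    refine Finset.sum_congr rfl fun k _ => ?_
    simp only [c, Finset.mul_sum, Finset.sum_mul]
    refine Finset.sum_congr rfl fun y _ => ?_
    ring
  have hD : ∀ i < S, ∀ m < Δ, ‖D m (ν i)‖ ≤ A0 * ε * 2 ^ Δ := by
    intro i hi m hm
    have e : D m (ν i) = ((m.factorial : ℚ_[p]))⁻¹ *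
        ∑ y ∈ t, (a y : ℚ_[p]) * ((g y ^ m - lam y ^ m) * Ep p (g y * ν i)) := by
      have h0 := hz i hi m hm
      have h1 : ∑ y ∈ t, (a y : ℚ_[p]) * ((g y ^ m - lam y ^ m) * Ep p (g y * ν i)) =
          ∑ y ∈ t, (a y : ℚ_[p]) * (g y ^ m * Ep p (g y * ν i)) -
            ∑ y ∈ t, (a y : ℚ_[p]) * lam y ^ m * Ep p (g y * ν i) := by
        rw [← Finset.sum_sub_distrib]
        refine Finset.sum_congr rfl fun y _ => ?_
        ring
      rw [h1, h0, sub_zero, Finset.mul_sum]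
      refine Finset.sum_congr rfl fun y _ => ?_
      ring
    rw [e, norm_mul, mul_comm]
    refine mul_le_mul ?_ ((hE.fac p m).trans ?_) (norm_nonneg _) (mul_nonneg hA hε0)
    · refine (norm_sum_le _ _).trans ?_
      rw [hA0, Finset.sum_mul]
      refine Finset.sum_le_sum fun y hy => ?_
      rw [norm_mul, norm_mul]
      refine mul_le_mul (norm_int_le_abs _) ?_ (mul_nonneg (norm_nonneg _) (norm_nonneg _))
        (abs_nonneg _)
      calc _ ≤ ε * 1 :=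
            mul_le_mul (pow_sub_le _ _ ε ((hg' y hy).trans (by linarith)) hε1 (hg y hy).2.2 m)
              (norm_Ep_le hE _ (hgz y hy _ (hν i))) (norm_nonneg _) hε0
        _ = ε := mul_one ε
    · exact pow_le_pow_right₀ one_le_two (by omega)
  let e : ℕ → ℝ := fun n => A0 * ε * 2 ^ Δ + ∑ i ∈ Finset.range S, ∑ m ∈ Finset.range Δ,
    ‖(hasseDeriv m (P n)).eval (ν i) - D m (ν i)‖
  have he : Tendsto e atTop (𝓝 (A0 * ε * 2 ^ Δ)) := by
    have h1 : Tendsto (fun n => ∑ i ∈ Finset.range S, ∑ m ∈ Finset.range Δ,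
        ‖(hasseDeriv m (P n)).eval (ν i) - D m (ν i)‖) atTop
        (𝓝 (∑ i ∈ Finset.range S, ∑ m ∈ Finset.range Δ, (0 : ℝ))) :=
      tendsto_finsetSum _ fun i _ => tendsto_finsetSum _ fun m _ =>
        tendsto_iff_norm_sub_tendsto_zero.mp (hlim m (ν i) (hν i))
    simp only [Finset.sum_const_zero] at h1
    simpa using h1.const_add (A0 * ε * 2 ^ Δ)
  have hS0 : (0 : ℝ) < S := by exact_mod_cast hS
  have hS1 : (1 : ℝ) ≤ S := by exact_mod_cast hS
  have hsep : ∀ i < S, ∀ i' < S, i ≠ i' → 2 * (1 / (2 * (S : ℝ))) ≤ ‖ν i - ν i'‖ := by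
    intro i hi i' hi' hne
    have e1 : ν i - ν i' = (q : ℚ_[p]) * (((i : ℤ) - i' : ℤ) : ℚ_[p]) := by
      simp only [hνdef]; push_cast; ring
    have hne' : ((i : ℤ) - i' : ℤ) ≠ 0 := by omega
    have hpos : 0 < ‖(((i : ℤ) - i' : ℤ) : ℚ_[p])‖ := norm_pos_iff.mpr (by exact_mod_cast hne')
    have h1 := inv_norm_le_abs (p := p) ((i : ℤ) - i')
    have h2 : |(((i : ℤ) - i' : ℤ) : ℝ)| ≤ S := by
      have : |((i : ℤ) - i' : ℤ)| ≤ (S : ℤ) := by rw [abs_le]; omega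
      exact_mod_cast this
    rw [e1, norm_mul, hq, one_mul]
    have h3 := h1.trans h2
    rw [inv_le_comm₀ hpos hS0] at h3
    calc 2 * (1 / (2 * (S : ℝ))) = (S : ℝ)⁻¹ := by field_simp
      _ ≤ _ := h3
  have hbound : ∀ n, ‖(P n).eval x‖ ≤ e n * (4 * S) ^ (S * Δ) + A0 * (2 * η) ^ (S * Δ) := by
    intro n
    have h0 : 0 ≤ A0 * ε * 2 ^ Δ := by positivity
    have hsum : 0 ≤ ∑ i ∈ Finset.range S, ∑ m ∈ Finset.range Δ,
        ‖(hasseDeriv m (P n)).eval (ν i) - D m (ν i)‖ :=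
      Finset.sum_nonneg fun i _ => Finset.sum_nonneg fun m _ => norm_nonneg _
    have h1 := hN.rem ℚ_[p] (P n) ν S Δ (1 / (2 * (S : ℝ))) 1 (e n) x (by positivity)
      (by rw [div_le_one (by positivity)]; linarith) le_rfl (add_nonneg h0 hsum) hsep
      (fun i _ => by
        rw [sub_eq_add_neg]
        refine (IsUltrametricDist.norm_add_le_max _ _).trans (max_le hx ?_)
        rw [norm_neg]; exact hν i)
      (fun i hi m hm => by
        have h2 : ‖(hasseDeriv m (P n)).eval (ν i) - D m (ν i)‖ ≤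
            ∑ i ∈ Finset.range S, ∑ m ∈ Finset.range Δ,
              ‖(hasseDeriv m (P n)).eval (ν i) - D m (ν i)‖ :=
          (Finset.single_le_sum
            (f := fun m => ‖(hasseDeriv m (P n)).eval (ν i) - D m (ν i)‖)
            (fun m _ => norm_nonneg _) (Finset.mem_range.mpr hm)).trans
          (Finset.single_le_sum
            (f := fun i => ∑ m ∈ Finset.range Δ, ‖(hasseDeriv m (P n)).eval (ν i) - D m (ν i)‖)
            (fun i _ => Finset.sum_nonneg fun m _ => norm_nonneg _) (Finset.mem_range.mpr hi))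
        have h3 := norm_le_norm_add_norm_sub' ((hasseDeriv m (P n)).eval (ν i)) (D m (ν i))
        have h5 := hD i hi m hm
        simp only [e]
        linarith)
    have h2 := quo_le hN ν S Δ n x c A0 (2 * η) hA (by linarith) (by linarith) hc hx
      (fun i _ => hν i)
    have h3 : (2 * 1 / (1 / (2 * (S : ℝ)))) = 4 * S := by field_simp; ring
    rw [h3] at h1
    have h5 := norm_le_norm_add_norm_sub' ((P n).eval x) ((P n %ₘ Wz ν S Δ).eval x)
    exact h5.trans (add_le_add h1 h2)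
  have hval : D 0 x = ∑ y ∈ t, (a y : ℚ_[p]) * Ep p (g y * x) := by
    simp [D]
  have hl1 : Tendsto (fun n => ‖(P n).eval x‖) atTop
      (𝓝 ‖∑ y ∈ t, (a y : ℚ_[p]) * Ep p (g y * x)‖) := by
    have := (hlim 0 x hx).norm
    simpa only [hasseDeriv_zero', hval] using this
  have hl2 := (he.mul_const ((4 * (S : ℝ)) ^ (S * Δ))).add_const (A0 * (2 * η) ^ (S * Δ))
  refine (le_of_tendsto_of_tendsto' hl1 hl2 hbound).trans ?_
  rw [mul_add]
  refine add_le_add ?_ (mul_le_mul_of_nonneg_left ?_ hA)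
  · rw [mul_assoc, mul_assoc]
    refine mul_le_mul_of_nonneg_left (mul_le_mul_of_nonneg_left ?_ hε0) hA
    have h1 : (2 : ℝ) ^ Δ ≤ 2 ^ (S * Δ) :=
      pow_le_pow_right₀ one_le_two (Nat.le_mul_of_pos_left _ hS)
    have hq' : (1 : ℝ) ≤ q := by exact_mod_cast hq1
    calc (2 : ℝ) ^ Δ * (4 * S) ^ (S * Δ) ≤ 2 ^ (S * Δ) * (4 * S) ^ (S * Δ) := by gcongr
      _ = (2 * (4 * S)) ^ (S * Δ) := by rw [← mul_pow]
      _ ≤ (100 * q * S) ^ (S * Δ) := by
        apply pow_le_pow_left₀ (by positivity)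
        nlinarith
  · calc (2 * η) ^ (S * Δ) ≤ Real.exp (-κ) ^ (S * Δ) := pow_le_pow_left₀ (by linarith) hκ _
      _ = Real.exp (-(κ * (S * Δ))) := by
        rw [← Real.exp_nat_mul]; push_cast; ring_nf

end LOCP

open LOCP in
theorem rowLOCP : RowLV → RowNEW → RowEXP → RowLOCP := by
  intro hL hN hE p _ K _ ι η κ h h4 hκ
  have hq := norm_q (p := p)
  refine ⟨hL.2 p, LOCP.ext hN hE _ (by split_ifs <;> norm_num) hq η κ h h4 hκ, ?_, ?_, ?_, ?_, ?_,
    ?_, ?_⟩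
  · split_ifs <;> simp
  · intro ζ hζ
    by_cases hp : p = 2
    · subst hp
      rw [if_pos rfl] at hζ
      exact ⟨1, by rw [map_one, cube_root ζ hζ]⟩
    · rw [if_neg hp] at hζ
      rcases mul_self_eq_one_iff.mp (by rw [← hζ, sq]) with h1 | h1
      · exact ⟨1, by rw [map_one, h1]⟩
      · exact ⟨-1, by rw [map_neg, map_one, h1]⟩
  · intro a ha b hb
    exact hE.add p a b (le_trans ha h4) (le_trans hb h4)
  · rw [Ep, tsum_eq_single 0]
    · simp
    · intro k hk; simp [hk]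
  · intro a ha
    change ‖a / _‖ ≤ η
    rw [norm_div, hq, div_one]
    exact ha
  · rw [norm_inv, hq, inv_one]
  · intro a b
    rw [norm_div, div_eq_mul_inv]
    exact mul_le_mul (norm_int_le_abs a) (inv_norm_le_abs b) (inv_nonneg.mpr (norm_nonneg _))
      (abs_nonneg _)

end Pool.Agent.MP_542436_nt.H96
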