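import Pool.Agent.MP_542436_nt.H96.Spec

/-! The real local data: extrapolation of zeros of exponential sums by interpolation. -/

namespace Pool.Agent.MP_542436_nt.H96.LOCR

open Polynomial Filter Topology Finset

theorem choose_le (θ : ℝ) (hθ : 0 ≤ θ) (k N : ℕ) : (k.choose N : ℝ) * θ ^ N ≤ (θ + 1) ^ k := by
  rcases lt_or_ge k N with h | h
  · rw [Nat.choose_eq_zero_of_lt h]
    simp only [Nat.cast_zero, zero_mul]
    positivity
  · rw [add_pow]
    have := single_le_sum (f := fun m => θ ^ m * 1 ^ (k - m) * (k.choose m : ℝ))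
      (fun m _ => by positivity) (mem_range.2 (Nat.lt_succ_of_le h))
    simpa [mul_comm] using this

theorem hasSum_der (g ν : ℝ) (m : ℕ) :
    HasSum (fun k : ℕ => (k.choose m : ℝ) * (g ^ k / k.factorial) * ν ^ (k - m))
      (g ^ m / m.factorial * Real.exp (g * ν)) := by
  rw [← hasSum_nat_add_iff' m]
  have h0 : ∑ k ∈ range m, (k.choose m : ℝ) * (g ^ k / k.factorial) * ν ^ (k - m) = 0 :=
    sum_eq_zero fun k hk => by rw [Nat.choose_eq_zero_of_lt (mem_range.1 hk)]; simp
  rw [h0, sub_zero, Real.exp_eq_exp_ℝ]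
  have h := (NormedSpace.expSeries_div_hasSum_exp (g * ν)).mul_left (g ^ m / m.factorial)
  have e : (fun n : ℕ => (((n + m).choose m : ℕ) : ℝ) * (g ^ (n + m) / (n + m).factorial) *
      ν ^ (n + m - m)) = fun i : ℕ => g ^ m / m.factorial * ((g * ν) ^ i / i.factorial) := by
    funext n
    have h1 : (((n + m).choose m : ℕ) : ℝ) * n.factorial * m.factorial = (n + m).factorial := by
      exact_mod_cast Nat.add_choose_mul_factorial_mul_factorial n m
    have h2 : (n.factorial : ℝ) ≠ 0 := by positivity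
    have h3 : (m.factorial : ℝ) ≠ 0 := by positivity
    have h4 : (((n + m).choose m : ℕ) : ℝ) ≠ 0 := by
      exact_mod_cast (Nat.choose_pos (Nat.le_add_left m n)).ne'
    rw [Nat.add_sub_cancel, ← h1, mul_pow, pow_add]
    field_simp
  rw [e]
  exact h

/-- the truncated series -/
noncomputable def Pn {X : Type} (t : Finset X) (a : X → ℤ) (g : X → ℝ) (n : ℕ) : ℝ[X] :=
  ∑ k ∈ range n, (∑ y ∈ t, (a y : ℝ) * (g y ^ k / k.factorial)) • Polynomial.X ^ k

theorem der_tendsto {X : Type} (t : Finset X) (a : X → ℤ) (g : X → ℝ) (ν : ℝ) (m : ℕ) :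
    Tendsto (fun n => (hasseDeriv m (Pn t a g n)).eval ν) atTop
      (𝓝 (∑ y ∈ t, (a y : ℝ) * (g y ^ m / m.factorial * Real.exp (g y * ν)))) := by
  have e : ∀ n, (hasseDeriv m (Pn t a g n)).eval ν = ∑ y ∈ t, (a y : ℝ) *
      ∑ k ∈ range n, (k.choose m : ℝ) * (g y ^ k / k.factorial) * ν ^ (k - m) := by
    intro n
    simp only [Pn, map_sum, map_smul, eval_finsetSum, eval_smul, smul_eq_mul, mul_sum, sum_mul]
    rw [sum_comm]
    refine sum_congr rfl fun y _ => sum_congr rfl fun k _ => ?_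
    rw [← monomial_one_right_eq_X_pow, hasseDeriv_monomial, eval_monomial]
    ring
  simp only [e]
  exact tendsto_finsetSum _ fun y _ => (hasSum_der (g y) ν m).tendsto_sum_nat.const_mul _

theorem val_tendsto {X : Type} (t : Finset X) (a : X → ℤ) (g : X → ℝ) (x : ℝ) :
    Tendsto (fun n => (Pn t a g n).eval x) atTop
      (𝓝 (∑ y ∈ t, (a y : ℝ) * Real.exp (g y * x))) := by
  simpa using der_tendsto t a g x 0

theorem quo_eq {X : Type} (t : Finset X) (a : X → ℤ) (g : X → ℝ) (n : ℕ) (W : ℝ[X]) (x : ℝ) :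
    (Pn t a g n).eval x = (Pn t a g n %ₘ W).eval x + ∑ k ∈ range n,
      (∑ y ∈ t, (a y : ℝ) * (g y ^ k / k.factorial)) *
        (W.eval x * ((Polynomial.X ^ k) /ₘ W).eval x) := by
  have h : Pn t a g n %ₘ W = ∑ k ∈ range n, (∑ y ∈ t, (a y : ℝ) * (g y ^ k / k.factorial)) •
      (Polynomial.X ^ k %ₘ W) := by
    have := map_sum (modByMonicHom W) (fun k => (∑ y ∈ t, (a y : ℝ) * (g y ^ k / k.factorial)) •
      (Polynomial.X ^ k : ℝ[X])) (range n)
    simpa only [Pn, map_smul, modByMonicHom_apply] using this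
  rw [h, Pn]
  simp only [eval_finsetSum, eval_smul, smul_eq_mul]
  rw [← sum_add_distrib]
  refine sum_congr rfl fun k _ => ?_
  rw [← mul_add, ← eval_mul, ← eval_add, modByMonic_add_div]

theorem tail_le (r κ : ℝ) (N n : ℕ) (hr : 0 ≤ r) (h1 : 20 * r ≤ N) (h2 : 20 * r * Real.exp κ ≤ N) :
    ∑ k ∈ range n, r ^ k / k.factorial * (k.choose N : ℝ) ≤ Real.exp (-(κ * N)) := by
  have hθ : 0 < 3 * Real.exp κ := by positivity
  have h3 : (∑ k ∈ range n, r ^ k / k.factorial * (k.choose N : ℝ)) * (3 * Real.exp κ) ^ N ≤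
      Real.exp (r * (3 * Real.exp κ + 1)) := by
    rw [sum_mul]
    refine le_trans (sum_le_sum fun k _ => ?_) (Real.sum_le_exp_of_nonneg (by positivity) n)
    have := choose_le _ hθ.le k N
    rw [mul_pow r, mul_assoc, mul_div_right_comm]
    exact mul_le_mul_of_nonneg_left this (by positivity)
  have h4 : Real.exp (r * (3 * Real.exp κ + 1)) ≤ 3 ^ N := by
    calc Real.exp (r * (3 * Real.exp κ + 1)) ≤ Real.exp (N * 1) := by
          refine Real.exp_le_exp.2 ?_
          have : (0 : ℝ) ≤ N := by positivity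
          nlinarith
      _ = Real.exp 1 ^ N := Real.exp_nat_mul 1 N
      _ ≤ 3 ^ N := pow_le_pow_left₀ (Real.exp_pos 1).le (by
          have := Real.exp_one_lt_d9; linarith) N
  have h5 : Real.exp (-(κ * N)) * (3 * Real.exp κ) ^ N = 3 ^ N := by
    rw [mul_pow, ← Real.exp_nat_mul, mul_left_comm, ← Real.exp_add]
    simp [mul_comm]
  exact le_of_mul_le_mul_right (by rw [h5]; exact h3.trans h4) (pow_pos hθ N)

theorem der_le (g l ν ε G : ℝ) (m : ℕ) (hg : |g| ≤ G) (hl : |g - l| ≤ ε) (hε : ε ≤ 1)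
    (hν : 0 ≤ ν) :
    |(g ^ m - l ^ m) / m.factorial * Real.exp (g * ν)| ≤ ε * Real.exp (G + 1 + G * ν) := by
  have hG : 0 ≤ G := (abs_nonneg _).trans hg
  have hε0 : 0 ≤ ε := (abs_nonneg _).trans hl
  have hl' : |l| ≤ G + 1 := by
    have : |l| ≤ |g| + |g - l| := by
      have := abs_sub g (g - l)
      rwa [sub_sub_cancel] at this
    linarith
  have hm : max |g| |l| ≤ G + 1 := max_le (by linarith) hl'
  have h1 : |g ^ m - l ^ m| / m.factorial ≤ ε * Real.exp (G + 1) := by
    rcases m with _ | j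
    · simp only [pow_zero, sub_self, abs_zero, zero_div]
      positivity
    · have h2 : |g ^ (j + 1) - l ^ (j + 1)| ≤ ε * ((j + 1 : ℕ) : ℝ) * (G + 1) ^ j := by
        refine (abs_pow_sub_pow_le g l (j + 1)).trans ?_
        rw [Nat.add_sub_cancel]
        gcongr
      have h3 := Real.pow_div_factorial_le_exp (G + 1) (by positivity) j
      rw [div_le_iff₀ (by positivity)] at h3 ⊢
      refine h2.trans ?_
      rw [Nat.factorial_succ, Nat.cast_mul]
      calc ε * ((j + 1 : ℕ) : ℝ) * (G + 1) ^ j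
          ≤ ε * ((j + 1 : ℕ) : ℝ) * (Real.exp (G + 1) * j.factorial) := by gcongr
        _ = _ := by ring
  have h4 : Real.exp (g * ν) ≤ Real.exp (G * ν) :=
    Real.exp_le_exp.2 (mul_le_mul_of_nonneg_right ((le_abs_self g).trans hg) hν)
  rw [abs_mul, abs_div, abs_of_pos (Real.exp_pos _), Nat.abs_cast, Real.exp_add (G + 1),
    ← mul_assoc]
  exact mul_le_mul h1 h4 (Real.exp_pos _).le (by positivity)

theorem ext (hN : RowNEW) (κ ρ : ℝ) (hκ : 0 ≤ κ) (hρ : 0 ≤ ρ) (h80 : 80 * ρ ≤ Real.exp (-κ)) :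
    Ext Real.exp ⊤ 2 κ ρ := by
  intro S Δ ε X t a g lam hS hΔ hε0 hε1 hg hz s u hs hu
  set A0 : ℝ := ∑ y ∈ t, |(a y : ℝ)| with hA0
  have hA : 0 ≤ A0 := sum_nonneg fun y _ => abs_nonneg _
  set x : ℝ := (s : ℝ) / u with hx
  set ν : ℕ → ℝ := fun i => ((1 + 2 * i : ℕ) : ℝ) with hν
  have hS1 : (1 : ℝ) ≤ S := by exact_mod_cast hS
  have hΔ1 : (1 : ℝ) ≤ Δ := by exact_mod_cast hΔ
  have hu1 : (1 : ℝ) ≤ u := by rcases hu with rfl | rfl <;> norm_num
  have hs4 : (s : ℝ) ≤ 4 * S := by exact_mod_cast (by omega : s ≤ 4 * S)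
  have hx0 : 0 ≤ x := by positivity
  have hx4 : x ≤ 4 * S := (div_le_self (by positivity) hu1).trans hs4
  have hν0 : ∀ i, 0 ≤ ν i := fun i => by positivity
  have hν2 : ∀ i < S, ν i ≤ 2 * S := fun i hi => by
    simp only [hν]
    exact_mod_cast (by omega : 1 + 2 * i ≤ 2 * S)
  have hxν : ∀ i < S, ‖x - ν i‖ ≤ 4 * S := fun i hi => by
    have := hν0 i
    have := hν2 i hi
    rw [Real.norm_eq_abs, abs_le]
    constructor <;> linarith
  have hρ1 : 80 * ρ ≤ 1 := h80.trans (Real.exp_le_one_iff.2 (by linarith))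
  have hρ2 : 80 * ρ * Real.exp κ ≤ 1 := by
    have := mul_le_mul_of_nonneg_right h80 (Real.exp_pos κ).le
    rwa [← Real.exp_add, neg_add_cancel, Real.exp_zero] at this
  have hN1 : (1 : ℝ) ≤ S * Δ := by nlinarith
  have hW : |(Wz ν S Δ).eval x| ≤ (4 * S : ℝ) ^ (S * Δ) := by
    rw [Wz, eval_prod, abs_prod]
    calc ∏ i ∈ range S, |((Polynomial.X - C (ν i)) ^ Δ).eval x|
        ≤ ∏ _i ∈ range S, (4 * S : ℝ) ^ Δ := by
          refine prod_le_prod (fun i _ => abs_nonneg _) fun i hi => ?_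
          rw [eval_pow, eval_sub, eval_X, eval_C, abs_pow]
          exact pow_le_pow_left₀ (abs_nonneg _) (hxν i (mem_range.1 hi)) Δ
      _ = _ := by rw [prod_const, card_range, ← pow_mul, mul_comm Δ S]
  have htail : ∀ n, |∑ k ∈ range n, (∑ y ∈ t, (a y : ℝ) * (g y ^ k / k.factorial)) *
      ((Wz ν S Δ).eval x * ((Polynomial.X ^ k) /ₘ Wz ν S Δ).eval x)| ≤
        A0 * Real.exp (-(κ * (S * Δ))) := by
    intro n
    have h1 := tail_le (ρ * Δ * (4 * S)) κ (S * Δ) n (by positivity)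
      (by push_cast; nlinarith) (by
        push_cast
        have : (0 : ℝ) ≤ S * Δ := by positivity
        nlinarith)
    rw [Nat.cast_mul] at h1
    refine (abs_sum_le_sum_abs _ _).trans (le_trans ?_ (mul_le_mul_of_nonneg_left h1 hA))
    rw [mul_sum]
    refine sum_le_sum fun k _ => ?_
    have h2 : |∑ y ∈ t, (a y : ℝ) * (g y ^ k / k.factorial)| ≤ A0 * ((ρ * Δ) ^ k / k.factorial) := by
      rw [hA0, sum_mul]
      refine (abs_sum_le_sum_abs _ _).trans (sum_le_sum fun y hy => ?_)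
      rw [abs_mul, abs_div, abs_pow, Nat.abs_cast]
      have : |g y| ≤ ρ * Δ := (hg y hy).2.1
      gcongr
    have h3 : |(Wz ν S Δ).eval x * ((Polynomial.X ^ k) /ₘ Wz ν S Δ).eval x| ≤
        (4 * S : ℝ) ^ k * (k.choose (S * Δ) : ℝ) := by
      have h4 := hN.quo ℝ ν S Δ k (4 * S) x (by rw [Real.norm_eq_abs, abs_of_nonneg hx0]; exact hx4)
        (fun i hi => by
          rw [Real.norm_eq_abs, abs_of_nonneg (hν0 i)]
          linarith [hν2 i hi])
      rw [Real.norm_eq_abs] at h4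
      rw [abs_mul]
      refine (mul_le_mul hW h4 (abs_nonneg _) (by positivity)).trans (le_of_eq ?_)
      rcases lt_or_ge k (S * Δ) with h | h
      · rw [Nat.choose_eq_zero_of_lt h]
        simp
      · rw [mul_left_comm, ← pow_add, Nat.add_sub_cancel' h, mul_comm]
    rw [abs_mul]
    refine (mul_le_mul h2 h3 (abs_nonneg _) (by positivity)).trans (le_of_eq ?_)
    rw [mul_pow (ρ * Δ)]
    ring
  set L : ℕ → ℕ → ℝ := fun i m =>
    ∑ y ∈ t, (a y : ℝ) * (g y ^ m / m.factorial * Real.exp (g y * ν i)) with hL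
  have hLb : ∀ i < S, ∀ m < Δ, |L i m| ≤ A0 * (ε * 25 ^ (S * Δ)) := by
    intro i hi m hm
    have h0 : ∑ y ∈ t, (a y : ℝ) * lam y ^ m * Real.exp (g y * ν i) = 0 := hz i hi m hm
    have h1 : L i m = ∑ y ∈ t, (a y : ℝ) *
        ((g y ^ m - lam y ^ m) / m.factorial * Real.exp (g y * ν i)) := by
      have h2 : ∑ y ∈ t, (a y : ℝ) * ((g y ^ m - lam y ^ m) / m.factorial * Real.exp (g y * ν i)) =
          L i m - (∑ y ∈ t, (a y : ℝ) * lam y ^ m * Real.exp (g y * ν i)) / m.factorial := by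
        simp only [hL]
        rw [sum_div, ← sum_sub_distrib]
        exact sum_congr rfl fun y _ => by ring
      rw [h2, h0, zero_div, sub_zero]
    rw [h1, hA0, sum_mul]
    refine (abs_sum_le_sum_abs _ _).trans (sum_le_sum fun y hy => ?_)
    rw [abs_mul]
    refine mul_le_mul_of_nonneg_left ((der_le (g y) (lam y) (ν i) ε (ρ * Δ) m (hg y hy).2.1
      (hg y hy).2.2 hε1 (hν0 i)).trans (mul_le_mul_of_nonneg_left ?_ hε0)) (abs_nonneg _)
    calc Real.exp (ρ * Δ + 1 + ρ * Δ * ν i) ≤ Real.exp (((S * Δ * 2 : ℕ) : ℝ) * 1) := by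
          refine Real.exp_le_exp.2 ?_
          push_cast
          have h3 : ρ * Δ * ν i ≤ ρ * Δ * (2 * S) :=
            mul_le_mul_of_nonneg_left (hν2 i hi) (by positivity)
          have h4 : ρ * Δ ≤ ρ * Δ * S := le_mul_of_one_le_right (by positivity) hS1
          have h5 : 80 * ρ * (S * Δ) ≤ 1 * (S * Δ) :=
            mul_le_mul_of_nonneg_right hρ1 (by positivity)
          nlinarith
      _ = (Real.exp 1 ^ 2) ^ (S * Δ) := by rw [Real.exp_nat_mul, ← pow_mul, mul_comm 2]
      _ ≤ 25 ^ (S * Δ) := by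
          refine pow_le_pow_left₀ (by positivity) ?_ _
          have := Real.exp_one_lt_d9
          have := Real.exp_pos 1
          nlinarith
  set e : ℕ → ℝ := fun n => ∑ i ∈ range S, ∑ m ∈ range Δ,
    |(hasseDeriv m (Pn t a g n)).eval (ν i) - L i m| with he
  have he0 : Tendsto e atTop (𝓝 0) := by
    have : Tendsto e atTop (𝓝 (∑ i ∈ range S, ∑ m ∈ range Δ, |L i m - L i m|)) :=
      tendsto_finsetSum _ fun i _ => tendsto_finsetSum _ fun m _ =>
        ((der_tendsto t a g (ν i) m).sub_const _).abs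
    simpa using this
  have hmain : ∀ n, |(Pn t a g n).eval x| ≤ (A0 * (ε * 25 ^ (S * Δ)) + e n) *
      (2 * (4 * S) / 1) ^ (S * Δ) + A0 * Real.exp (-(κ * (S * Δ))) := by
    intro n
    have hen : 0 ≤ e n := sum_nonneg fun i _ => sum_nonneg fun m _ => abs_nonneg _
    have h1 := hN.rem ℝ (Pn t a g n) ν S Δ 1 (4 * S) (A0 * (ε * 25 ^ (S * Δ)) + e n) x one_pos le_rfl
      (by linarith) (by positivity)
      (fun i _ i' _ hii => by
        simp only [hν, Real.norm_eq_abs]
        push_cast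
        rcases lt_or_gt_of_ne hii with h | h
        · have : (i : ℝ) + 1 ≤ i' := by exact_mod_cast h
          rw [le_abs]
          right
          linarith
        · have : (i' : ℝ) + 1 ≤ i := by exact_mod_cast h
          rw [le_abs]
          left
          linarith) hxν
      (fun i hi m hm => by
        have h2 : |(hasseDeriv m (Pn t a g n)).eval (ν i) - L i m| ≤ e n :=
          le_trans (single_le_sum (f := fun m => |(hasseDeriv m (Pn t a g n)).eval (ν i) - L i m|)
            (fun m _ => abs_nonneg _) (mem_range.2 hm))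
            (single_le_sum (f := fun i => ∑ m ∈ range Δ,
              |(hasseDeriv m (Pn t a g n)).eval (ν i) - L i m|)
              (fun i _ => sum_nonneg fun m _ => abs_nonneg _) (mem_range.2 hi))
        have h3 := hLb i hi m hm
        have h4 := abs_add_le (L i m) ((hasseDeriv m (Pn t a g n)).eval (ν i) - L i m)
        rw [add_sub_cancel] at h4
        rw [Real.norm_eq_abs]
        linarith)
    rw [quo_eq t a g n (Wz ν S Δ) x]
    exact (abs_add_le _ _).trans (add_le_add h1 (htail n))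
  have hlim := le_of_tendsto_of_tendsto' (val_tendsto t a g x).abs
    (((he0.const_add _).mul_const _).add_const _) hmain
  rw [Real.norm_eq_abs]
  refine hlim.trans (le_of_eq ?_)
  have h200 : (100 * ((2 : ℕ) : ℝ) * S : ℝ) = 25 * (2 * (4 * S) / 1) := by
    push_cast
    ring
  rw [h200, mul_pow (25 : ℝ)]
  ring

end Pool.Agent.MP_542436_nt.H96.LOCR

namespace Pool.Agent.MP_542436_nt.H96

theorem rowLOCR : RowLV → RowNEW → RowLOCR := by
  intro hL hN K _ ι κ ρ hκ hρ h80
  refine ⟨hL.1, LOCR.ext hN κ ρ hκ hρ h80, Or.inl rfl, fun ζ hζ => ?_,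
    fun a _ b _ => Real.exp_add a b, Real.exp_zero, fun _ _ => trivial, by norm_num, fun a b => ?_⟩
  · rcases sq_eq_one_iff.1 hζ with h | h
    · exact ⟨1, by rw [map_one, h]⟩
    · exact ⟨-1, by rw [map_neg, map_one, h]⟩
  · rw [Real.norm_eq_abs, abs_div]
    rcases eq_or_ne b 0 with rfl | hb
    · simp
    · have h1 : (1 : ℝ) ≤ |(b : ℝ)| := by exact_mod_cast Int.one_le_abs hb
      exact (div_le_self (abs_nonneg _) h1).trans (le_mul_of_one_le_right (abs_nonneg _) h1)

end Pool.Agent.MP_542436_nt.H96
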