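import Pool.Agent.MP_542436_nt.H96.Spec

/-! The inequality of Liouville in the real and in the `p`-adic numbers. -/

namespace Pool.Agent.MP_542436_nt.H96

open NumberField

namespace LV

variable {M : Type} [Field M] [NumberField M]

theorem ex_int {x : M} (hx : IsIntegral ℤ x) (h0 : x ≠ 0) :
    ∃ n : ℤ, n ≠ 0 ∧ (n : ℂ) = ∏ σ : M →ₐ[ℚ] ℂ, σ x := by
  have h1 : IsIntegral ℤ (Algebra.norm ℚ x) := Algebra.isIntegral_norm ℚ hx
  obtain ⟨n, hn⟩ := IsIntegrallyClosed.isIntegral_iff.1 h1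
  refine ⟨n, ?_, ?_⟩
  · rintro rfl
    exact (Algebra.norm_ne_zero_iff.2 h0 : Algebra.norm ℚ x ≠ 0) (by simpa using hn.symm)
  · rw [← Algebra.norm_eq_prod_embeddings ℚ ℂ x, ← hn]
    simp

theorem prod_le {x : M} {W : ℝ} (hW : 1 ≤ W) (h : ∀ σ : M →+* ℂ, ‖σ x‖ ≤ W)
    (t : Finset (M →ₐ[ℚ] ℂ)) : ‖∏ σ ∈ t, σ x‖ ≤ W ^ Module.finrank ℚ M := by
  rw [norm_prod]
  calc ∏ σ ∈ t, ‖σ x‖ ≤ ∏ _σ ∈ t, W :=
        Finset.prod_le_prod (fun _ _ => norm_nonneg _) fun σ _ => h σ.toRingHom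
    _ = W ^ t.card := Finset.prod_const W
    _ ≤ W ^ Module.finrank ℚ M := by
        refine pow_le_pow_right₀ hW ?_
        rw [← AlgHom.card ℚ M ℂ]
        exact Finset.card_le_univ t

theorem real : Lv ℝ := by
  classical
  intro M _ _ j x W hx h0 hW h
  obtain ⟨n, hn0, hn⟩ := ex_int hx h0
  let σ0 : M →ₐ[ℚ] ℂ := (Complex.ofRealHom.comp j).toRatAlgHom
  rw [← Finset.mul_prod_erase _ _ (Finset.mem_univ σ0)] at hn
  have h1 : (1 : ℝ) ≤ ‖(n : ℂ)‖ := by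
    rw [Complex.norm_intCast]
    exact_mod_cast Int.one_le_abs hn0
  have h2 : ‖σ0 x‖ = ‖j x‖ := Complex.norm_real _
  rw [hn, norm_mul, h2] at h1
  exact h1.trans (mul_le_mul_of_nonneg_left (prod_le hW h _) (norm_nonneg _))

theorem padic (p : ℕ) [Fact p.Prime] : Lv ℚ_[p] := by
  classical
  intro M _ _ j x W hx h0 hW h
  obtain ⟨n, hn0, hn⟩ := ex_int hx h0
  have hle : |(n : ℝ)| ≤ W ^ Module.finrank ℚ M := by
    rw [← Complex.norm_intCast, hn]
    exact prod_le hW h _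
  have σ0 : M →ₐ[ℚ] ℂ := IsAlgClosed.lift
  rw [← Finset.mul_prod_erase _ _ (Finset.mem_univ σ0)] at hn
  have hs : σ0 x ≠ 0 := (map_ne_zero σ0).2 h0
  have hi : IsIntegral ℤ ((n : M) / x) := by
    rw [← isIntegral_algHom_iff σ0.toRingHom.toIntAlgHom σ0.toRingHom.injective]
    have : σ0.toRingHom.toIntAlgHom ((n : M) / x) = ∏ σ ∈ Finset.univ.erase σ0, σ x := by
      show σ0 ((n : M) / x) = _
      rw [map_div₀, map_intCast, hn, mul_div_cancel_left₀ _ hs]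
    rw [this]
    exact IsIntegral.prod _ fun σ _ => hx.map σ.toRingHom.toIntAlgHom
  have hj : IsIntegral ℤ_[p] (j ((n : M) / x)) := (hi.map j.toIntAlgHom).tower_top
  obtain ⟨z, hz⟩ := IsIntegrallyClosed.isIntegral_iff.1 hj
  have hz1 : ‖j ((n : M) / x)‖ ≤ 1 := by
    rw [← hz]
    exact z.2
  have hjx : j x ≠ 0 := (map_ne_zero j).2 h0
  rw [map_div₀, map_intCast, norm_div, div_le_one (norm_pos_iff.2 hjx)] at hz1
  have hn1 : 1 ≤ ‖(n : ℚ_[p])‖ * |(n : ℝ)| := by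
    have hp : (0 : ℝ) < (p : ℝ) ^ padicValInt p n := by
      have := (Fact.out : p.Prime).pos
      positivity
    have h1 : ‖(n : ℚ_[p])‖ = ((p : ℝ) ^ padicValInt p n)⁻¹ := by
      rw [Padic.norm_eq_zpow_neg_valuation (by exact_mod_cast hn0), Padic.valuation_intCast,
        zpow_neg, zpow_natCast]
    have h2 : (p : ℝ) ^ padicValInt p n ≤ |(n : ℝ)| := by
      have := Int.le_of_dvd (abs_pos.2 hn0) ((dvd_abs _ _).2 (padicValInt_dvd (p := p) n))
      exact_mod_cast this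
    rw [h1, inv_mul_eq_div, one_le_div hp]
    exact h2
  exact hn1.trans (mul_le_mul hz1 hle (abs_nonneg _) (norm_nonneg _))

end LV

theorem rowLV : RowLV := ⟨LV.real, LV.padic⟩

end Pool.Agent.MP_542436_nt.H96
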