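import Pool.Agent.MP_542436_nt.H96.Spec

/-! The abstract lower bound: lattice coordinates, the lemma of Siegel and the descent. -/

namespace Pool.Agent.MP_542436_nt.H96

open NumberField

namespace MID

/-- The multi-indices of bounded degree. -/
lemma exists_idx (m T : ℕ) : ∃ s : Finset (Fin m → ℕ), s.card ≤ (T + m).choose m ∧
    ∀ τ : Fin m → ℕ, τ ∈ s ↔ ∑ i, τ i ≤ T := by
  classical
  refine ⟨((Finset.univ : Finset (Fin (m + 1))).finsuppAntidiag T).image fun f i => f i.succ,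
    Finset.card_image_le.trans ?_, fun τ => ?_⟩
  · rw [Finset.card_finsuppAntidiag_nat_eq_choose, Finset.card_univ, Fintype.card_fin,
      show m + 1 + T - 1 = T + m by omega, Nat.choose_symm_add]
  · simp only [Finset.mem_image, Finset.mem_finsuppAntidiag, Finset.subset_univ, and_true]
    constructor
    · rintro ⟨f, hf, rfl⟩
      rw [Fin.sum_univ_succ] at hf
      exact hf ▸ Nat.le_add_left _ _
    · intro h
      refine ⟨Finsupp.equivFunOnFinite.symm (Fin.cons (T - ∑ i, τ i) τ), ?_, ?_⟩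
      · rw [Fin.sum_univ_succ]
        simp only [Finsupp.equivFunOnFinite_symm_apply_apply, Fin.cons_zero, Fin.cons_succ]
        omega
      · funext i
        simp

lemma sz_mono {K : Type} [Field K] [NumberField K] {P : Finset ℕ} {t t' : ℝ} {z : Kˣ}
    (h : Sz K P t z) (ht : t ≤ t') : Sz K P t' z :=
  ⟨fun σ => (h.1 σ).trans ht, fun r hr => (h.2 r hr).trans ht⟩

/-- A homomorphism into a field of characteristic zero that kills the kernel of the coordinates is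
a linear form in the coordinates. -/
lemma exists_eta {H A : Type} [AddCommGroup H] [Field A] [CharZero A] {m : ℕ}
    (Ψ : H →+ (Fin m → ℤ)) (g : H →+ A) (h : ∀ a, Ψ a = 0 → g a = 0) :
    ∃ η : Fin m → A, ∀ a, g a = ∑ i, η i * Ψ a i := by
  obtain ⟨f, hf⟩ := (Module.Baer.of_divisible A).extension_property_addMonoidHom
    (QuotientAddGroup.kerLift Ψ) (QuotientAddGroup.kerLift_injective Ψ)
    (QuotientAddGroup.lift Ψ.ker g h)
  refine ⟨fun i => f (Pi.single i 1), fun a => ?_⟩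
  have h1 : f (Ψ a) = g a := DFunLike.congr_fun hf (a : H ⧸ Ψ.ker)
  rw [← h1, ← Finset.univ_sum_single (Ψ a), map_sum]
  refine Finset.sum_congr rfl fun i _ => ?_
  rw [Finset.univ_sum_single, mul_comm, ← zsmul_eq_mul, ← map_zsmul, ← Pi.single_smul,
    smul_eq_mul, mul_one]

/-- Coordinates on a saturated group that contains a given finite set. -/
lemma lat (hL : RowLAT) (hS : RowSEP) {K A : Type} [Field K] [NumberField K] [IsTotallyReal K]
    [Field A] [CharZero A] {P : Finset ℕ} {n : ℕ} (hP : ∀ r ∈ P, r.Prime)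
    (hn : n + 1 = Module.finrank ℚ K + P.card) {l : Kˣ → A}
    (hl : ∀ a ∈ Gam K P, ∀ b ∈ Gam K P, l (a * b) = l a + l b) (Z : Finset Kˣ) {r : ℝ}
    (hr : 0 ≤ r) (hZ : ∀ z ∈ Z, z ∈ Gam K P ∧ Sz K P r z) :
    ∃ (m : ℕ) (Γ : Subgroup Kˣ) (ψ : Kˣ → Fin m → ℤ) (η : Fin m → A), m ≤ n ∧
      (∀ z ∈ Z, z ∈ Γ) ∧ (∀ (z : Kˣ) (k : ℕ), k ≠ 0 → z ^ k ∈ Γ → z ∈ Γ) ∧
      (∀ z ∈ Γ, ∀ k : ℕ, ψ (z ^ k) = k • ψ z) ∧ (∀ z ∈ Γ, ψ z = 0 → z = 1 ∨ z = -1) ∧
      (∀ z ∈ Γ, l z = ∑ i, η i * ψ z i) ∧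
      (∀ z ∈ Z, ∀ i, |(ψ z i : ℝ)| ≤ (2 * n * r / (1 / 20 ^ Module.finrank ℚ K) + 1) ^ n) ∧
      ∀ q : ℕ, 0 < q → ∃ R : Finset Kˣ, R.card ≤ 2 * q ^ m ∧
        ∀ z ∈ Γ, ∃ b ∈ R, ∃ u : Kˣ, z = b * u ^ q := by
  classical
  obtain ⟨Λ, h1, h2⟩ := hS.emb K P n hP hn
  have hpos : (0 : ℝ) < 1 / 20 ^ Module.finrank ℚ K := by positivity
  have two : ∀ a : Additive (Gam K P),
      ((a.toMul : Gam K P) : Kˣ) = 1 ∨ ((a.toMul : Gam K P) : Kˣ) = -1 → 2 • a = 0 := by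
    intro a h
    apply Additive.toMul.injective
    apply Subtype.ext
    rcases h with h | h <;> simp [h]
  have ker : ∀ a : Additive (Gam K P), Λ a = 0 →
      ((a.toMul : Gam K P) : Kˣ) = 1 ∨ ((a.toMul : Gam K P) : Kˣ) = -1 := fun a h =>
    h2 a.toMul (by rw [ofMul_toMul, h, norm_zero]; exact hpos)
  let g : Kˣ → Additive (Gam K P) := fun z =>
    if h : z ∈ Gam K P then Additive.ofMul ⟨z, h⟩ else 0
  have hg : ∀ z (h : z ∈ Gam K P), g z = Additive.ofMul ⟨z, h⟩ := fun z h => dif_pos h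
  obtain ⟨m, H, Ψ, a1, a2, a3, a4, a5, a6⟩ := hL _ n Λ (Z.image g) _ r hpos hr (fun a ha => by
    have := congrArg Λ (two a (h2 a.toMul ha))
    rw [map_nsmul, map_zero] at this
    exact (smul_eq_zero.1 this).resolve_left two_ne_zero) (by
    simp only [Finset.forall_mem_image]
    intro z hz
    rw [hg z (hZ z hz).1]
    exact h1 _ r hr (hZ z hz).2)
  let lG : Additive (Gam K P) →+ A :=
    AddMonoidHom.mk' (fun a => l (a.toMul : Gam K P)) fun a b => hl _ a.toMul.2 _ b.toMul.2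
  obtain ⟨η, hη⟩ := exists_eta Ψ (lG.comp H.subtype) fun a ha => by
    have := congrArg lG (two a (ker a ((a4 a).1 ha)))
    rw [map_nsmul, map_zero] at this
    exact (smul_eq_zero.1 this).resolve_left two_ne_zero
  let Γ : Subgroup Kˣ := H.toSubgroup'.map (Gam K P).subtype
  have hΓ : ∀ z, z ∈ Γ ↔ ∃ h : z ∈ Gam K P, Additive.ofMul (⟨z, h⟩ : Gam K P) ∈ H := fun z =>
    ⟨by rintro ⟨y, hy, rfl⟩; exact ⟨y.2, hy⟩, fun ⟨h, h'⟩ => ⟨⟨z, h⟩, h', rfl⟩⟩
  let ψ : Kˣ → Fin m → ℤ := fun z => if h : g z ∈ H then Ψ ⟨g z, h⟩ else 0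
  have hψ : ∀ z (h : z ∈ Gam K P) (h' : Additive.ofMul (⟨z, h⟩ : Gam K P) ∈ H),
      ψ z = Ψ ⟨_, h'⟩ := fun z h h' => by
    have e := hg z h
    simp only [ψ, dif_pos (e ▸ h' : g z ∈ H)]
    congr 2
  have hZ' : ∀ z (hz : z ∈ Z), Additive.ofMul (⟨z, (hZ z hz).1⟩ : Gam K P) ∈ Z.image g :=
    fun z hz => Finset.mem_image.2 ⟨z, hz, hg z _⟩
  refine ⟨m, Γ, ψ, η, a1, fun z hz => (hΓ z).2 ⟨_, a2 _ (hZ' z hz)⟩, fun z k hk hz => ?_,
    fun z hz k => ?_, fun z hz h0 => ?_, fun z hz => ?_, fun z hz i => ?_, fun q hq => ?_⟩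
  · obtain ⟨⟨k', hk', h⟩, h'⟩ := (hΓ _).1 hz
    have hz' : z ∈ Gam K P := ⟨k * k', mul_ne_zero hk hk', by rwa [pow_mul]⟩
    exact (hΓ z).2 ⟨hz', a3 _ k hk h'⟩
  · obtain ⟨h, h'⟩ := (hΓ _).1 hz
    rw [hψ z h h', hψ (z ^ k) (pow_mem h k) (H.nsmul_mem h' k), ← map_nsmul]
    rfl
  · obtain ⟨h, h'⟩ := (hΓ _).1 hz
    rw [hψ z h h'] at h0
    exact ker _ ((a4 _).1 h0)
  · obtain ⟨h, h'⟩ := (hΓ _).1 hz
    rw [hψ z h h']
    exact hη ⟨_, h'⟩
  · rw [hψ z (hZ z hz).1 (a2 _ (hZ' z hz))]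
    exact a5 _ (hZ' z hz) i
  · obtain ⟨R, b1, b2⟩ := a6 q hq
    let v : Additive (Gam K P) → Kˣ := fun a => (a.toMul : Gam K P)
    refine ⟨R.image v ∪ R.image fun a => -v a, ?_, fun z hz => ?_⟩
    · refine (Finset.card_union_le _ _).trans ?_
      have := Finset.card_image_le (s := R) (f := v)
      have := Finset.card_image_le (s := R) (f := fun a => -v a)
      omega
    · obtain ⟨h, h'⟩ := (hΓ _).1 hz
      obtain ⟨b, hb, a', e⟩ := b2 _ h'
      have e1 : (((Additive.ofMul (⟨z, h⟩ : Gam K P) - b - q • a').toMul : Gam K P) : Kˣ) =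
          z / (v b * v a' ^ q) := by
        simp only [v, toMul_sub, toMul_ofMul, toMul_nsmul, Subgroup.coe_div, Subgroup.coe_pow,
          Subgroup.coe_mul, div_div]
      rcases ker _ e with e | e <;> rw [e1, div_eq_iff_eq_mul] at e
      · exact ⟨_, Finset.mem_union_left _ (Finset.mem_image_of_mem _ hb), v a', by simpa using e⟩
      · exact ⟨_, Finset.mem_union_right _ (Finset.mem_image_of_mem _ hb), v a', by simpa using e⟩

lemma prod_le {m T : ℕ} {x : Fin m → ℤ} {τ : Fin m → ℕ} {U : ℝ} (hU : 1 ≤ U)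
    (hx : ∀ i, |(x i : ℝ)| ≤ U) (hτ : ∑ i, τ i ≤ T) :
    |((∏ i, x i ^ τ i : ℤ) : ℝ)| ≤ U ^ T := by
  push_cast
  rw [Finset.abs_prod]
  calc ∏ i, |(x i : ℝ) ^ τ i| ≤ ∏ i, U ^ τ i := Finset.prod_le_prod (fun _ _ => abs_nonneg _)
        fun i _ => by rw [abs_pow]; exact pow_le_pow_left₀ (abs_nonneg _) (hx i) _
    _ = U ^ ∑ i, τ i := Finset.prod_pow_eq_pow_sum _ _ _
    _ ≤ U ^ T := pow_le_pow_right₀ hU hτ

/-- The elimination of one coordinate. -/
lemma elim {A : Type} [Field A] [CharZero A] {m : ℕ} (η : Fin (m + 1) → A) (b p : Fin (m + 1) → ℤ)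
    (i0 : Fin (m + 1)) (h : b i0 ≠ 0) :
    ∑ i, η i * p i - ∑ i : Fin m, η (i0.succAbove i) / b i0 *
      ((b i0 * p (i0.succAbove i) - b (i0.succAbove i) * p i0 : ℤ) : A) =
      (p i0 : A) / b i0 * ∑ i, η i * b i := by
  have h' : (b i0 : A) ≠ 0 := by exact_mod_cast h
  rw [Fin.sum_univ_succAbove _ i0, Fin.sum_univ_succAbove _ i0, mul_add, Finset.mul_sum,
    add_sub_assoc, ← Finset.sum_sub_distrib]
  congr 1
  · field_simp
  · refine Finset.sum_congr rfl fun i _ => ?_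
    push_cast
    field_simp
    ring

end MID

open MID in
theorem rowMID : RowCORE → RowSIE → RowLAT → RowSEP → RowPAR → RowMID := by
  rintro hC hSi hL hS ⟨C, hC1, hPar⟩
  refine ⟨C, hC1, ?_⟩
  intro K A _ _ _ _ ι E B q κ ρ loc P l X β n T L Λ hP hn hl hX hXX hβ hβ1 hβ2 hβs hρ hκ hκΛ hnΛ
    hL1 hT1 hT2 hT3 hcard
  classical
  by_contra hlt
  rw [not_le] at hlt
  have : CharZero A := (RingHom.charZero_iff ι.injective).1 inferInstance
  set D := Module.finrank ℚ K with hD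
  have hD1 : 1 ≤ D := Module.finrank_pos
  have hq : 2 ≤ q ∧ q ≤ 3 := by rcases loc.q23 with h | h <;> omega
  have hL0 : 0 ≤ L := by linarith
  obtain ⟨m, Γ, ψ, η, a1, a2, a3, a4, a5, a6, a7, a8⟩ := lat hL hS hP hn hl
    (insert β ((X ×ˢ X).image fun p => p.1 / p.2)) (r := max (2 * L) (Real.exp Λ))
    (le_max_of_le_right (Real.exp_pos _).le) (by
      simp only [Finset.forall_mem_insert, Finset.forall_mem_image, Finset.mem_product]
      refine ⟨⟨hβ, sz_mono hβs (le_max_right _ _)⟩, ?_⟩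
      rintro ⟨y, y'⟩ ⟨hy, hy'⟩
      exact ⟨(hXX y hy y' hy').1, sz_mono (hS.quo K P y y' L hL0 hP (hX y hy).1 (hX y' hy').1
        (hX y hy).2.1 (hX y' hy').2.1) (le_max_left _ _)⟩)
  set I := (2 * n * max (2 * L) (Real.exp Λ) / (1 / 20 ^ D) + 1) ^ n with hI
  have hI1 : 1 ≤ I := one_le_pow₀ (le_add_of_nonneg_left (by positivity))
  have hZ : ∀ y ∈ X, ∀ y' ∈ X, y / y' ∈ insert β ((X ×ˢ X).image fun p => p.1 / p.2) :=
    fun y hy y' hy' => Finset.mem_insert_of_mem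
      (Finset.mem_image.2 ⟨(y, y'), Finset.mem_product.2 ⟨hy, hy'⟩, rfl⟩)
  have hβZ := Finset.mem_insert_self β ((X ×ˢ X).image fun p => p.1 / p.2)
  obtain ⟨i0, hi0⟩ : ∃ i, ψ β i ≠ 0 :=
    Function.ne_iff.1 fun h => (a5 β (a2 β hβZ) h).elim hβ1 hβ2
  obtain ⟨m, rfl⟩ : ∃ m', m = m' + 1 := ⟨m - 1, by have := i0.pos; omega⟩
  set e := (T + (n - 1)).choose (n - 1) with he
  have he1 : 1 ≤ e := Nat.choose_pos (Nat.le_add_left _ _)
  obtain ⟨S, J, Δ, w, b1, b2, b3, b4, b5, b6, b7⟩ := hPar n D T q e L Λ κ I hD1 (by omega) loc.q23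
    hκ hκΛ hnΛ hL1 hT1 hT2 hT3 hI he1 ((Nat.choose_add_le_add_one_pow _ _).trans
      (Nat.pow_le_pow_right (by omega) (by omega)))
  obtain ⟨X', hX', hc'⟩ := Finset.exists_subset_card_eq (s := X) (n := 2 * D * S * e) (by
    have : ((2 * D * S * e : ℕ) : ℝ) ≤ X.card := by
      push_cast
      exact (mul_le_mul_of_nonneg_right b4 (Nat.cast_nonneg _)).trans hcard
    exact_mod_cast this)
  have hne : X'.Nonempty := Finset.card_pos.1 (by rw [hc']; positivity)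
  obtain ⟨y0, hy0⟩ := id hne
  have hy0 := hX' hy0
  obtain ⟨s, hs1, hs2⟩ := exists_idx m T
  have hs3 : s.card ≤ e := hs1.trans (by
    rw [he, ← Nat.choose_symm_add, ← Nat.choose_symm_add (b := n - 1)]
    exact Nat.choose_le_choose _ (by omega))
  let x : Kˣ → Fin m → ℤ := fun y i =>
    ψ β i0 * ψ (y / y0) (i0.succAbove i) - ψ β (i0.succAbove i) * ψ (y / y0) i0
  have hU : 1 ≤ 2 * I ^ 2 := by nlinarith
  have hx : ∀ y ∈ X, ∀ i, |(x y i : ℝ)| ≤ 2 * I ^ 2 := fun y hy i => by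
    have h1 := mul_le_mul (a7 β hβZ i0) (a7 _ (hZ y hy y0 hy0) (i0.succAbove i)) (abs_nonneg _)
      (by linarith)
    have h2 := mul_le_mul (a7 β hβZ (i0.succAbove i)) (a7 _ (hZ y hy y0 hy0) i0) (abs_nonneg _)
      (by linarith)
    simp only [x]
    push_cast
    refine (abs_sub _ _).trans ?_
    rw [abs_mul, abs_mul]
    linarith
  have hLD : 0 ≤ L / D := by positivity
  obtain ⟨c, ⟨y1, hy1, hc1⟩, hc2, hc3⟩ := hSi K Kˣ (ℕ × (Fin m → ℕ)) X' (Finset.range S ×ˢ s)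
    (fun u y => ((∏ i, x y i ^ u.2 i : ℤ) : K) * (y : K) ^ (1 + q * u.1))
    ((2 * I ^ 2) ^ T * Real.exp (q * S * L / D))
    (one_le_mul_of_one_le_of_one_le (one_le_pow₀ hU) (Real.one_le_exp (by positivity))) hne (by
      rw [Finset.card_product, Finset.card_range, hc', ← mul_assoc]
      exact Nat.mul_le_mul_left _ hs3) (by
      rintro ⟨i, τ⟩ hu y hy
      obtain ⟨hi, hτ⟩ := Finset.mem_product.1 hu
      have hi : i < S := Finset.mem_range.1 hi
      refine ⟨(isIntegral_algebraMap (R := ℤ)).mul ((hX y (hX' hy)).1.pow _), fun σ => ?_⟩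
      rw [map_mul, map_pow, norm_mul, norm_pow, map_intCast, Complex.norm_intCast]
      refine mul_le_mul (prod_le hU (hx y (hX' hy)) ((hs2 τ).1 hτ)) ?_ (by positivity)
        (by positivity)
      refine (pow_le_pow_left₀ (norm_nonneg _) ((hX y (hX' hy)).2.1 σ) _).trans ?_
      rw [← Real.exp_nat_mul, mul_div_assoc]
      refine Real.exp_le_exp.2 (mul_le_mul_of_nonneg_right ?_ hLD)
      have : 1 + q * i ≤ q * S := by nlinarith
      exact_mod_cast this)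
  obtain ⟨R, hR1, hR2⟩ := a8 q (by omega)
  have hdiff : ∀ y ∈ X, ∀ y' ∈ X, l (y / y0) - l (y' / y0) = l (y / y') := fun y hy y' hy' => by
    rw [sub_eq_iff_eq_add, ← hl _ (hXX y hy y' hy').1 _ (hXX y' hy' y0 hy0).1, div_mul_div_cancel]
  refine hc1 (hC K A ι E B q κ ρ loc Γ R X' m (2 * (n + 1)) J T c x (fun y => l (y / y0))
    (fun i => η (i0.succAbove i) / ψ β i0) (fun j => (j + 1) ^ 2 * S) Δ L w
    (I ^ 2 * Real.exp (-(C * 4 ^ n * Λ ^ 6 * T))) (fun z => a3 z q (by omega)) hR2 ?_ (by omega)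
    hL0 b2 (by positivity) (by linarith) (fun y hy => ?_) (fun y hy y' hy' => ?_)
    (fun τ hτ => ?_) (fun j _ => Nat.mul_pos (by positivity) b1) (fun j hj => ?_) b6
    (fun i hi τ hτ => ?_) y1 hy1)
  · calc R.card ≤ 2 * q ^ (m + 1) := hR1
      _ ≤ 4 * 4 ^ n := Nat.mul_le_mul (by norm_num) ((Nat.pow_le_pow_left (by omega) _).trans
          (Nat.pow_le_pow_right (by norm_num) a1))
      _ = 2 ^ (2 * (n + 1)) := by rw [pow_mul, pow_succ']; norm_num
  · have hy := hX' hy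
    refine ⟨(hX y hy).1, (hX y hy).2.1, (hX y hy).2.2, ?_⟩
    rw [a6 _ (a2 _ (hZ y hy y0 hy0)), elim η (ψ β) (ψ (y / y0)) i0 hi0, ← a6 β (a2 β hβZ),
      norm_mul, sq]
    exact mul_le_mul ((loc.rat _ _).trans (mul_le_mul (a7 _ (hZ y hy y0 hy0) i0) (a7 β hβZ i0)
      (abs_nonneg _) (by linarith))) hlt.le (norm_nonneg _) (by positivity)
  · have hy := hX' hy
    have hy' := hX' hy'
    obtain ⟨-, c2, c3, c4, c5⟩ := hXX y hy y' hy'
    rw [hdiff y hy y' hy']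
    refine ⟨a2 _ (hZ y hy y' hy'), c3, c4, fun j hj => (c5 j).trans
      (mul_le_mul_of_nonneg_left (max_le ?_ (b7 j hj).2.1) hρ), fun z hz e => ?_⟩
    · exact_mod_cast (b7 j hj).1
    · have e1 : y / y' = z ^ q ^ J := by rw [← e, mul_div_cancel_right]
      have e2 : ψ (y / y') = 0 := by
        funext i
        have h1 := (a7 _ (hZ y hy y' hy') i).trans_lt b3
        rw [e1, a4 z hz] at h1 ⊢
        have h2 : |((q ^ J : ℕ) : ℤ) * ψ z i| < ((q ^ J : ℕ) : ℤ) := by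
          have : (((q ^ J) • ψ z) i) = ((q ^ J : ℕ) : ℤ) * ψ z i := by simp
          rw [this] at h1
          exact_mod_cast h1
        rw [abs_mul, abs_of_nonneg (Int.natCast_nonneg _)] at h2
        have h3 : |ψ z i| < 1 := lt_of_mul_lt_mul_left (by rwa [mul_one]) (Int.natCast_nonneg _)
        simp [Int.abs_lt_one_iff.1 h3]
      rcases a5 _ (a2 _ (hZ y hy y' hy')) e2 with h | h
      · exact div_eq_one.1 h
      · exact absurd (by simpa using div_eq_iff_eq_mul.1 h) c2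
  · refine le_trans ?_ b5
    rw [mul_assoc]
    refine (Finset.sum_le_card_nsmul _ _ _ fun y hy => ?_).trans_eq
      (by rw [nsmul_eq_mul, hc']; push_cast; rfl)
    rw [Int.cast_mul, abs_mul]
    refine mul_le_mul ((hc2 y hy).trans_eq ?_) (prod_le hU (hx y (hX' hy)) hτ) (abs_nonneg _)
      (by positivity)
    rw [hc']; push_cast; rfl
  · exact ⟨by
      rw [← mul_assoc]
      exact Nat.mul_le_mul_right _ (by nlinarith), (b7 j hj).1, (b7 j hj).2.2.1, (b7 j hj).2.2.2⟩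
  · have := hc3 (i, τ) (Finset.mem_product.2 ⟨Finset.mem_range.2 (by simpa using hi),
      (hs2 τ).2 hτ⟩)
    simpa only [Int.cast_mul, mul_assoc] using this

end Pool.Agent.MP_542436_nt.H96
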