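import Pool.Agent.MP_542436_nt.H96.Spec

/-! Bounds for the remainder and the quotient in the division by a product of linear factors. -/

namespace Pool.Agent.MP_542436_nt.H96

namespace NEW

open Polynomial

section Alg

variable {A : Type} [Field A]

/-- Division by a product with one more linear factor. -/
lemma step (c a : A) (P W : A[X]) (hW : W.Monic) :
    (C c + (X - C a) * P) /ₘ ((X - C a) * W) = P /ₘ W ∧
      (C c + (X - C a) * P) %ₘ ((X - C a) * W) = C c + (X - C a) * (P %ₘ W) := by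
  refine div_modByMonic_unique _ _ ((monic_X_sub_C a).mul hW) ⟨?_, ?_⟩
  · conv_rhs => rw [← modByMonic_add_div P W]
    ring
  · refine (degree_add_le _ _).trans_lt (max_lt ?_ ?_)
    · refine degree_C_le.trans_lt ?_
      rw [degree_mul, degree_X_sub_C, degree_eq_natDegree hW.ne_zero]
      norm_cast
      omega
    · rw [degree_mul, degree_mul, degree_X_sub_C]
      exact WithBot.add_lt_add_left WithBot.one_ne_bot (degree_modByMonic_lt P hW)

lemma split (P : A[X]) (a : A) : P = C (P.eval a) + (X - C a) * (P /ₘ (X - C a)) := by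
  rw [← modByMonic_X_sub_C_eq_C_eval, modByMonic_add_div]

lemma hasse_succ (c a r : A) (P : A[X]) (k : ℕ) :
    (hasseDeriv (k + 1) (C c + (X - C a) * P)).eval r =
      (hasseDeriv k P).eval r + (r - a) * (hasseDeriv (k + 1) P).eval r := by
  simp only [← taylor_coeff]
  rw [map_add, taylor_mul, map_sub, taylor_X, taylor_C, taylor_C, add_sub_assoc, ← C_sub, add_mul,
    coeff_add, coeff_add, coeff_C_succ, coeff_X_mul, coeff_C_mul, zero_add]

/-- The product of the linear factors attached to a list of nodes. -/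
noncomputable def Wl (l : List A) : A[X] := (l.map fun a => X - C a).prod

lemma Wl_cons (a : A) (l : List A) : Wl (a :: l) = (X - C a) * Wl l := rfl

lemma Wl_monic : ∀ l : List A, (Wl l).Monic
  | [] => monic_one
  | a :: l => (monic_X_sub_C a).mul (Wl_monic l)

lemma Wz_eq (ν : ℕ → A) (Δ : ℕ) :
    ∀ S, ∃ l : List A, l.length = S * Δ ∧ (∀ a ∈ l, ∃ i < S, a = ν i) ∧ Wz ν S Δ = Wl l
  | 0 => ⟨[], by simp, by simp, rfl⟩
  | S + 1 => by
    obtain ⟨l, h1, h2, h3⟩ := Wz_eq ν Δ S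
    refine ⟨l ++ List.replicate Δ (ν S), by simp [h1, add_mul], fun a ha => ?_, ?_⟩
    · rcases List.mem_append.1 ha with ha | ha
      · obtain ⟨i, hi, e⟩ := h2 a ha
        exact ⟨i, by omega, e⟩
      · exact ⟨S, by omega, List.eq_of_mem_replicate ha⟩
    · unfold Wz Wl at *
      rw [Finset.prod_range_succ, h3]
      simp

lemma quo_zero (a : A) (l : List A) : X ^ 0 /ₘ Wl (a :: l) = 0 := by
  have := (step 1 a 0 _ (Wl_monic l)).1
  simpa [Wl_cons] using this

lemma quo_succ (a : A) (l : List A) (k : ℕ) :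
    X ^ (k + 1) /ₘ Wl (a :: l) = C a * (X ^ k /ₘ Wl (a :: l)) + X ^ k /ₘ Wl l := by
  have hm := Wl_monic (a :: l)
  have h1 := modByMonic_add_div (X ^ k) (Wl (a :: l))
  have h2 := modByMonic_add_div (X ^ k) (Wl l)
  refine (div_modByMonic_unique _ (C a * (X ^ k %ₘ Wl (a :: l)) + (X - C a) * (X ^ k %ₘ Wl l)) hm
    ⟨?_, (degree_add_le _ _).trans_lt (max_lt ?_ ?_)⟩).1
  · rw [Wl_cons] at *
    linear_combination C a * h1 + (X - C a) * h2
  · rw [← smul_eq_C_mul]
    exact (degree_smul_le _ _).trans_lt (degree_modByMonic_lt _ hm)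
  · rw [Wl_cons, degree_mul, degree_mul, degree_X_sub_C]
    exact WithBot.add_lt_add_left WithBot.one_ne_bot (degree_modByMonic_lt _ (Wl_monic l))

end Alg

variable {A : Type} [NormedField A]

lemma quo_le {Z : ℝ} {x : A} (hx : ‖x‖ ≤ Z) : ∀ (k : ℕ) (l : List A), (∀ a ∈ l, ‖a‖ ≤ Z) →
    ‖(X ^ k /ₘ Wl l).eval x‖ ≤ (k.choose l.length : ℝ) * Z ^ (k - l.length)
  | k, [], _ => by
    have := pow_le_pow_left₀ (norm_nonneg x) hx k
    simpa [Wl] using this
  | 0, a :: l, _ => by rw [quo_zero]; simp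
  | k + 1, a :: l, h => by
    have hZ : 0 ≤ Z := (norm_nonneg x).trans hx
    have h1 := quo_le hx k (a :: l) h
    have h2 := quo_le hx k l fun b hb => h b (List.mem_cons_of_mem _ hb)
    have h3 : Z * ((k.choose (l.length + 1) : ℝ) * Z ^ (k - (l.length + 1))) =
        (k.choose (l.length + 1) : ℝ) * Z ^ (k - l.length) := by
      rcases lt_or_ge k (l.length + 1) with hk | hk
      · simp [Nat.choose_eq_zero_of_lt hk]
      · rw [show k - l.length = k - (l.length + 1) + 1 by omega, pow_succ]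
        ring
    rw [quo_succ, eval_add, eval_mul, eval_C, List.length_cons, Nat.add_sub_add_right,
      Nat.choose_succ_succ', Nat.cast_add, add_mul, add_comm ((k.choose l.length : ℝ) * _), ← h3]
    refine (norm_add_le _ _).trans (add_le_add ?_ h2)
    rw [norm_mul]
    exact mul_le_mul (h a List.mem_cons_self) h1 (norm_nonneg _) hZ

lemma ult_le [IsUltrametricDist A] {x : A} (hx : ‖x‖ ≤ 1) : ∀ (k : ℕ) (l : List A),
    (∀ a ∈ l, ‖a‖ ≤ 1) → ‖(X ^ k /ₘ Wl l).eval x‖ ≤ 1
  | k, [], _ => by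
    have := pow_le_one₀ (n := k) (norm_nonneg x) hx
    simpa [Wl] using this
  | 0, a :: l, _ => by rw [quo_zero]; simp
  | k + 1, a :: l, h => by
    have h1 := ult_le hx k (a :: l) h
    have h2 := ult_le hx k l fun b hb => h b (List.mem_cons_of_mem _ hb)
    rw [quo_succ, eval_add, eval_mul, eval_C]
    refine (IsUltrametricDist.norm_add_le_max _ _).trans (max_le ?_ h2)
    rw [norm_mul]
    exact mul_le_one₀ (h a List.mem_cons_self) (norm_nonneg _) h1

/-- The derivatives of the difference quotient at another node. -/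
lemma other {c a r : A} {P : A[X]} {ω ε : ℝ} (hω : 0 < ω) (har : 2 * ω ≤ ‖r - a‖) (hc : ‖c‖ ≤ ε)
    {m : ℕ} (h : ∀ k < m, ‖(hasseDeriv k (C c + (X - C a) * P)).eval r‖ * ω ^ k ≤ ε) :
    ∀ k < m, ‖(hasseDeriv k P).eval r‖ * ω ^ k ≤ ε / ω := by
  intro k
  induction k with
  | zero =>
    intro hk
    have h0 := h 0 hk
    simp only [hasseDeriv_zero', pow_zero, mul_one, eval_add, eval_C, eval_mul, eval_sub,
      eval_X] at h0 ⊢
    have h1 := norm_sub_le (c + (r - a) * P.eval r) c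
    rw [add_sub_cancel_left, norm_mul] at h1
    rw [le_div_iff₀ hω]
    nlinarith [norm_nonneg (P.eval r)]
  | succ k ih =>
    intro hk
    have h0 := h _ hk
    have h2 := ih (by omega)
    rw [hasse_succ] at h0
    set u := (hasseDeriv k P).eval r
    set v := (hasseDeriv (k + 1) P).eval r
    have h1 := norm_sub_le (u + (r - a) * v) u
    rw [add_sub_cancel_left, norm_mul] at h1
    rw [le_div_iff₀ hω] at h2 ⊢
    have hp : 0 < ω ^ (k + 1) := pow_pos hω _
    have h3 : 2 * ω * ‖v‖ ≤ ‖u + (r - a) * v‖ + ‖u‖ :=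
      (mul_le_mul_of_nonneg_right har (norm_nonneg v)).trans h1
    have h4 := mul_le_mul_of_nonneg_right h3 hp.le
    rw [mul_assoc, ← pow_succ] at h2
    nlinarith

lemma rem_le (ν : ℕ → A) (S : ℕ) {ω Z : ℝ} {x : A} (hω : 0 < ω) (hωZ : ω ≤ Z)
    (hν : ∀ i < S, ∀ i' < S, i ≠ i' → 2 * ω ≤ ‖ν i - ν i'‖) (hx : ∀ i < S, ‖x - ν i‖ ≤ Z) :
    ∀ (N : ℕ) (m : ℕ → ℕ) (P : A[X]) (ε : ℝ), ∑ i ∈ Finset.range S, m i = N → 0 ≤ ε →
      (∀ i < S, ∀ k < m i, ‖(hasseDeriv k P).eval (ν i)‖ * ω ^ k ≤ ε) →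
      ‖(P %ₘ ∏ i ∈ Finset.range S, (X - C (ν i)) ^ m i).eval x‖ ≤ ε * (2 * Z / ω) ^ N := by
  intro N
  induction N with
  | zero =>
    intro m P ε hm hε _
    rw [Finset.prod_eq_one fun i hi => by rw [Finset.sum_eq_zero_iff.1 hm i hi, pow_zero]]
    simpa using hε
  | succ N ih =>
    intro m P ε hm hε h
    obtain ⟨j, hj, hmj⟩ := Finset.exists_ne_zero_of_sum_ne_zero (hm.trans_ne (Nat.succ_ne_zero N))
    have hjS : j < S := Finset.mem_range.1 hj
    obtain ⟨n, hn⟩ := Nat.exists_eq_succ_of_ne_zero hmj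
    let m' : ℕ → ℕ := Function.update m j n
    have e1 : ∀ i ∈ (Finset.range S).erase j, m' i = m i := fun i hi =>
      Function.update_of_ne (Finset.ne_of_mem_erase hi) _ _
    have e2 : m' j = n := Function.update_self _ _ _
    have hm' : ∑ i ∈ Finset.range S, m' i = N := by
      rw [← Finset.add_sum_erase _ _ hj, hn, Nat.succ_add] at hm
      rw [← Finset.add_sum_erase _ _ hj, Finset.sum_congr rfl e1, e2]
      exact Nat.succ.inj hm
    have hW : ∏ i ∈ Finset.range S, (X - C (ν i)) ^ m i =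
        (X - C (ν j)) * ∏ i ∈ Finset.range S, (X - C (ν i)) ^ m' i := by
      rw [← Finset.mul_prod_erase _ _ hj, ← Finset.mul_prod_erase _ _ hj, e2, hn, ← mul_assoc,
        ← pow_succ']
      exact congrArg _ (Finset.prod_congr rfl fun i hi => by rw [e1 i hi])
    have hc : ‖P.eval (ν j)‖ ≤ ε := by simpa using h j hjS 0 (by omega)
    obtain ⟨c, Q, hc', rfl⟩ : ∃ c Q, ‖c‖ ≤ ε ∧ P = C c + (X - C (ν j)) * Q :=
      ⟨_, _, hc, split P (ν j)⟩
    have h1 := ih m' Q (ε / ω) hm' (div_nonneg hε hω.le) fun i hi k hk => by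
      by_cases e : i = j
      · subst e
        have := h i hi (k + 1) (by omega)
        rw [hasse_succ, sub_self, zero_mul, add_zero] at this
        rw [le_div_iff₀ hω, mul_assoc, ← pow_succ]
        exact this
      · rw [e1 i (Finset.mem_erase.2 ⟨e, Finset.mem_range.2 hi⟩)] at hk
        exact other hω (hν i hi j hjS e) hc' (h i hi) k hk
    rw [hW, (step _ _ _ _ (monic_prod_of_monic _ _ fun i _ => (monic_X_sub_C _).pow _)).2, eval_add,
      eval_C, eval_mul, eval_sub, eval_X, eval_C]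
    have h2 : 1 ≤ Z / ω := (one_le_div hω).2 hωZ
    have h3 : 1 ≤ (2 * Z / ω) ^ N := one_le_pow₀ (by rw [mul_div_assoc]; linarith)
    have h4 : 1 ≤ Z / ω * (2 * Z / ω) ^ N := one_le_mul_of_one_le_of_one_le h2 h3
    refine (norm_add_le _ _).trans ?_
    rw [norm_mul]
    have h5 := mul_le_mul (hx j hjS) h1 (norm_nonneg _) (hω.le.trans hωZ)
    have h6 : ε * (2 * Z / ω) ^ (N + 1) =
        ε * (Z / ω * (2 * Z / ω) ^ N) + Z * (ε / ω * (2 * Z / ω) ^ N) := by ring
    have h7 := mul_le_mul_of_nonneg_left h4 hε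
    linarith

end NEW

theorem rowNEW : RowNEW where
  rem A _ P ν S Δ ω Z ε x h0 h1 hZ hε hν hx h :=
    NEW.rem_le ν S h0 (h1.trans hZ) hν hx (S * Δ) (fun _ => Δ) P ε (by simp) hε fun i hi k hk =>
      (mul_le_of_le_one_right (norm_nonneg _) (pow_le_one₀ h0.le h1)).trans (h i hi k hk)
  quo A _ ν S Δ k Z x hx h := by
    obtain ⟨l, h1, h2, h3⟩ := NEW.Wz_eq ν Δ S
    rw [h3, ← h1]
    refine NEW.quo_le hx k l fun a ha => ?_
    obtain ⟨i, hi, rfl⟩ := h2 a ha
    exact h i hi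
  ult A _ _ ν S Δ k x hx h := by
    obtain ⟨l, -, h2, h3⟩ := NEW.Wz_eq ν Δ S
    rw [h3]
    refine NEW.ult_le hx k l fun a ha => ?_
    obtain ⟨i, hi, rfl⟩ := h2 a ha
    exact h i hi

end Pool.Agent.MP_542436_nt.H96
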