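import Pool.Agent.MP_542436_nt.H96.Spec

/-! The choice of the parameters over the rational numbers: the `p`-adic bound. -/

namespace Pool.Agent.MP_542436_nt.H96

namespace P2

theorem count (hA : RowARI) (m T : ℕ) (hm : 1 ≤ m) (hT : m ≤ T) (X : ℝ) (hX : 0 ≤ X)
    (h : X * m * (1296 * Real.exp 1) ^ m ≤ 2 * T) :
    X * ((T + (m - 1)).choose (m - 1) : ℝ) ≤ ((T : ℝ) / 648 / m) ^ m := by
  have hb := hA.bin m T hm hT
  have hm0 : (0 : ℝ) < m := by exact_mod_cast hm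
  have hT0 : (0 : ℝ) < T := by exact_mod_cast (lt_of_lt_of_le hm hT : 0 < T)
  have e1 : ((T : ℝ) / 648 / m) ^ m = (T : ℝ) ^ m / (648 ^ m * (m : ℝ) ^ m) := by
    rw [div_div, div_pow, mul_pow]
  have e2 : (1296 * Real.exp 1) ^ m * (T : ℝ) ^ m = 648 ^ m * (2 * Real.exp 1 * T) ^ m := by
    rw [← mul_pow, ← mul_pow]
    congr 1
    ring
  rw [e1, le_div_iff₀ (by positivity)]
  have h1 : X * ((T + (m - 1)).choose (m - 1) : ℝ) * (648 ^ m * (m : ℝ) ^ m) * (2 * T) ≤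
      (T : ℝ) ^ m * (2 * T) := by
    calc X * ((T + (m - 1)).choose (m - 1) : ℝ) * (648 ^ m * (m : ℝ) ^ m) * (2 * T)
        = X * 648 ^ m * (((T + (m - 1)).choose (m - 1) : ℝ) * (2 * T) * (m : ℝ) ^ m) := by ring
      _ ≤ X * 648 ^ m * (m * (2 * Real.exp 1 * T) ^ m) :=
          mul_le_mul_of_nonneg_left hb (by positivity)
      _ = X * m * (648 ^ m * (2 * Real.exp 1 * T) ^ m) := by ring
      _ = X * m * (1296 * Real.exp 1) ^ m * (T : ℝ) ^ m := by rw [← e2]; ring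
      _ ≤ 2 * T * (T : ℝ) ^ m := mul_le_mul_of_nonneg_right h (by positivity)
      _ = (T : ℝ) ^ m * (2 * T) := by ring
  exact le_of_mul_le_mul_right h1 (by positivity)

theorem le_exp (x : ℝ) : x ≤ Real.exp x := by
  have := Real.add_one_le_exp x
  linarith

theorem six (x : ℝ) (hx : 0 ≤ x) : x ^ 6 ≤ 46080 * Real.exp (x / 2) := by
  have h := Real.pow_div_factorial_le_exp (x / 2) (by positivity) 6
  have e : (x / 2) ^ 6 / ((Nat.factorial 6 : ℕ) : ℝ) = x ^ 6 / 46080 := by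
    norm_num [Nat.factorial]
    ring
  rw [e, div_le_iff₀ (by norm_num)] at h
  linarith

theorem par (hA : RowARI) (C B : ℝ) (hC : 1 ≤ C) (hB : 1 ≤ B) :
    ∃ C' : ℝ, 1 ≤ C' ∧ ∀ (m : ℕ) (H Lp Q p : ℝ), 1 ≤ m → 1 ≤ H → (m : ℝ) ≤ H → 1 / 2 ≤ Lp →
      Lp ≤ Real.exp H → 1 ≤ p → p ≤ Real.exp H → 0 ≤ Q → Q ≤ B ^ (m + 1) * p →
      ∃ (Λ : ℝ) (T : ℕ), (m + 1 : ℝ) ≤ Λ ∧ 2 * H ≤ Λ ∧ (T : ℝ) ≤ Real.exp Λ ∧ C * Λ ^ 3 ≤ T ∧
        (648 : ℝ) ≤ T ∧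
        C * Λ ^ 5 * ((T + (m - 1)).choose (m - 1) : ℝ) * Q * Lp ≤ ((T : ℝ) / 648 / m) ^ m ∧
        C * 4 ^ m * Λ ^ 6 * T ≤ C' ^ (m + 1) * p * Lp * H ^ 12 := by
  have he : (1 : ℝ) ≤ Real.exp 1 := Real.one_le_exp (by norm_num)
  obtain ⟨A, hAd⟩ : ∃ A : ℝ, A = 1296 * Real.exp 1 * B := ⟨_, rfl⟩
  have hA1 : 1296 ≤ A := by
    have : 1 ≤ Real.exp 1 * B := one_le_mul_of_one_le_of_one_le he hB
    rw [hAd]
    nlinarith
  obtain ⟨c, hc⟩ : ∃ c : ℝ, c = 2 * (92160 * C + 2 * A + 2) := ⟨_, rfl⟩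
  have hc2 : 2 ≤ c := by rw [hc]; nlinarith
  have hD : 1 ≤ 2 * C ^ 2 * c ^ 12 := by
    have h1 : 1 ≤ C ^ 2 := one_le_pow₀ hC
    have h2 : 1 ≤ c ^ 12 := one_le_pow₀ (by linarith)
    nlinarith
  refine ⟨2 * C ^ 2 * c ^ 12 * 4 * A, by nlinarith, ?_⟩
  intro m H Lp Q p hm hH hmH hL hLH hp hpH hQ hQB
  have hm1 : (1 : ℝ) ≤ m := by exact_mod_cast hm
  obtain ⟨Λ, hΛ⟩ : ∃ Λ : ℝ, Λ = c * H := ⟨_, rfl⟩
  have h2H : 2 * H ≤ Λ := by rw [hΛ]; nlinarith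
  have hmΛ : (m + 1 : ℝ) ≤ Λ := by linarith
  have hΛ1 : 1 ≤ Λ := by linarith
  obtain ⟨Z, hZ⟩ : ∃ Z : ℝ, Z = A ^ (m + 1) * p * Lp := ⟨_, rfl⟩
  have hAm : A ≤ A ^ (m + 1) := le_self_pow₀ (by linarith) (by omega)
  have hZ1 : 648 ≤ Z := by
    have h1 : 1296 ≤ A ^ (m + 1) * p := by nlinarith
    rw [hZ]
    nlinarith
  have h6 : Λ ≤ Λ ^ 6 := le_self_pow₀ hΛ1 (by omega)
  have h36 : Λ ^ 3 ≤ Λ ^ 6 := pow_le_pow_right₀ hΛ1 (by omega)
  have hCL : Λ ^ 6 ≤ C * Λ ^ 6 := le_mul_of_one_le_left (by positivity) hC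
  obtain ⟨x, hx⟩ : ∃ x : ℝ, x = C * Λ ^ 6 * Z := ⟨_, rfl⟩
  have hx1 : C * Λ ^ 6 ≤ x := by
    rw [hx]
    exact le_mul_of_one_le_right (by positivity) (by linarith)
  have hx2 : 648 ≤ x := by
    rw [hx]
    nlinarith
  have hT1 : x ≤ (⌈x⌉₊ : ℝ) := Nat.le_ceil x
  have hT2 : (⌈x⌉₊ : ℝ) ≤ 2 * x := by
    have := Nat.ceil_lt_add_one (a := x) (by linarith)
    linarith
  refine ⟨Λ, ⌈x⌉₊, hmΛ, h2H, ?_, ?_, by linarith, ?_, ?_⟩
  · have k1 : A ^ (m + 1) ≤ Real.exp (2 * A * H) := by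
      calc A ^ (m + 1) ≤ Real.exp A ^ (m + 1) := pow_le_pow_left₀ (by linarith) (le_exp A) _
        _ = Real.exp (((m + 1 : ℕ) : ℝ) * A) := (Real.exp_nat_mul A (m + 1)).symm
        _ ≤ Real.exp (2 * A * H) := by
            apply Real.exp_le_exp.2
            push_cast
            nlinarith
    have k2 : 92160 * C ≤ Real.exp (92160 * C * H) :=
      (le_exp _).trans (Real.exp_le_exp.2 (by nlinarith))
    have k3 := six Λ (by linarith)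
    have k4 : Z ≤ Real.exp (2 * A * H) * Real.exp H * Real.exp H := by
      rw [hZ]
      gcongr
    calc (⌈x⌉₊ : ℝ) ≤ 2 * (C * Λ ^ 6 * Z) := by rw [← hx]; exact hT2
      _ ≤ 2 * (C * (46080 * Real.exp (Λ / 2)) *
            (Real.exp (2 * A * H) * Real.exp H * Real.exp H)) := by gcongr
      _ = 92160 * C * Real.exp (Λ / 2) * (Real.exp (2 * A * H) * Real.exp H * Real.exp H) := by
          ring
      _ ≤ Real.exp (92160 * C * H) * Real.exp (Λ / 2) *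
            (Real.exp (2 * A * H) * Real.exp H * Real.exp H) := by gcongr
      _ = Real.exp Λ := by
          simp only [← Real.exp_add]
          congr 1
          rw [hΛ, hc]
          ring
  · have : C * Λ ^ 3 ≤ C * Λ ^ 6 := by gcongr
    linarith
  · have hmT : m ≤ ⌈x⌉₊ := by
      have : (m : ℝ) ≤ (⌈x⌉₊ : ℝ) := by linarith
      exact_mod_cast this
    have := count hA m ⌈x⌉₊ hm hmT (C * Λ ^ 5 * Q * Lp) (by positivity) (by
      have k1 : (1296 * Real.exp 1) ^ m ≤ (1296 * Real.exp 1) ^ (m + 1) :=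
        pow_le_pow_right₀ (by linarith) (by omega)
      calc C * Λ ^ 5 * Q * Lp * m * (1296 * Real.exp 1) ^ m
          ≤ C * Λ ^ 5 * (B ^ (m + 1) * p) * Lp * Λ * (1296 * Real.exp 1) ^ (m + 1) := by
            gcongr
            linarith
        _ = x := by
            rw [hx, hZ, hAd, mul_pow (1296 * Real.exp 1) B]
            ring
        _ ≤ 2 * (⌈x⌉₊ : ℝ) := by linarith)
    calc _ = C * Λ ^ 5 * Q * Lp * ((⌈x⌉₊ + (m - 1)).choose (m - 1) : ℝ) := by ring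
      _ ≤ _ := this
  · have k1 : 2 * C ^ 2 * c ^ 12 ≤ (2 * C ^ 2 * c ^ 12) ^ (m + 1) := le_self_pow₀ hD (by omega)
    have k2 : (4 : ℝ) ^ m ≤ 4 ^ (m + 1) := pow_le_pow_right₀ (by norm_num) (by omega)
    calc C * 4 ^ m * Λ ^ 6 * (⌈x⌉₊ : ℝ) ≤ C * 4 ^ m * Λ ^ 6 * (2 * x) := by gcongr
      _ = 2 * C ^ 2 * c ^ 12 * 4 ^ m * A ^ (m + 1) * p * Lp * H ^ 12 := by
          rw [hx, hZ, hΛ]
          ring
      _ ≤ (2 * C ^ 2 * c ^ 12) ^ (m + 1) * 4 ^ (m + 1) * A ^ (m + 1) * p * Lp * H ^ 12 := by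
          gcongr
      _ = _ := by rw [← mul_pow, ← mul_pow]

theorem frm {P : Finset ℕ} {b : ℕ → ℤ} {H Λ : ℝ} (h : Frm P b H) (hΛ : 2 * H ≤ Λ) :
    1 ≤ P.card ∧ ∏ r ∈ P, Real.log r ≤ Real.exp H ∧ (∀ r ∈ P, |(b r : ℝ)| ≤ Real.exp Λ) ∧
      ∑ r ∈ P, |(b r : ℝ)| * Real.log r ≤ Real.exp Λ := by
  have h1 := h.one
  have hl : ∀ r ∈ P, 0 ≤ Real.log r := fun r _ => Real.log_natCast_nonneg r
  refine ⟨?_, ?_, ?_, ?_⟩
  · obtain ⟨r, hr, -⟩ := h.ne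
    exact Finset.card_pos.2 ⟨r, hr⟩
  · calc ∏ r ∈ P, Real.log r ≤ ∏ r ∈ P, Real.exp (Real.log r) :=
          Finset.prod_le_prod hl fun r _ => le_exp _
      _ = Real.exp (∑ r ∈ P, Real.log r) := (Real.exp_sum P _).symm
      _ ≤ Real.exp H := Real.exp_le_exp.2 h.sum
  · intro r hr
    exact (h.coef r hr).trans (Real.exp_le_exp.2 (by linarith))
  · calc ∑ r ∈ P, |(b r : ℝ)| * Real.log r ≤ ∑ r ∈ P, Real.exp H * Real.log r :=
          Finset.sum_le_sum fun r hr => mul_le_mul_of_nonneg_right (h.coef r hr) (hl r hr)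
      _ = Real.exp H * ∑ r ∈ P, Real.log r := (Finset.mul_sum _ _ _).symm
      _ ≤ Real.exp H * Real.exp H :=
          mul_le_mul_of_nonneg_left (h.sum.trans (le_exp H)) (Real.exp_pos H).le
      _ = Real.exp (2 * H) := by rw [← Real.exp_add, two_mul]
      _ ≤ Real.exp Λ := Real.exp_le_exp.2 hΛ

end P2

theorem rowP2 : RowPAD → RowARI → RowP2 := by
  rintro ⟨C, hC, hP⟩ hA
  have he : (1 : ℝ) ≤ Real.exp 1 := Real.one_le_exp (by norm_num)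
  obtain ⟨C', hC', hpar⟩ := P2.par hA C (2 * Real.exp 1) hC (by linarith)
  refine ⟨C', 12, hC', ?_⟩
  intro p hp P b H hF hpP hlog
  have hp1 : (1 : ℝ) < p := by exact_mod_cast hp.out.one_lt
  have hκ : (1 : ℝ) ≤ (P.card + 1 : ℝ) := by
    have : (0 : ℝ) ≤ P.card := Nat.cast_nonneg _
    linarith
  have hκe : 1 ≤ Real.exp (P.card + 1 : ℝ) := Real.one_le_exp (by linarith)
  obtain ⟨a, ha1, ha2⟩ := exists_nat_pow_near (x := 2 * Real.exp (P.card + 1 : ℝ)) (y := (p : ℝ))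
    (by linarith) hp1
  have hpH : (p : ℝ) ≤ Real.exp H := by
    rw [← Real.exp_log (by linarith : (0 : ℝ) < p)]
    exact Real.exp_le_exp.2 hlog
  have hQ : (p : ℝ) ^ (a + 1) ≤ (2 * Real.exp 1) ^ (P.card + 1) * p := by
    rw [pow_succ]
    refine mul_le_mul_of_nonneg_right (ha1.trans ?_) (by linarith)
    rw [mul_pow, ← Real.exp_nat_mul]
    have k : (2 : ℝ) ≤ 2 ^ (P.card + 1) := le_self_pow₀ (by norm_num) (by omega)
    push_cast
    rw [mul_one]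
    gcongr
  obtain ⟨hm, hL, -, -⟩ := P2.frm hF (le_refl _)
  obtain ⟨Λ, T, h1, h2, h3, h4, h5, h6, h7⟩ := hpar P.card H (∏ r ∈ P, Real.log r)
    ((p : ℝ) ^ (a + 1)) p hm hF.one hF.card (hA.low P hF.prime) hL hp1.le hpH (by positivity) hQ
  obtain ⟨-, -, hb1, hb2⟩ := P2.frm hF h2
  have ht : (1 : ℝ) ≤ (T : ℝ) / 648 := by
    rw [le_div_iff₀ (by norm_num)]
    linarith
  have key := hP p ℚ (Rat.castHom ℚ_[p]) P b {1} (a + 1) P.card T ((T : ℝ) / 648)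
    (P.card + 1 : ℝ) Λ hF.prime hpP hF.ne (by simp [add_comm]) (by
      intro y hy
      rw [Finset.mem_singleton.1 hy]
      refine ⟨by simpa using isIntegral_one, fun σ => ?_⟩
      simpa using (by linarith : (0 : ℝ) ≤ (T : ℝ) / 648)) (by
      intro y hy y' hy'
      rw [Finset.mem_singleton.1 hy, Finset.mem_singleton.1 hy']
      simpa using isIntegral_one) ha2.le hκ h1 h1 ht (by simpa using hb1) hb2 h3 h4
    (by simp only [Module.finrank_self, Nat.cast_one]; exact le_of_eq (by ring))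
    (by simpa using h6)
  exact (Real.exp_le_exp.2 (neg_le_neg h7)).trans key

end Pool.Agent.MP_542436_nt.H96
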