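import Pool.Agent.MP_542436_nt.H96.Spec

/-! The `p`-adic instance of the abstract lower bound. -/

namespace Pool.Agent.MP_542436_nt.H96

open NumberField

namespace PAD

section Units

variable (K : Type) [Field K] [NumberField K]

open Classical in
/-- a positive integer as a unit of the field -/
noncomputable def U (z : ℕ) : Kˣ := if h : (z : K) ≠ 0 then Units.mk0 (z : K) h else 1

variable {K}

theorem U_val {z : ℕ} (hz : 0 < z) : (U K z : K) = z := by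
  have h : (z : K) ≠ 0 := Nat.cast_ne_zero.2 hz.ne'
  unfold U
  rw [dif_pos h]
  rfl

theorem mem_Gam_of {P : Finset ℕ} {z : Kˣ}
    (h : z ∈ (Units.map (algebraMap (𝓞 K) K : 𝓞 K →* K)).range ⊔
      Subgroup.closure {u : Kˣ | ∃ r ∈ P, (u : K) = r}) : z ∈ Gam K P :=
  ⟨1, one_ne_zero, by simpa using h⟩

theorem U_prime_mem {P : Finset ℕ} (hP : ∀ r ∈ P, r.Prime) {r : ℕ} (hr : r ∈ P) :
    U K r ∈ Gam K P :=
  mem_Gam_of (Subgroup.mem_sup_right (Subgroup.subset_closure ⟨r, hr, U_val (hP r hr).pos⟩))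

theorem U_prod_mem {P : Finset ℕ} (hP : ∀ r ∈ P, r.Prime) (e : ℕ → ℕ) :
    U K (∏ r ∈ P, r ^ e r) ∈ Gam K P := by
  have h : U K (∏ r ∈ P, r ^ e r) = ∏ r ∈ P, U K r ^ e r := by
    apply Units.ext
    rw [U_val (Finset.prod_pos fun r hr => pow_pos (hP r hr).pos _), Units.coe_prod]
    push_cast
    exact Finset.prod_congr rfl fun r hr => by rw [U_val (hP r hr).pos]
  rw [h]
  exact prod_mem fun r hr => pow_mem (U_prime_mem hP hr) _

theorem unit_mem {P : Finset ℕ} {z : Kˣ} (h : IsIntegral ℤ (z : K))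
    (h' : IsIntegral ℤ ((z⁻¹ : Kˣ) : K)) : z ∈ Gam K P := by
  refine mem_Gam_of (Subgroup.mem_sup_left ⟨⟨⟨z, h⟩, ⟨(z⁻¹ : Kˣ), h'⟩, ?_, ?_⟩, ?_⟩)
  · apply RingOfIntegers.ext
    simp
  · apply RingOfIntegers.ext
    simp
  · apply Units.ext
    rfl

theorem dvd_of_integral {z z' : ℕ} (hz : 0 < z) (h : IsIntegral ℤ ((z' : K) / z)) : z ∣ z' := by
  have h1 : ((z' : K) / z) = algebraMap ℚ K ((z' : ℚ) / z) := by simp
  rw [h1, isIntegral_algebraMap_iff (algebraMap ℚ K).injective,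
    IsIntegrallyClosed.isIntegral_iff] at h
  obtain ⟨k, hk⟩ := h
  have hz' : (z : ℚ) ≠ 0 := Nat.cast_ne_zero.2 hz.ne'
  have h2 : (z' : ℚ) = z * k := by
    have : (k : ℚ) = (z' : ℚ) / z := by simpa using hk
    rw [this]
    field_simp
  have h3 : (z' : ℤ) = z * k := by exact_mod_cast h2
  exact Int.natCast_dvd_natCast.1 ⟨k, h3⟩

end Units

section Norms

variable {p : ℕ} [Fact p.Prime] {K : Type} [Field K] [NumberField K] (ι : K →+* ℚ_[p])

omit [NumberField K] in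
theorem norm_le_one {x : K} (h : IsIntegral ℤ x) : ‖ι x‖ ≤ 1 := by
  have h1 : IsIntegral ℤ_[p] (ι x) := (map_isIntegral_int ι h).tower_top
  obtain ⟨y, hy⟩ := IsIntegrallyClosed.isIntegral_iff.1 h1
  rw [← hy]
  exact y.2

/-- elements of norm one -/
def N1 : Subgroup Kˣ where
  carrier := {z | ‖ι z‖ = 1}
  one_mem' := by simp
  mul_mem' := fun {a b} ha hb => by
    simp only [Set.mem_setOf_eq] at ha hb ⊢
    rw [Units.val_mul, map_mul, norm_mul, ha, hb, mul_one]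
  inv_mem' := fun {a} ha => by
    simp only [Set.mem_setOf_eq] at ha ⊢
    rw [Units.val_inv_eq_inv_val, map_inv₀, norm_inv, ha, inv_one]

theorem norm_Gam {P : Finset ℕ} (hP : ∀ r ∈ P, r.Prime) (hp : p ∉ P) {z : Kˣ}
    (hz : z ∈ Gam K P) : ‖ι z‖ = 1 := by
  obtain ⟨k, hk, h⟩ := hz
  have hle : (Units.map (algebraMap (𝓞 K) K : 𝓞 K →* K)).range ⊔
      Subgroup.closure {u : Kˣ | ∃ r ∈ P, (u : K) = r} ≤ N1 ι := by
    refine sup_le ?_ ((Subgroup.closure_le _).2 ?_)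
    · rintro _ ⟨u, rfl⟩
      have h1 : ‖ι (algebraMap (𝓞 K) K u)‖ ≤ 1 := norm_le_one ι (u : 𝓞 K).isIntegral_coe
      have h2 : ‖ι (algebraMap (𝓞 K) K (u⁻¹ : (𝓞 K)ˣ))‖ ≤ 1 :=
        norm_le_one ι ((u⁻¹ : (𝓞 K)ˣ) : 𝓞 K).isIntegral_coe
      have h3 : ‖ι (algebraMap (𝓞 K) K u)‖ * ‖ι (algebraMap (𝓞 K) K (u⁻¹ : (𝓞 K)ˣ))‖ = 1 := by
        rw [← norm_mul, ← map_mul, ← map_mul, Units.mul_inv, map_one, map_one, norm_one]
      show ‖ι (algebraMap (𝓞 K) K u)‖ = 1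
      have h4 := norm_nonneg (ι (algebraMap (𝓞 K) K u))
      nlinarith
    · rintro u ⟨r, hr, hu⟩
      show ‖ι u‖ = 1
      rw [hu, map_natCast, Padic.norm_natCast_eq_one_iff]
      exact (Nat.coprime_primes Fact.out (hP r hr)).2 fun e => hp (e ▸ hr)
  have h1 : ‖ι ((z ^ k : Kˣ) : K)‖ = 1 := hle h
  rw [Units.val_pow_eq_pow_val, map_pow, norm_pow] at h1
  exact (pow_eq_one_iff_of_nonneg (norm_nonneg _) hk).1 h1

theorem half_le_norm_two : 1 / 2 ≤ ‖(2 : ℚ_[p])‖ := by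
  by_cases h : p = 2
  · subst h
    have := @Padic.norm_p 2 _
    simp only [Nat.cast_ofNat] at this
    rw [this]
    norm_num
  · have h1 : ‖((2 : ℕ) : ℚ_[p])‖ = 1 := by
      rw [Padic.norm_natCast_eq_one_iff]
      exact (Nat.coprime_primes Fact.out Nat.prime_two).2 h
    simp only [Nat.cast_ofNat] at h1
    rw [h1]
    norm_num

open Classical in
/-- the class of an integral `p`-adic number modulo `p ^ a` -/
noncomputable def cl (p : ℕ) [Fact p.Prime] (a : ℕ) (u : ℚ_[p]) : ZMod (p ^ a) :=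
  if h : ‖u‖ ≤ 1 then PadicInt.toZModPow a (⟨u, h⟩ : ℤ_[p]) else 0

theorem norm_sub_le_of_cl {a : ℕ} {u v : ℚ_[p]} (hu : ‖u‖ ≤ 1) (hv : ‖v‖ ≤ 1)
    (h : cl p a u = cl p a v) : ‖u - v‖ ≤ ((p : ℝ) ^ a)⁻¹ := by
  unfold cl at h
  rw [dif_pos hu, dif_pos hv, ← sub_eq_zero, ← map_sub, ← RingHom.mem_ker,
    PadicInt.ker_toZModPow, ← PadicInt.norm_le_pow_iff_mem_span_pow] at h
  rw [zpow_neg, zpow_natCast] at h
  exact h

end Norms

theorem exists_class {X Y : Type} [Fintype Y] [Nonempty Y] [DecidableEq Y] (s : Finset X)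
    (f : X → Y) : ∃ c, s.card ≤ (s.filter fun x => f x = c).card * Fintype.card Y := by
  obtain ⟨c, -, hc⟩ := Finset.exists_max_image (Finset.univ : Finset Y)
    (fun c => (s.filter fun x => f x = c).card) Finset.univ_nonempty
  exact ⟨c, Finset.card_le_mul_card_image_of_maps_to (t := Finset.univ)
    (fun a _ => Finset.mem_univ _) _ hc⟩

theorem val_prod {r : ℕ} (hr : r.Prime) (b : ℕ → ℤ) (P : Finset ℕ) (hP : ∀ s ∈ P, s.Prime) :
    padicValRat r (∏ s ∈ P, (s : ℚ) ^ b s) = if r ∈ P then b r else 0 := by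
  haveI : Fact r.Prime := ⟨hr⟩
  induction P using Finset.induction_on with
  | empty => simp
  | insert s P hs ih =>
    have hs' : s.Prime := hP s (Finset.mem_insert_self _ _)
    have hP' : ∀ s ∈ P, s.Prime := fun x hx => hP x (Finset.mem_insert_of_mem hx)
    have h1 : (s : ℚ) ^ b s ≠ 0 := zpow_ne_zero _ (Nat.cast_ne_zero.2 hs'.ne_zero)
    have h2 : ∏ s ∈ P, (s : ℚ) ^ b s ≠ 0 := Finset.prod_ne_zero_iff.2 fun x hx =>
      zpow_ne_zero _ (Nat.cast_ne_zero.2 (hP' x hx).ne_zero)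
    rw [Finset.prod_insert hs, padicValRat.mul h1 h2, ih hP', padicValRat.zpow, padicValRat.of_nat]
    by_cases e : r = s
    · subst e
      simp [hs, padicValNat.self hr.one_lt]
    · haveI : Fact s.Prime := ⟨hs'⟩
      simp [e, padicValNat_primes e]

section Beta

variable (K : Type) [Field K] [NumberField K] {P : Finset ℕ} (hP : ∀ r ∈ P, r.Prime) (b : ℕ → ℤ)

include hP

theorem beta_val : ((∏ r ∈ P, U K r ^ b r : Kˣ) : K) = algebraMap ℚ K (∏ r ∈ P, (r : ℚ) ^ b r) := by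
  rw [Units.coe_prod, map_prod]
  refine Finset.prod_congr rfl fun r hr => ?_
  rw [Units.val_zpow_eq_zpow_val, U_val (hP r hr).pos, map_zpow₀, map_natCast]

theorem beta_mem : (∏ r ∈ P, U K r ^ b r : Kˣ) ∈ Gam K P :=
  prod_mem fun _ hr => zpow_mem (U_prime_mem hP hr) _

theorem beta_ne (hb : ∃ r ∈ P, b r ≠ 0) :
    (∏ r ∈ P, U K r ^ b r : Kˣ) ≠ 1 ∧ (∏ r ∈ P, U K r ^ b r : Kˣ) ≠ -1 := by
  obtain ⟨r, hr, hb⟩ := hb
  have hv := val_prod (hP r hr) b P hP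
  rw [if_pos hr] at hv
  constructor
  · intro h
    have h1 := beta_val K hP b
    rw [h, Units.val_one, ← map_one (algebraMap ℚ K)] at h1
    rw [← (algebraMap ℚ K).injective h1, padicValRat.one] at hv
    exact hb hv.symm
  · intro h
    have h1 := beta_val K hP b
    rw [h, Units.val_neg, Units.val_one, ← map_one (algebraMap ℚ K), ← map_neg] at h1
    rw [← (algebraMap ℚ K).injective h1, padicValRat.neg, padicValRat.one] at hv
    exact hb hv.symm

theorem beta_Sz (W : ℝ) (h1 : ∀ r ∈ P, Module.finrank ℚ K * |(b r : ℝ)| ≤ W)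
    (h2 : ∑ r ∈ P, |(b r : ℝ)| * Real.log r ≤ W) : Sz K P W (∏ r ∈ P, U K r ^ b r) := by
  constructor
  · intro σ
    have h3 : σ ((∏ r ∈ P, U K r ^ b r : Kˣ) : K) = ∏ r ∈ P, (r : ℂ) ^ b r := by
      rw [Units.coe_prod, map_prod]
      refine Finset.prod_congr rfl fun r hr => ?_
      rw [Units.val_zpow_eq_zpow_val, U_val (hP r hr).pos, map_zpow₀, map_natCast]
    rw [h3, norm_prod, Real.log_prod]
    · refine (Finset.abs_sum_le_sum_abs _ _).trans (le_trans (le_of_eq ?_) h2)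
      refine Finset.sum_congr rfl fun r hr => ?_
      rw [norm_zpow, Complex.norm_natCast, Real.log_zpow, abs_mul,
        abs_of_nonneg (Real.log_natCast_nonneg r)]
    · intro r hr
      exact norm_ne_zero_iff.2 (zpow_ne_zero _ (Nat.cast_ne_zero.2 (hP r hr).ne_zero))
  · intro r hr
    haveI : Fact r.Prime := ⟨hP r hr⟩
    rw [beta_val K hP b, Algebra.norm_algebraMap, padicValRat.pow, val_prod (hP r hr) b P hP,
      if_pos hr]
    push_cast
    rw [abs_mul, Nat.abs_cast]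
    exact h1 r hr

theorem beta_iota {p : ℕ} [Fact p.Prime] (ι : K →+* ℚ_[p]) :
    ι ((∏ r ∈ P, U K r ^ b r : Kˣ) : K) = ∏ r ∈ P, (r : ℚ_[p]) ^ b r := by
  rw [Units.coe_prod, map_prod]
  refine Finset.prod_congr rfl fun r hr => ?_
  rw [Units.val_zpow_eq_zpow_val, U_val (hP r hr).pos, map_zpow₀, map_natCast]

end Beta

/-- a large class of products -/
theorem exists_set {p : ℕ} [Fact p.Prime] {K : Type} [Field K] [NumberField K]
    (ι : K →+* ℚ_[p]) {P : Finset ℕ} (hP : ∀ r ∈ P, r.Prime) (hp : p ∉ P) (Y : Finset Kˣ)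
    (Z : Finset ℕ) (a : ℕ) (t : ℝ) (hne : Y.Nonempty)
    (hY : ∀ y ∈ Y, IsIntegral ℤ (y : K) ∧ ∀ σ : K →+* ℂ, ‖σ y‖ ≤ Real.exp t)
    (hYY : ∀ y ∈ Y, ∀ y' ∈ Y, IsIntegral ℤ ((y / y' : Kˣ) : K))
    (hZ : ∀ z ∈ Z, 0 < z ∧ (z : ℝ) ≤ Real.exp t ∧ ∃ e : ℕ → ℕ, z = ∏ r ∈ P, r ^ e r) :
    ∃ X : Finset Kˣ, Y.card * Z.card ≤ X.card * p ^ a ∧
      (∀ x ∈ X, IsIntegral ℤ (x : K) ∧ ∀ σ : K →+* ℂ, ‖σ x‖ ≤ Real.exp (2 * t)) ∧
      ∀ x ∈ X, ∀ x' ∈ X, x / x' ∈ Gam K P ∧ ‖ι (x / x' : Kˣ) - 1‖ ≤ ((p : ℝ) ^ a)⁻¹ := by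
  classical
  obtain ⟨y0, hy0⟩ := hne
  haveI : NeZero (p ^ a) := ⟨pow_ne_zero _ (Fact.out : p.Prime).ne_zero⟩
  set X0 : Finset Kˣ := (Y ×ˢ Z).image fun yz => yz.1 * U K yz.2 with hX0
  have hcard : X0.card = Y.card * Z.card := by
    rw [hX0, Finset.card_image_of_injOn, Finset.card_product]
    have key : ∀ y ∈ Y, ∀ y' ∈ Y, ∀ z ∈ Z, ∀ z' ∈ Z, y * U K z = y' * U K z' → z ∣ z' := by
      intro y hy y' hy' z hz z' hz' h
      refine dvd_of_integral (K := K) (hZ z hz).1 ?_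
      have h1 : ((y / y' : Kˣ) : K) = (z' : K) / z := by
        have h2 : (y / y' : Kˣ) = U K z' / U K z := by
          rw [div_eq_div_iff_mul_eq_mul, h, mul_comm]
        rw [h2, Units.val_div_eq_div_val, U_val (hZ z hz).1, U_val (hZ z' hz').1]
      rw [← h1]
      exact hYY y hy y' hy'
    rintro ⟨y, z⟩ h1 ⟨y', z'⟩ h2 h
    simp only [Finset.coe_product, Set.mem_prod, Finset.mem_coe] at h1 h2
    have e : z = z' := Nat.dvd_antisymm (key y h1.1 y' h2.1 z h1.2 z' h2.2 h)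
      (key y' h2.1 y h1.1 z' h2.2 z h1.2 h.symm)
    subst e
    have e' : y = y' := mul_right_cancel h
    rw [e']
  have hG : ∀ x ∈ X0, x / y0 ∈ Gam K P := by
    intro x hx
    obtain ⟨⟨y, z⟩, h1, rfl⟩ := Finset.mem_image.1 hx
    rw [Finset.mem_product] at h1
    obtain ⟨-, -, e, he⟩ := hZ z h1.2
    have h2 : y * U K z / y0 = y / y0 * U K z := by rw [mul_div_right_comm]
    rw [h2]
    refine mul_mem (unit_mem (hYY y h1.1 y0 hy0) ?_) (he ▸ U_prod_mem hP e)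
    rw [inv_div]
    exact hYY y0 hy0 y h1.1
  obtain ⟨c, hc⟩ := exists_class X0 fun x => cl p a (ι (x / y0 : Kˣ))
  rw [ZMod.card, hcard] at hc
  refine ⟨_, hc, fun x hx => ?_, fun x hx x' hx' => ?_⟩
  · obtain ⟨⟨y, z⟩, h1, rfl⟩ := Finset.mem_image.1 (Finset.mem_filter.1 hx).1
    rw [Finset.mem_product] at h1
    obtain ⟨hz, hz', -⟩ := hZ z h1.2
    rw [Units.val_mul, U_val hz]
    refine ⟨(hY y h1.1).1.mul (isIntegral_natCast _), fun σ => ?_⟩
    rw [map_mul, norm_mul, map_natCast, Complex.norm_natCast, two_mul, Real.exp_add]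
    exact mul_le_mul ((hY y h1.1).2 σ) hz' (Nat.cast_nonneg _) (Real.exp_pos _).le
  · obtain ⟨h1, h2⟩ := Finset.mem_filter.1 hx
    obtain ⟨h1', h2'⟩ := Finset.mem_filter.1 hx'
    have e : x / x' = (x / y0) / (x' / y0) := by rw [div_div_div_cancel_right]
    have n1 := norm_Gam ι hP hp (hG x h1)
    have n2 := norm_Gam ι hP hp (hG x' h1')
    refine ⟨e ▸ div_mem (hG x h1) (hG x' h1'), ?_⟩
    have h3 := norm_sub_le_of_cl n1.le n2.le (h2.trans h2'.symm)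
    have h4 : ι (x' / y0 : Kˣ) ≠ 0 := by
      intro h
      rw [h, norm_zero] at n2
      exact zero_ne_one n2
    rw [e, Units.val_div_eq_div_val, map_div₀, div_sub_one h4, norm_div, n2, div_one]
    exact h3

end PAD

open PAD in
theorem rowPAD : RowMID → RowLOCP → RowEXP → RowBOX → RowPAD := by
  rintro ⟨C, hC, hMID⟩ hLOC hEXP hBOX
  refine ⟨C, hC, ?_⟩
  intro p _ K _ _ _ ι P b Y a n T t κ Λ hP hp hb hn hY hYY hpa hκ hκΛ hnΛ ht hb1 hb2 hT hCT h648
    hcount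
  obtain ⟨lg, hlg, hlg'⟩ := hEXP.log p
  have hD : 1 ≤ Module.finrank ℚ K := Module.finrank_pos
  have hDr : (1 : ℝ) ≤ Module.finrank ℚ K := by exact_mod_cast hD
  have hm : 1 ≤ P.card := by
    obtain ⟨r, hr, -⟩ := hb
    exact Finset.card_pos.2 ⟨r, hr⟩
  have hmr : (0 : ℝ) < P.card := by exact_mod_cast hm
  have hn1 : (1 : ℝ) ≤ n := by
    have : 1 ≤ n := by omega
    exact_mod_cast this
  have hΛ : 2 ≤ Λ := by linarith
  have hpa0 : (0 : ℝ) < (p : ℝ) ^ a := lt_of_lt_of_le (by positivity) hpa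
  have hlog : 0 < ∏ r ∈ P, Real.log r := Finset.prod_pos fun r hr =>
    Real.log_pos (by exact_mod_cast (hP r hr).one_lt)
  have hch : (0 : ℝ) < ((T + (n - 1)).choose (n - 1) : ℝ) := by
    exact_mod_cast Nat.choose_pos (Nat.le_add_left _ _)
  have hne : Y.Nonempty := by
    rw [← Finset.card_pos]
    by_contra h
    have h0 : Y.card = 0 := by omega
    rw [h0, Nat.cast_zero, zero_mul] at hcount
    have : 0 < C * Λ ^ 5 * ((T + (n - 1)).choose (n - 1) : ℝ) * (p : ℝ) ^ a *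
      ∏ r ∈ P, Real.log r := by positivity
    linarith
  obtain ⟨Z, hZc, hZ⟩ := hBOX P (t / P.card) hP (by positivity)
  rw [mul_div_cancel₀ _ hmr.ne'] at hZ
  obtain ⟨X, hXc, hX, hXX⟩ := exists_set ι hP hp Y Z a t hne hY hYY hZ
  have hη0 : 0 ≤ ((p : ℝ) ^ a)⁻¹ := by positivity
  have hη2 : 2 * ((p : ℝ) ^ a)⁻¹ ≤ Real.exp (-κ) := by
    rw [Real.exp_neg, ← div_eq_mul_inv, div_le_iff₀ hpa0, inv_mul_eq_div,
      le_div_iff₀ (Real.exp_pos _)]
    exact hpa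
  have hη4 : ((p : ℝ) ^ a)⁻¹ ≤ 1 / 4 := by
    have h1 := Real.add_one_le_exp κ
    rw [one_div]
    exact inv_anti₀ (by norm_num) (by linarith)
  have hL := hLOC p K ι _ κ hη0 hη4 hη2
  have hL1 : 1 ≤ 2 * (Module.finrank ℚ K : ℝ) * t := by nlinarith
  have key := hMID K ℚ_[p] ι _ _ _ κ 1 hL P (fun z => lg (ι z)) X (∏ r ∈ P, U K r ^ b r) n T
    (2 * Module.finrank ℚ K * t) Λ hP hn ?_ ?_ ?_ (beta_mem K hP b) (beta_ne K hP b hb).1
    (beta_ne K hP b hb).2 (beta_Sz K hP b _ hb1 hb2) zero_le_one hκ hκΛ hnΛ hL1 hT hCT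
    (by linarith) ?_
  · rw [beta_iota K hP b ι] at key
    by_cases h : ‖∏ r ∈ P, (r : ℚ_[p]) ^ b r - 1‖ ≤ 1 / 4
    · exact key.trans (hlg' _ h).1
    · refine le_trans ?_ (not_le.1 h).le
      have h1 : (1 : ℝ) ≤ 4 ^ n := one_le_pow₀ (by norm_num)
      have h2 : (8 : ℝ) ≤ Λ ^ 3 := by
        calc (8 : ℝ) = 2 ^ 3 := by norm_num
          _ ≤ Λ ^ 3 := pow_le_pow_left₀ (by norm_num) hΛ 3
      have h3 : (1 : ℝ) ≤ Λ ^ 6 := one_le_pow₀ (by linarith)
      have h4 : (8 : ℝ) ≤ T := by nlinarith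
      have h5 : (1 : ℝ) ≤ C * 4 ^ n * Λ ^ 6 := one_le_mul_of_one_le_of_one_le
        (one_le_mul_of_one_le_of_one_le hC h1) h3
      have h6 : (8 : ℝ) ≤ C * 4 ^ n * Λ ^ 6 * T := by nlinarith
      have h7 := Real.add_one_le_exp (C * 4 ^ n * Λ ^ 6 * T)
      rw [Real.exp_neg, one_div]
      exact inv_anti₀ (by norm_num) (by linarith)
  · intro u hu v hv
    show lg (ι ((u * v : Kˣ) : K)) = _
    rw [Units.val_mul, map_mul]
    exact hlg _ _ (norm_Gam ι hP hp hu) (norm_Gam ι hP hp hv)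
  · intro y hy
    refine ⟨(hX y hy).1, fun σ => ?_, (norm_le_one ι (hX y hy).1).trans
      (Real.one_le_exp (by linarith))⟩
    have e : 2 * (Module.finrank ℚ K : ℝ) * t / Module.finrank ℚ K = 2 * t := by
      field_simp
    rw [e]
    exact (hX y hy).2 σ
  · intro y hy y' hy'
    obtain ⟨h1, h2⟩ := hXX y hy y' hy'
    obtain ⟨h3, h4⟩ := hlg' _ (h2.trans hη4)
    refine ⟨h1, fun h => ?_, h3.trans h2, h4.symm, fun j => ?_⟩
    · have e : (y / y' : Kˣ) = -1 := by rw [h, neg_div, div_self']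
      rw [e, Units.val_neg, Units.val_one, map_neg, map_one, ← neg_add', norm_neg,
        one_add_one_eq_two] at h2
      have := half_le_norm_two (p := p)
      linarith
    · rw [one_mul, div_eq_mul_inv, ← inv_pow, norm_mul, norm_pow]
      refine le_trans ?_ (le_max_left _ _)
      exact mul_le_one₀ (by linarith) (by positivity) (pow_le_one₀ (norm_nonneg _) hL.qinv)
  · have h1 : (Y.card : ℝ) * Z.card ≤ X.card * (p : ℝ) ^ a := by exact_mod_cast hXc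
    have h2 : (Y.card : ℝ) * (t / P.card) ^ P.card ≤
        X.card * (p : ℝ) ^ a * ∏ r ∈ P, Real.log r :=
      calc (Y.card : ℝ) * (t / P.card) ^ P.card
          ≤ Y.card * (Z.card * ∏ r ∈ P, Real.log r) :=
            mul_le_mul_of_nonneg_left hZc (Nat.cast_nonneg _)
        _ = Y.card * Z.card * ∏ r ∈ P, Real.log r := by ring
        _ ≤ _ := mul_le_mul_of_nonneg_right h1 hlog.le
    exact le_of_mul_le_mul_right (le_of_mul_le_mul_right (hcount.trans h2) hlog) hpa0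

end Pool.Agent.MP_542436_nt.H96
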