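import Pool.Agent.MP_542436_nt.H96.Spec

/-! The choice of the parameters. -/

namespace Pool.Agent.MP_542436_nt.H96.PAR

open Real Finset

theorem sq_le (j : ℕ) : (j + 1) ^ 2 ≤ 3 * 2 ^ j := by
  induction j with
  | zero => norm_num
  | succ j ih =>
    rcases Nat.lt_or_ge j 2 with h | h
    · interval_cases j <;> norm_num
    · have : (j + 1 + 1) ^ 2 ≤ 2 * (j + 1) ^ 2 := by nlinarith
      rw [pow_succ 2 j]; omega

theorem sum_sq (J : ℕ) : ∑ j ∈ range J, (1 : ℝ) / ((j : ℝ) + 1) ^ 2 ≤ 2 - 2 / ((J : ℝ) + 1) := by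
  induction J with
  | zero => norm_num
  | succ J ih =>
    rw [sum_range_succ]
    have h : (0 : ℝ) ≤ J := Nat.cast_nonneg J
    have : (1 : ℝ) / ((J : ℝ) + 1) ^ 2 ≤ 2 / ((J : ℝ) + 1) - 2 / ((J : ℝ) + 1 + 1) := by
      rw [div_sub_div _ _ (by positivity) (by positivity), div_le_div_iff₀ (by positivity) (by positivity)]
      nlinarith [mul_nonneg h h, mul_nonneg h (mul_nonneg h h)]
    push_cast
    linarith

theorem sum_geo (J : ℕ) {q : ℝ} (hq : 2 ≤ q) : ∑ j ∈ range J, (1 : ℝ) / q ^ j ≤ 2 := by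
  refine le_trans (sum_le_sum fun j _ => ?_) (sum_geometric_two_le J)
  rw [one_div_pow]
  exact one_div_le_one_div_of_le (by positivity) (pow_le_pow_left₀ (by norm_num) hq j)

theorem le_exp (x : ℝ) : x ≤ exp x := by linarith [add_one_le_exp x]

theorem exp3 : (20 : ℝ) ≤ exp 3 := by
  have h := exp_one_gt_d9
  have : exp 3 = exp 1 ^ 3 := by rw [← exp_nat_mul]; norm_num
  rw [this]
  exact le_trans (by norm_num) (pow_le_pow_left₀ (by norm_num) h.le 3)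

theorem exp2 : (4 : ℝ) ≤ exp 2 := by
  have h := exp_one_gt_d9
  have : exp 2 = exp 1 ^ 2 := by rw [← exp_nat_mul]; norm_num
  rw [this]
  exact le_trans (by norm_num) (pow_le_pow_left₀ (by norm_num) h.le 2)

theorem exp1 : (2 : ℝ) ≤ exp 1 := by linarith [add_one_le_exp (1 : ℝ)]

theorem pow_le_exp {a b Λ : ℝ} {k : ℕ} (ha : 0 ≤ a) (hb : 0 ≤ b) (h : a ≤ exp b) (hk : (k : ℝ) ≤ Λ) :
    a ^ k ≤ exp (b * Λ) := by
  refine (pow_le_pow_left₀ ha h k).trans ?_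
  rw [← exp_nat_mul]
  exact exp_le_exp.2 (by nlinarith)

theorem bI {n D : ℕ} {L Λ : ℝ} (hD : D ≤ n + 1) (hn : (n + 1 : ℝ) ≤ Λ) (hL : 2 * L ≤ exp (2 * Λ)) :
    1 ≤ (2 * n * max (2 * L) (exp Λ) / (1 / 20 ^ D) + 1) ^ n ∧
      (2 * n * max (2 * L) (exp Λ) / (1 / 20 ^ D) + 1) ^ n ≤ exp (7 * Λ ^ 2) := by
  have hn0 : (0 : ℝ) ≤ n := Nat.cast_nonneg n
  have hΛ : 1 ≤ Λ := by linarith
  have hm0 : 0 ≤ max (2 * L) (exp Λ) := le_max_of_le_right (exp_pos _).le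
  have hm : max (2 * L) (exp Λ) ≤ exp (2 * Λ) := max_le hL (exp_le_exp.2 (by linarith))
  have hD' : (D : ℝ) ≤ Λ := le_trans (by exact_mod_cast hD) hn
  have h20 : (20 : ℝ) ^ D ≤ exp (3 * Λ) := pow_le_exp (by norm_num) (by norm_num) exp3 hD'
  have h2n : 2 * (n : ℝ) ≤ exp Λ := by
    have := quadratic_le_exp_of_nonneg (x := Λ) (by linarith)
    nlinarith [sq_nonneg (Λ - 1)]
  have h0 : 0 ≤ 2 * n * max (2 * L) (exp Λ) / (1 / 20 ^ D) := by positivity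
  refine ⟨one_le_pow₀ (by linarith), ?_⟩
  have h6 : 2 * n * max (2 * L) (exp Λ) / (1 / 20 ^ D) ≤ exp (6 * Λ) := by
    rw [div_div_eq_mul_div, div_one]
    calc _ ≤ exp Λ * exp (2 * Λ) * exp (3 * Λ) := by gcongr
      _ = _ := by rw [← exp_add, ← exp_add]; ring_nf
  have h7 : exp (6 * Λ) + 1 ≤ exp (7 * Λ) := by
    have e1 : exp (7 * Λ) = exp (6 * Λ) * exp Λ := by rw [← exp_add]; ring_nf
    have e2 : 2 ≤ exp Λ := exp1.trans (exp_le_exp.2 hΛ)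
    have e3 : 1 ≤ exp (6 * Λ) := one_le_exp (by linarith)
    rw [e1]; nlinarith
  have := pow_le_exp (a := 2 * n * max (2 * L) (exp Λ) / (1 / 20 ^ D) + 1) (b := 7 * Λ) (Λ := Λ) (k := n)
    (by linarith) (by linarith) (by linarith) (by linarith)
  refine this.trans (le_of_eq ?_)
  ring_nf

/-- the size of the coefficients -/
theorem bw {D S e T q Λ I X : ℝ} (hΛ : 1 ≤ Λ) (hD0 : 0 ≤ D) (hD : D ≤ Λ) (hS0 : 0 ≤ S)
    (hS : S ≤ 4000 * Λ ^ 4) (he0 : 0 ≤ e) (he : e ≤ exp (T * Λ)) (hT : 10 ^ 15 ≤ T)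
    (hI0 : 0 ≤ I) (hI : I ≤ exp (15 * Λ ^ 2 * T)) (hq : q ≤ X) :
    (2 * D * S * e) * (4 * (2 * D * S * e) * (I * exp q)) * I ≤ exp (40 * Λ ^ 2 * T + X) := by
  have hT0 : 0 ≤ T := by linarith
  have h2 : Λ ≤ Λ ^ 2 := by nlinarith
  have h5 : Λ ^ 5 ≤ exp (Λ ^ 2 * T) := by
    refine (pow_le_exp (b := Λ) (Λ := 5) (by linarith) (by linarith) (le_exp Λ) (by norm_num)).trans ?_
    exact exp_le_exp.2 (by nlinarith)
  have hc : (16000 : ℝ) ≤ exp (Λ ^ 2 * T) := le_trans (by nlinarith) (le_exp _)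
  have he' : e ≤ exp (Λ ^ 2 * T) := he.trans (exp_le_exp.2 (by nlinarith))
  have hN : 2 * (2 * D * S * e) ≤ exp (3 * (Λ ^ 2 * T)) := by
    calc 2 * (2 * D * S * e) ≤ 2 * (2 * Λ * (4000 * Λ ^ 4) * e) := by gcongr
      _ = 16000 * Λ ^ 5 * e := by ring
      _ ≤ exp (Λ ^ 2 * T) * exp (Λ ^ 2 * T) * exp (Λ ^ 2 * T) := by gcongr
      _ = _ := by rw [← exp_add, ← exp_add]; ring_nf
  calc _ = (2 * (2 * D * S * e)) * (2 * (2 * D * S * e)) * I * I * exp q := by ring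
    _ ≤ exp (3 * (Λ ^ 2 * T)) * exp (3 * (Λ ^ 2 * T)) * exp (15 * Λ ^ 2 * T) * exp (15 * Λ ^ 2 * T) *
        exp X := by gcongr
    _ = exp (36 * Λ ^ 2 * T + X) := by rw [← exp_add, ← exp_add, ← exp_add, ← exp_add]; ring_nf
    _ ≤ _ := exp_le_exp.2 (by nlinarith [mul_nonneg (sq_nonneg Λ) hT0])

/-- the last inequality -/
theorem blast {n : ℕ} {N : ℕ} {B Λ T I : ℝ} (hΛ : 1 ≤ Λ) (hT : 1 ≤ T) (hI0 : 0 ≤ I)
    (hI : I ≤ exp (7 * Λ ^ 2)) (hB0 : 0 ≤ B) (hB : B ≤ exp (2 * 10 ^ 8 * Λ))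
    (hN : (N : ℝ) ≤ 4 * 4 ^ n * (600000 * Λ ^ 5 * T)) :
    I ^ 2 * exp (-(10 ^ 15 * 4 ^ n * Λ ^ 6 * T)) * B ^ N ≤ 1 := by
  have h1 := pow_le_exp hB0 (by linarith) hB hN
  have h2 := pow_le_exp (k := 2) (Λ := 2) hI0 (by positivity) hI (by norm_num)
  have h4 : (1 : ℝ) ≤ 4 ^ n := one_le_pow₀ (by norm_num)
  have h6 : Λ ^ 2 ≤ 4 ^ n * Λ ^ 6 * T := by
    calc Λ ^ 2 ≤ Λ ^ 6 := pow_le_pow_right₀ hΛ (by norm_num)
      _ = 1 * Λ ^ 6 * 1 := by ring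
      _ ≤ _ := by gcongr
  calc _ ≤ exp (7 * Λ ^ 2 * 2) * exp (-(10 ^ 15 * 4 ^ n * Λ ^ 6 * T)) *
        exp (2 * 10 ^ 8 * Λ * (4 * 4 ^ n * (600000 * Λ ^ 5 * T))) := by gcongr
    _ ≤ exp 0 := by
      rw [← exp_add, ← exp_add]
      refine exp_le_exp.2 ?_
      have e : 2 * 10 ^ 8 * Λ * (4 * 4 ^ n * (600000 * Λ ^ 5 * T)) =
        48 * 10 ^ 13 * (4 ^ n * Λ ^ 6 * T) := by ring
      have e' : 10 ^ 15 * 4 ^ n * Λ ^ 6 * T = 10 ^ 15 * (4 ^ n * Λ ^ 6 * T) := by ring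
      rw [e, e']
      nlinarith [sq_nonneg Λ]
    _ = 1 := exp_zero

end Pool.Agent.MP_542436_nt.H96.PAR

namespace Pool.Agent.MP_542436_nt.H96

open Real Finset PAR

theorem rowPAR : RowPAR := by
  refine ⟨10 ^ 15, by norm_num, ?_⟩
  intro n D T q e L Λ κ I hD1 hDn hq hκ hκΛ hn hL hTΛ hCT hLT hI he1 he
  have hn0 : (0 : ℝ) ≤ n := Nat.cast_nonneg n
  have hΛ : 1 ≤ Λ := by linarith
  have hΛ0 : 0 < Λ := by linarith
  have hκ0 : 0 < κ := by linarith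
  have hL0 : 0 < L := by linarith
  have hp : ∀ k : ℕ, 1 ≤ Λ ^ k := fun k => one_le_pow₀ hΛ
  have hT : (10 : ℝ) ^ 15 ≤ T := by nlinarith [hp 3]
  have hT0 : (0 : ℝ) < T := by linarith
  have hD1' : (1 : ℝ) ≤ D := by exact_mod_cast hD1
  have hD : (D : ℝ) ≤ Λ := le_trans (by exact_mod_cast hDn) hn
  have hq2 : (2 : ℝ) ≤ q := by rcases hq with h | h <;> rw [h] <;> norm_num
  have hq3 : (q : ℝ) ≤ 3 := by rcases hq with h | h <;> rw [h] <;> norm_num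
  have hLκ : 324 * L ≤ κ * T := by nlinarith
  have h2L : 2 * L ≤ exp (2 * Λ) := by
    have : κ * T ≤ exp Λ * exp Λ := mul_le_mul (hκΛ.trans (le_exp Λ)) hTΛ hT0.le (exp_pos _).le
    rw [← exp_add, ← two_mul] at this
    linarith
  obtain ⟨hI1, hI7⟩ := bI hDn hn h2L
  rw [← hI] at hI1 hI7
  clear hI
  obtain ⟨S, hS1, hS2⟩ : ∃ S : ℕ, 2000 * Λ ^ 4 ≤ S ∧ (S : ℝ) ≤ 4000 * Λ ^ 4 :=
    ⟨⌈2000 * Λ ^ 4⌉₊, Nat.le_ceil _, by
      have := Nat.ceil_lt_add_one (a := 2000 * Λ ^ 4) (by positivity)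
      linarith [hp 4]⟩
  obtain ⟨J, hJ1, hJ2⟩ : ∃ J : ℕ, 11 * Λ ^ 2 ≤ J ∧ (J : ℝ) ≤ 12 * Λ ^ 2 :=
    ⟨⌈11 * Λ ^ 2⌉₊, Nat.le_ceil _, by
      have := Nat.ceil_lt_add_one (a := 11 * Λ ^ 2) (by positivity)
      linarith [hp 2]⟩
  have hS0 : (0 : ℝ) < S := by linarith [hp 4]
  obtain ⟨w, hw⟩ : ∃ w : ℝ, w = 40 * Λ ^ 2 * T + 3 * S * L / D := ⟨_, rfl⟩
  have hw0 : 0 ≤ w := by rw [hw]; positivity
  obtain ⟨Y, hY⟩ : ∃ Y : ℝ, Y = (D + 1) * w + 1 := ⟨_, rfl⟩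
  have hY0 : 0 < Y := by rw [hY]; positivity
  have hY1 : Y ≤ 81 * Λ ^ 3 * T + 6 * (S * L) := by
    have a1 : ((D : ℝ) + 1) * (40 * Λ ^ 2 * T) ≤ (2 * Λ) * (40 * Λ ^ 2 * T) := by
      gcongr; linarith
    have a2 : ((D : ℝ) + 1) * (3 * S * L / D) ≤ (2 * D) * (3 * S * L / D) := by
      gcongr; linarith
    have a3 : (2 * (D : ℝ)) * (3 * S * L / D) = 6 * (S * L) := by field_simp; ring
    have a4 : 1 ≤ Λ ^ 3 * T := by nlinarith [hp 3]
    rw [hY, hw, mul_add]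
    nlinarith
  obtain ⟨x, hx⟩ : ∃ x : ℕ → ℝ, ∀ j : ℕ, x j = Y / (((j : ℝ) + 1) ^ 2 * S) + 12 * L / (q : ℝ) ^ j :=
    ⟨_, fun _ => rfl⟩
  have hx0 : ∀ j, 0 < x j := fun j => by rw [hx]; positivity
  have hΔ : ∀ j, (⌈x j / κ⌉₊ : ℝ) ≤ x j / κ + 1 := fun j =>
    (Nat.ceil_lt_add_one (div_pos (hx0 j) hκ0).le).le
  refine ⟨S, J, fun j => ⌈x j / κ⌉₊, w, by exact_mod_cast (show (1 : ℝ) ≤ S by linarith [hp 4]), hw0,
    ?_, ?_, ?_, ?_, fun j hj => ⟨?_, ?_, ?_, ?_⟩⟩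
  · have h1 : exp (7 * Λ ^ 2) < (2 : ℝ) ^ J := by
      rw [← exp_log (show (0 : ℝ) < 2 by norm_num), ← exp_nat_mul]
      refine exp_lt_exp.2 ?_
      have := log_two_gt_d9
      nlinarith [hp 2]
    exact lt_of_le_of_lt hI7 (h1.trans_le (pow_le_pow_left₀ (by norm_num) hq2 J))
  · calc (2 * D * S : ℝ) ≤ 2 * Λ * (4000 * Λ ^ 4) := by gcongr
      _ ≤ _ := by nlinarith [hp 5]
  · rw [hw]
    refine bw hΛ (by linarith) hD hS0.le hS2 (Nat.cast_nonneg e) ?_ hT (by positivity) ?_ ?_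
    · have : (e : ℝ) ≤ ((T : ℝ) + 1) ^ n := by exact_mod_cast he
      exact this.trans (pow_le_exp (by linarith) hT0.le (add_one_le_exp _) (by linarith))
    · refine pow_le_exp (by positivity) (by positivity) ?_ le_rfl
      have a1 := pow_le_exp (k := 2) (Λ := 2) (by linarith) (by positivity) hI7 (by norm_num)
      have a2 : 2 ≤ exp (Λ ^ 2) := exp1.trans (exp_le_exp.2 (hp 2))
      calc 2 * I ^ 2 ≤ exp (Λ ^ 2) * exp (7 * Λ ^ 2 * 2) := by gcongr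
        _ = _ := by rw [← exp_add]; ring_nf
    · gcongr
  · have a1 : ∑ j ∈ range J, x j ≤ 2 * (Y / S) + 24 * L := by
      have b1 := sum_sq J
      have b2 := sum_geo J hq2
      have b3 : ∑ j ∈ range J, x j = Y / S * ∑ j ∈ range J, (1 : ℝ) / ((j : ℝ) + 1) ^ 2 +
          12 * L * ∑ j ∈ range J, (1 : ℝ) / (q : ℝ) ^ j := by
        rw [mul_sum, mul_sum, ← sum_add_distrib]
        refine sum_congr rfl fun j _ => ?_
        rw [hx]; field_simp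
      have b4 : (0 : ℝ) ≤ 2 / ((J : ℝ) + 1) := by positivity
      have b5 : 0 ≤ Y / S := by positivity
      rw [b3]
      nlinarith
    have a2 : Λ * (Y / S) ≤ 81 / 2000 * T + 6 * (Λ * L) ∧ (n + 1) * (Y / S) ≤ 81 / 2000 * T + 6 * ((n + 1) * L) := by
      have b1 : Y / S ≤ 81 / 2000 * (T / Λ) + 6 * L := by
        rw [div_le_iff₀ hS0]
        have : 81 * Λ ^ 3 * T ≤ 81 / 2000 * (T / Λ) * S := by
          calc 81 * Λ ^ 3 * T = 81 / 2000 * (T / Λ) * (2000 * Λ ^ 4) := by field_simp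
            _ ≤ _ := by gcongr
        nlinarith
      have b2 : Λ * (T / Λ) = T := by field_simp
      have b3 : (n + 1) * (T / Λ) ≤ Λ * (T / Λ) := by gcongr
      constructor <;> nlinarith
    have a3 : ((∑ j ∈ range J, ⌈x j / κ⌉₊ : ℕ) : ℝ) ≤ (2 * (Y / S) + 24 * L) / κ + J := by
      push_cast
      refine (sum_le_sum fun j _ => hΔ j).trans ?_
      rw [sum_add_distrib, ← sum_div]
      simp only [sum_const, card_range, nsmul_eq_mul, mul_one]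
      gcongr
    have a4 : (n + 1) * ((2 * (Y / S) + 24 * L) / κ) ≤ 2 / 9 * T := by
      rw [← mul_div_assoc, div_le_iff₀ hκ0]
      nlinarith [a2.2]
    have a5 : ((n : ℝ) + 1) * J ≤ T / 9 := by
      have : ((n : ℝ) + 1) * J ≤ Λ * (12 * Λ ^ 2) := by gcongr
      nlinarith [hp 3]
    have a6 : (((2 * (n + 1) + 1) * ∑ j ∈ range J, ⌈x j / κ⌉₊ : ℕ) : ℝ) ≤ T := by
      rw [Nat.cast_mul]
      calc _ ≤ (3 * ((n : ℝ) + 1)) * ((2 * (Y / S) + 24 * L) / κ + J) := by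
            gcongr
            push_cast; linarith
        _ ≤ T := by nlinarith
    exact_mod_cast a6
  · exact Nat.one_le_iff_ne_zero.2 (Nat.ceil_pos.2 (div_pos (hx0 j) hκ0)).ne'
  · refine le_trans ?_ (Nat.le_ceil _)
    rw [mul_comm κ, ← div_div, hx]
    gcongr
    have b1 : 0 ≤ Y / (((j : ℝ) + 1) ^ 2 * S) := by positivity
    have b2 : 0 ≤ L / (q : ℝ) ^ j := by positivity
    rw [mul_div_assoc]
    linarith
  · have := Nat.le_ceil (x j / κ)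
    rw [div_le_iff₀' hκ0] at this
    refine le_trans (le_of_eq ?_) this
    rw [hx, hY]; push_cast; rfl
  · have hj' : (j : ℝ) + 1 ≤ 12 * Λ ^ 2 := le_trans (by exact_mod_cast hj) hJ2
    have hSj : ((j : ℝ) + 1) ^ 2 * S ≤ 576000 * Λ ^ 8 := by
      calc _ ≤ (12 * Λ ^ 2) ^ 2 * (4000 * Λ ^ 4) := by gcongr
        _ = _ := by ring
    have h4 : (2 : ℝ) ^ (2 * (n + 1)) = 4 * 4 ^ n := by rw [pow_mul, pow_succ]; norm_num [mul_comm]
    refine blast hΛ (by linarith) (by linarith) hI7 (by positivity) ?_ ?_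
    · have b1 : (2 : ℝ) ^ (2 * (n + 1)) ≤ exp (2 * Λ) := by
        rw [pow_mul]
        exact pow_le_exp (by norm_num) (by norm_num) (by norm_num [exp2]) (by push_cast; exact hn)
      have b2 : Λ ^ 8 ≤ exp (Λ * 8) :=
        pow_le_exp (by linarith) (by linarith) (le_exp Λ) (by norm_num)
      have b3 : (172800000 : ℝ) ≤ exp (172800000 * Λ) := le_trans (by linarith) (le_exp _)
      push_cast
      calc _ ≤ 100 * 3 * (exp (2 * Λ) * (576000 * Λ ^ 8)) * exp Λ := by gcongr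
        _ = 172800000 * exp (2 * Λ) * Λ ^ 8 * exp Λ := by ring
        _ ≤ exp (172800000 * Λ) * exp (2 * Λ) * exp (Λ * 8) * exp Λ := by gcongr
        _ ≤ _ := by
          rw [← exp_add, ← exp_add, ← exp_add]
          exact exp_le_exp.2 (by linarith)
    · push_cast
      rw [h4, mul_assoc]
      refine mul_le_mul_of_nonneg_left ?_ (by positivity)
      have b1 : ((j : ℝ) + 1) ^ 2 / (q : ℝ) ^ j ≤ 3 := by
        rw [div_le_iff₀ (by positivity)]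
        have c1 : ((j : ℝ) + 1) ^ 2 ≤ 3 * 2 ^ j := by exact_mod_cast sq_le j
        exact c1.trans (by gcongr)
      have b2 : ((j : ℝ) + 1) ^ 2 * S * x j ≤ Y + 36 * (S * L) := by
        have : ((j : ℝ) + 1) ^ 2 * S * x j = Y + 12 * (S * L) * (((j : ℝ) + 1) ^ 2 / (q : ℝ) ^ j) := by
          rw [hx]; field_simp
        rw [this]
        nlinarith [mul_pos hS0 hL0]
      have b3 : S * L ≤ 13 * (Λ ^ 5 * T) * κ := by
        have c1 : S * L ≤ 4000 * Λ ^ 4 * (κ * T / 324) := by gcongr; linarith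
        have c2 : Λ ^ 4 * (κ * T) ≤ Λ ^ 5 * (κ * T) := by gcongr; norm_num
        have c3 : 0 ≤ Λ ^ 4 * (κ * T) := by positivity
        nlinarith
      have b4 : Λ ^ 3 * T ≤ (Λ ^ 5 * T) * κ := by
        calc Λ ^ 3 * T = Λ ^ 3 * T * 1 := by ring
          _ ≤ _ := by gcongr; norm_num
      have b5 : ((j : ℝ) + 1) ^ 2 * S * (x j / κ) ≤ 627 * (Λ ^ 5 * T) := by
        rw [← mul_div_assoc, div_le_iff₀ hκ0]
        nlinarith
      have b6 : Λ ^ 8 ≤ Λ ^ 5 * T := by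
        calc Λ ^ 8 = Λ ^ 5 * Λ ^ 3 := by ring
          _ ≤ _ := by gcongr; nlinarith [hp 3]
      have b7 : 0 ≤ Λ ^ 5 * T := by positivity
      calc _ ≤ ((j : ℝ) + 1) ^ 2 * S * (x j / κ + 1) := by gcongr; exact hΔ j
        _ ≤ _ := by rw [mul_add, mul_one, mul_assoc 600000]; linarith

end Pool.Agent.MP_542436_nt.H96
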