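import Pool.Agent.MP_542436_nt.H96.Spec

/-! The real instance of the abstract lower bound. -/

namespace Pool.Agent.MP_542436_nt.H96.REA

open NumberField

/-- a positive integer as a unit of the rationals -/
noncomputable def un (z : ℕ) : ℚˣ := if h : (z : ℚ) = 0 then 1 else Units.mk0 (z : ℚ) h

theorem un_val {z : ℕ} (hz : 0 < z) : ((un z : ℚˣ) : ℚ) = z := by
  have h : (z : ℚ) ≠ 0 := by exact_mod_cast hz.ne'
  simp [un, h]

theorem un_mem {P : Finset ℕ} (hP : ∀ r ∈ P, r.Prime) {r : ℕ} (hr : r ∈ P) : un r ∈ Gam ℚ P := by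
  refine ⟨1, one_ne_zero, ?_⟩
  rw [pow_one]
  exact Subgroup.mem_sup_right (Subgroup.subset_closure ⟨r, hr, un_val (hP r hr).pos⟩)

theorem un_prod_mem {P : Finset ℕ} (hP : ∀ r ∈ P, r.Prime) (e : ℕ → ℕ) :
    un (∏ r ∈ P, r ^ e r) ∈ Gam ℚ P := by
  have h : un (∏ r ∈ P, r ^ e r) = ∏ r ∈ P, un r ^ e r := by
    apply Units.ext
    rw [un_val (Finset.prod_pos fun r hr => pow_pos (hP r hr).pos _)]
    push_cast
    exact Finset.prod_congr rfl fun r hr => by rw [un_val (hP r hr).pos]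
  rw [h]
  exact Subgroup.prod_mem _ fun r hr => pow_mem (un_mem hP hr) _

/-- the element of the form -/
noncomputable def be (P : Finset ℕ) (b : ℕ → ℤ) : ℚˣ := ∏ r ∈ P, un r ^ b r

theorem be_mem {P : Finset ℕ} (hP : ∀ r ∈ P, r.Prime) (b : ℕ → ℤ) : be P b ∈ Gam ℚ P :=
  Subgroup.prod_mem _ fun _ hr => zpow_mem (un_mem hP hr) _

theorem be_val {P : Finset ℕ} (hP : ∀ r ∈ P, r.Prime) (b : ℕ → ℤ) :
    ((be P b : ℚˣ) : ℚ) = ∏ r ∈ P, (r : ℚ) ^ b r := by
  unfold be
  push_cast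
  exact Finset.prod_congr rfl fun r hr => by rw [un_val (hP r hr).pos]

theorem val_prod (p : ℕ) [Fact p.Prime] (P : Finset ℕ) (hP : ∀ r ∈ P, r.Prime) (b : ℕ → ℤ) :
    padicValRat p (∏ r ∈ P, (r : ℚ) ^ b r) = if p ∈ P then b p else 0 := by
  classical
  induction P using Finset.induction_on with
  | empty => simp
  | insert a s ha ih =>
    have hpa : a.Prime := hP a (Finset.mem_insert_self _ _)
    have hs : ∀ r ∈ s, r.Prime := fun r hr => hP r (Finset.mem_insert_of_mem hr)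
    have h1 : (a : ℚ) ^ b a ≠ 0 := zpow_ne_zero _ (by exact_mod_cast hpa.ne_zero)
    have h2 : ∏ r ∈ s, (r : ℚ) ^ b r ≠ 0 :=
      Finset.prod_ne_zero_iff.2 fun r hr => zpow_ne_zero _ (by exact_mod_cast (hs r hr).ne_zero)
    rw [Finset.prod_insert ha, padicValRat.mul h1 h2, ih hs, padicValRat.zpow, padicValRat.of_nat]
    by_cases h : p = a
    · subst h
      simp [ha]
    · have : Fact a.Prime := ⟨hpa⟩
      rw [padicValNat_primes h]
      simp [h]

theorem log_prod {P : Finset ℕ} (hP : ∀ r ∈ P, r.Prime) (b : ℕ → ℤ) :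
    Real.log (((be P b : ℚˣ) : ℚ) : ℝ) = ∑ r ∈ P, (b r : ℝ) * Real.log r := by
  rw [be_val hP]
  push_cast
  rw [Real.log_prod]
  · exact Finset.sum_congr rfl fun r _ => by rw [Real.log_zpow]
  · intro r hr
    exact zpow_ne_zero _ (by exact_mod_cast (hP r hr).ne_zero)

theorem be_sz {P : Finset ℕ} (hP : ∀ r ∈ P, r.Prime) (b : ℕ → ℤ) (t : ℝ)
    (h1 : ∀ r ∈ P, |(b r : ℝ)| ≤ t) (h2 : ∑ r ∈ P, |(b r : ℝ)| * Real.log r ≤ t) :
    Sz ℚ P t (be P b) := by
  refine ⟨fun σ => ?_, fun r hr => ?_⟩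
  · rw [eq_ratCast, Complex.norm_ratCast, Real.log_abs, log_prod hP]
    refine ((Finset.abs_sum_le_sum_abs _ _).trans (le_of_eq ?_)).trans h2
    refine Finset.sum_congr rfl fun r _ => ?_
    rw [abs_mul, abs_of_nonneg (Real.log_natCast_nonneg r)]
  · have : Fact r.Prime := ⟨hP r hr⟩
    have hn : ∀ x : ℚ, @Algebra.norm ℚ ℚ _ _ DivisionRing.toRatAlgebra x = x := fun x => by
      have h : (DivisionRing.toRatAlgebra : Algebra ℚ ℚ) = Algebra.id ℚ := Subsingleton.elim _ _
      rw [h, Algebra.norm_self, MonoidHom.id_apply]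
    rw [hn, be_val hP, val_prod r P hP, if_pos hr]
    exact h1 r hr

theorem be_ne {P : Finset ℕ} (hP : ∀ r ∈ P, r.Prime) {b : ℕ → ℤ} (hb : ∃ r ∈ P, b r ≠ 0) :
    be P b ≠ 1 ∧ be P b ≠ -1 := by
  obtain ⟨r, hr, hb⟩ := hb
  have : Fact r.Prime := ⟨hP r hr⟩
  have h := val_prod r P hP b
  rw [if_pos hr, ← be_val hP] at h
  constructor
  · intro h'
    rw [h'] at h
    simp at h
    exact hb h.symm
  · intro h'
    rw [h'] at h
    simp at h
    exact hb h.symm

theorem close {G : ℕ} {L x y : ℝ} (hG : 0 < (G : ℝ)) (hL : 0 < L) (hx : 0 ≤ x) (hy : 0 ≤ y)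
    (h : ⌊G * x / L⌋₊ = ⌊G * y / L⌋₊) : |x - y| ≤ L / G := by
  have hx' : 0 ≤ G * x / L := by positivity
  have hy' : 0 ≤ G * y / L := by positivity
  have a1 := Nat.floor_le hx'
  have a2 := Nat.lt_floor_add_one (G * x / L)
  have a3 := Nat.floor_le hy'
  have a4 := Nat.lt_floor_add_one (G * y / L)
  rw [h] at a1 a2
  have e : x - y = (G * x / L - G * y / L) * (L / G) := by field_simp
  have hq : 0 < L / G := by positivity
  rw [e, abs_mul, abs_of_pos hq]
  have : |G * x / L - G * y / L| ≤ 1 := abs_le.2 ⟨by linarith, by linarith⟩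
  nlinarith

end Pool.Agent.MP_542436_nt.H96.REA

namespace Pool.Agent.MP_542436_nt.H96

open REA

theorem rowREA : RowMID → RowLOCR → RowBOX → RowREA := by
  classical
  rintro ⟨C, hC, hM⟩ hLoc hBox
  refine ⟨C, hC, ?_⟩
  intro P b G T L κ Λ hP hb hG hκ hκΛ hPΛ hL hbΛ hsum hT hCT h324 hcount
  have hPne : P.Nonempty := by
    obtain ⟨r, hr, -⟩ := hb
    exact ⟨r, hr⟩
  have hm : (0 : ℝ) < P.card := by exact_mod_cast hPne.card_pos
  have hL0 : 0 < L := by linarith
  have hκ0 : 0 < κ := by linarith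
  have hG0 : (0 : ℝ) < G := lt_of_lt_of_le (by positivity) hG
  set ρ : ℝ := Real.exp (-κ) / 80 with hρ
  have hρ0 : 0 ≤ ρ := by positivity
  have loc := hLoc ℚ (Rat.castHom ℝ) κ ρ hκ0.le hρ0 (by rw [hρ]; linarith)
  obtain ⟨Z, hZ, hZm⟩ := hBox P (L / P.card) hP (by positivity)
  have hZL : ∀ z ∈ Z, (z : ℝ) ≤ Real.exp L := fun z hz => by
    have := (hZm z hz).2.1
    rwa [mul_div_cancel₀ _ hm.ne'] at this
  have hprod : 0 < ∏ r ∈ P, Real.log r :=
    Finset.prod_pos fun r hr => Real.log_pos (by exact_mod_cast (hP r hr).one_lt)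
  have hc : C * Λ ^ 5 * ((T + (P.card - 1)).choose (P.card - 1) : ℝ) * (G + 1) ≤ Z.card :=
    le_of_mul_le_mul_right (hcount.trans hZ) hprod
  obtain ⟨k, -, hk⟩ := Finset.exists_le_card_fiber_of_nsmul_le_card_of_maps_to
    (s := Z) (t := Finset.range (G + 1)) (f := fun z : ℕ => ⌊G * Real.log z / L⌋₊)
    (b := C * Λ ^ 5 * ((T + (P.card - 1)).choose (P.card - 1) : ℝ))
    (fun z hz => by
      rw [Finset.mem_range, Nat.lt_succ_iff]
      apply Nat.floor_le_of_le
      have h0 : (0 : ℝ) < z := by exact_mod_cast (hZm z hz).1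
      have h1 : Real.log z ≤ L := (Real.log_le_iff_le_exp h0).2 (hZL z hz)
      rw [div_le_iff₀ hL0]
      exact mul_le_mul_of_nonneg_left h1 hG0.le)
    Finset.nonempty_range_add_one
    (by
      rw [Finset.card_range, nsmul_eq_mul]
      push_cast
      linarith)
  set F := Z.filter (fun z : ℕ => ⌊G * Real.log z / L⌋₊ = k) with hF
  have hFZ : ∀ z ∈ F, z ∈ Z := fun z hz => (Finset.mem_filter.1 hz).1
  have hcard : (F.image un).card = F.card := by
    apply Finset.card_image_of_injOn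
    intro z hz z' hz' h
    have h1 := un_val (hZm z (hFZ z hz)).1
    have h2 := un_val (hZm z' (hFZ z' hz')).1
    rw [h, h2] at h1
    exact_mod_cast h1.symm
  have key := hM ℚ ℝ (Rat.castHom ℝ) Real.exp ⊤ 2 κ ρ loc P
    (fun z => Real.log ((z : ℚ) : ℝ)) (F.image un) (be P b) P.card T L Λ hP
    (by rw [Module.finrank_self]; ring)
    (fun a _ c _ => by
      push_cast
      exact Real.log_mul (by exact_mod_cast a.ne_zero) (by exact_mod_cast c.ne_zero))
    (fun y hy => by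
      obtain ⟨z, hz, rfl⟩ := Finset.mem_image.1 hy
      have hz' := hFZ z hz
      rw [un_val (hZm z hz').1]
      refine ⟨?_, fun σ => ?_, ?_⟩
      · exact_mod_cast (isIntegral_algebraMap (R := ℤ) (A := ℚ) (x := (z : ℤ)))
      · rw [map_natCast, Complex.norm_natCast, Module.finrank_self, Nat.cast_one, div_one]
        exact hZL z hz'
      · rw [map_natCast, Real.norm_natCast]
        exact hZL z hz')
    (fun y hy y' hy' => by
      obtain ⟨z, hz, rfl⟩ := Finset.mem_image.1 hy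
      obtain ⟨z', hz', rfl⟩ := Finset.mem_image.1 hy'
      obtain ⟨h0, -, e, he⟩ := hZm z (hFZ z hz)
      obtain ⟨h0', -, e', he'⟩ := hZm z' (hFZ z' hz')
      have r0 : (0 : ℝ) < z := by exact_mod_cast h0
      have r0' : (0 : ℝ) < z' := by exact_mod_cast h0'
      have hv : (((un z / un z' : ℚˣ) : ℚ) : ℝ) = (z : ℝ) / z' := by
        rw [Units.val_div_eq_div_val, un_val h0, un_val h0']
        push_cast
        rfl
      refine ⟨?_, ?_, AddSubgroup.mem_top _, ?_, fun j => ?_⟩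
      · refine div_mem ?_ ?_
        · rw [he]; exact un_prod_mem hP e
        · rw [he']; exact un_prod_mem hP e'
      · intro h
        have h1 : ((un z : ℚˣ) : ℚ) = -((un z' : ℚˣ) : ℚ) := by rw [h, Units.val_neg]
        rw [un_val h0, un_val h0'] at h1
        have q0 : (0 : ℚ) < z := by exact_mod_cast h0
        have q0' : (0 : ℚ) < z' := by exact_mod_cast h0'
        linarith
      · rw [eq_ratCast, hv, Real.exp_log (by positivity)]
      · have hk1 := (Finset.mem_filter.1 hz).2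
        have hk2 := (Finset.mem_filter.1 hz').2
        have hcl := close hG0 hL0 (Real.log_natCast_nonneg z) (Real.log_natCast_nonneg z')
          (hk1.trans hk2.symm)
        have hLG : L / G ≤ ρ * (L / κ) := by
          rw [hρ, Real.exp_neg, div_le_iff₀ hG0]
          have he0 : 0 < Real.exp κ := Real.exp_pos κ
          calc L = (Real.exp κ)⁻¹ / 80 * (L / κ) * (80 * κ * Real.exp κ) := by field_simp
            _ ≤ _ := mul_le_mul_of_nonneg_left hG (by positivity)
        have h2 : (0 : ℝ) < ((2 : ℕ) : ℝ) ^ j := by positivity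
        show ‖Real.log _ / _‖ ≤ _
        rw [hv, Real.log_div r0.ne' r0'.ne', Real.norm_eq_abs, abs_div, abs_of_pos h2]
        calc _ ≤ ρ * (L / κ) / ((2 : ℕ) : ℝ) ^ j :=
              div_le_div_of_nonneg_right (hcl.trans hLG) h2.le
          _ = ρ * (L / (κ * ((2 : ℕ) : ℝ) ^ j)) := by field_simp
          _ ≤ _ := mul_le_mul_of_nonneg_left (le_max_right _ _) hρ0)
    (be_mem hP b) (be_ne hP hb).1 (be_ne hP hb).2 (be_sz hP b _ hbΛ hsum) hρ0 hκ hκΛ hPΛ hL hT
    hCT h324 (by rw [hcard]; exact hk)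
  rwa [log_prod hP, Real.norm_eq_abs] at key

end Pool.Agent.MP_542436_nt.H96
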