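import Pool.Agent.MP_542436_nt.H96.Spec

/-! The logarithmic embedding. -/

namespace Pool.Agent.MP_542436_nt.H96

open NumberField

namespace SEP

variable {K : Type} [Field K] [NumberField K]

theorem prod_norm (x : K) : ∏ σ : K →+* ℂ, ‖σ x‖ = |(Algebra.norm ℚ x : ℝ)| := by
  rw [← Complex.norm_ratCast, ← eq_ratCast (algebraMap ℚ ℂ), Algebra.norm_eq_prod_embeddings,
    norm_prod]
  exact Fintype.prod_equiv (RingHom.equivRatAlgHom K ℂ) _ _ fun _ => rfl

theorem norm_int {x : K} (h : IsIntegral ℤ x) : ∃ m : ℤ, Algebra.norm ℚ x = m :=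
  ⟨_, (Algebra.coe_norm_int (⟨x, h⟩ : 𝓞 K)).symm⟩

theorem sum_log {x : K} (h : x ≠ 0) :
    ∑ σ : K →+* ℂ, Real.log ‖σ x‖ = Real.log |(Algebra.norm ℚ x : ℝ)| := by
  rw [← prod_norm, Real.log_prod fun σ _ => by simpa using h]

theorem norm_unit {x : K} (h0 : x ≠ 0) (h : IsIntegral ℤ x) (h' : IsIntegral ℤ x⁻¹) :
    Algebra.norm ℚ x = 1 ∨ Algebra.norm ℚ x = -1 := by
  obtain ⟨m, hm⟩ := norm_int h
  obtain ⟨m', hm'⟩ := norm_int h'
  have : m * m' = 1 := by
    have : (m : ℚ) * m' = 1 := by rw [← hm, ← hm', ← map_mul, mul_inv_cancel₀ h0, map_one]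
    exact_mod_cast this
  rcases Int.eq_one_or_neg_one_of_mul_eq_one this with rfl | rfl <;> simp [hm]

theorem val_prod {P : Finset ℕ} (hP : ∀ r ∈ P, r.Prime) (e : ℕ → ℤ) {r : ℕ} (hr : r.Prime) :
    padicValRat r (∏ s ∈ P, (s : ℚ) ^ e s) = if r ∈ P then e r else 0 := by
  have := Fact.mk hr
  induction P using Finset.induction_on with
  | empty => simp
  | insert s P hs ih =>
    have h1 := hP s (Finset.mem_insert_self _ _)
    have h2 : ∀ r ∈ P, r.Prime := fun r h => hP r (Finset.mem_insert_of_mem h)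
    have := Fact.mk h1
    rw [Finset.prod_insert hs, padicValRat.mul (zpow_ne_zero _ (Nat.cast_ne_zero.2 h1.ne_zero))
      (Finset.prod_ne_zero_iff.2 fun t ht => zpow_ne_zero _ (Nat.cast_ne_zero.2 (h2 t ht).ne_zero)),
      ih h2, padicValRat.zpow, padicValRat.of_nat]
    by_cases h : r = s
    · subst h
      simp [hs]
    · simp [h, padicValNat_primes h]

theorem struct {P : Finset ℕ} (hP : ∀ r ∈ P, r.Prime) {u : Kˣ}
    (hu : u ∈ (Units.map (algebraMap (𝓞 K) K : 𝓞 K →* K)).range ⊔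
      Subgroup.closure {u : Kˣ | ∃ r ∈ P, (u : K) = r}) :
    ∃ (v : Kˣ) (e : ℕ → ℤ), IsIntegral ℤ (v : K) ∧ IsIntegral ℤ (v : K)⁻¹ ∧
      (u : K) = v * ∏ r ∈ P, (r : K) ^ e r := by
  have h0 : ∀ r ∈ P, (r : K) ≠ 0 := fun r h => Nat.cast_ne_zero.2 (hP r h).ne_zero
  let H : Subgroup Kˣ :=
    { carrier := {u | ∃ (v : Kˣ) (e : ℕ → ℤ), IsIntegral ℤ (v : K) ∧ IsIntegral ℤ (v : K)⁻¹ ∧
        (u : K) = v * ∏ r ∈ P, (r : K) ^ e r}
      one_mem' := ⟨1, 0, by simpa using isIntegral_one, by simpa using isIntegral_one, by simp⟩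
      mul_mem' := by
        rintro a b ⟨v, e, h1, h2, h3⟩ ⟨v', e', h1', h2', h3'⟩
        refine ⟨v * v', e + e', h1.mul h1', by simpa using h2'.mul h2, ?_⟩
        rw [Finset.prod_congr rfl fun r hr => by rw [Pi.add_apply, zpow_add₀ (h0 r hr)],
          Finset.prod_mul_distrib, Units.val_mul, Units.val_mul, h3, h3']
        ring
      inv_mem' := by
        rintro a ⟨v, e, h1, h2, h3⟩
        refine ⟨v⁻¹, -e, by simpa using h2, by simpa using h1, ?_⟩
        simp [h3, mul_comm] }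
  refine (sup_le ?_ ((Subgroup.closure_le H).2 ?_) : _ ≤ H) hu
  · rintro _ ⟨w, rfl⟩
    refine ⟨Units.map (algebraMap (𝓞 K) K : 𝓞 K →* K) w, 0, RingOfIntegers.isIntegral_coe _, ?_,
      by simp⟩
    rw [← Units.val_inv_eq_inv_val, ← map_inv]
    exact RingOfIntegers.isIntegral_coe _
  · rintro w ⟨r, hr, h⟩
    refine ⟨1, Pi.single r 1, by simpa using isIntegral_one, by simpa using isIntegral_one, ?_⟩
    rw [Finset.prod_eq_single_of_mem r hr fun s _ hs => by simp [hs]]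
    simpa using h

theorem unit_of {P : Finset ℕ} (hP : ∀ r ∈ P, r.Prime) {z : Kˣ} (hz : z ∈ Gam K P)
    (h : ∀ r ∈ P, padicValRat r (Algebra.norm ℚ (z : K)) = 0) :
    IsIntegral ℤ (z : K) ∧ IsIntegral ℤ (z : K)⁻¹ := by
  obtain ⟨k, hk, hz⟩ := hz
  obtain ⟨v, e, h1, h2, h3⟩ := struct hP hz
  have h0 : ∀ r ∈ P, (r : ℚ) ≠ 0 := fun r h => Nat.cast_ne_zero.2 (hP r h).ne_zero
  have he : ∀ r ∈ P, e r = 0 := fun r hr => by
    have := Fact.mk (hP r hr)
    have e1 : ∏ r ∈ P, (r : K) ^ e r = algebraMap ℚ K (∏ r ∈ P, (r : ℚ) ^ e r) := by simp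
    have e2 := congrArg (fun x => padicValRat r (Algebra.norm ℚ x)) h3
    simp only [Units.val_pow_eq_pow_val, map_pow, map_mul, e1, Algebra.norm_algebraMap] at e2
    rw [padicValRat.pow, h r hr, padicValRat.mul (by simp) (pow_ne_zero _
      (Finset.prod_ne_zero_iff.2 fun t ht => zpow_ne_zero _ (h0 t ht))), padicValRat.pow,
      val_prod hP e (hP r hr), if_pos hr] at e2
    have e3 : padicValRat r (Algebra.norm ℚ (v : K)) = 0 := by
      rcases norm_unit v.ne_zero h1 h2 with h | h <;> simp [h]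
    have e4 : Module.finrank ℚ K ≠ 0 := Module.finrank_pos.ne'
    simpa [e3, e4] using e2.symm
  rw [Finset.prod_eq_one fun r hr => by rw [he r hr, zpow_zero], mul_one,
    Units.val_pow_eq_pow_val] at h3
  refine ⟨IsIntegral.of_pow (Nat.pos_of_ne_zero hk) (h3 ▸ h1),
    IsIntegral.of_pow (Nat.pos_of_ne_zero hk) ?_⟩
  rwa [inv_pow, h3]

theorem sq_one [IsTotallyReal K] {z : K} (h0 : z ≠ 0) (h : IsIntegral ℤ z)
    (hs : ∀ σ : K →+* ℂ, |Real.log ‖σ z‖| ≤ 1 / 20) : z = 1 ∨ z = -1 := by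
  rw [← sq_eq_one_iff]
  by_contra hne
  obtain ⟨σ, hσ⟩ := exists_conjugate_one_le_norm (K := K)
    (α := ⟨z ^ 2 - 1, (h.pow 2).sub isIntegral_one⟩)
    (fun e => hne (sub_eq_zero.1 (congrArg Subtype.val e)))
  have hr := IsTotallyReal.complexEmbedding_isReal σ
  have e1 : σ z = (hr.embedding z : ℝ) := (hr.coe_embedding_apply z).symm
  have e2 : ‖σ (z ^ 2 - 1)‖ = |‖σ z‖ ^ 2 - 1| := by
    rw [map_sub, map_pow, map_one, e1, Complex.norm_real, Real.norm_eq_abs, sq_abs,
      ← Real.norm_eq_abs, ← Complex.norm_real]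
    simp
  have p0 : 0 < ‖σ z‖ := by simpa using h0
  have p1 : ‖σ z‖ ≤ Real.exp (1 / 20) := (Real.log_le_iff_le_exp p0).1 (abs_le.1 (hs σ)).2
  have p2 : Real.exp (1 / 20) ≤ 1 / (1 - 1 / 20) := Real.exp_bound_div_one_sub_of_interval
    (by norm_num) (by norm_num)
  have p3 : (1 : ℝ) ≤ |‖σ z‖ ^ 2 - 1| := e2 ▸ hσ
  rcases le_abs.1 p3 with p | p <;> nlinarith

theorem log_le {y : K} {L : ℝ} (hL : 0 ≤ L) (h0 : y ≠ 0) (h : IsIntegral ℤ y)
    (hs : ∀ σ : K →+* ℂ, ‖σ y‖ ≤ Real.exp (L / Module.finrank ℚ K)) :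
    (∀ σ : K →+* ℂ, |Real.log ‖σ y‖| ≤ L) ∧ ∀ r : ℕ, r.Prime →
      0 ≤ (padicValRat r (Algebra.norm ℚ y) : ℝ) ∧
        (padicValRat r (Algebra.norm ℚ y) : ℝ) ≤ 2 * L := by
  classical
  have hD : (1 : ℝ) ≤ Module.finrank ℚ K := by exact_mod_cast Module.finrank_pos
  have a1 : ∀ σ : K →+* ℂ, Real.log ‖σ y‖ ≤ L / Module.finrank ℚ K := fun σ =>
    (Real.log_le_iff_le_exp (by simpa using h0)).2 (hs σ)
  have a2 : ∀ s : Finset (K →+* ℂ), ∑ σ ∈ s, Real.log ‖σ y‖ ≤ L := fun s => by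
    refine (Finset.sum_le_card_nsmul _ _ _ fun σ _ => a1 σ).trans ?_
    have : (s.card : ℝ) ≤ Module.finrank ℚ K := by
      rw [← Embeddings.card K ℂ]
      exact_mod_cast s.card_le_univ
    rw [nsmul_eq_mul, mul_div_left_comm]
    exact mul_le_of_le_one_right hL ((div_le_one (by linarith)).2 this)
  obtain ⟨m, hm⟩ := norm_int h
  have m0 : m ≠ 0 := fun e => Algebra.norm_ne_zero_iff.2 h0 (by rw [hm, e, Int.cast_zero])
  have a3 := sum_log h0
  rw [hm, Rat.cast_intCast] at a3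
  have m1 : (1 : ℝ) ≤ |(m : ℝ)| := by exact_mod_cast Int.one_le_abs m0
  refine ⟨fun σ => abs_le.2 ⟨?_, by simpa using a2 {σ}⟩, fun r hr => ?_⟩
  · have := Finset.add_sum_erase _ (fun σ : K →+* ℂ => Real.log ‖σ y‖) (Finset.mem_univ σ)
    have := a2 (Finset.univ.erase σ)
    have := Real.log_nonneg m1
    linarith
  · rw [hm, padicValRat.of_int]
    refine ⟨by positivity, ?_⟩
    have b1 : r ^ padicValInt r m ≤ m.natAbs :=
      Nat.le_of_dvd (Int.natAbs_pos.2 m0) pow_padicValNat_dvd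
    have b2 : (2 : ℝ) ^ padicValInt r m ≤ |(m : ℝ)| := by
      have := (Nat.pow_le_pow_left hr.two_le _).trans b1
      rw [← Int.cast_abs, Int.abs_eq_natAbs]
      exact_mod_cast this
    have b3 := Real.log_le_log (by positivity) b2
    rw [Real.log_pow, ← a3] at b3
    have b4 := a2 Finset.univ
    have b5 := Real.log_two_gt_d9
    have b6 : (0 : ℝ) ≤ padicValInt r m := by positivity
    push_cast
    nlinarith

end SEP

open SEP in
theorem rowSEP : RowSEP where
  emb K _ _ _ P n hP hn := by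
    classical
    obtain ⟨σ0⟩ : Nonempty (K →+* ℂ) := inferInstance
    have hc : Fintype.card ({σ : K →+* ℂ // σ ≠ σ0} ⊕ P) = n := by
      have := Module.finrank_pos (R := ℚ) (M := K)
      simp [Embeddings.card]
      omega
    let e := Fintype.equivFinOfCardEq hc
    let f : Kˣ → ({σ : K →+* ℂ // σ ≠ σ0} ⊕ P) → ℝ := fun z =>
      Sum.elim (fun σ => Real.log ‖σ.1 z‖) fun r => padicValRat r (Algebra.norm ℚ (z : K))
    have fm : ∀ z z' i, f (z * z') i = f z i + f z' i := by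
      rintro z z' (σ | r)
      · simp only [f, Sum.elim_inl, Units.val_mul, map_mul, norm_mul]
        exact Real.log_mul (by simp) (by simp)
      · have := Fact.mk (hP r r.2)
        simp only [f, Sum.elim_inr, Units.val_mul, map_mul]
        rw [padicValRat.mul (by simp) (by simp), Int.cast_add]
    refine ⟨AddMonoidHom.mk' (fun z i => f (Additive.toMul z : Gam K P) (e.symm i))
      fun a b => funext fun i => fm _ _ _, fun z t ht hz => ?_, fun z hz => ?_⟩
    · refine (pi_norm_le_iff_of_nonneg ht).2 fun i => ?_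
      show |f z (e.symm i)| ≤ t
      rcases e.symm i with σ | r
      · exact hz.1 σ
      · exact hz.2 r r.2
    · have hD : 0 < Module.finrank ℚ K := Module.finrank_pos
      have hz' : ∀ i, |f z i| < 1 / 20 ^ Module.finrank ℚ K := fun i => by
        have := (norm_le_pi_norm _ (e i)).trans_lt hz
        simpa using this
      have hb : (Module.finrank ℚ K : ℝ) * (1 / 20 ^ Module.finrank ℚ K) ≤ 1 / 20 := by
        obtain ⟨m, hm⟩ := Nat.exists_eq_succ_of_ne_zero hD.ne'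
        have : ((m + 1 : ℕ) : ℝ) ≤ 20 ^ m := by
          exact_mod_cast Nat.lt_pow_self (by norm_num : 1 < 20)
        rw [hm, mul_one_div, div_le_div_iff₀ (by positivity) (by norm_num), pow_succ]
        simpa using this
      have hD' : (1 : ℝ) ≤ Module.finrank ℚ K := by exact_mod_cast hD
      have hb' : (1 : ℝ) / 20 ^ Module.finrank ℚ K ≤ 1 / 20 :=
        (le_mul_of_one_le_left (by positivity) hD').trans hb
      obtain ⟨h1, h2⟩ := unit_of hP z.2 fun r hr => by
        have : |(padicValRat r (Algebra.norm ℚ ((z : Kˣ) : K)) : ℝ)| < 1 :=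
          (hz' (Sum.inr ⟨r, hr⟩)).trans_le (hb'.trans (by norm_num))
        exact Int.abs_lt_one_iff.1 (by exact_mod_cast this)
      have h3 := sum_log (z : Kˣ).ne_zero
      have h4 : Real.log |(Algebra.norm ℚ ((z : Kˣ) : K) : ℝ)| = 0 := by
        rcases norm_unit (z : Kˣ).ne_zero h1 h2 with h | h <;> simp [h]
      have h5 := sq_one (z : Kˣ).ne_zero h1 fun σ => by
        by_cases hσ : σ = σ0
        · rw [h4, ← Finset.add_sum_erase _ _ (Finset.mem_univ σ)] at h3
          rw [eq_neg_of_add_eq_zero_left h3, abs_neg]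
          refine (Finset.abs_sum_le_sum_abs _ _).trans ((Finset.sum_le_card_nsmul _ _
            (1 / 20 ^ Module.finrank ℚ K) fun τ hτ =>
              (hz' (Sum.inl ⟨τ, hσ ▸ Finset.ne_of_mem_erase hτ⟩)).le).trans (le_trans ?_ hb))
          rw [nsmul_eq_mul]
          gcongr
          rw [← Embeddings.card K ℂ]
          exact Finset.card_le_univ _
        · exact (hz' (Sum.inl ⟨σ, hσ⟩)).le.trans hb'
      exact h5.imp (fun h => Units.ext h) fun h => Units.ext h
  quo K _ _ P y y' L hL hP h h' hs hs' := by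
    obtain ⟨a, b⟩ := log_le hL y.ne_zero h hs
    obtain ⟨a', b'⟩ := log_le hL y'.ne_zero h' hs'
    refine ⟨fun σ => ?_, fun r hr => ?_⟩
    · rw [Units.val_div_eq_div_val, map_div₀, norm_div, Real.log_div (by simp) (by simp)]
      exact (abs_sub _ _).trans (by linarith [a σ, a' σ])
    · have := Fact.mk (hP r hr)
      have e : Algebra.norm ℚ ((y / y' : Kˣ) : K) =
          Algebra.norm ℚ (y : K) / Algebra.norm ℚ (y' : K) := by
        rw [eq_div_iff (by simp), ← map_mul, ← Units.val_mul, div_mul_cancel]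
      rw [e, padicValRat.div (by simp) (by simp), Int.cast_sub, abs_le]
      constructor <;> linarith [b r (hP r hr), b' r (hP r hr)]

end Pool.Agent.MP_542436_nt.H96
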