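import Pool.Agent.MP_542436_nt.H96.Spec

/-! The lemma of Siegel over a totally real field. -/

namespace Pool.Agent.MP_542436_nt.H96

open NumberField

namespace SIE

/-- The box principle for real linear forms. -/
lemma box {T J : Type} [Fintype T] [Fintype J] [Nonempty T] (A : J → T → ℝ) {W : ℝ} (hW : 1 ≤ W)
    (hJ : 2 * Fintype.card J ≤ Fintype.card T) (hA : ∀ j y, |A j y| ≤ W) :
    ∃ c : T → ℤ, c ≠ 0 ∧ (∀ y, |(c y : ℝ)| ≤ 4 * Fintype.card T * W) ∧
      ∀ j, |∑ y, c y * A j y| < 1 := by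
  classical
  have hN : 0 < Fintype.card T := Fintype.card_pos
  have hN' : (1 : ℝ) ≤ Fintype.card T := Nat.one_le_cast.2 hN
  set N := Fintype.card T with hNe
  have h0 : (1 : ℝ) ≤ N * W := one_le_mul_of_one_le_of_one_le hN' hW
  set H := ⌈2 * N * W⌉₊ with hH
  have H1 : 2 * N * W ≤ H := Nat.le_ceil _
  have H2 : (H : ℝ) ≤ 4 * N * W := by
    have := Nat.ceil_lt_add_one (show (0 : ℝ) ≤ 2 * N * W by linarith)
    linarith
  have H3 : 0 < H := Nat.ceil_pos.2 (by linarith)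
  have bd : ∀ (c : T → Fin (H + 1)) j, |∑ y, ((c y : ℕ) : ℝ) * A j y| ≤ N * (H * W) := fun c j => by
    refine (Finset.abs_sum_le_sum_abs _ _).trans
      ((Finset.sum_le_card_nsmul _ _ (H * W) fun y _ => ?_).trans ?_)
    · rw [abs_mul, Nat.abs_cast]
      exact mul_le_mul (Nat.cast_le.2 (Nat.lt_succ_iff.1 (c y).2)) (hA j y) (abs_nonneg _)
        H.cast_nonneg
    · rw [nsmul_eq_mul, Finset.card_univ]
  have pos : ∀ (c : T → Fin (H + 1)) j, 0 ≤ ∑ y, ((c y : ℕ) : ℝ) * A j y + N * (H * W) :=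
    fun c j => by linarith [(abs_le.1 (bd c j)).1]
  let f : (T → Fin (H + 1)) → J → Fin (H * H + 1) := fun c j =>
    ⟨⌊∑ y, ((c y : ℕ) : ℝ) * A j y + N * (H * W)⌋₊, Nat.lt_succ_of_le (Nat.floor_le_of_le (by
      have := mul_le_mul_of_nonneg_right H1 (H.cast_nonneg (α := ℝ))
      push_cast
      linarith [(abs_le.1 (bd c j)).2]))⟩
  obtain ⟨c, c', hne, he⟩ := Fintype.exists_ne_map_eq_of_card_lt f (by
    simp only [Fintype.card_fun, Fintype.card_fin, ← hNe]
    rcases Nat.eq_zero_or_pos (Fintype.card J) with h | h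
    · rw [h, pow_zero]
      exact Nat.one_lt_pow hN.ne' (by omega)
    · calc (H * H + 1) ^ Fintype.card J < ((H + 1) ^ 2) ^ Fintype.card J :=
            Nat.pow_lt_pow_left (by nlinarith) h.ne'
        _ ≤ (H + 1) ^ N := by
            rw [← pow_mul]
            exact Nat.pow_le_pow_right H.succ_pos hJ)
  refine ⟨fun y => (c y : ℕ) - (c' y : ℕ), fun h => hne (funext fun y => Fin.ext ?_),
    fun y => le_trans ?_ H2, fun j => ?_⟩
  · have := congrFun h y
    simp only [Pi.zero_apply] at this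
    omega
  · have a1 : ((c y : ℕ) : ℝ) ≤ H := Nat.cast_le.2 (Nat.lt_succ_iff.1 (c y).2)
    have a2 : ((c' y : ℕ) : ℝ) ≤ H := Nat.cast_le.2 (Nat.lt_succ_iff.1 (c' y).2)
    have a3 : (0 : ℝ) ≤ (c y : ℕ) := Nat.cast_nonneg _
    have a4 : (0 : ℝ) ≤ (c' y : ℕ) := Nat.cast_nonneg _
    push_cast
    exact abs_le.2 ⟨by linarith, by linarith⟩
  · have e : ⌊∑ y, ((c y : ℕ) : ℝ) * A j y + N * (H * W)⌋₊ =
        ⌊∑ y, ((c' y : ℕ) : ℝ) * A j y + N * (H * W)⌋₊ := congrArg Fin.val (congrFun he j)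
    have a1 := Nat.floor_le (pos c j)
    have a2 := Nat.lt_floor_add_one (∑ y, ((c y : ℕ) : ℝ) * A j y + N * (H * W))
    have a3 := Nat.floor_le (pos c' j)
    have a4 := Nat.lt_floor_add_one (∑ y, ((c' y : ℕ) : ℝ) * A j y + N * (H * W))
    rw [e] at a1 a2
    push_cast
    simp only [sub_mul, Finset.sum_sub_distrib]
    exact abs_lt.2 ⟨by linarith, by linarith⟩

end SIE

theorem rowSIE : RowSIE := by
  classical
  intro K _ _ _ X R t r a W hW ht hr ha
  have : Nonempty t := ht.to_subtype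
  have re : ∀ σ : K →+* ℂ, ∃ φ : K →+* ℝ, ∀ x, ‖σ x‖ = |φ x| := fun σ =>
    ⟨(IsTotallyReal.complexEmbedding_isReal σ).embedding, fun x => by
      rw [← (IsTotallyReal.complexEmbedding_isReal σ).coe_embedding_apply, Complex.norm_real,
        Real.norm_eq_abs]⟩
  choose φ hφ using re
  obtain ⟨c, h1, h2, h3⟩ := SIE.box (T := t) (J := (K →+* ℂ) × r) (fun j y => φ j.1 (a j.2 y)) hW
    (by rw [Fintype.card_prod, Embeddings.card, Fintype.card_coe, Fintype.card_coe, ← mul_assoc]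
        exact hr)
    fun j y => (hφ _ _).ge.trans ((ha _ j.2.2 _ y.2).2 _)
  refine ⟨fun y => if h : y ∈ t then c ⟨y, h⟩ else 0, ?_, fun y hy => ?_, fun e he => ?_⟩
  · obtain ⟨y, hy⟩ := Function.ne_iff.1 h1
    exact ⟨y, y.2, by simpa using hy⟩
  · simpa [hy] using h2 ⟨y, hy⟩
  · rw [← Finset.sum_coe_sort]
    simp only [Finset.coe_mem, dite_true, Subtype.coe_eta]
    by_contra h
    have hi : IsIntegral ℤ (∑ y : t, (c y : K) * a e y) :=
      IsIntegral.sum _ fun y _ => (isIntegral_algebraMap (x := c y)).mul (ha e he y y.2).1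
    obtain ⟨σ, hσ⟩ := exists_conjugate_one_le_norm (K := K) (α := ⟨_, hi⟩)
      fun h' => h (congrArg Subtype.val h')
    have h4 := h3 (σ, ⟨e, he⟩)
    have h5 : 1 ≤ ‖σ (∑ y : t, (c y : K) * a e y)‖ := hσ
    rw [hφ, map_sum] at h5
    simp only [map_mul, map_intCast] at h5
    exact absurd h4 (not_lt.2 h5)

end Pool.Agent.MP_542436_nt.H96
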