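import Pool.Agent.MP_542436_nt.H96.Spec

/-! Adjoining an invariant square root gives a Galois extension. -/

namespace Pool.Agent.MP_542436_nt.H96.ADJ

open NumberField Pool.Agent.MP_db5b97_nt.H85 QuadraticAlgebra

/-- ring maps out of a quadratic algebra -/
def lft {L A : Type} [Field L] [CommRing A] (m : L) (φ : L →+* A) (t : A) (h : t * t = φ m) :
    QuadraticAlgebra L m 0 →+* A where
  toFun z := φ z.re + φ z.im * t
  map_one' := by simp
  map_zero' := by simp
  map_add' z w := by
    simp only [re_add, im_add, map_add]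
    ring
  map_mul' z w := by
    simp only [re_mul, im_mul, map_add, map_mul, zero_mul, add_zero, ← h]
    ring

theorem lft_apply {L A : Type} [Field L] [CommRing A] (m : L) (φ : L →+* A) (t : A)
    (h : t * t = φ m) (z : QuadraticAlgebra L m 0) : lft m φ t h z = φ z.re + φ z.im * t := rfl

theorem dec {L : Type} [Field L] (m : L) (x : QuadraticAlgebra L m 0) :
    x = algebraMap L _ x.re + algebraMap L _ x.im * omega := by
  ext <;> simp

theorem om_sq {L : Type} [Field L] (m : L) :
    (omega : QuadraticAlgebra L m 0) * omega = algebraMap L _ m := by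
  ext <;> simp

section

variable {k L : Type} [Field k] [Field L] [Algebra k L]

/-- the lift of an automorphism -/
def lfa (m : L) (s : L ≃ₐ[k] L) (y : L) (h : s m = m * y ^ 2) :
    QuadraticAlgebra L m 0 →ₐ[k] QuadraticAlgebra L m 0 :=
  { lft m ((algebraMap L (QuadraticAlgebra L m 0)).comp (s : L →+* L)) (algebraMap L _ y * omega)
      (by
        rw [mul_mul_mul_comm, om_sq, ← map_mul, ← map_mul]
        simp only [RingHom.comp_apply, RingHom.coe_coe, h]
        congr 1
        ring) with
    commutes' := fun r => by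
      show lft m _ _ _ (algebraMap k (QuadraticAlgebra L m 0) r) = _
      rw [lft_apply]
      have h1 : (algebraMap k (QuadraticAlgebra L m 0) r).re = algebraMap k L r := rfl
      have h2 : (algebraMap k (QuadraticAlgebra L m 0) r).im = 0 := rfl
      rw [h1, h2, map_zero, zero_mul, add_zero]
      simp only [RingHom.comp_apply, RingHom.coe_coe, AlgEquiv.commutes]
      rfl }

theorem lfa_apply (m : L) (s : L ≃ₐ[k] L) (y : L) (h : s m = m * y ^ 2)
    (z : QuadraticAlgebra L m 0) :
    lfa m s y h z = algebraMap L _ (s z.re) + algebraMap L _ (s z.im) * (algebraMap L _ y * omega) :=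
  rfl

theorem lfa_re (m : L) (s : L ≃ₐ[k] L) (y : L) (h : s m = m * y ^ 2) (z : QuadraticAlgebra L m 0) :
    (lfa m s y h z).re = s z.re := by
  rw [lfa_apply]
  simp

theorem lfa_im (m : L) (s : L ≃ₐ[k] L) (y : L) (h : s m = m * y ^ 2) (z : QuadraticAlgebra L m 0) :
    (lfa m s y h z).im = s z.im * y := by
  rw [lfa_apply]
  simp

theorem gal [CharZero L] [FiniteDimensional k L] [IsGalois k L] (m : L)
    [Fact (∀ r : L, r ^ 2 ≠ m + 0 * r)] (hm : ∀ s : L ≃ₐ[k] L, ∃ y, s m = m * y ^ 2) :
    IsGalois k (QuadraticAlgebra L m 0) := by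
  have : FiniteDimensional k (QuadraticAlgebra L m 0) := Module.Finite.trans L _
  apply IsGalois.of_fixedField_eq_bot
  rw [eq_bot_iff]
  intro x hx
  rw [IntermediateField.mem_fixedField_iff] at hx
  have key : ∀ f : QuadraticAlgebra L m 0 →ₐ[k] QuadraticAlgebra L m 0, f x = x := fun f =>
    hx (AlgEquiv.ofBijective f (Algebra.IsAlgebraic.algHom_bijective f)) (Subgroup.mem_top _)
  have h1 : x.im = 0 := by
    have := (lfa_im m (1 : L ≃ₐ[k] L) (-1) (by simp) x).symm.trans
      (congrArg QuadraticAlgebra.im (key (lfa m 1 (-1) (by simp))))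
    simp only [AlgEquiv.one_apply, mul_neg, mul_one] at this
    have h2 : (2 : L) * x.im = 0 := by linear_combination -this
    simpa using h2
  have h2 : x.re ∈ Set.range (algebraMap k L) := by
    rw [IsGalois.mem_range_algebraMap_iff_fixed]
    intro s
    obtain ⟨y, hy⟩ := hm s
    exact (lfa_re m s y hy x).symm.trans (congrArg QuadraticAlgebra.re (key (lfa m s y hy)))
  obtain ⟨r, hr⟩ := h2
  refine IntermediateField.mem_bot.2 ⟨r, ?_⟩
  ext
  · exact hr
  · exact h1.symm

end

theorem real {L : Type} [Field L] [IsTotallyReal L] (m : L) [Fact (∀ r : L, r ^ 2 ≠ m + 0 * r)]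
    (hm : ∀ φ : L →+* ℝ, 0 < φ m) : IsTotallyReal (QuadraticAlgebra L m 0) := by
  refine ⟨fun v => ?_⟩
  rw [InfinitePlace.isReal_iff, ComplexEmbedding.isReal_iff]
  set φ := v.embedding
  have hr : ComplexEmbedding.IsReal (φ.comp (algebraMap L (QuadraticAlgebra L m 0))) :=
    IsTotallyReal.complexEmbedding_isReal _
  have hL : ∀ a : L, φ (algebraMap L _ a) = ((hr.embedding a : ℝ) : ℂ) := fun a =>
    (hr.coe_embedding_apply a).symm
  have hsq : φ omega * φ omega = ((hr.embedding m : ℝ) : ℂ) := by
    rw [← map_mul, om_sq, hL]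
  have hpos := hm hr.embedding
  have him : (φ omega).im = 0 := by
    have e1 := congrArg Complex.re hsq
    have e2 := congrArg Complex.im hsq
    simp only [Complex.mul_re, Complex.mul_im, Complex.ofReal_re, Complex.ofReal_im] at e1 e2
    by_contra hne
    have : (φ omega).re = 0 := by
      have h3 : (φ omega).re * (φ omega).im = 0 := by linarith
      exact (mul_eq_zero.1 h3).resolve_right hne
    rw [this] at e1
    nlinarith [mul_self_nonneg (φ omega).im]
  ext1 x
  have hx : φ x = ((hr.embedding x.re : ℝ) : ℂ) + ((hr.embedding x.im : ℝ) : ℂ) * φ omega := by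
    rw [← hL, ← hL, ← map_mul, ← map_add, ← dec]
  rw [ComplexEmbedding.conjugate_coe_eq, Complex.conj_eq_iff_im, hx, Complex.add_im, Complex.mul_im,
    him, Complex.ofReal_im, Complex.ofReal_im]
  simp

end Pool.Agent.MP_542436_nt.H96.ADJ

namespace Pool.Agent.MP_542436_nt.H96

open NumberField Pool.Agent.MP_db5b97_nt.H85 QuadraticAlgebra

theorem rowADJ : RowADJ := by
  intro k L _ _ _ _ _ _ μ hI hS
  have : Fact (∀ r : L, r ^ 2 ≠ μ.val + 0 * r) := ⟨fun r hr => by
    rw [zero_mul, add_zero] at hr
    have h0 : r ≠ 0 := by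
      rintro rfl
      exact μ.val_ne (by rw [← hr]; simp)
    exact hS (mem_Sq.2 ⟨Un.mk r h0, Un.ext (by rw [Un.val_nsmul]; exact hr)⟩)⟩
  have : FiniteDimensional k L := Module.Finite.of_restrictScalars_finite ℚ k L
  have : NumberField (QuadraticAlgebra L μ.val 0) := NumberField.of_module_finite L _
  refine ⟨QuadraticAlgebra L μ.val 0, inferInstance, inferInstance, inferInstance, inferInstance,
    inferInstance, omega, ADJ.gal _ fun s => ?_, finrank_eq_two _ _, ?_,
    fun x => ⟨_, _, ADJ.dec _ x⟩, fun hL hP => ADJ.real _ hP, fun A _ ι h => ?_⟩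
  · obtain ⟨y, hy⟩ := mem_Sq.1 (hI s)
    refine ⟨y.val, ?_⟩
    have := congrArg Un.val hy
    rw [Un.val_nsmul, Un.val_sub, Un.val_smul, eq_div_iff μ.val_ne] at this
    rw [mul_comm, this]
    rfl
  · rw [sq, ADJ.om_sq]
  · obtain ⟨t, ht⟩ : IsSquare (ι μ.val) := h
    exact ⟨ADJ.lft _ ι t ht.symm⟩

end Pool.Agent.MP_542436_nt.H96
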