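import Pool.Agent.MP_542436_nt.H96.Spec

/-! Row ARI: elementary estimates. -/

namespace Pool.Agent.MP_542436_nt.H96.ARI

open Finset

theorem log_le_div {Y t : ℝ} (hY : 0 ≤ Y) (ht : 0 < t) : Real.log Y ≤ Y ^ t / t :=
  Real.log_le_rpow_div hY ht

theorem prod_est (C ε : ℝ) (hC : 0 ≤ C) (hε : 0 < ε) : ∃ C' : ℝ, 1 ≤ C' ∧ ∀ N : Finset ℕ,
    (∀ r ∈ N, r.Prime) → ∏ r ∈ N, C * Real.log r ≤ C' * (∏ r ∈ N, (r : ℝ)) ^ ε := by
  have h1 : Filter.Tendsto (fun r : ℕ => (r : ℝ) ^ (ε / 2)) Filter.atTop Filter.atTop :=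
    (tendsto_rpow_atTop (by positivity)).comp tendsto_natCast_atTop_atTop
  obtain ⟨r0, hr0⟩ := Filter.eventually_atTop.1 (h1.eventually_ge_atTop (2 * C / ε))
  set M : ℝ := max 1 (C / ε) with hM
  have hM1 : 1 ≤ M := le_max_left _ _
  refine ⟨M ^ r0, one_le_pow₀ hM1, fun N hN => ?_⟩
  have key : ∀ r ∈ N, C * Real.log r ≤ (if r < r0 then M else 1) * (r : ℝ) ^ ε := by
    intro r _
    have hr : (0 : ℝ) ≤ r := Nat.cast_nonneg r
    split_ifs with h
    · have h2 := log_le_div hr hε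
      have h3 : 0 ≤ (r : ℝ) ^ ε := Real.rpow_nonneg hr _
      calc C * Real.log r ≤ C * ((r : ℝ) ^ ε / ε) := mul_le_mul_of_nonneg_left h2 hC
        _ = C / ε * (r : ℝ) ^ ε := by ring
        _ ≤ M * (r : ℝ) ^ ε := mul_le_mul_of_nonneg_right (le_max_right _ _) h3
    · have h2 := log_le_div hr (half_pos hε)
      have h3 : 0 ≤ (r : ℝ) ^ (ε / 2) := Real.rpow_nonneg hr _
      have h4 := hr0 r (not_lt.1 h)
      have h5 : (r : ℝ) ^ ε = (r : ℝ) ^ (ε / 2) * (r : ℝ) ^ (ε / 2) := by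
        rw [← Real.rpow_add' hr (by rw [add_halves]; exact hε.ne'), add_halves]
      calc C * Real.log r ≤ C * ((r : ℝ) ^ (ε / 2) / (ε / 2)) := mul_le_mul_of_nonneg_left h2 hC
        _ = 2 * C / ε * (r : ℝ) ^ (ε / 2) := by field_simp
        _ ≤ (r : ℝ) ^ (ε / 2) * (r : ℝ) ^ (ε / 2) := mul_le_mul_of_nonneg_right h4 h3
        _ = 1 * (r : ℝ) ^ ε := by rw [h5, one_mul]
  have hpos : ∀ r ∈ N, 0 ≤ C * Real.log r := fun r _ =>
    mul_nonneg hC (Real.log_natCast_nonneg r)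
  have hcard : (N.filter (fun r => r < r0)).card ≤ r0 := by
    calc (N.filter (fun r => r < r0)).card ≤ (range r0).card :=
          card_le_card (fun r hr => mem_range.2 (mem_filter.1 hr).2)
      _ = r0 := card_range r0
  calc ∏ r ∈ N, C * Real.log r ≤ ∏ r ∈ N, (if r < r0 then M else 1) * (r : ℝ) ^ ε :=
        prod_le_prod hpos key
    _ = M ^ (N.filter (fun r => r < r0)).card * (∏ r ∈ N, (r : ℝ)) ^ ε := by
        rw [prod_mul_distrib, ← prod_filter, prod_const,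
          Real.finsetProd_rpow N _ (fun r _ => Nat.cast_nonneg r)]
    _ ≤ M ^ r0 * (∏ r ∈ N, (r : ℝ)) ^ ε :=
        mul_le_mul_of_nonneg_right (pow_le_pow_right₀ hM1 hcard)
          (Real.rpow_nonneg (prod_nonneg fun r _ => Nat.cast_nonneg r) _)

theorem fact_le_prod (N : Finset ℕ) (hN : ∀ r ∈ N, 1 ≤ r) : N.card.factorial ≤ ∏ r ∈ N, r := by
  induction N using Finset.induction_on_max with
  | empty => simp
  | insert a s ha ih =>
    have has : a ∉ s := fun h => lt_irrefl _ (ha a h)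
    have hs : ∀ r ∈ s, 1 ≤ r := fun r hr => hN r (mem_insert_of_mem hr)
    have h1 : s.card ≤ a - 1 := by
      calc s.card ≤ (Ico 1 a).card :=
            card_le_card (fun r hr => mem_Ico.2 ⟨hs r hr, ha r hr⟩)
        _ = a - 1 := Nat.card_Ico 1 a
    have ha1 : 1 ≤ a := hN a (mem_insert_self _ _)
    rw [card_insert_of_notMem has, prod_insert has, Nat.factorial_succ]
    exact Nat.mul_le_mul (by omega) (ih hs)

theorem pow_self_le (m : ℕ) : (m : ℝ) ^ m ≤ Real.exp 1 ^ m * (m.factorial : ℝ) := by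
  have h := Real.pow_div_factorial_le_exp (m : ℝ) (Nat.cast_nonneg m) m
  have hf : (0 : ℝ) < m.factorial := by exact_mod_cast Nat.factorial_pos m
  rw [div_le_iff₀ hf] at h
  rwa [Real.exp_one_pow]

theorem card_est (N : Finset ℕ) (hN : ∀ r ∈ N, r.Prime) :
    (2 : ℝ) ^ N.card ≤ ∏ r ∈ N, (r : ℝ) ∧ (N.card : ℝ) ^ N.card ≤ (∏ r ∈ N, (r : ℝ)) ^ 3 := by
  have h1 : (2 : ℝ) ^ N.card ≤ ∏ r ∈ N, (r : ℝ) := by
    rw [← prod_const]
    exact prod_le_prod (fun _ _ => by norm_num) (fun r hr => by exact_mod_cast (hN r hr).two_le)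
  refine ⟨h1, ?_⟩
  have h2 : (N.card.factorial : ℝ) ≤ ∏ r ∈ N, (r : ℝ) := by
    have := fact_le_prod N (fun r hr => (hN r hr).one_le)
    rw [← Nat.cast_prod]
    exact Nat.cast_le.2 this
  have h3 : Real.exp 1 ^ N.card ≤ ((2 : ℝ) ^ N.card) ^ 2 := by
    rw [← pow_mul, mul_comm, pow_mul]
    refine pow_le_pow_left₀ (Real.exp_pos 1).le ?_ _
    have := Real.exp_one_lt_d9
    linarith
  have h4 : (0 : ℝ) ≤ ∏ r ∈ N, (r : ℝ) := prod_nonneg fun r _ => Nat.cast_nonneg r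
  calc (N.card : ℝ) ^ N.card ≤ Real.exp 1 ^ N.card * (N.card.factorial : ℝ) := pow_self_le _
    _ ≤ (∏ r ∈ N, (r : ℝ)) ^ 2 * ∏ r ∈ N, (r : ℝ) :=
        mul_le_mul (h3.trans (pow_le_pow_left₀ (by positivity) h1 2)) h2 (Nat.cast_nonneg _)
          (by positivity)
    _ = _ := by ring

theorem logpow_le (a b t : ℝ) (k : ℕ) (ha : 0 ≤ a) (hb : 0 ≤ b) (ht : 0 < t) :
    ∃ D : ℝ, 0 ≤ D ∧ ∀ Y : ℝ, 1 ≤ Y → (a + b * Real.log Y) ^ k ≤ D * Y ^ t := by
  have hu : 0 < t / (k + 1) := by positivity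
  refine ⟨(a + b / (t / (k + 1))) ^ k, by positivity, fun Y hY => ?_⟩
  have hY0 : 0 ≤ Y := by linarith
  have h1 : 1 ≤ Y ^ (t / (k + 1)) := Real.one_le_rpow hY hu.le
  have h2 := log_le_div hY0 hu
  have h3 : a + b * Real.log Y ≤ (a + b / (t / (k + 1))) * Y ^ (t / (k + 1)) := by
    have h4 : b * Real.log Y ≤ b * (Y ^ (t / (k + 1)) / (t / (k + 1))) :=
      mul_le_mul_of_nonneg_left h2 hb
    have h5 : a ≤ a * Y ^ (t / (k + 1)) := le_mul_of_one_le_right ha h1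
    calc a + b * Real.log Y ≤ a * Y ^ (t / (k + 1)) + b * (Y ^ (t / (k + 1)) / (t / (k + 1))) :=
          add_le_add h5 h4
      _ = _ := by ring
  have h6 : 0 ≤ a + b * Real.log Y := add_nonneg ha (mul_nonneg hb (Real.log_nonneg hY))
  have h7 : (Y ^ (t / (k + 1))) ^ k ≤ Y ^ t := by
    rw [← Real.rpow_natCast, ← Real.rpow_mul hY0]
    refine Real.rpow_le_rpow_of_exponent_le hY ?_
    rw [div_mul_eq_mul_div, div_le_iff₀ (by positivity)]
    nlinarith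
  calc (a + b * Real.log Y) ^ k ≤ ((a + b / (t / (k + 1))) * Y ^ (t / (k + 1))) ^ k :=
        pow_le_pow_left₀ h6 h3 k
    _ = (a + b / (t / (k + 1))) ^ k * (Y ^ (t / (k + 1))) ^ k := mul_pow _ _ _
    _ ≤ _ := mul_le_mul_of_nonneg_left h7 (by positivity)

theorem boot_est (C θ η : ℝ) (k : ℕ) (_h0 : 0 ≤ θ) (h1 : θ ≤ 1) (hη : 0 < η) :
    ∃ C' : ℝ, ∀ X R : ℝ, 1 ≤ X → 1 ≤ R →
      X ≤ C * R ^ θ * (3 + 2 * Real.log R + Real.log X) ^ k → X ≤ C' * R ^ (θ + η) := by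
  set s : ℝ := η / (2 * (1 + η)) with hs
  have hs0 : 0 < s := by positivity
  have hs1 : s < 1 := by
    rw [hs, div_lt_one (by positivity)]; linarith
  have hsη : s * (θ + η) ≤ η / 2 := by
    have : s * (1 + η) = η / 2 := by rw [hs]; field_simp
    nlinarith
  obtain ⟨D1, hD1, H1⟩ := logpow_le 3 2 (η / 2) k (by norm_num) (by norm_num) (half_pos hη)
  obtain ⟨D2, hD2, H2⟩ := logpow_le 1 1 s k (by norm_num) (by norm_num) hs0
  set E : ℝ := |C| * D1 * D2 with hE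
  have hE0 : 0 ≤ E := by positivity
  refine ⟨E ^ (1 - s)⁻¹, fun X R hX hR h => ?_⟩
  have hX0 : 0 < X := by linarith
  have hR0 : 0 < R := by linarith
  have hlX := Real.log_nonneg hX
  have hlR := Real.log_nonneg hR
  have h2 : (3 + 2 * Real.log R + Real.log X) ^ k ≤ D1 * R ^ (η / 2) * (D2 * X ^ s) := by
    calc (3 + 2 * Real.log R + Real.log X) ^ k
        ≤ ((3 + 2 * Real.log R) * (1 + 1 * Real.log X)) ^ k :=
          pow_le_pow_left₀ (by positivity) (by nlinarith [mul_nonneg hlX hlR]) k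
      _ = (3 + 2 * Real.log R) ^ k * (1 + 1 * Real.log X) ^ k := mul_pow _ _ _
      _ ≤ _ := mul_le_mul (H1 R hR) (H2 X hX) (by positivity) (by positivity)
  have h3 : X ≤ E * R ^ (θ + η / 2) * X ^ s := by
    calc X ≤ C * R ^ θ * (3 + 2 * Real.log R + Real.log X) ^ k := h
      _ ≤ |C| * R ^ θ * (D1 * R ^ (η / 2) * (D2 * X ^ s)) :=
          mul_le_mul (mul_le_mul_of_nonneg_right (le_abs_self C) (by positivity)) h2
            (by positivity) (by positivity)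
      _ = _ := by rw [Real.rpow_add hR0, hE]; ring
  have h4 : X ^ (1 - s) ≤ E * R ^ (θ + η / 2) := by
    rw [Real.rpow_sub hX0, Real.rpow_one, div_le_iff₀ (by positivity)]
    exact h3
  have h5 : R ^ (θ + η / 2) ≤ R ^ ((θ + η) * (1 - s)) :=
    Real.rpow_le_rpow_of_exponent_le hR (by nlinarith)
  have h6 : X ^ (1 - s) ≤ E * R ^ ((θ + η) * (1 - s)) :=
    h4.trans (mul_le_mul_of_nonneg_left h5 hE0)
  have hs2 : 0 < 1 - s := by linarith
  have h7 := Real.rpow_le_rpow (by positivity) h6 (inv_nonneg.2 hs2.le)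
  rwa [Real.mul_rpow hE0 (by positivity), ← Real.rpow_mul hX0.le, ← Real.rpow_mul hR0.le,
    mul_inv_cancel₀ hs2.ne', Real.rpow_one, mul_assoc, mul_inv_cancel₀ hs2.ne', mul_one] at h7

theorem one_le_prod_log (N : Finset ℕ) (hN : ∀ r ∈ N, 3 ≤ r) : 1 ≤ ∏ r ∈ N, Real.log r := by
  calc (1 : ℝ) = ∏ _r ∈ N, (1 : ℝ) := by simp
    _ ≤ _ := prod_le_prod (fun _ _ => zero_le_one) (fun r hr => ?_)
  have h3 : (3 : ℝ) ≤ r := by exact_mod_cast hN r hr
  rw [Real.le_log_iff_exp_le (by linarith)]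
  have := Real.exp_one_lt_d9
  linarith

theorem low_est (N : Finset ℕ) (hN : ∀ r ∈ N, r.Prime) : 1 / 2 ≤ ∏ r ∈ N, Real.log r := by
  have h1 : 1 ≤ ∏ r ∈ N.erase 2, Real.log r := by
    refine one_le_prod_log _ fun r hr => ?_
    have h2 := (hN r (mem_of_mem_erase hr)).two_le
    have h3 := ne_of_mem_erase hr
    omega
  by_cases h : 2 ∈ N
  · rw [← mul_prod_erase N (fun r : ℕ => Real.log r) h]
    have h2 := Real.log_two_gt_d9
    have h3 : (1 : ℝ) / 2 ≤ Real.log ((2 : ℕ) : ℝ) := by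
      rw [Nat.cast_ofNat]; linarith
    nlinarith
  · rw [erase_eq_of_notMem h] at h1
    linarith

theorem bin_est (n T : ℕ) (hn : 1 ≤ n) (hT : n ≤ T) :
    ((T + (n - 1)).choose (n - 1) : ℝ) * (2 * T) * (n : ℝ) ^ n ≤ n * (2 * Real.exp 1 * T) ^ n := by
  obtain ⟨m, rfl⟩ : ∃ m, n = m + 1 := ⟨n - 1, by omega⟩
  rw [Nat.add_sub_cancel]
  have hf : (0 : ℝ) < m.factorial := by exact_mod_cast Nat.factorial_pos m
  have h1 : ((T + m).choose m : ℝ) ≤ ((T + m : ℕ) : ℝ) ^ m / m.factorial :=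
    Nat.choose_le_pow_div m (T + m)
  have h2 : ((T + m : ℕ) : ℝ) ≤ 2 * T := by
    have : T + m ≤ 2 * T := by omega
    exact_mod_cast this
  have h3 : ((T + m).choose m : ℝ) * m.factorial ≤ (2 * T) ^ m := by
    rw [le_div_iff₀ hf] at h1
    exact h1.trans (pow_le_pow_left₀ (Nat.cast_nonneg _) h2 m)
  have h4 := pow_self_le (m + 1)
  have h5 : (((m + 1).factorial : ℕ) : ℝ) = ((m + 1 : ℕ) : ℝ) * m.factorial := by
    rw [Nat.factorial_succ, Nat.cast_mul]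
  calc ((T + m).choose m : ℝ) * (2 * T) * ((m + 1 : ℕ) : ℝ) ^ (m + 1)
      ≤ ((T + m).choose m : ℝ) * (2 * T) * (Real.exp 1 ^ (m + 1) * ((m + 1).factorial : ℝ)) :=
        mul_le_mul_of_nonneg_left h4 (by positivity)
    _ = ((m + 1 : ℕ) : ℝ) * (2 * T) * Real.exp 1 ^ (m + 1) *
          (((T + m).choose m : ℝ) * m.factorial) := by rw [h5]; ring
    _ ≤ ((m + 1 : ℕ) : ℝ) * (2 * T) * Real.exp 1 ^ (m + 1) * (2 * T) ^ m :=
        mul_le_mul_of_nonneg_left h3 (by positivity)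
    _ = _ := by ring

end Pool.Agent.MP_542436_nt.H96.ARI

theorem Pool.Agent.MP_542436_nt.H96.rowARI : Pool.Agent.MP_542436_nt.H96.RowARI where
  prod := Pool.Agent.MP_542436_nt.H96.ARI.prod_est
  card := Pool.Agent.MP_542436_nt.H96.ARI.card_est
  boot := Pool.Agent.MP_542436_nt.H96.ARI.boot_est
  low := Pool.Agent.MP_542436_nt.H96.ARI.low_est
  bin := Pool.Agent.MP_542436_nt.H96.ARI.bin_est
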