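import Pool.Agent.MP_542436_nt.H96.Spec

/-! Many small generators of one ideal of a totally real field. -/

namespace Pool.Agent.MP_542436_nt.H96.AUX

open NumberField NumberField.InfinitePlace NumberField.mixedEmbedding Finset
open scoped NNReal ENNReal

theorem geo (x : ℝ) (M : ℕ) :
    ∑ j ∈ range M, (if x / 2 ^ j < 1 then x / 2 ^ j else 0) ≤ 2 - 2 * min 1 (x / 2 ^ M) := by
  induction M with
  | zero =>
    have := min_le_left 1 (x / 2 ^ 0)
    simp only [range_zero, sum_empty]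
    linarith
  | succ M ih =>
    rw [sum_range_succ]
    have h1 : x / 2 ^ (M + 1) = x / 2 ^ M / 2 := by rw [pow_succ, div_div]
    have h2 := min_le_left 1 (x / 2 ^ (M + 1))
    have h3 := min_le_right 1 (x / 2 ^ (M + 1))
    split_ifs with h
    · rw [min_eq_right h.le] at ih
      linarith
    · rw [min_eq_left (not_lt.1 h)] at ih
      linarith

theorem geo2 (x : ℝ) (hx : 0 ≤ x) (M : ℕ) :
    ∑ j : Fin M, (if x / 2 ^ (j : ℕ) < 1 then x / 2 ^ (j : ℕ) else 0) ≤ 2 := by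
  rw [Fin.sum_univ_eq_sum_range (fun j => if x / 2 ^ j < 1 then x / 2 ^ j else 0) M]
  have h := geo x M
  have : 0 ≤ min 1 (x / 2 ^ M) := le_min zero_le_one (by positivity)
  linarith

theorem fib {ι : Type} [Fintype ι] [DecidableEq ι] (M : ℕ) (x : ι → ℝ) (x0 B : ℝ)
    (hx : ∀ i, 0 ≤ x i) (hB : 0 ≤ B) (h1 : 1 ≤ B * (x0 * ∏ i, x i)) (S : Finset (ι → Fin M))
    (hS : ∀ u ∈ S, (∀ i, x i / 2 ^ (u i : ℕ) < 1) ∧ x0 * ∏ i, (2 : ℝ) ^ (u i : ℕ) ≤ 1) :
    (S.card : ℝ) ≤ B * 2 ^ Fintype.card ι := by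
  set g : ι → Fin M → ℝ := fun i j => if x i / 2 ^ (j : ℕ) < 1 then x i / 2 ^ (j : ℕ) else 0
    with hg
  have g0 : ∀ i j, 0 ≤ g i j := by
    intro i j
    have := hx i
    simp only [hg]
    split_ifs <;> positivity
  have hu : ∀ u ∈ S, 1 ≤ B * ∏ i, g i (u i) := by
    intro u hu
    obtain ⟨ha, hb⟩ := hS u hu
    have e1 : ∏ i, g i (u i) = (∏ i, x i) / ∏ i, (2 : ℝ) ^ (u i : ℕ) := by
      rw [← prod_div_distrib]
      exact prod_congr rfl fun i _ => by simp only [hg, if_pos (ha i)]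
    have p2 : 0 < ∏ i, (2 : ℝ) ^ (u i : ℕ) := prod_pos fun i _ => by positivity
    have px : 0 ≤ ∏ i, x i := prod_nonneg fun i _ => hx i
    rw [e1]
    refine h1.trans (mul_le_mul_of_nonneg_left ?_ hB)
    rw [le_div_iff₀ p2]
    nlinarith
  calc (S.card : ℝ) = ∑ _u ∈ S, (1 : ℝ) := by simp
    _ ≤ ∑ u ∈ S, B * ∏ i, g i (u i) := sum_le_sum hu
    _ ≤ ∑ u : ι → Fin M, B * ∏ i, g i (u i) :=
        sum_le_sum_of_subset_of_nonneg (subset_univ _) fun u _ _ =>
          mul_nonneg hB (prod_nonneg fun i _ => g0 i _)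
    _ = B * ∏ i, ∑ j, g i j := by rw [← mul_sum, Fintype.prod_sum]
    _ ≤ B * ∏ _i : ι, (2 : ℝ) := by
        refine mul_le_mul_of_nonneg_left ?_ hB
        exact prod_le_prod (fun i _ => sum_nonneg fun j _ => g0 i j) fun i _ => geo2 _ (hx i) M
    _ = B * 2 ^ Fintype.card ι := by simp

variable {K : Type} [Field K] [NumberField K] [IsTotallyReal K]

theorem card_pl : Fintype.card (InfinitePlace K) = Module.finrank ℚ K := by
  rw [← sum_mult_eq]
  simp [IsTotallyReal.mult_eq]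

theorem mink (C : ℕ) (hd : (discr K).natAbs ≤ C ^ Module.finrank ℚ K) (f : InfinitePlace K → ℝ≥0)
    (hf : ∏ w, f w = ((C : ℝ≥0) + 1) ^ Module.finrank ℚ K) :
    ∃ a : 𝓞 K, a ≠ 0 ∧ ∀ w : InfinitePlace K, w a < f w := by
  apply exists_ne_zero_mem_ringOfIntegers_lt
  have hD : Module.finrank ℚ K ≠ 0 := Module.finrank_pos.ne'
  have hs : NNReal.sqrt ‖discr K‖₊ < ((C : ℝ≥0) + 1) ^ Module.finrank ℚ K := by
    have h1 : ‖discr K‖₊ ≤ (C : ℝ≥0) ^ Module.finrank ℚ K := by
      rw [← NNReal.natCast_natAbs]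
      exact_mod_cast hd
    have h2 : (C : ℝ≥0) ^ Module.finrank ℚ K < ((C : ℝ≥0) + 1) ^ Module.finrank ℚ K :=
      pow_lt_pow_left₀ (lt_add_one _) (by positivity) hD
    have h3 : 1 ≤ ((C : ℝ≥0) + 1) ^ Module.finrank ℚ K := one_le_pow₀ le_add_self
    rw [← NNReal.sqrt_sq (((C : ℝ≥0) + 1) ^ Module.finrank ℚ K), NNReal.sqrt_lt_sqrt]
    exact (h1.trans_lt h2).trans_le (le_self_pow₀ h3 two_ne_zero)
  rw [minkowskiBound, volume_fundamentalDomain_fractionalIdealLatticeBasis, Units.val_one,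
    FractionalIdeal.absNorm_one, Rat.cast_one, ENNReal.ofReal_one, one_mul, mixedEmbedding.finrank,
    volume_fundamentalDomain_latticeBasis, convexBodyLT_volume, convexBodyLTFactor,
    IsTotallyReal.nrComplexPlaces_eq_zero, pow_zero, pow_zero, one_mul, mul_one,
    ← IsTotallyReal.finrank]
  simp only [IsTotallyReal.mult_eq, pow_one]
  rw [hf]
  have : NNReal.sqrt ‖discr K‖₊ * 2 ^ Module.finrank ℚ K <
      2 ^ Module.finrank ℚ K * ((C : ℝ≥0) + 1) ^ Module.finrank ℚ K := by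
    rw [mul_comm]
    exact mul_lt_mul_of_pos_left hs (by positivity)
  exact_mod_cast this

theorem nrm (a : 𝓞 K) :
    (Ideal.absNorm (Ideal.span {a}) : ℝ) = ∏ w : InfinitePlace K, w (a : K) := by
  have h := prod_eq_abs_norm (a : K)
  simp only [IsTotallyReal.mult_eq, pow_one] at h
  rw [h, Ideal.absNorm_span_singleton, ← Algebra.coe_norm_int]
  simp

open Classical in
/-- the radii of a box -/
noncomputable def rad (w0 : InfinitePlace K) (A : ℝ≥0) (M : ℕ)
    (u : {w : InfinitePlace K // w ≠ w0} → Fin M) (w : InfinitePlace K) : ℝ≥0 :=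
  if h : w = w0 then A / ∏ i, 2 ^ (u i : ℕ) else A * 2 ^ (u ⟨w, h⟩ : ℕ)

omit [IsTotallyReal K] in
open Classical in
theorem split (w0 : InfinitePlace K) {R : Type} [CommMonoid R] (f : InfinitePlace K → R) :
    ∏ w, f w = f w0 * ∏ i : {w : InfinitePlace K // w ≠ w0}, f i :=
  Fintype.prod_eq_mul_prod_subtype_ne f w0

open Classical in
theorem card_sub (w0 : InfinitePlace K) :
    Fintype.card {w : InfinitePlace K // w ≠ w0} = Module.finrank ℚ K - 1 := by
  rw [← card_pl]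
  simp

open Classical in
theorem rad_prod (w0 : InfinitePlace K) (A : ℝ≥0) (M : ℕ)
    (u : {w : InfinitePlace K // w ≠ w0} → Fin M) :
    ∏ w, rad w0 A M u w = A ^ Module.finrank ℚ K := by
  rw [split w0]
  have e1 : ∏ i : {w : InfinitePlace K // w ≠ w0}, rad w0 A M u i =
      A ^ (Module.finrank ℚ K - 1) * ∏ i, 2 ^ (u i : ℕ) := by
    rw [← card_sub w0, ← card_univ, ← prod_const, ← prod_mul_distrib]
    exact prod_congr rfl fun i _ => by simp only [rad, dif_neg i.2]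
  have e2 : rad w0 A M u w0 = A / ∏ i, 2 ^ (u i : ℕ) := by simp only [rad, dif_pos]
  have p2 : (∏ i, (2 : ℝ≥0) ^ (u i : ℕ)) ≠ 0 := prod_ne_zero_iff.2 fun i _ => by positivity
  have hD : Module.finrank ℚ K ≠ 0 := Module.finrank_pos.ne'
  rw [e1, e2, mul_comm (A ^ _), ← mul_assoc, div_mul_cancel₀ _ p2, mul_pow_sub_one hD]

omit [IsTotallyReal K] in
open Classical in
theorem rad_le (w0 : InfinitePlace K) (A : ℝ≥0) (M : ℕ)
    (u : {w : InfinitePlace K // w ≠ w0} → Fin M) (w : InfinitePlace K) :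
    rad w0 A M u w ≤ A * 2 ^ M := by
  unfold rad
  split_ifs with h
  · have p2 : 1 ≤ ∏ i, (2 : ℝ≥0) ^ (u i : ℕ) :=
      one_le_prod' fun i _ => one_le_pow₀ one_le_two
    exact (div_le_self (by positivity) p2).trans
      (le_mul_of_one_le_right (by positivity) (one_le_pow₀ one_le_two))
  · exact mul_le_mul_of_nonneg_left (pow_le_pow_right₀ one_le_two (u _).2.le) (by positivity)

open Classical in
theorem fib2 (w0 : InfinitePlace K) (A : ℝ≥0) (hA : 0 < A) (M : ℕ) (z : K)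
    (hz : 1 ≤ ∏ w : InfinitePlace K, w z) (S : Finset ({w : InfinitePlace K // w ≠ w0} → Fin M))
    (hS : ∀ u ∈ S, ∀ w : InfinitePlace K, w z < rad w0 A M u w) :
    (S.card : ℝ) ≤ (2 * A) ^ Module.finrank ℚ K := by
  have hA' : (0 : ℝ) < A := hA
  have hD : Module.finrank ℚ K ≠ 0 := Module.finrank_pos.ne'
  have h := fib M (fun i : {w : InfinitePlace K // w ≠ w0} => i.1 z / A) (w0 z / A)
    ((A : ℝ) ^ Module.finrank ℚ K) (fun i => div_nonneg (apply_nonneg _ _) hA'.le) (by positivity)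
    (by
      rw [← split w0 (fun w => w z / (A : ℝ)), prod_div_distrib, prod_const, card_univ, card_pl,
        mul_div_cancel₀ _ (by positivity)]
      exact hz) S (by
      intro u hu
      constructor
      · intro i
        have := hS u hu i
        simp only [rad, dif_neg i.2, NNReal.coe_mul, NNReal.coe_pow, NNReal.coe_ofNat] at this
        rw [div_div, div_lt_one (by positivity)]
        exact this
      · have := hS u hu w0
        simp only [rad, dif_pos, NNReal.coe_div, NNReal.coe_prod, NNReal.coe_pow,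
          NNReal.coe_ofNat] at this
        have p2 : 0 < ∏ i, (2 : ℝ) ^ (u i : ℕ) := prod_pos fun i _ => by positivity
        rw [lt_div_iff₀ p2] at this
        rw [div_mul_eq_mul_div, div_le_one hA']
        exact this.le)
  rw [card_sub] at h
  refine h.trans ?_
  rw [mul_pow, mul_comm]
  exact mul_le_mul_of_nonneg_right (pow_le_pow_right₀ one_le_two (Nat.sub_le _ _)) (by positivity)

end Pool.Agent.MP_542436_nt.H96.AUX

namespace Pool.Agent.MP_542436_nt.H96

open NumberField NumberField.InfinitePlace Finset AUX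
open scoped NNReal

theorem rowAUX : RowIDL → RowAUX := by
  classical
  intro hI C
  have hA1 : (1 : ℝ) ≤ (C : ℝ) + 1 := by linarith [(Nat.cast_nonneg C : (0 : ℝ) ≤ C)]
  have he : (1 : ℝ) ≤ Real.exp 2 := Real.one_le_exp (by norm_num)
  have hC' : (C : ℝ) + 1 ≤ 2 * ((C : ℝ) + 1) * (((C : ℝ) + 1) ^ 2 * Real.exp 2) := by
    have : 1 ≤ ((C : ℝ) + 1) ^ 2 * Real.exp 2 := one_le_mul_of_one_le_of_one_le (one_le_pow₀ hA1) he
    nlinarith
  have hA0 : (0 : ℝ≥0) < (C : ℝ≥0) + 1 := by positivity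
  have hB0 : (0 : ℝ) ≤ 2 * ((C : ℝ) + 1) := by positivity
  refine ⟨2 * ((C : ℝ) + 1) * (((C : ℝ) + 1) ^ 2 * Real.exp 2), hA1.trans hC', ?_⟩
  intro K _ _ _ M hd hM
  obtain ⟨w0⟩ : Nonempty (InfinitePlace K) := inferInstance
  choose a ha0 ha using fun u : {w : InfinitePlace K // w ≠ w0} → Fin M =>
    mink C hd (rad w0 ((C : ℝ≥0) + 1) M u) (rad_prod w0 _ M u)
  have ha0' : ∀ u, (a u : K) ≠ 0 := fun u => RingOfIntegers.coe_ne_zero_iff.2 (ha0 u)
  set y : ({w : InfinitePlace K // w ≠ w0} → Fin M) → Kˣ := fun u => Units.mk0 (a u : K) (ha0' u)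
    with hy
  set J : ({w : InfinitePlace K // w ≠ w0} → Fin M) → Ideal (𝓞 K) := fun u => Ideal.span {a u}
    with hJ
  have hJ0 : ∀ u, J u ≠ ⊥ := fun u h => ha0 u (Ideal.span_singleton_eq_bot.1 h)
  have hF := hI K (univ.image J) (((C : ℝ) + 1) ^ Module.finrank ℚ K) (by
    intro I hI
    obtain ⟨u, -, rfl⟩ := mem_image.1 hI
    refine ⟨hJ0 u, ?_⟩
    simp only [hJ]
    rw [nrm]
    have h1 : ∏ w : InfinitePlace K, w (a u : K) ≤ ∏ w, (rad w0 ((C : ℝ≥0) + 1) M u w : ℝ) :=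
      prod_le_prod (fun w _ => apply_nonneg _ _) fun w _ => (ha u w).le
    rw [← NNReal.coe_prod, rad_prod] at h1
    exact_mod_cast h1)
  have hne : (univ.image J).Nonempty := ⟨_, mem_image_of_mem J (mem_univ fun _ => ⟨0, hM⟩)⟩
  obtain ⟨I, -, hmax⟩ := exists_max_image (univ.image J) (fun I => (univ.filter fun u => J u = I).card) hne
  have c1 := card_le_mul_card_image (f := J) univ _ hmax
  rw [card_univ, Fintype.card_fun, card_sub, Fintype.card_fin] at c1
  set S : Finset ({w : InfinitePlace K // w ≠ w0} → Fin M) := {u | J u = I} with hS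
  have c2 : (S.card : ℝ) ≤ (S.image y).card * (2 * ((C : ℝ) + 1)) ^ Module.finrank ℚ K := by
    rw [card_eq_sum_card_image y S, Nat.cast_sum, ← nsmul_eq_mul]
    refine sum_le_card_nsmul _ _ _ fun z hz => ?_
    obtain ⟨v, -, rfl⟩ := mem_image.1 hz
    have h := fib2 w0 ((C : ℝ≥0) + 1) hA0 M (a v : K) (by
      rw [← nrm]
      have : Ideal.absNorm (J v) ≠ 0 := by
        rw [Ne, Ideal.absNorm_eq_zero_iff]
        exact hJ0 v
      exact_mod_cast Nat.one_le_iff_ne_zero.2 this) {u ∈ S | y u = y v} (by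
      intro u hu w
      have e : (a u : K) = a v := congrArg Units.val (mem_filter.1 hu).2
      rw [← e]
      exact ha u w)
    exact_mod_cast h
  refine ⟨S.image y, ?_, ?_, ?_⟩
  · have c1' : (M : ℝ) ^ (Module.finrank ℚ K - 1) ≤ S.card * (univ.image J).card := by
      exact_mod_cast c1
    refine c1'.trans ((mul_le_mul c2 hF (Nat.cast_nonneg _)
      (mul_nonneg (Nat.cast_nonneg _) (pow_nonneg hB0 _))).trans (le_of_eq ?_))
    rw [mul_pow _ (_ * _), mul_pow (_ ^ 2), ← Real.exp_nat_mul, ← pow_mul, ← pow_mul,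
      mul_comm 2 (Module.finrank ℚ K), mul_comm (2 : ℝ) (Module.finrank ℚ K : ℝ), mul_assoc]
  · intro z hz
    obtain ⟨u, -, rfl⟩ := mem_image.1 hz
    refine ⟨(a u).isIntegral_coe, fun σ => ?_⟩
    have h1 : ‖σ (y u : K)‖ < rad w0 ((C : ℝ≥0) + 1) M u (mk σ) := ha u (mk σ)
    have h2 : (rad w0 ((C : ℝ≥0) + 1) M u (mk σ) : ℝ) ≤ ((C : ℝ) + 1) * 2 ^ M := by
      exact_mod_cast rad_le w0 ((C : ℝ≥0) + 1) M u (mk σ)
    have h3 : (2 : ℝ) ^ M ≤ Real.exp M := by
      rw [← mul_one (M : ℝ), Real.exp_nat_mul]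
      exact pow_le_pow_left₀ (by norm_num) (by linarith [Real.add_one_le_exp (1 : ℝ)]) M
    exact (h1.le.trans h2).trans (mul_le_mul hC' h3 (pow_nonneg zero_le_two _)
      (zero_le_one.trans (hA1.trans hC')))
  · intro z hz z' hz'
    obtain ⟨u, hu, rfl⟩ := mem_image.1 hz
    obtain ⟨v, hv, rfl⟩ := mem_image.1 hz'
    have e : J u = J v := (mem_filter.1 hu).2.trans (mem_filter.1 hv).2.symm
    obtain ⟨c, hc⟩ : a v ∣ a u := Ideal.span_singleton_le_span_singleton.1 e.le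
    have : ((y u / y v : Kˣ) : K) = c := by
      rw [Units.val_div_eq_div_val, div_eq_iff (Units.ne_zero _)]
      simp only [hy, Units.val_mk0]
      rw [hc, mul_comm]
      rfl
    rw [this]
    exact c.isIntegral_coe

end Pool.Agent.MP_542436_nt.H96
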