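import Pool.Agent.MP_542436_nt.H96.Spec

/-! The base of the tower. -/

namespace Pool.Agent.MP_542436_nt.H96

open NumberField IsDedekindDomain Pool.Agent.MP_db5b97_nt.H85

namespace BASE

/-- the field generated by a square root of `N` -/
def QF (N : ℕ) (k : Type) [Field k] [NumberField k] (θ : k) : Prop :=
  Module.finrank ℚ k = 2 ∧ θ ^ 2 = N ∧ (∀ x : k, ∃ a b : ℚ, x = a + b * θ) ∧
    ∀ (A : Type) [Field A] [CharZero A], IsSquare (N : A) → Nonempty (k →+* A)

theorem exists_QF (N : ℕ) (hN : ¬ IsSquare (N : ℚ)) :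
    ∃ (k : Type) (_ : Field k) (_ : NumberField k) (θ : k), QF N k θ := by
  have : Fact (∀ r : ℚ, r ^ 2 ≠ (N : ℚ) + 0 * r) :=
    ⟨fun r h => hN ⟨r, by rw [zero_mul, add_zero] at h; rw [← h, sq]⟩⟩
  let k := QuadraticAlgebra ℚ (N : ℚ) 0
  have : CharZero k := algebraRat.charZero k
  have hfin : Module.Finite ℚ k := inferInstance
  have hrk : Module.finrank ℚ k = 2 := QuadraticAlgebra.finrank_eq_two _ _
  have : NumberField k := { to_finiteDimensional := by convert hfin }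
  refine ⟨k, inferInstance, inferInstance, QuadraticAlgebra.omega, by convert hrk, ?_, ?_, ?_⟩
  · rw [sq, QuadraticAlgebra.omega_mul_omega_eq_mk]
    rfl
  · intro x
    refine ⟨x.re, x.im, ?_⟩
    ext <;> simp [k]
  · intro A _ _ ⟨u, hu⟩
    exact ⟨(QuadraticAlgebra.lift ⟨u, by simp [← hu]⟩ : k →ₐ[ℚ] A).toRingHom⟩

theorem exists_bound (N : ℕ) : ∃ c : ℕ, ¬ IsSquare (N : ℚ) →
    ∃ (k : Type) (_ : Field k) (_ : NumberField k) (θ : k), QF N k θ ∧ (discr k).natAbs ≤ c := by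
  by_cases hN : IsSquare (N : ℚ)
  · exact ⟨0, fun h => absurd hN h⟩
  · obtain ⟨k, _, _, θ, h⟩ := exists_QF N hN
    exact ⟨_, fun _ => ⟨k, _, _, θ, h, le_rfl⟩⟩

theorem not_sq {q m : ℕ} (hq : q.Prime) (h : q.Coprime m) : ¬ IsSquare ((q * m : ℕ) : ℚ) := by
  rw [Rat.isSquare_natCast_iff]
  rintro ⟨r, hr⟩
  have h1 : q ∣ r := (hq.dvd_mul.1 ⟨m, hr.symm⟩).elim id id
  obtain ⟨s, rfl⟩ := h1
  have h2 : m = q * (s * s) := Nat.eq_of_mul_eq_mul_left hq.pos (by rw [hr]; ring)
  exact hq.one_lt.ne' (Nat.Coprime.eq_one_of_dvd h ⟨_, h2⟩)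

variable {N : ℕ} {k : Type} [Field k] [NumberField k] {θ : k}

theorem real (h : QF N k θ) (hN : 0 < N) : IsTotallyReal k := by
  refine ⟨fun w => InfinitePlace.isReal_iff.2 (ComplexEmbedding.isReal_iff.2 ?_)⟩
  set φ := w.embedding
  have h1 : φ θ ^ 2 = N := by rw [← map_pow, h.2.1, map_natCast]
  have h2 : (φ θ).im = 0 := by
    have a1 := congrArg Complex.re h1
    have a2 := congrArg Complex.im h1
    simp only [sq, Complex.mul_re, Complex.mul_im, Complex.natCast_re, Complex.natCast_im] at a1 a2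
    have a3 : (0 : ℝ) < N := by exact_mod_cast hN
    by_contra hne
    have : (φ θ).re = 0 := by
      have : (φ θ).re * (φ θ).im = 0 := by linarith
      exact (mul_eq_zero.1 this).resolve_right hne
    rw [this] at a1
    nlinarith [mul_self_nonneg (φ θ).im]
  ext x
  obtain ⟨a, b, rfl⟩ := h.2.2.1 x
  rw [ComplexEmbedding.conjugate_coe_eq]
  simp only [map_add, map_mul, map_ratCast, Complex.conj_eq_iff_im.2 h2]

theorem sq_cases (h : QF N k θ) (hN : ¬ IsSquare (N : ℚ)) {M : ℕ} {y : k} (hy : y ^ 2 = M) :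
    IsSquare (M : ℚ) ∨ IsSquare ((M * N : ℕ) : ℚ) := by
  obtain ⟨a, b, rfl⟩ := h.2.2.1 y
  have h1 := h.2.1
  by_cases hb : b = 0
  · left
    refine ⟨a, ?_⟩
    rw [hb] at hy
    have : ((M : ℚ) : k) = ((a * a : ℚ) : k) := by push_cast at hy ⊢; rw [← hy]; ring
    exact_mod_cast this
  by_cases ha : a = 0
  · right
    refine ⟨b * N, ?_⟩
    rw [ha] at hy
    have : (((M * N : ℕ) : ℚ) : k) = ((b * N * (b * N) : ℚ) : k) := by
      push_cast at hy ⊢
      linear_combination (-(N : k)) * hy + (b : k) ^ 2 * N * h1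
    exact_mod_cast this
  exfalso
  apply hN
  have ha' : (a : k) ≠ 0 := by exact_mod_cast ha
  have hb' : (b : k) ≠ 0 := by exact_mod_cast hb
  have h2 : θ = (((M - a ^ 2 - b ^ 2 * N) / (2 * a * b) : ℚ) : k) := by
    push_cast
    field_simp
    linear_combination hy - (b : k) ^ 2 * h1
  refine ⟨(M - a ^ 2 - b ^ 2 * N) / (2 * a * b), ?_⟩
  have : ((N : ℚ) : k) = ((((M - a ^ 2 - b ^ 2 * N) / (2 * a * b) : ℚ) *
      ((M - a ^ 2 - b ^ 2 * N) / (2 * a * b) : ℚ) : ℚ) : k) := by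
    rw [Rat.cast_mul, ← h2, ← sq, h1, Rat.cast_natCast]
  exact_mod_cast this

theorem even_ord {q m : ℕ} (h : θ ^ 2 = ((q * m : ℕ) : k)) (hq : q ≠ 0) (hm : m ≠ 0)
    (hc : q.Coprime m) (w : Sp k) (x : Un k) (hx : x.val = q) : Even (ord w x) := by
  by_cases hw : (q : 𝓞 k) ∈ w.asIdeal
  · have hθ : θ ≠ 0 := by
      rintro rfl
      have : ((q * m : ℕ) : k) ≠ 0 := by exact_mod_cast mul_ne_zero hq hm
      exact this (by rw [← h]; simp)
    have hm' : (m : k) ≠ 0 := by exact_mod_cast hm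
    have h1 : x + Un.mk (m : k) hm' = 2 • Un.mk θ hθ := by
      ext; rw [Un.val_add, Un.val_nsmul, Un.val_mk, Un.val_mk, h, hx, Nat.cast_mul]
    have h2 : ord w (Un.mk (m : k) hm') = 0 := (ord_eq_zero_iff _ _).2 (val_coprime hw hc.symm)
    have h3 := congrArg (ord w) h1
    rw [map_add, h2, add_zero, map_nsmul] at h3
    exact ⟨ord w (Un.mk θ hθ), by rw [h3, two_nsmul]⟩
  · have : ord w x = 0 := by
      rw [ord_eq_zero_iff, hx]
      simpa using (val_eq_one_iff w q).2 hw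
    rw [this]; exact Even.zero

theorem select (Q : Finset ℕ) (hQ : Q.card = 28) (hp' : ∀ q ∈ Q, q.Prime) (p : ℕ) [Fact p.Prime] :
    ∃ (q : Fin 14 → ℕ) (ε : ℤ), Function.Injective q ∧ ε ^ 2 = 1 ∧
      ∀ j, q j ∈ Q ∧ (q j : ZMod p) ≠ 0 ∧ quadraticChar (ZMod p) (q j) = ε := by
  classical
  have h0 : ∀ q ∈ Q.erase p, (q : ZMod p) ≠ 0 := by
    intro q hq h
    rw [ZMod.natCast_eq_zero_iff] at h
    obtain ⟨h1, h2⟩ := Finset.mem_erase.1 hq
    exact h1 ((Nat.prime_dvd_prime_iff_eq Fact.out (hp' q h2)).1 h).symm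
  have h1 : 27 ≤ (Q.erase p).card := by
    have := Finset.pred_card_le_card_erase (s := Q) (a := p)
    omega
  have h2 := Finset.card_filter_add_card_filter_not (s := Q.erase p)
    (fun q : ℕ => quadraticChar (ZMod p) q = 1)
  have key : ∀ (T : Finset ℕ) (ε : ℤ), ε ^ 2 = 1 → 14 ≤ T.card →
      (∀ q ∈ T, q ∈ Q.erase p ∧ quadraticChar (ZMod p) q = ε) →
      ∃ (q : Fin 14 → ℕ) (ε : ℤ), Function.Injective q ∧ ε ^ 2 = 1 ∧
        ∀ j, q j ∈ Q ∧ (q j : ZMod p) ≠ 0 ∧ quadraticChar (ZMod p) (q j) = ε := by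
    intro T ε hε hT h
    obtain ⟨T', hT', hc⟩ := Finset.exists_subset_card_eq hT
    refine ⟨T'.orderEmbOfFin hc, ε, (T'.orderEmbOfFin hc).injective, hε, fun j => ?_⟩
    have := h _ (hT' (T'.orderEmbOfFin_mem hc j))
    exact ⟨Finset.mem_of_mem_erase this.1, h0 _ this.1, this.2⟩
  by_cases h3 : 14 ≤ ((Q.erase p).filter fun q : ℕ => quadraticChar (ZMod p) q = 1).card
  · exact key _ 1 (by norm_num) h3 fun q hq => Finset.mem_filter.1 hq
  · refine key ((Q.erase p).filter fun q : ℕ => ¬ quadraticChar (ZMod p) q = 1) (-1)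
      (by norm_num) (by omega) fun q hq => ?_
    obtain ⟨a, b⟩ := Finset.mem_filter.1 hq
    exact ⟨a, (quadraticChar_dichotomy (h0 q a)).resolve_left b⟩

end BASE

open BASE in
theorem rowBASE : RowIDX → RowBASE := by
  intro hI
  classical
  obtain ⟨Q, hQs, hQ⟩ :=
    (Nat.infinite_setOfPred_prime_modEq_one (k := 8) (by norm_num)).exists_subset_card_eq 28
  choose c hc using exists_bound
  refine ⟨(Finset.range (Q.sup id ^ 14 + 1)).sup c, fun p _ hp2 => ?_⟩
  obtain ⟨q, ε, hinj, hε, hq⟩ := select Q hQ (fun q hq => (hQs hq).1) p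
  have hpr : ∀ j, (q j).Prime := fun j => (hQs (hq j).1).1
  have hm8 : ∀ j, q j ≡ 1 [MOD 8] := fun j => (hQs (hq j).1).2
  have hco : ∀ i j, i ≠ j → (q i).Coprime (q j) := fun i j h =>
    (Nat.coprime_primes (hpr i) (hpr j)).2 fun e => h (hinj e)
  set N := ∏ j, q j with hNdef
  have hsplit : ∀ j, N = q j * ∏ i ∈ Finset.univ.erase j, q i := fun j =>
    (Finset.mul_prod_erase _ _ (Finset.mem_univ j)).symm
  have hco' : ∀ j, (q j).Coprime (∏ i ∈ Finset.univ.erase j, q i) := fun j =>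
    Nat.Coprime.prod_right fun i hi => hco j i (Finset.ne_of_mem_erase hi).symm
  have hN : ¬ IsSquare (N : ℚ) := by rw [hsplit 0]; exact not_sq (hpr 0) (hco' 0)
  have hNpos : 0 < N := Finset.prod_pos fun j _ => (hpr j).pos
  have hNle : N ≤ Q.sup id ^ 14 := by
    have := Finset.prod_le_pow_card Finset.univ q (Q.sup id)
      fun j _ => Finset.le_sup (f := id) (hq j).1
    simpa using this
  obtain ⟨k, _, _, θ, hk, hd⟩ := hc N hN
  have hsq : ∀ n : ℕ, (n : ZMod p) ≠ 0 → quadraticChar (ZMod p) n = 1 →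
      IsSquare ((n : ℤ) : ℚ_[p]) := fun n h0 h1 =>
    hI.hen p n hp2 (by simpa using h0)
      (by simpa using (quadraticChar_one_iff_isSquare h0).1 h1)
  let e : Fin 12 → Fin 14 := Fin.castLE (by norm_num)
  have he : Function.Injective e := Fin.castLE_injective _
  have he12 : ∀ i, e i ≠ 12 := fun i h => by
    have := congrArg Fin.val h; simp [e] at this; omega
  have he13 : ∀ i, e i ≠ 13 := fun i h => by
    have := congrArg Fin.val h; simp [e] at this; omega
  have hne : ∀ j, (q j : k) ≠ 0 := fun j => by exact_mod_cast (hpr j).ne_zero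
  let u : Fin 14 → Un k := fun j => Un.mk (q j : k) (hne j)
  have hval : ∀ i, (u (e i) + u 13).val = ((q (e i) * q 13 : ℕ) : k) := fun i => by
    simp [u]
  refine ⟨k, inferInstance, inferInstance, fun i => u (e i) + u 13, hk.1, real hk hNpos,
    hd.trans (Finset.le_sup (f := c) (Finset.mem_range.2 (by omega))), ?_, ?_, fun i => ?_⟩
  · apply hk.2.2.2
    have := hsq N (by
      rw [hNdef, Nat.cast_prod]
      exact Finset.prod_ne_zero_iff.2 fun j _ => (hq j).2.1) (by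
      rw [hNdef, Nat.cast_prod, map_prod, Finset.prod_congr rfl fun j _ => (hq j).2.2,
        Finset.prod_const, Finset.card_univ, Fintype.card_fin,
        show 14 = 2 * 7 from rfl, pow_mul, hε, one_pow])
    simpa using this
  · rintro I ⟨y, hy⟩
    have h1 : y.val ^ 2 = ((∏ i ∈ I, (q (e i) * q 13) : ℕ) : k) := by
      have := congrArg Un.val hy
      rw [nsmulAddMonoidHom_apply, Un.val_nsmul, Un.val_sum] at this
      rw [this, Nat.cast_prod]
      exact Finset.prod_congr rfl fun i _ => hval i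
    rcases sq_cases hk hN h1 with h2 | h2
    · by_contra hI0
      obtain ⟨i, hi⟩ := Finset.nonempty_iff_ne_empty.2 hI0
      rw [← Finset.mul_prod_erase _ _ hi, mul_assoc] at h2
      refine not_sq (hpr (e i)) ?_ h2
      refine Nat.Coprime.mul_right (hco _ _ (he13 i)) (Nat.Coprime.prod_right fun j hj => ?_)
      exact Nat.Coprime.mul_right
        (hco _ _ fun h => Finset.ne_of_mem_erase hj (he h).symm) (hco _ _ (he13 i))
    · exfalso
      rw [hsplit 12, mul_left_comm] at h2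
      refine not_sq (hpr 12) ?_ h2
      refine Nat.Coprime.mul_right (Nat.Coprime.prod_right fun j _ => ?_) (hco' 12)
      exact Nat.Coprime.mul_right (hco _ _ (he12 j).symm) (hco _ _ (by decide))
  · have hev : ∀ j, u j ∈ Ev k := fun j w =>
      even_ord (θ := θ) (by rw [← hsplit j]; exact hk.2.1) (hpr j).ne_zero
        (Finset.prod_ne_zero_iff.2 fun i _ => (hpr i).ne_zero) (hco' j) w.1 _ rfl
    refine ⟨add_mem (hev _) (hev _), fun φ => ?_, ?_, (q (e i) * q 13 : ℕ), ?_, ?_⟩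
    · rw [hval, map_natCast]
      exact_mod_cast mul_pos (hpr _).pos (hpr _).pos
    · rw [mem_Ray_iff (by norm_num) (by norm_num)]
      have h8 : q (e i) * q 13 ≡ 1 [MOD 8] := (hm8 _).mul (hm8 _)
      refine ⟨((q (e i) * q 13 / 8 : ℕ) : k), natCast_mem _ _, ?_⟩
      rw [hval]
      have h9 : q (e i) * q 13 = 1 + 2 ^ 3 * (q (e i) * q 13 / 8) := by
        unfold Nat.ModEq at h8; omega
      exact_mod_cast congrArg (fun t : ℕ => (t : k)) h9
    · rw [hval]; simp
    · refine hsq _ ?_ ?_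
      · rw [Nat.cast_mul]; exact mul_ne_zero (hq _).2.1 (hq _).2.1
      · rw [Nat.cast_mul, map_mul, (hq _).2.2, (hq _).2.2, ← sq, hε]

end Pool.Agent.MP_542436_nt.H96
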