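import Pool.Agent.MP_542436_nt.H96.Spec
import Pool.Agent.MP_db5b97_nt.H10.NT1
import Pool.Agent.MP_db5b97_nt.H21.NT2
import Pool.Agent.MP_db5b97_nt.H19.DENS

/-! The class group modulo squares. -/

namespace Pool.Agent.MP_542436_nt.H96.CL

open NumberField IsDedekindDomain Pool.Agent.MP_db5b97_nt Pool.Agent.MP_db5b97_nt.H85

section Alg

variable {A D : Type} [AddCommGroup A] [AddCommGroup D]

theorem index_ne {P T : AddSubgroup D} (h : P ≤ T) (hP : P.index ≠ 0) : T.index ≠ 0 :=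
  fun h0 => hP (Nat.eq_zero_of_zero_dvd (h0 ▸ AddSubgroup.index_dvd_of_le h))

theorem sup_eq (P : AddSubgroup D) :
    P ⊔ (nsmulAddMonoidHom 2 : D →+ D).range =
      (nsmulAddMonoidHom 2 : D ⧸ P →+ D ⧸ P).range.comap (QuotientAddGroup.mk' P) := by
  ext x
  rw [AddSubgroup.mem_sup, AddSubgroup.mem_comap]
  constructor
  · rintro ⟨a, ha, _, ⟨b, rfl⟩, rfl⟩
    refine ⟨QuotientAddGroup.mk' P b, ?_⟩
    have h0 : QuotientAddGroup.mk' P a = 0 := (QuotientAddGroup.eq_zero_iff a).2 ha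
    rw [map_add, h0, zero_add, nsmulAddMonoidHom_apply, nsmulAddMonoidHom_apply, map_nsmul]
  · rintro ⟨q, hq⟩
    obtain ⟨b, rfl⟩ := QuotientAddGroup.mk'_surjective P q
    refine ⟨x - 2 • b, ?_, 2 • b, ⟨b, rfl⟩, sub_add_cancel _ _⟩
    have h0 : QuotientAddGroup.mk' P (x - 2 • b) = 0 := by
      rw [map_sub, map_nsmul, ← hq, nsmulAddMonoidHom_apply, sub_self]
    exact (QuotientAddGroup.eq_zero_iff _).1 h0

theorem index_eq (P : AddSubgroup D) (hP : P.index ≠ 0) :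
    (P ⊔ (nsmulAddMonoidHom 2 : D →+ D).range).index =
      Nat.card (nsmulAddMonoidHom 2 : D ⧸ P →+ D ⧸ P).ker := by
  have : Finite (D ⧸ P) := Nat.finite_of_card_ne_zero hP
  rw [sup_eq, AddSubgroup.index_comap_of_surjective _ (QuotientAddGroup.mk'_surjective P),
    AddSubgroup.index_range]

theorem cls_gen [IsAddTorsionFree D] (f : A →+ D) (hf : f.range.index ≠ 0) (E S : AddSubgroup A)
    (hE : ∀ x d, f x = 2 • d → x ∈ E) (hS : ∀ x ∈ S, ∃ y, 2 • y = x) (h : S.relIndex E ≠ 0) :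
    (f.range ⊔ (nsmulAddMonoidHom 2 : D →+ D).range).index ≤ S.relIndex E := by
  rw [index_eq _ hf]
  have : Finite (E ⧸ S.addSubgroupOf E) := Nat.finite_of_card_ne_zero h
  have key : ∀ c : (nsmulAddMonoidHom 2 : D ⧸ f.range →+ D ⧸ f.range).ker,
      ∃ (x : E) (d : D), QuotientAddGroup.mk' f.range d = c.1 ∧ f x = 2 • d := by
    rintro ⟨c, hc⟩
    obtain ⟨d, rfl⟩ := QuotientAddGroup.mk'_surjective f.range c
    have h0 : QuotientAddGroup.mk' f.range (2 • d) = 0 := by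
      rw [map_nsmul]
      exact hc
    obtain ⟨x, hx⟩ := (QuotientAddGroup.eq_zero_iff _).1 h0
    exact ⟨⟨x, hE x d hx⟩, d, rfl, hx⟩
  choose x d hd hx using key
  refine Nat.card_le_card_of_injective
    (fun c => (QuotientAddGroup.mk (x c) : E ⧸ S.addSubgroupOf E)) fun c c' e => ?_
  obtain ⟨y, hy⟩ := hS _ (AddSubgroup.mem_addSubgroupOf.1 (QuotientAddGroup.eq.1 e))
  have h1 : f y = -d c + d c' := by
    refine nsmul_right_injective (two_ne_zero) ?_
    show 2 • f y = 2 • (-d c + d c')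
    rw [← map_nsmul, hy, AddSubgroup.coe_add, AddSubgroup.coe_neg, map_add, map_neg, hx, hx,
      smul_add, smul_neg]
  refine Subtype.ext ?_
  rw [← hd, ← hd]
  exact QuotientAddGroup.eq.2 ⟨y, h1⟩

theorem par_gen (f : A →+ D) (T : AddSubgroup D) (hT : T.index ≠ 0) (I W : AddSubgroup A)
    (h : ∀ x ∈ I, f x ∈ T → x ∈ W) : W.relIndex I ≠ 0 ∧ W.relIndex I ≤ T.index := by
  have h1 : T.relIndex ⊤ ≠ 0 := by rwa [AddSubgroup.relIndex_top_right]
  have h2 : (T.comap f ⊓ I).relIndex I = T.relIndex (I.map f) := by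
    rw [AddSubgroup.inf_relIndex_right, AddSubgroup.relIndex_comap]
  have h3 : T.relIndex (I.map f) ≠ 0 := fun h0 =>
    h1 (AddSubgroup.relIndex_eq_zero_of_le_right le_top h0)
  have h4 : T.comap f ⊓ I ≤ W := fun x hx => h x hx.2 hx.1
  refine ⟨fun h0 => h3 (h2 ▸ AddSubgroup.relIndex_eq_zero_of_le_left h4 h0), ?_⟩
  refine (AddSubgroup.relIndex_le_of_le_left h4 (h2 ▸ h3)).trans ?_
  rw [h2, ← AddSubgroup.relIndex_top_right]
  exact AddSubgroup.relIndex_le_of_le_right le_top h1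

end Alg

theorem range_index (k : Type) [Field k] [NumberField k] : (dv k 2).range.index ≠ 0 :=
  index_ne (AddSubgroup.map_le_range _ _) Ru_index_ne

theorem cls_ne (k : Type) [Field k] [NumberField k] :
    ((dv k 2).range ⊔ (nsmulAddMonoidHom 2 : Dv k 2 →+ Dv k 2).range).index ≠ 0 :=
  index_ne le_sup_left (range_index k)

theorem cls_le (k : Type) [Field k] [NumberField k] (h : (Sq k).relIndex (Ev k) ≠ 0) :
    ((dv k 2).range ⊔ (nsmulAddMonoidHom 2 : Dv k 2 →+ Dv k 2).range).index ≤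
      (Sq k).relIndex (Ev k) := by
  refine cls_gen _ (range_index k) _ _ (fun x d e w => ?_) (fun x hx => hx) h
  rw [← dv_apply, e, two_nsmul, Finsupp.add_apply]
  exact Even.add_self _

section Par

variable {k L : Type} [Field k] [NumberField k] [Field L] [NumberField L] [Algebra k L]

theorem unr (h : Good k L) : Unr k L 2 := by
  have := h.gal
  exact rowNT2.unr k L (L ≃ₐ[k] L) 2 fun s hs w => h.unr s hs w.1

theorem inc_mem (h : Good k L) (a : Un k) : Un.inc k L a ∈ Ivt k L := by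
  have := h.gal
  intro s
  rw [(rowNT2.inc_range k L (L ≃ₐ[k] L) _).1 ⟨a, rfl⟩ s, sub_self]
  exact zero_mem _

theorem even_of (h : Good k L) {y : Un L} (hy : y ∈ Ivt k L) {w w' : Pr L 2}
    (e : w.und k = w'.und k) (hw : Even (ord w.1 y)) : Even (ord w'.1 y) := by
  have := h.gal
  obtain ⟨g, rfl⟩ := H19.exists_smul k (G := L ≃ₐ[k] L) e
  obtain ⟨z, hz⟩ := mem_Sq.1 (hy g)
  have h1 : ord (g • w).1 (g • y) = ord w.1 y := rowNT2.ord_smul L _ g w.1 y
  have h2 : ord (g • w).1 y = ord w.1 y - (ord (g • w).1 z + ord (g • w).1 z) := by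
    rw [← h1, ← map_add, ← two_nsmul, hz, map_sub, sub_sub_cancel]
  rw [h2]
  exact hw.sub (Even.add_self _)

theorem par (h : Good k L) :
    ((Ivt k L ⊓ Ev L) ⊔ (Un.inc k L).range).relIndex (Ivt k L) ≠ 0 ∧
      ((Ivt k L ⊓ Ev L) ⊔ (Un.inc k L).range).relIndex (Ivt k L) ≤
        ((dv k 2).range ⊔ (nsmulAddMonoidHom 2 : Dv k 2 →+ Dv k 2).range).index := by
  choose sec hsec using (H10.rowNT1.und_surj k L 2).2
  have hinj : Function.Injective sec := fun v v' e => by rw [← hsec v, ← hsec v', e]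
  refine par_gen ((Finsupp.comapDomain.addMonoidHom hinj).comp (dv L 2)) _ (cls_ne k) _ _
    fun x hx hT => ?_
  obtain ⟨_, ⟨a, rfl⟩, _, ⟨D, rfl⟩, e⟩ := AddSubgroup.mem_sup.1 hT
  have hy : x - Un.inc k L a ∈ Ivt k L := sub_mem hx (inc_mem h a)
  refine AddSubgroup.mem_sup.2 ⟨x - Un.inc k L a, ⟨hy, fun w => ?_⟩, Un.inc k L a, ⟨a, rfl⟩,
    sub_add_cancel _ _⟩
  refine even_of h hy (hsec (w.und k)) ?_
  generalize w.und k = v
  have e1 : ord v.1 a + (D v + D v) = ord (sec v).1 x := by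
    have h1 := DFunLike.congr_fun e v
    rw [nsmulAddMonoidHom_apply, two_nsmul, Finsupp.add_apply, Finsupp.add_apply, dv_apply] at h1
    rw [h1, AddMonoidHom.comp_apply, Finsupp.comapDomain.addMonoidHom_apply,
      Finsupp.comapDomain_apply, dv_apply]
  have hv : und k (sec v).1 = v.1 := congrArg Subtype.val (hsec v)
  have e2 : ord (sec v).1 (Un.inc k L a) = ord v.1 a := by
    rw [rowNT2.ord_inc, unr h (sec v), Nat.cast_one, one_mul, hv]
  rw [map_sub, e2, ← e1, add_sub_cancel_left]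
  exact Even.add_self _

end Par

end Pool.Agent.MP_542436_nt.H96.CL

namespace Pool.Agent.MP_542436_nt.H96

theorem rowCL : RowCL where
  cls k _ _ := ⟨CL.cls_ne k, CL.cls_le k⟩
  par _ _ _ _ _ _ _ h := ⟨CL.unr h, CL.par h⟩

end Pool.Agent.MP_542436_nt.H96
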