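import Pool.Agent.MP_542436_nt.H96.Spec
import Pool.Agent.MP_db5b97_nt.H21.NT2

/-! The discriminant of an everywhere unramified extension. -/

namespace Pool.Agent.MP_542436_nt.H96

open NumberField IsDedekindDomain Pool.Agent.MP_db5b97_nt.H85

attribute [local instance] FractionRing.liftAlgebra in
theorem rowDISC : RowDISC := by
  intro k L _ _ _ _ _ hG
  have := hG.gal
  have hU : Unr k L 1 := rowNT2.unr k L (L ≃ₐ[k] L) 1 fun s hs w => hG.unr s hs w.1
  have hD : differentIdeal (𝓞 k) (𝓞 L) = ⊤ := by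
    by_contra hne
    obtain ⟨P, hP, hle⟩ := Ideal.exists_le_maximal _ hne
    have hP0 : P ≠ ⊥ := Ring.ne_bot_of_isMaximal_of_not_isField hP (RingOfIntegers.not_isField L)
    let w : Sp L := ⟨P, hP.isPrime, hP0⟩
    have h1 : P.ramificationIdx (𝓞 k) = 1 :=
      hU ⟨w, fun h => w.isPrime.one_notMem (by simpa using h)⟩
    have h2 : Algebra.IsUnramifiedAt (𝓞 k) P := Ideal.ramificationIdx_eq_one_iff.1 h1
    exact not_dvd_differentIdeal_iff.2 h2 (Ideal.dvd_iff_le.2 hle)
  rw [natAbs_discr_eq_absNorm_differentIdeal_mul_natAbs_discr_pow k (𝓞 k) L (𝓞 L), hD,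
    Ideal.absNorm_top, one_mul]

end Pool.Agent.MP_542436_nt.H96
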