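import Pool.Agent.MP_542436_nt.H96.Spec
import Pool.Agent.MP_db5b97_nt.H10.NT1
import Pool.Agent.MP_db5b97_nt.H21.NT2

/-! The primes above two: the local index and the approximation of invariant classes. -/

namespace Pool.Agent.MP_542436_nt.H96

open NumberField IsDedekindDomain WithZero Pool.Agent.MP_db5b97_nt Pool.Agent.MP_db5b97_nt.H85

namespace DY

variable {F : Type} [Field F] [NumberField F]

/-- congruent to one modulo eight at one prime -/
def Lr (w : Sp F) : AddSubgroup (Un F) where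
  carrier := {x | w.valuation F x.val = 1 ∧
    w.valuation F (x.val - 1) ≤ w.valuation F ((2 : ℕ) : F) ^ 3}
  zero_mem' := ⟨by simp, by simp⟩
  add_mem' := by
    rintro x y ⟨hx, hx'⟩ ⟨hy, hy'⟩
    refine ⟨by rw [Un.val_add, map_mul, hx, hy, mul_one], ?_⟩
    have : (x + y).val - 1 = x.val * (y.val - 1) + (x.val - 1) := by rw [Un.val_add]; ring
    rw [this]
    refine Valuation.map_add_le _ ?_ hx'
    rw [map_mul, hx, one_mul]
    exact hy'
  neg_mem' := by
    rintro x ⟨hx, hx'⟩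
    refine ⟨by rw [Un.val_neg, map_inv₀, hx, inv_one], ?_⟩
    have : (-x).val - 1 = -(x.val⁻¹ * (x.val - 1)) := by
      rw [Un.val_neg, mul_sub, inv_mul_cancel₀ x.val_ne]; ring
    rw [this, Valuation.map_neg, map_mul, map_inv₀, hx, inv_one, one_mul]
    exact hx'

theorem mem_Lr {w : Sp F} {x : Un F} : x ∈ Lr w ↔ w.valuation F x.val = 1 ∧
    w.valuation F (x.val - 1) ≤ w.valuation F ((2 : ℕ) : F) ^ 3 := Iff.rfl

theorem mem_Ray_of_Lr {x : Un F} (h : ∀ w : Pl F 2, x ∈ Lr w.1) : x ∈ Ray F 2 3 :=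
  ⟨fun w hw => (h ⟨w, hw⟩).1, fun w hw => (h ⟨w, hw⟩).2⟩

theorem val_smul {G : Type} [Group G] [MulSemiringAction G F] (s : G) (w : Sp F) (x : F) :
    (s • w).valuation F (s • x) = w.valuation F x := by
  by_cases hx : x = 0
  · simp [hx]
  · have h := rowNT2.ord_smul F G s w (Un.mk x hx)
    have h1 := val_eq_exp (s • w) (s • Un.mk x hx)
    have h2 := val_eq_exp w (Un.mk x hx)
    rw [Un.val_smul, Un.val_mk] at h1
    rw [Un.val_mk] at h2
    rw [h1, h2, h]

theorem smul_Lr {G : Type} [Group G] [MulSemiringAction G F] (s : G) {w : Sp F} {x : Un F}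
    (hx : x ∈ Lr w) : s • x ∈ Lr (s • w) := by
  refine ⟨by rw [Un.val_smul, val_smul, hx.1], ?_⟩
  have e1 : (s • x).val - 1 = s • (x.val - 1) := by rw [smul_sub, smul_one, Un.val_smul]
  have e2 : ((2 : ℕ) : F) = s • ((2 : ℕ) : F) :=
    (map_natCast (MulSemiringAction.toRingHom G F s) 2).symm
  rw [e1, e2, val_smul, val_smul]
  exact hx.2

/-- weak approximation at the primes above two -/
theorem wa (t : Pl F 2 → Un F) : ∃ z : Un F, ∀ w : Pl F 2, z - t w ∈ Lr w.1 := by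
  classical
  have := Pl_finite (F := F) (l := 2) two_ne_zero
  have := Fintype.ofFinite (Pl F 2)
  obtain ⟨u, hu⟩ := H10.rowNT1.dvl_surj F 2 two_ne_zero
    (Finsupp.equivFunOnFinite.symm fun w => ord w.1 (t w))
  have hc : ∀ w : Pl F 2, w.1.valuation F (t w - u).val = 1 := fun w => by
    rw [← ord_eq_zero_iff, map_sub, ← dvl_apply u w, hu]
    simp
  have h2 : ∀ w : Pl F 2, w.1.valuation F ((2 : ℕ) : F) ^ 3 ≠ 0 := fun w => by simp
  have ha : ∀ w : Pl F 2, ∃ a : 𝓞 F, w.1.valuation F ((a : F) - (t w - u).val) <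
      w.1.valuation F ((2 : ℕ) : F) ^ 3 := fun w =>
    w.1.exists_valuation_sub_lt_of_integer (hc w).le (Units.mk0 _ (h2 w))
  choose a ha using ha
  obtain ⟨y, hy⟩ := IsDedekindDomain.exists_forall_sub_mem_ideal (s := Finset.univ)
    (fun w : Pl F 2 => w.1.asIdeal) (fun w => (-log (w.1.valuation F ((2 : ℕ) : F) ^ 3)).toNat)
    (fun w _ => w.1.prime)
    (fun w _ v _ h h' => h (Subtype.ext (HeightOneSpectrum.ext h'))) (fun w => a w.1)
  have hy' : ∀ w : Pl F 2, w.1.valuation F ((y : F) - (t w - u).val) ≤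
      w.1.valuation F ((2 : ℕ) : F) ^ 3 := fun w => by
    have h := (w.1.intValuation_le_pow_iff_mem _ _).2 (hy w (Finset.mem_univ _))
    rw [← val_coe] at h
    have e : (y : F) - (t w - u).val = ((y - a w : 𝓞 F) : F) + ((a w : F) - (t w - u).val) := by
      simp only [map_sub]
      ring
    rw [e]
    refine Valuation.map_add_le _ (h.trans ?_) (ha w).le
    rw [← exp_log (h2 w), exp_le_exp, log_exp]
    omega
  have hlt : ∀ w : Pl F 2, w.1.valuation F ((2 : ℕ) : F) ^ 3 < 1 := fun w =>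
    pow_lt_one₀ zero_le (val_nat_lt_one w.2) three_ne_zero
  have hv : ∀ w : Pl F 2, w.1.valuation F (y : F) = 1 := fun w => by
    have e : (y : F) = (t w - u).val + ((y : F) - (t w - u).val) := by ring
    rw [e, Valuation.map_add_eq_of_lt_left _ (by rw [hc]; exact (hy' w).trans_lt (hlt w)), hc]
  by_cases h0 : (y : F) = 0
  · exact ⟨0, fun w => absurd (hv w) (by simp [h0])⟩
  refine ⟨Un.mk _ h0 + u, fun w => ?_⟩
  have e : Un.mk _ h0 + u - t w = Un.mk _ h0 - (t w - u) := by abel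
  rw [e, mem_Lr, Un.val_sub _ (t w - u), Un.val_mk, map_div₀, hv, hc, div_one,
    div_sub_one (t w - u).val_ne, map_div₀, hc, div_one]
  exact ⟨rfl, hy' w⟩

theorem card_Pl (F : Type) [Field F] [NumberField F] : Nat.card (Pl F 2) ≤ Module.finrank ℚ F := by
  have hp : (Ideal.span {(2 : ℤ)}).IsMaximal :=
    PrincipalIdealRing.isMaximal_of_irreducible Int.prime_two.irreducible
  have h0 : Ideal.span {(2 : ℤ)} ≠ ⊥ := by simp
  refine le_trans ?_ (Ideal.card_primesOverFinset_le_finrank (𝓞 F) ℚ F h0)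
  rw [← Nat.card_eq_finsetCard]
  refine Nat.card_le_card_of_injective (fun w => ⟨w.1.asIdeal, ?_⟩) fun w v h =>
    Subtype.ext (HeightOneSpectrum.ext (congrArg Subtype.val h))
  rw [IsDedekindDomain.mem_primesOverFinset_iff h0]
  refine ⟨w.1.isPrime, ⟨hp.eq_of_le (Ideal.comap_ne_top _ w.1.isPrime.ne_top) ?_⟩⟩
  rw [Ideal.span_singleton_le_iff_mem, Ideal.mem_comap]
  simpa using w.2

theorem Ray_relIndex_le {l : ℕ} (hl : l ≠ 0) (M : ℕ) :
    (Ray F l M).relIndex (Ru F l) ≤ (l ^ M) ^ Module.finrank ℚ F := by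
  have hfin : Finite (𝓞 F ⧸ Ideal.span {(l : 𝓞 F) ^ M}) :=
    Ideal.finiteQuotientOfFreeOfNeBot _ (by simp [hl])
  have hc : Nat.card (𝓞 F ⧸ Ideal.span {(l : 𝓞 F) ^ M}) = (l ^ M) ^ Module.finrank ℚ F := by
    rw [← RingOfIntegers.rank, ← Ideal.absNorm_span_natCast, Ideal.absNorm_apply,
      Submodule.cardQuot_apply, Nat.cast_pow]
  choose z y hy e using fun x : Ru F l => exists_int_approx ((mem_Ru_iff hl).1 x.2).1 M
  rw [← hc]
  refine Nat.card_le_card_of_injective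
    (fun q => Ideal.Quotient.mk (Ideal.span {(l : 𝓞 F) ^ M}) (z q.out)) fun q q' h => ?_
  rw [← QuotientAddGroup.out_eq' q, ← QuotientAddGroup.out_eq' q', QuotientAddGroup.eq]
  obtain ⟨c, hc⟩ := Ideal.mem_span_singleton'.1 (Ideal.Quotient.eq.1 h)
  have hc' := congrArg (fun t : 𝓞 F => (t : F)) hc
  simp only [map_mul, map_pow, map_natCast, map_sub] at hc'
  refine ⟨(-q.out + q'.out).2, fun w hw => ?_⟩
  have e1 : ((-q.out + q'.out : Ru F l) : Un F).val - 1 =
      (q.out : Un F).val⁻¹ * ((l : F) ^ M * (y q'.out - y q.out - c)) := by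
    have h0 := (q.out : Un F).val_ne
    simp only [AddSubgroup.coe_add, AddSubgroup.coe_neg, Un.val_add, Un.val_neg]
    field_simp
    linear_combination e q'.out - e q.out + hc'
  rw [AddSubgroup.coe_subtype, e1, map_mul, map_mul, map_inv₀, q.out.2 w hw, inv_one, one_mul,
    map_pow]
  exact mul_le_of_le_one_right' ((mem_Rl_iff hl).1
    (sub_mem (sub_mem (hy _) (hy _)) (coe_mem_Rl c)) w hw)

/-- parities of the orders above two -/
noncomputable def par (F : Type) [Field F] [NumberField F] : Un F →+ (Pl F 2 → ZMod 2) where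
  toFun x w := (ord w.1 x : ZMod 2)
  map_zero' := by ext w; simp
  map_add' x y := by ext w; simp

theorem ker_par : (par F).ker ≤ Sq F ⊔ Ru F 2 := by
  intro x hx
  have := Pl_finite (F := F) (l := 2) two_ne_zero
  have h : ∀ w : Pl F 2, (2 : ℤ) ∣ ord w.1 x := fun w =>
    (ZMod.intCast_zmod_eq_zero_iff_dvd _ 2).1 (congrFun hx w)
  choose c hc using h
  obtain ⟨u, hu⟩ := H10.rowNT1.dvl_surj F 2 two_ne_zero (Finsupp.equivFunOnFinite.symm c)
  refine AddSubgroup.mem_sup.2 ⟨2 • u, ⟨u, rfl⟩, x - 2 • u, mem_Ru_iff_ord.2 fun w => ?_, by abel⟩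
  rw [map_sub, map_nsmul, ← dvl_apply u w, hu, hc]
  simp

theorem index_Ru : (Sq F ⊔ Ru F 2).index ≠ 0 ∧
    (Sq F ⊔ Ru F 2).index ≤ 2 ^ Module.finrank ℚ F := by
  have := Pl_finite (F := F) (l := 2) two_ne_zero
  have h1 : (par F).ker.index ≤ 2 ^ Module.finrank ℚ F := by
    rw [AddSubgroup.index_ker]
    refine (Nat.card_le_card_of_injective _ Subtype.val_injective).trans ?_
    rw [Nat.card_fun, Nat.card_zmod]
    exact Nat.pow_le_pow_right two_pos (card_Pl F)
  have h2 : (par F).ker.FiniteIndex := ⟨by rw [AddSubgroup.index_ker]; exact Nat.card_pos.ne'⟩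
  exact ⟨(AddSubgroup.finiteIndex_of_le ker_par).1, (AddSubgroup.index_antitone ker_par).trans h1⟩

theorem loc (k : Type) [Field k] [NumberField k] (hk : Module.finrank ℚ k = 2) :
    (Dy k).index ≠ 0 ∧ (Dy k).index ≤ 2 ^ 8 := by
  have hle : Dy k ≤ Sq k ⊔ Ru k 2 := sup_le_sup_left (Ray_le_Ru 3) _
  have e : Sq k ⊔ Ru k 2 = Dy k ⊔ Ru k 2 := by
    rw [Dy, sup_assoc, sup_eq_right.2 (Ray_le_Ru 3)]
  have h0 := Ray_relIndex_ne (F := k) (l := 2) two_ne_zero 3
  have h1 := Ray_relIndex_le (F := k) (l := 2) two_ne_zero 3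
  have h2 := index_Ru (F := k)
  have h3 : (Dy k).relIndex (Ru k 2) ≤ (Ray k 2 3).relIndex (Ru k 2) :=
    AddSubgroup.relIndex_le_of_le_left le_sup_right h0
  have h4 : (Dy k).relIndex (Ru k 2) ≠ 0 := fun h =>
    h0 (AddSubgroup.relIndex_eq_zero_of_le_left le_sup_right h)
  rw [hk] at h1 h2
  rw [← AddSubgroup.relIndex_mul_index hle]
  nth_rewrite 1 [e]
  nth_rewrite 2 [e]
  rw [AddSubgroup.relIndex_sup_left]
  refine ⟨mul_ne_zero h4 h2.1, ?_⟩
  calc _ ≤ (2 ^ 3) ^ 2 * 2 ^ 2 := Nat.mul_le_mul (h3.trans h1) h2.2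
    _ = 2 ^ 8 := by norm_num

theorem apx (k L : Type) [Field k] [NumberField k] [Field L] [NumberField L] [Algebra k L]
    (h : Good k L) : Ivt k L ≤ (Un.inc k L).range ⊔ Dy L := by
  classical
  intro x hx
  have := h.gal
  let rep : Pl L 2 → Pl L 2 := fun w =>
    (Quotient.mk (MulAction.orbitRel (L ≃ₐ[k] L) (Pl L 2)) w).out
  have r1 : ∀ (s : L ≃ₐ[k] L) (w : Pl L 2), rep (s • w) = rep w := fun s w =>
    congrArg Quotient.out (Quotient.sound ⟨s, rfl⟩)
  have r2 : ∀ w : Pl L 2, ∃ s : L ≃ₐ[k] L, s • rep w = w := fun w => by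
    obtain ⟨s, hs⟩ := Quotient.mk_out (s := MulAction.orbitRel (L ≃ₐ[k] L) (Pl L 2)) w
    exact ⟨s⁻¹, by rw [inv_smul_eq_iff]; exact hs.symm⟩
  have r3 : ∀ w : Pl L 2, rep (rep w) = rep w := fun w => by
    obtain ⟨s, hs⟩ := r2 w
    rw [← r1 s (rep w), hs]
  obtain ⟨z, hz⟩ := wa fun w : Pl L 2 => if rep w = w then x else 0
  set N : Un L := ∑ s : L ≃ₐ[k] L, s • z with hN
  have hN1 : ∀ s : L ≃ₐ[k] L, s • N = N := fun s => by
    rw [hN, Finset.smul_sum]
    simp only [smul_smul]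
    exact Fintype.sum_equiv (Equiv.mulLeft s) _ _ fun _ => rfl
  have hN2 : ∀ w : Pl L 2, rep w = w → x - N ∈ Lr w.1 := fun w hw => by
    have e : x - N = -((z - x) + ∑ s ∈ Finset.univ.erase (1 : L ≃ₐ[k] L), s • z) := by
      rw [hN, ← Finset.add_sum_erase _ _ (Finset.mem_univ (1 : L ≃ₐ[k] L)), one_smul]
      abel
    rw [e]
    refine neg_mem (add_mem (by simpa [hw] using hz w) (sum_mem fun s hs => ?_))
    have hs' : s⁻¹ ≠ 1 := inv_ne_one.2 (Finset.ne_of_mem_erase hs)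
    have h1 := hz (s⁻¹ • w)
    rw [r1, hw, if_neg (h.spl _ hs' w).symm, sub_zero] at h1
    have h2 := smul_Lr s h1
    have e2 : s • (s⁻¹ • w).1 = w.1 := smul_inv_smul s w.1
    rwa [e2] at h2
  have hy : ∀ w : Pl L 2, ∃ y : Un L, x - N + 2 • y ∈ Lr w.1 := fun w => by
    obtain ⟨s, hs⟩ := r2 w
    obtain ⟨y, hy⟩ := mem_Sq.1 (hx s)
    refine ⟨y, ?_⟩
    have h2 := smul_Lr s (hN2 _ (r3 w))
    have e2 : s • (rep w).1 = w.1 := congrArg Subtype.val hs
    rw [e2, smul_sub, hN1] at h2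
    convert h2 using 1
    rw [hy]
    abel
  choose y hy using hy
  obtain ⟨v, hv⟩ := wa y
  have hR : x - N + 2 • v ∈ Ray L 2 3 := mem_Ray_of_Lr fun w => by
    convert add_mem (hy w) (nsmul_mem (hv w) 2) using 1
    rw [nsmul_sub]
    abel
  have e : x = N + (2 • (-v) + (x - N + 2 • v)) := by
    rw [smul_neg]
    abel
  rw [e]
  exact AddSubgroup.add_mem_sup ((rowNT2.inc_range k L (L ≃ₐ[k] L) N).2 hN1)
    (AddSubgroup.add_mem_sup ⟨-v, rfl⟩ hR)

end DY

theorem rowDY : RowDY := ⟨DY.loc, DY.apx⟩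

end Pool.Agent.MP_542436_nt.H96
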