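import Pool.Agent.MP_542436_nt.H96.Spec
import Pool.Agent.MP_db5b97_nt.H76.CORE
import Pool.Agent.MP_db5b97_nt.H10.NT1
import Pool.Agent.MP_db5b97_nt.H21.NT2

/-! A central extension by a sign splits over the multiplicative group. -/

namespace Pool.Agent.MP_542436_nt.H96

open NumberField IsDedekindDomain Pool.Agent.MP_db5b97_nt.H85 Pool.Agent.MP_db5b97_nt

namespace EXT

section Alg

variable {G E A I : Type} [Group G] [Group E] [AddCommGroup A] [DistribMulAction G A]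
  [AddCommGroup I] [DistribMulAction G I] {π : E →* G} {Q : Subgroup G} {σ : G}

/-- cocycles on the preimage of a subgroup -/
def Cc (π : E →* G) (Q : Subgroup G) (β : E → A) : Prop :=
  ∀ a b, π a ∈ Q → π b ∈ Q → β (a * b) = β a + π a • β b

theorem h90E (hπ : Function.Surjective π) (h : H90 A Q) {c : E → A} (hc : Cc π Q c)
    (h0 : ∀ x, π x = 1 → c x = 0) : ∃ l : A, ∀ a, π a ∈ Q → c a = π a • l - l := by
  have key : ∀ a b, π a ∈ Q → π a = π b → c a = c b := fun a b ha e => by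
    have h1 : π (a * b⁻¹) = 1 := by rw [map_mul, map_inv, e, mul_inv_cancel]
    have := hc (a * b⁻¹) b (h1 ▸ Q.one_mem) (e ▸ ha)
    rwa [inv_mul_cancel_right, h0 _ h1, h1, zero_add, one_smul] at this
  choose s hs using hπ
  obtain ⟨l, hl⟩ := h (fun g => c (s g)) fun g hg g' hg' => by
    rw [key (s (g * g')) (s g * s g') (by rw [hs]; exact Q.mul_mem hg hg') (by simp [hs]),
      hc _ _ (by rwa [hs]) (by rwa [hs]), hs]
  exact ⟨l, fun a ha => (key a _ ha (hs _).symm).trans (hl _ ha)⟩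

theorem h90P [Finite G] (X : Type) [MulAction G X] (Q : Subgroup G) : H90 (X →₀ ℤ) Q := by
  intro c hc
  have := Fintype.ofFinite Q
  have hn : (Fintype.card Q : ℤ) ≠ 0 := by exact_mod_cast Fintype.card_ne_zero
  refine ⟨Finsupp.mapRange (· / (Fintype.card Q : ℤ)) (by simp) (-∑ g : Q, c g), fun s hs => ?_⟩
  have h1 : ∑ g : Q, c g = Fintype.card Q • c s + s • ∑ g : Q, c g := by
    rw [Finset.smul_sum, ← Finset.card_univ, ← Finset.sum_const, ← Finset.sum_add_distrib,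
      ← Equiv.sum_comp (Equiv.mulLeft (⟨s, hs⟩ : Q))]
    exact Finset.sum_congr rfl fun g _ => hc s hs g g.2
  ext x
  have h2 := DFunLike.congr_fun h1 x
  rw [Finsupp.add_apply, NT2.pm_apply, Finsupp.smul_apply, nsmul_eq_mul] at h2
  rw [Finsupp.sub_apply, NT2.pm_apply, Finsupp.mapRange_apply, Finsupp.mapRange_apply,
    Finsupp.neg_apply, Finsupp.neg_apply,
    show -(∑ g : Q, c g) (s⁻¹ • x) = -(∑ g : Q, c g) x + Fintype.card Q * c s x by omega,
    Int.add_mul_ediv_left _ _ hn]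
  omega

/-- the next subgroup -/
def up (hn : σ ∈ Subgroup.normalizer (Q : Set G)) (h2 : σ ^ 2 ∈ Q) : Subgroup G where
  carrier := {g | g ∈ Q ∨ g * σ⁻¹ ∈ Q}
  one_mem' := Or.inl Q.one_mem
  mul_mem' := by
    have hc := fun g => (Subgroup.mem_normalizer_iff.1 hn g).1
    rintro a b (ha | ha) (hb | hb)
    · exact Or.inl (Q.mul_mem ha hb)
    · exact Or.inr (by rw [mul_assoc]; exact Q.mul_mem ha hb)
    · exact Or.inr (by convert Q.mul_mem ha (hc _ hb) using 1; group)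
    · exact Or.inl (by convert Q.mul_mem (Q.mul_mem ha (hc _ hb)) h2 using 1; group)
  inv_mem' := by
    have hc := fun g => (Subgroup.mem_normalizer_iff''.1 hn g).1
    rintro a (ha | ha)
    · exact Or.inl (Q.inv_mem ha)
    · exact Or.inr (by convert Q.mul_mem (hc _ (Q.inv_mem ha)) (Q.inv_mem h2) using 1; group)

theorem step (hπ : Function.Surjective π) (hn : σ ∈ Subgroup.normalizer (Q : Set G))
    (h2 : σ ^ 2 ∈ Q) (hσ : σ ∉ Q) {ε : E → A} (hε : ∀ x, π x = 1 → ∀ g : G, g • ε x = ε x)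
    (hε' : ∀ e x, π x = 1 → ε (e⁻¹ * x * e) = ε x) (d : A →+ I)
    (hd : ∀ (g : G) x, d (g • x) = g • d x) (hdε : ∀ x, π x = 1 → d (ε x) = 0) (hA : H90 A Q)
    (hI : H90 I Q) (hN : ∀ a ∈ Fix A Q, σ • a = a → d a ∈ Ns I 2 Q σ → a ∈ Ns A 2 Q σ)
    {β : E → A} (hβ : Cc π Q β) (hβ0 : ∀ x, π x = 1 → β x = ε x) :
    ∃ β' : E → A, Cc π (up hn h2) β' ∧ ∀ x, π x = 1 → β' x = ε x := by
  classical
  obtain ⟨s, rfl⟩ := hπ σ
  have hc : ∀ h, π h ∈ Q → π (s⁻¹ * h * s) ∈ Q := fun h hh => by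
    rw [map_mul, map_mul, map_inv]
    exact (Subgroup.mem_normalizer_iff''.1 hn _).1 hh
  have hc' : ∀ h, π h ∈ Q → π (s * h * s⁻¹) ∈ Q := fun h hh => by
    rw [map_mul, map_mul, map_inv]
    exact (Subgroup.mem_normalizer_iff.1 hn _).1 hh
  have hss : π (s * s) ∈ Q := by rwa [map_mul, ← pow_two]
  have sm : ∀ {B : Type} [AddCommGroup B] [DistribMulAction G B] (h : E) (x : B),
      π s • π (s⁻¹ * h * s) • x = π h • π s • x := fun h x => by
    rw [smul_smul, smul_smul, ← map_mul, ← map_mul]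
    congr 2
    group
  obtain ⟨l, hl⟩ := h90E hπ hA (c := fun h => π s • β (s⁻¹ * h * s) - β h)
    (fun a b ha hb => by
      simp only
      rw [show s⁻¹ * (a * b) * s = s⁻¹ * a * s * (s⁻¹ * b * s) by group,
        hβ _ _ (hc a ha) (hc b hb), hβ a b ha hb, smul_add, sm, smul_sub]
      abel)
    fun x hx => by
      rw [hβ0 _ (by simp [hx]), hε' s x hx, hε x hx, hβ0 x hx, sub_self]
  replace hl : ∀ h, π h ∈ Q → π s • β (s⁻¹ * h * s) = β h + (π h • l - l) := fun h hh => by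
    rw [← hl h hh, add_sub_cancel]
  obtain ⟨D, hD⟩ := h90E hπ hI (c := fun h => d (β h))
    (fun a b ha hb => by simp only [hβ a b ha hb, map_add, hd])
    fun x hx => by simp only [hβ0 x hx, hdε x hx]
  obtain ⟨f, hf, ef⟩ := hN (β (s * s) - l - π s • l)
    (fun g hg => by
      obtain ⟨h, rfl⟩ := hπ g
      have e1 := hβ h (s * s) hg hss
      rw [show h * (s * s) = s * s * (s⁻¹ * (s⁻¹ * h * s) * s) by group,
        hβ _ _ hss (hc _ (hc h hg)), map_mul, mul_smul, hl _ (hc h hg), smul_add, hl h hg, smul_sub,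
        sm] at e1
      rw [smul_sub, smul_sub, eq_sub_of_add_eq' e1.symm]
      abel)
    (by
      have e1 := hl (s * s) hss
      rw [show s⁻¹ * (s * s) * s = s * s by group, map_mul, mul_smul] at e1
      rw [smul_sub, smul_sub, e1]
      abel)
    ⟨π s • D - D - d l, fun g hg => by
      obtain ⟨h, rfl⟩ := hπ g
      have e1 := congrArg d (hl h hg)
      rw [hd, map_add, map_sub, hd, hD _ (hc h hg), hD h hg, smul_sub, sm] at e1
      rw [smul_sub, smul_sub, eq_add_of_sub_eq e1]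
      abel, by
      simp only [Nm_apply, Finset.sum_range_succ, Finset.range_zero, Finset.sum_empty, pow_zero,
        one_smul, zero_add, pow_one, map_sub, hd, hD _ hss]
      simp only [map_mul, mul_smul]
      abel⟩
  simp only [Nm_apply, Finset.sum_range_succ, Finset.range_zero, Finset.sum_empty, pow_zero,
    one_smul, zero_add, pow_one] at ef
  have hA' : ∀ h, π h ∈ Q → l + f + π s • β (s⁻¹ * h * s) = β h + π h • (l + f) := fun h hh => by
    rw [hl h hh, smul_add, hf _ hh]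
    abel
  have hB : β (s * s) = l + f + π s • (l + f) := by
    rw [smul_add, add_add_add_comm, ef]
    abel
  generalize l + f = ν at hA' hB
  let γ : E → A := fun e => if π e ∈ Q then β e else β (e * s⁻¹) + π (e * s⁻¹) • ν
  have g0 : ∀ h, π h ∈ Q → γ h = β h := fun h hh => if_pos hh
  have g1 : ∀ h, π h ∈ Q → γ (h * s) = β h + π h • ν := fun h hh => by
    have : π (h * s) ∉ Q := fun h' => hσ (by rwa [map_mul, Q.mul_mem_cancel_left hh] at h')
    simp only [γ, if_neg this, mul_inv_cancel_right]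
  have cs : ∀ a, π a ∈ up hn h2 → π a ∈ Q ∨ ∃ h, π h ∈ Q ∧ a = h * s := fun a ha =>
    ha.imp id fun h => ⟨a * s⁻¹, by rwa [map_mul, map_inv], by group⟩
  refine ⟨γ, fun a b ha hb => ?_, fun x hx => (g0 x (hx ▸ Q.one_mem)).trans (hβ0 x hx)⟩
  have hm : ∀ {a b}, π a ∈ Q → π b ∈ Q → π (a * b) ∈ Q := fun ha hb => by
    rw [map_mul]; exact Q.mul_mem ha hb
  replace ha := cs a ha
  replace hb := cs b hb
  rcases ha with ha | ⟨a, ha, rfl⟩ <;> rcases hb with hb | ⟨b, hb, rfl⟩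
  · rw [g0 _ ha, g0 _ hb, g0 _ (hm ha hb), hβ _ _ ha hb]
  · rw [← mul_assoc, g0 _ ha, g1 _ hb, g1 _ (hm ha hb), hβ _ _ ha hb, map_mul, mul_smul, smul_add,
      add_assoc]
  · have e := hA' _ (hc' b hb)
    rw [show s⁻¹ * (s * b * s⁻¹) * s = b by group] at e
    rw [show a * s * b = a * (s * b * s⁻¹) * s by group, g1 _ (hm ha (hc' b hb)), g1 _ ha, g0 _ hb,
      hβ _ _ ha (hc' b hb), map_mul π a, map_mul π a, mul_smul, mul_smul, add_assoc, add_assoc,
      ← smul_add, ← smul_add, e]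
  · have e := hA' _ (hc' b hb)
    have e' := sm (s * b * s⁻¹) ν
    rw [show s⁻¹ * (s * b * s⁻¹) * s = b by group] at e e'
    rw [show a * s * (b * s) = a * (s * b * s⁻¹ * (s * s)) by group,
      g0 _ (hm ha (hm (hc' b hb) hss)), g1 _ ha, g1 _ hb, hβ _ _ ha (hm (hc' b hb) hss),
      hβ _ _ (hc' b hb) hss, hB, map_mul π a, mul_smul, add_assoc, ← smul_add, smul_add (π s),
      ← add_assoc ν, e, e', smul_add (π (s * b * s⁻¹)), add_assoc]

theorem ex_next [Finite G] (hP : IsPGroup 2 G) (h : Q ≠ ⊤) :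
    ∃ σ ∈ Subgroup.normalizer (Q : Set G), σ ^ 2 ∈ Q ∧ σ ∉ Q := by
  classical
  have := hP.isNilpotent
  obtain ⟨τ, h1, h2⟩ := SetLike.exists_of_lt
    (Group.normalizerCondition_of_isNilpotent Q (lt_top_iff_ne_top.2 h))
  have hex : ∃ k, τ ^ 2 ^ k ∈ Q := by
    obtain ⟨k, hk⟩ := hP τ
    exact ⟨k, hk ▸ Q.one_mem⟩
  have h3 : Nat.find hex ≠ 0 := fun h => h2 (by simpa [h] using Nat.find_spec hex)
  obtain ⟨j, hj⟩ := Nat.exists_eq_succ_of_ne_zero h3
  refine ⟨τ ^ 2 ^ j, pow_mem h1 _, ?_, Nat.find_min hex (by omega)⟩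
  rw [← pow_mul, ← pow_succ, ← Nat.succ_eq_add_one, ← hj]
  exact Nat.find_spec hex

end Alg

theorem exists_smul {K L : Type} (G : Type) [Field K] [NumberField K] [Field L] [NumberField L]
    [Algebra K L] [Group G] [Finite G] [MulSemiringAction G L] [IsGaloisGroup G K L] {l : ℕ}
    {w w' : Pl L l} (h : w.und K = w'.und K) : ∃ g : G, g • w = w' := by
  have := w.1.isPrime
  have := w'.1.isPrime
  have : w.1.asIdeal.LiesOver (w.und K).1.asIdeal := ⟨rfl⟩
  have : w'.1.asIdeal.LiesOver (w.und K).1.asIdeal := ⟨by rw [h]; rfl⟩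
  obtain ⟨g, hg⟩ :=
    Ideal.exists_smul_eq_of_isGaloisGroup (w.und K).1.asIdeal w.1.asIdeal w'.1.asIdeal G
  exact ⟨g, Subtype.ext (HeightOneSpectrum.ext hg)⟩

theorem norm_thm (hH : RowHN) {k L : Type} [Field k] [NumberField k] [Field L] [NumberField L]
    [Algebra k L] (hG : Good k L) {Q : Subgroup (L ≃ₐ[k] L)} {σ : L ≃ₐ[k] L}
    (hn : σ ∈ Subgroup.normalizer (Q : Set (L ≃ₐ[k] L))) (h2 : σ ^ 2 ∈ Q) (hσ : σ ∉ Q) :
    ∀ a ∈ Fix (Un L) Q, σ • a = a → dv L 2 a ∈ Ns (Dv L 2) 2 Q σ → a ∈ Ns (Un L) 2 Q σ := by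
  intro x hx hs ha
  obtain ⟨K, _, _, _, _⟩ := H76.exists_fix L Q
  obtain ⟨F, _, _, _, _⟩ := H76.exists_fix L ↥(Q ⊔ Subgroup.zpowers σ)
  obtain ⟨a, ha'⟩ := H76.exists_lift (G := Q) (K := K) (algebraMap F L) fun s x =>
    H76.smul_alg (Subgroup.inclusion (le_sup_left (b := Subgroup.zpowers σ)) s) x
  let _ := a.toAlgebra
  have : IsScalarTower F K L := .of_algebraMap_eq fun x => (ha' x).symm
  have hu : Unr F L 2 := rowNT2.unr F L ↥(Q ⊔ Subgroup.zpowers σ) 2 fun s hs w =>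
    hG.unr s (fun e => hs (Subtype.ext e)) w.1
  obtain ⟨τ, hτ, hne, hcard, _⟩ := H76.exists_tau Q σ F K L Nat.prime_two hn h2 hσ
  have T := H76.tf Q σ F K L 2 2 H10.rowNT1 rowNT2 Nat.prime_two hu τ hτ hne hcard
  obtain ⟨y, rfl⟩ := T.fU x hx hs
  rw [T.dvi, T.nD] at ha
  have := hG.real
  refine (T.nU y).2 (hH F K (Subgroup.zpowers τ) ⟨τ, Subgroup.mem_zpowers τ⟩ hcard
    (fun e => hne (congrArg Subtype.val e)) (IsTotallyReal.of_algebra K L)
    (H76.unr_tower H10.rowNT1 K hu).1 (fun w hw => ?_) y ha)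
  obtain ⟨W, rfl⟩ := (H10.rowNT1.und_surj K L 2).1 w
  have e1 : (σ • W).und K = τ • W.und K := by
    refine Subtype.ext (HeightOneSpectrum.ext (Ideal.ext fun x => ?_))
    have e : σ⁻¹ • algebraMap (𝓞 K) (𝓞 L) x = algebraMap (𝓞 K) (𝓞 L) (τ⁻¹ • x) := by
      rw [inv_smul_eq_iff]
      ext
      have := hτ (τ⁻¹ • (x : K))
      rw [← AlgEquiv.smul_def, smul_inv_smul] at this
      exact this
    exact (mem_smul_iff σ W.1 (algebraMap (𝓞 K) (𝓞 L) x)).trans
      (e ▸ (mem_smul_iff τ (W.und K).1 x).symm)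
  obtain ⟨g, hg⟩ := exists_smul Q (e1.trans hw : (σ • W).und K = W.und K)
  refine hG.spl (g * σ) (fun e => hσ ?_) W ?_
  · rw [eq_inv_of_mul_eq_one_right e]
    exact Q.inv_mem g.2
  · rw [mul_smul]
    exact hg

end EXT

open EXT in
theorem rowEXT : RowHN → RowEXT := by
  classical
  intro hH k L _ _ _ _ _ hG E _ π φ hπ hφ
  have := hG.gal
  have hP : IsPGroup 2 (L ≃ₐ[k] L) := by
    obtain ⟨j, hj⟩ := hG.two
    exact IsPGroup.of_card ((IsGalois.card_aut_eq_finrank k L).trans hj)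
  let ε : E → Un L := fun x =>
    if h : π x = 1 then Un.mk ((φ ⟨x, h⟩ : ℤ) : L) (by simp) else 0
  have hε : ∀ x (h : π x = 1), (ε x).val = ((φ ⟨x, h⟩ : ℤ) : L) := fun x h => by
    simp only [ε, dif_pos h, Un.val_mk]
  have hfix : ∀ x, π x = 1 → ∀ g : L ≃ₐ[k] L, g • ε x = ε x := fun x h g =>
    Un.ext (by rw [Un.val_smul, hε x h, AlgEquiv.smul_def, map_intCast])
  let S : Subgroup (L ≃ₐ[k] L) → Prop := fun Q =>
    ∃ β : E → Un L, Cc π Q β ∧ ∀ x, π x = 1 → β x = ε x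
  have h0 : S ⊥ := ⟨ε, fun a b ha hb => by
    rw [Subgroup.mem_bot] at ha hb
    refine Un.ext ?_
    rw [hfix b hb, Un.val_add, hε a ha, hε b hb, hε _ (by rw [map_mul, ha, hb, mul_one]),
      ← Int.cast_mul, ← Units.val_mul, ← φ.map_mul ⟨a, ha⟩ ⟨b, hb⟩]
    rfl, fun _ _ => rfl⟩
  obtain ⟨Q, -, hQ⟩ := Finite.exists_le_maximal h0
  have : Q = ⊤ := by
    by_contra hne
    obtain ⟨σ, hn, h2, hσ⟩ := ex_next hP hne
    obtain ⟨β, hβ, hβ0⟩ := hQ.1
    refine hσ (hQ.2 (y := up hn h2) (step hπ hn h2 hσ hfix (fun e x hx => Un.ext ?_) (dv L 2)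
      (H76.dv_smul rowNT2) (fun x hx => ?_) (rowNT2.h90 L _ Q) (h90P _ Q)
      (norm_thm hH hG hn h2 hσ) hβ hβ0) (fun g hg => Or.inl hg) (Or.inr (by simp)))
    · rw [hε x hx, hε _ (by simp [hx]), hφ e⁻¹ ⟨x, hx⟩ _ (by simp)]
    · ext w
      rw [dv_apply, Finsupp.zero_apply, ord_eq_zero_iff, hε x hx]
      rcases Int.units_eq_one_or (φ ⟨x, hx⟩) with h | h <;> simp [h]
  subst this
  obtain ⟨β, hβ, hβ0⟩ := hQ.1
  exact ⟨β, fun a b => hβ a b trivial trivial, fun x => by rw [hβ0 x x.2, hε x x.2]⟩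

end Pool.Agent.MP_542436_nt.H96
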