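import Pool.Agent.MP_542436_nt.H96.HN1
import Pool.Agent.MP_db5b97_nt.H74.LAY
import Pool.Agent.MP_db5b97_nt.H10.NT1
import Pool.Agent.MP_db5b97_nt.H21.NT2
import Pool.Agent.MP_db5b97_nt.H7.LA
import Pool.Agent.MP_db5b97_nt.H47.U
import Pool.Agent.MP_db5b97_nt.H19.DENS
import Pool.Agent.MP_db5b97_nt.H72.Z
import Pool.Agent.MP_db5b97_nt.H72.ZRC
import Pool.Agent.MP_db5b97_nt.H36.AL

/-! The norm theorem for an unramified totally real quadratic extension split above two. -/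

namespace Pool.Agent.MP_542436_nt.H96

open NumberField IsDedekindDomain Pool.Agent.MP_db5b97_nt Pool.Agent.MP_db5b97_nt.H85
open Pool.Agent.MP_db5b97_nt.H74

namespace HN

theorem lay (p : ℕ) (hp : p.Prime) (k F G : Type) [Field k] [NumberField k] [Field F]
    [NumberField F] [Algebra k F] [Group G] [MulSemiringAction G F] [IsGaloisGroup G k F] (σ : G)
    (l : ℕ) (hG : Nat.card G = p) (hσ : σ ≠ 1) (hl : 2 ≤ l) (hi : IsTotallyReal F)
    (hun : Unr k F l) : ∃ M0, ∀ M, M0 ≤ M →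
      (∀ x ∈ Ray k l M, dv k l x ∈ (nrD F l k).range → x ∈ (Un.nrm k F).range) ∧
      ((Un.nrm k F).range ⊔ Ray k l M).index = hc (A := Pl F l →₀ ℤ) (Df σ) (Nm σ p) := by
  have h1 := H10.rowNT1
  have h2 := rowNT2
  have hLA := H7.rowLA
  have hU := H47.rowU
  have hSI := H19.rowSI H72.rowZ (H72.rowRC H36.rowAL)
  have l0 : l ≠ 0 := by omega
  have : Finite G := Nat.finite_of_card_ne_zero (hG ▸ hp.ne_zero)
  have : FaithfulSMul G F := IsGaloisGroup.faithful k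
  have hs : σ ^ p = 1 := hG ▸ pow_card_eq_one'
  have hn : σ ∈ Subgroup.normalizer ((⊥ : Subgroup G) : Set G) :=
    Subgroup.le_normalizer_of_normal (K := ⊤) trivial
  have hb : σ ^ p ∈ (⊥ : Subgroup G) := hs
  obtain ⟨U, u1, u2, ⟨M0, u3⟩, u4, u5⟩ := hU p hp k F G σ l hG hσ hl
  have ea : ∀ (s : G) x, dv F l (s • x) = s • dv F l x := fun s x => by
    ext w
    rw [Finsupp.comapSMul_apply, dv_apply, dv_apply, show (s⁻¹ • w).1 = s⁻¹ • w.1 from rfl,
      ← h2.ord_smul F G s (s⁻¹ • w.1) x, smul_inv_smul]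
  have eb : ∀ (s : G) x, dvl F l (s • x) = s • dvl F l x := fun s x => by
    ext w
    rw [Finsupp.comapSMul_apply, dvl_apply, dvl_apply, show (s⁻¹ • w).1 = s⁻¹ • w.1 from rfl,
      ← h2.ord_smul F G s (s⁻¹ • w.1) x, smul_inv_smul]
  have kb : (dvl F l).ker = Ru F l := by
    ext x
    rw [mem_Ru_iff_ord, AddMonoidHom.mem_ker, Finsupp.ext_iff]
    rfl
  have kA : (Df σ).ker = (Un.inc k F).range := by
    ext x; rw [h2.inc_range k F G, fix_iff hp hG hσ]
  have kI : (Df σ).ker = (con k F l).range := by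
    ext x; rw [h2.con_range k F G, fix_iff hp hG hσ]
  have iA : Function.Injective (Un.inc k F) := fun x y h =>
    Un.ext ((algebraMap k F).injective (congrArg Un.val h))
  have iI : Function.Injective (con k F l) := fun x y h => by
    ext v
    obtain ⟨w, rfl⟩ := (h1.und_surj k F l).2 v
    exact DFunLike.congr_fun h w
  have di : ∀ x, dv F l (Un.inc k F x) = con k F l (dv k l x) := fun x => by
    ext w
    rw [dv_apply, h2.ord_inc, hun w, Nat.cast_one, one_mul]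
    rfl
  have nA := h2.inc_nrm k F G σ p hp hG hσ
  have nI : (con k F l).comp (nrD F l k) = Nm σ p := hom_ext fun x => by
    rw [AddMonoidHom.comp_apply, ← h1.dv_nrm, ← di, nA, map_Nm _ ea]
  have rA : (Nm σ p).range = (Un.nrm k F).range.map (Un.inc k F) := by
    rw [AddMonoidHom.map_range]
    exact congrArg _ (AddMonoidHom.ext nA).symm
  have rI : (Nm σ p).range = (nrD F l k).range.map (con k F l) := by
    rw [AddMonoidHom.map_range, nI]
  have hrel : U.relIndex (Ru F l) ≠ 0 := fun h =>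
    Ray_relIndex_ne l0 M0 (AddSubgroup.relIndex_eq_zero_of_le_left u3 h)
  obtain ⟨q1, q2⟩ := uq p hp k F G σ l (U ⊓ (dv F l).ker) hG hσ hi
    (fun x hx => ⟨u1 x hx.1, AddMonoidHom.mem_ker.2 (by
      rw [ea, AddMonoidHom.mem_ker.1 hx.2, smul_zero])⟩)
    (inf_le_inf_right _ u2) (AddSubgroup.relIndex_inter_ne_zero hrel _)
  refine ⟨M0, fun M hM => ?_⟩
  have eI : ((Nm σ p).range ⊔ ((Ray k l M).map (Un.inc k F)).map (dv F l)).relIndex (Df σ).ker =
      ((nrD F l k).range ⊔ (Ray k l M).map (dv k l)).index := by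
    rw [← idx_map iI, AddSubgroup.map_sup, ← rI, kI, AddSubgroup.map_map, AddSubgroup.map_map]
    congr 3
    exact AddMonoidHom.ext di
  have eA : ((Nm σ p).range ⊔ (Ray k l M).map (Un.inc k F)).relIndex (Df σ).ker =
      ((Un.nrm k F).range ⊔ Ray k l M).index := by
    rw [← idx_map iA, AddSubgroup.map_sup, ← rA, kA]
  have i0 : ((nrD F l k).range ⊔ (Ray k l M).map (dv k l)).index ≠ 0 :=
    ne_zero_of_dvd_ne_zero (Ray_index_ne l0 M) (AddSubgroup.index_dvd_of_le le_sup_right)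
  have i1 : ((nrD F l k).range ⊔ (Ray k l M).map (dv k l)).index ≤ p := by
    have : Finite (Dv k l ⧸ ((nrD F l k).range ⊔ (Ray k l M).map (dv k l))) :=
      Nat.finite_of_card_ne_zero i0
    rw [← hG, IsGaloisGroup.card_eq_finrank G k F]
    exact hSI k F l M _ (QuotientAddGroup.mk' _) hl (QuotientAddGroup.mk'_surjective _)
      (fun x hx => (QuotientAddGroup.eq_zero_iff _).2
        (AddSubgroup.mem_sup_right ⟨x, hx, rfl⟩))
      fun D => (QuotientAddGroup.eq_zero_iff _).2 (AddSubgroup.mem_sup_left ⟨D, rfl⟩)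
  obtain ⟨c1, c2, c3⟩ := hLA p (Un F) (Dv F l) (Pl F l →₀ ℤ) (Df σ) (Nm σ p) (Df σ) (Nm σ p)
    (Df σ) (Nm σ p) (dv F l) (dvl F l) U ((Ray k l M).map (Un.inc k F))
    (Df_Nm hs) (Nm_Df hs) (Df_Nm hs) (Nm_Df hs) (map_Df _ ea) (map_Nm _ ea) (map_Df _ eb)
    (map_Nm _ eb) (h1.dvl_surj F l l0) (fun x hx => sub_mem (u1 x hx) hx)
    (fun x hx => Nm_mem u1 hx) (u2.trans kb.ge) (by rw [kb]; exact hrel)
    (ne_zero_of_dvd_ne_zero (Ray_index_ne l0 M0)
      (AddSubgroup.index_dvd_of_le (AddSubgroup.map_mono u3)))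
    (ker_le_range (h2.h1u F G p ⊥ σ hp hn hb hσ))
    (ker_le_range (h2.h1p _ G p ⊥ σ hp.pos hn hb)) (ker_le_range (h2.h1p _ G p ⊥ σ hp.pos hn hb))
    (fun x hx => (u4 x hx.1 hx.2).imp fun y hy => ⟨hy.1, hy.2.symm⟩)
    (by
      rintro _ ⟨x, hx, rfl⟩
      exact ⟨u3 (Ray_anti hM ((h2.inc_Ray k F l M x).2 hx)), kA.ge ⟨x, rfl⟩⟩)
    (fun x hx => by
      obtain ⟨y, -, hy⟩ := u5 M x hx.1 (sub_eq_zero.1 hx.2)
      obtain ⟨z, hz⟩ := kA.le (sub_mem hx.2 (Df_Nm hs y))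
      rw [← add_sub_cancel (Nm σ p y) x]
      exact AddSubgroup.add_mem_sup ⟨y, rfl⟩ ⟨z, (h2.inc_Ray k F l M z).1 (by rw [hz]; exact hy), hz⟩)
    q1 q2 (eI.trans_ne i0) (eI.trans_le i1)
  refine ⟨fun x hx ⟨D, hD⟩ => ?_, eA.symm.trans c3⟩
  obtain ⟨y, hy⟩ := c1 _ ⟨x, hx, rfl⟩ ⟨D, by rw [di, ← hD, ← nI]; rfl⟩
  exact ⟨y, iA ((nA y).trans hy)⟩

/-- A free involution has no even cohomology in the permutation module. -/
theorem hc_one {G X : Type} [Group G] [MulAction G X] (σ : G) (h2 : σ ^ 2 = 1)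
    (hf : ∀ w : X, σ • w ≠ w) : hc (A := X →₀ ℤ) (Df σ) (Nm σ 2) = 1 := by
  classical
  have hi : σ⁻¹ = σ := inv_eq_of_mul_eq_one_right (by rw [← pow_two, h2])
  have hh : ∀ w : X, σ • σ • w = w := fun w => by rw [← mul_smul, ← pow_two, h2, one_smul]
  rw [hc, AddSubgroup.relIndex_eq_one]
  intro D hD
  have hD' : ∀ w, D (σ • w) = D w := fun w => by
    have h0 : σ • D = D := sub_eq_zero.1 (AddMonoidHom.mem_ker.1 hD)
    have := DFunLike.congr_fun h0 w
    rwa [Finsupp.comapSMul_apply, hi] at this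
  refine ⟨D.filter fun w => WellOrderingRel w (σ • w), ?_⟩
  ext w
  rw [Nm_apply, Finset.sum_range_succ, Finset.sum_range_one, pow_zero, one_smul, pow_one,
    Finsupp.add_apply, Finsupp.comapSMul_apply, hi, Finsupp.filter_apply, Finsupp.filter_apply, hh,
    hD']
  rcases trichotomous_of (WellOrderingRel (α := X)) w (σ • w) with h | h | h
  · rw [if_pos h, if_neg (asymm_of WellOrderingRel h), add_zero]
  · exact absurd h.symm (hf w)
  · rw [if_pos h, if_neg (asymm_of WellOrderingRel h), zero_add]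

end HN

theorem rowHN : RowHN := by
  intro k F G _ _ _ _ _ _ _ _ σ hG hσ hr hun hf x hx
  obtain ⟨M, hM⟩ := HN.lay 2 Nat.prime_two k F G σ 2 hG hσ le_rfl hr hun
  obtain ⟨c1, c2⟩ := hM M le_rfl
  rw [HN.hc_one σ (hG ▸ pow_card_eq_one') hf, AddSubgroup.index_eq_one] at c2
  obtain ⟨_, ⟨y, rfl⟩, ρ, hρ, rfl⟩ := AddSubgroup.mem_sup.1 (c2.ge (AddSubgroup.mem_top x))
  refine add_mem ⟨y, rfl⟩ (c1 ρ hρ ?_)
  rw [map_add, H10.rowNT1.dv_nrm] at hx
  exact (add_mem_cancel_left (show _ ∈ (nrD F 2 k).range from ⟨_, rfl⟩)).1 hx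

end Pool.Agent.MP_542436_nt.H96
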