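import Pool.Agent.MP_542436_nt.H96.Spec

/-! The number of ideals of small norm. -/

namespace Pool.Agent.MP_542436_nt.H96.IDL

open NumberField IsDedekindDomain Finset

theorem geom_le {x : ℝ} (h0 : 0 ≤ x) (h1 : x ≤ 1 / 2) (M : ℕ) :
    ∑ k ∈ range M, x ^ k ≤ Real.exp (2 * x) := by
  have h2 : (∑ k ∈ range M, x ^ k) * (1 - x) = 1 - x ^ M := by
    have := geom_sum_mul_neg x M
    linarith
  have h3 : 0 ≤ x ^ M := pow_nonneg h0 M
  have h4 : 2 * x + 1 ≤ Real.exp (2 * x) := Real.add_one_le_exp _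
  have h5 : 0 < 1 - x := by linarith
  have h6 : ∑ k ∈ range M, x ^ k ≤ 2 * x + 1 := by
    refine le_of_mul_le_mul_right ?_ h5
    rw [h2]
    nlinarith
  linarith

theorem multi_le {α : Type*} [DecidableEq α] (S : Finset α) (x : α → ℝ)
    (hx : ∀ a ∈ S, 0 ≤ x a ∧ x a ≤ 1 / 2) (T : Finset (Multiset α))
    (hT : ∀ m ∈ T, m.toFinset ⊆ S) :
    ∑ m ∈ T, (m.map x).prod ≤ Real.exp (2 * ∑ a ∈ S, x a) := by
  classical
  set M : ℕ := T.sup Multiset.card + 1 with hM
  let e : Multiset α → (S → ℕ) := fun m a => m.count a.1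
  let g : (S → ℕ) → ℝ := fun c => ∏ a : S, x a.1 ^ c a
  have h1 : ∀ m ∈ T, (m.map x).prod = g (e m) := by
    intro m hm
    rw [Finset.prod_multiset_map_count]
    show _ = ∏ a : S, x a.1 ^ m.count a.1
    rw [Finset.prod_coe_sort S (fun a => x a ^ m.count a)]
    refine Finset.prod_subset (hT m hm) fun a _ ha => ?_
    rw [Multiset.mem_toFinset] at ha
    rw [Multiset.count_eq_zero_of_notMem ha, pow_zero]
  have h2 : Set.InjOn e T := by
    intro m hm m' hm' h
    ext a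
    by_cases ha : a ∈ S
    · exact congrFun h ⟨a, ha⟩
    · rw [Multiset.count_eq_zero_of_notMem fun h' => ha (hT m hm (Multiset.mem_toFinset.2 h')),
        Multiset.count_eq_zero_of_notMem fun h' => ha (hT m' hm' (Multiset.mem_toFinset.2 h'))]
  have h3 : T.image e ⊆ Fintype.piFinset fun _ : S => range M := by
    intro c hc
    obtain ⟨m, hm, rfl⟩ := Finset.mem_image.1 hc
    rw [Fintype.mem_piFinset]
    intro a
    rw [Finset.mem_range]
    have h4 : m.count a.1 ≤ Multiset.card m := Multiset.count_le_card _ _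
    have h5 : Multiset.card m ≤ T.sup Multiset.card := Finset.le_sup (f := Multiset.card) hm
    show m.count a.1 < M
    omega
  calc ∑ m ∈ T, (m.map x).prod = ∑ m ∈ T, g (e m) := Finset.sum_congr rfl h1
    _ = ∑ c ∈ T.image e, g c := (Finset.sum_image h2).symm
    _ ≤ ∑ c ∈ Fintype.piFinset fun _ : S => range M, g c :=
        Finset.sum_le_sum_of_subset_of_nonneg h3 fun c _ _ =>
          Finset.prod_nonneg fun a _ => pow_nonneg (hx a.1 a.2).1 _
    _ = ∏ a : S, ∑ k ∈ range M, x a.1 ^ k :=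
        (Finset.prod_univ_sum (fun _ : S => range M) (fun a k => x a.1 ^ k)).symm
    _ ≤ ∏ a : S, Real.exp (2 * x a.1) :=
        Finset.prod_le_prod (fun a _ => Finset.sum_nonneg fun k _ => pow_nonneg (hx a.1 a.2).1 _)
          fun a _ => geom_le (hx a.1 a.2).1 (hx a.1 a.2).2 M
    _ = Real.exp (2 * ∑ a ∈ S, x a) := by
        rw [← Real.exp_sum, Finset.sum_coe_sort S (fun a => 2 * x a), Finset.mul_sum]

theorem sum_inv_sq_le (T : Finset ℕ) (hT : ∀ n ∈ T, 2 ≤ n) :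
    ∑ n ∈ T, (((n : ℝ)) ^ 2)⁻¹ ≤ 1 := by
  have h1 : T ⊆ Ioc 1 (T.sup id + 1) := by
    intro n hn
    have h2 : n ≤ T.sup id := Finset.le_sup (f := id) hn
    have h3 := hT n hn
    rw [Finset.mem_Ioc]
    omega
  have h2 := sum_Ioc_inv_sq_le_sub (α := ℝ) (k := 1) (n := T.sup id + 1) one_ne_zero (by omega)
  have h3 : (0 : ℝ) ≤ (((T.sup id + 1 : ℕ) : ℝ))⁻¹ := by positivity
  have h4 : ∑ n ∈ T, (((n : ℝ)) ^ 2)⁻¹ ≤ ∑ n ∈ Ioc 1 (T.sup id + 1), (((n : ℝ)) ^ 2)⁻¹ :=
    Finset.sum_le_sum_of_subset_of_nonneg h1 fun n _ _ => by positivity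
  rw [Nat.cast_one, inv_one] at h2
  linarith

variable {K : Type} [Field K] [NumberField K]

theorem und_prime {P : Ideal (𝓞 K)} (hP : P.IsPrime) (h0 : P ≠ ⊥) :
    (Ideal.absNorm (P.under ℤ)).Prime := by
  haveI : NeZero P := ⟨h0⟩
  exact Nat.absNorm_under_prime P

theorem und_le {P : Ideal (𝓞 K)} (h0 : P ≠ ⊥) :
    Ideal.absNorm (P.under ℤ) ≤ Ideal.absNorm P :=
  Nat.le_of_dvd (Nat.pos_of_ne_zero (Ideal.absNorm_eq_zero_iff.not.2 h0))
    (Int.absNorm_under_dvd_absNorm P)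

theorem fibre_le (S : Finset (Ideal (𝓞 K))) (hS : ∀ P ∈ S, P.IsPrime) {p : ℕ} (hp : p.Prime) :
    (S.filter fun P => Ideal.absNorm (P.under ℤ) = p).card ≤ Module.finrank ℚ K := by
  classical
  have hp0 : Ideal.span {(p : ℤ)} ≠ ⊥ := by
    rw [Ne, Ideal.span_singleton_eq_bot]
    exact_mod_cast hp.ne_zero
  haveI : (Ideal.span {(p : ℤ)}).IsPrime :=
    (Ideal.span_singleton_prime (by exact_mod_cast hp.ne_zero)).2 (Nat.prime_iff_prime_int.1 hp)
  haveI : (Ideal.span {(p : ℤ)}).IsMaximal := Ring.DimensionLEOne.maximalOfPrime hp0 inferInstance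
  refine le_trans (Finset.card_le_card ?_)
    (Ideal.card_primesOverFinset_le_finrank (𝓞 K) ℚ K hp0)
  intro P hP
  rw [Finset.mem_filter] at hP
  rw [IsDedekindDomain.mem_primesOverFinset_iff hp0]
  refine ⟨hS P hP.1, ?_⟩
  rw [← hP.2]
  infer_instance

theorem sum_primes_le (S : Finset (Ideal (𝓞 K))) (hS : ∀ P ∈ S, P.IsPrime ∧ P ≠ ⊥) :
    ∑ P ∈ S, (((Ideal.absNorm P : ℝ)) ^ 2)⁻¹ ≤ Module.finrank ℚ K := by
  classical
  let u : Ideal (𝓞 K) → ℕ := fun P => Ideal.absNorm (P.under ℤ)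
  have hu : ∀ P ∈ S, (u P).Prime := fun P hP => und_prime (hS P hP).1 (hS P hP).2
  calc ∑ P ∈ S, (((Ideal.absNorm P : ℝ)) ^ 2)⁻¹ ≤ ∑ P ∈ S, (((u P : ℝ)) ^ 2)⁻¹ := by
        refine Finset.sum_le_sum fun P hP => ?_
        have h1 : (0 : ℝ) < u P := by exact_mod_cast (hu P hP).pos
        have h2 : (u P : ℝ) ≤ Ideal.absNorm P := by exact_mod_cast und_le (hS P hP).2
        gcongr
    _ = ∑ n ∈ S.image u, (S.filter fun P => u P = n).card • (((n : ℝ)) ^ 2)⁻¹ :=
        Finset.sum_comp (fun n : ℕ => (((n : ℝ)) ^ 2)⁻¹) u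
    _ ≤ ∑ n ∈ S.image u, (Module.finrank ℚ K : ℝ) * (((n : ℝ)) ^ 2)⁻¹ := by
        refine Finset.sum_le_sum fun n hn => ?_
        obtain ⟨P, hP, rfl⟩ := Finset.mem_image.1 hn
        rw [nsmul_eq_mul]
        have h1 := fibre_le S (fun P hP => (hS P hP).1) (hu P hP)
        have h2 : (((S.filter fun Q => u Q = u P).card : ℕ) : ℝ) ≤ Module.finrank ℚ K := by
          exact_mod_cast h1
        gcongr
    _ ≤ Module.finrank ℚ K := by
        rw [← Finset.mul_sum]
        refine mul_le_of_le_one_right (by positivity) (sum_inv_sq_le _ fun n hn => ?_)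
        obtain ⟨P, hP, rfl⟩ := Finset.mem_image.1 hn
        exact (hu P hP).two_le

open UniqueFactorizationMonoid in
theorem sum_ideals_le (F : Finset (Ideal (𝓞 K))) (hF : ∀ I ∈ F, I ≠ ⊥) :
    ∑ I ∈ F, (((Ideal.absNorm I : ℝ)) ^ 2)⁻¹ ≤ Real.exp (2 * Module.finrank ℚ K) := by
  classical
  let x : Ideal (𝓞 K) → ℝ := fun P => (((Ideal.absNorm P : ℝ)) ^ 2)⁻¹
  let S : Finset (Ideal (𝓞 K)) := F.biUnion fun I => (normalizedFactors I).toFinset
  have hS : ∀ P ∈ S, P.IsPrime ∧ P ≠ ⊥ := by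
    intro P hP
    obtain ⟨I, -, hI⟩ := Finset.mem_biUnion.1 hP
    have h1 := prime_of_normalized_factor P (Multiset.mem_toFinset.1 hI)
    exact ⟨Ideal.isPrime_of_prime h1, h1.ne_zero⟩
  have hx : ∀ P ∈ S, 0 ≤ x P ∧ x P ≤ 1 / 2 := by
    intro P hP
    refine ⟨by positivity, ?_⟩
    have h1 : 2 ≤ Ideal.absNorm P :=
      (und_prime (hS P hP).1 (hS P hP).2).two_le.trans (und_le (hS P hP).2)
    have h2 : (2 : ℝ) ≤ Ideal.absNorm P := by exact_mod_cast h1
    show (((Ideal.absNorm P : ℝ)) ^ 2)⁻¹ ≤ 1 / 2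
    rw [one_div]
    refine inv_anti₀ (by norm_num) ?_
    nlinarith
  have hm : ∀ m : Multiset (Ideal (𝓞 K)), x m.prod = (m.map x).prod := by
    intro m
    induction m using Multiset.induction_on with
    | empty => simp [x]
    | cons a m ih =>
      rw [Multiset.prod_cons, Multiset.map_cons, Multiset.prod_cons, ← ih]
      simp only [x, map_mul, Nat.cast_mul, mul_pow, mul_inv]
  have hp : ∀ I ∈ F, (normalizedFactors I).prod = I := fun I hI =>
    Ideal.prod_normalizedFactors_eq_self (hF I hI)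
  have hinj : Set.InjOn (fun I : Ideal (𝓞 K) => normalizedFactors I) F := by
    intro I hI J hJ h
    rw [← hp I hI, ← hp J hJ]
    exact congrArg Multiset.prod h
  calc ∑ I ∈ F, x I = ∑ I ∈ F, ((normalizedFactors I).map x).prod :=
        Finset.sum_congr rfl fun I hI => by rw [← hm, hp I hI]
    _ = ∑ m ∈ F.image fun I => normalizedFactors I, (m.map x).prod :=
        (Finset.sum_image (f := fun m : Multiset (Ideal (𝓞 K)) => (m.map x).prod) hinj).symm
    _ ≤ Real.exp (2 * ∑ P ∈ S, x P) := by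
        refine multi_le S x hx _ fun m hm => ?_
        obtain ⟨I, hI, rfl⟩ := Finset.mem_image.1 hm
        exact Finset.subset_biUnion_of_mem (fun I => (normalizedFactors I).toFinset) hI
    _ ≤ Real.exp (2 * Module.finrank ℚ K) := by
        have := sum_primes_le S hS
        gcongr

end Pool.Agent.MP_542436_nt.H96.IDL

namespace Pool.Agent.MP_542436_nt.H96

open NumberField

theorem rowIDL : RowIDL := by
  intro K _ _ F Y h
  have h1 := IDL.sum_ideals_le F fun I hI => (h I hI).1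
  calc (F.card : ℝ) = ∑ _I ∈ F, (1 : ℝ) := by simp
    _ ≤ ∑ I ∈ F, Y ^ 2 * (((Ideal.absNorm I : ℝ)) ^ 2)⁻¹ := by
        refine Finset.sum_le_sum fun I hI => ?_
        have h2 : (0 : ℝ) < Ideal.absNorm I := by
          exact_mod_cast Nat.pos_of_ne_zero (Ideal.absNorm_eq_zero_iff.not.2 (h I hI).1)
        have h3 := (h I hI).2
        rw [← div_eq_mul_inv, le_div_iff₀ (by positivity), one_mul]
        gcongr
    _ = Y ^ 2 * ∑ I ∈ F, (((Ideal.absNorm I : ℝ)) ^ 2)⁻¹ := by rw [Finset.mul_sum]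
    _ ≤ Y ^ 2 * Real.exp (2 * Module.finrank ℚ K) := by gcongr

end Pool.Agent.MP_542436_nt.H96
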