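import Pool.Agent.MP_542436_nt.H96.Spec

/-! Four small index bounds. -/

namespace Pool.Agent.MP_542436_nt.H96.IDX

open NumberField Polynomial Pool.Agent.MP_db5b97_nt.H85

theorem idx {A B : Type} [AddCommGroup A] [Finite B] (U H : AddSubgroup A) (f : H → B)
    (hf : ∀ x y : H, f x = f y → (x : A) - y ∈ U) :
    U.relIndex H ≠ 0 ∧ U.relIndex H ≤ Nat.card B := by
  have hinj : Function.Injective fun q : H ⧸ U.addSubgroupOf H => f q.out := by
    intro q q' h
    rw [← QuotientAddGroup.out_eq' q, ← QuotientAddGroup.out_eq' q', QuotientAddGroup.eq,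
      AddSubgroup.mem_addSubgroupOf]
    have := hf _ _ h.symm
    rw [sub_eq_neg_add] at this
    simpa using this
  have : Finite (H ⧸ U.addSubgroupOf H) := Finite.of_injective _ hinj
  exact ⟨Nat.card_pos.ne', Nat.card_le_card_of_injective _ hinj⟩

section Kummer

variable {k L : Type} [Field k] [Field L] [Algebra k L]

theorem pm {y : L} {a : k} (h : y ^ 2 = algebraMap k L a) (s : L ≃ₐ[k] L) :
    s y = y ∨ s y = -y := by
  apply eq_or_eq_neg_of_sq_eq_sq
  rw [← map_pow, h, AlgEquiv.commutes]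

open Classical in
/-- the character attached to a square root -/
noncomputable def chi [CharZero L] {y : L} {a : k} (hy : y ≠ 0) (h : y ^ 2 = algebraMap k L a) :
    (L ≃ₐ[k] L) →* ℤˣ where
  toFun s := if s y = y then 1 else -1
  map_one' := by simp
  map_mul' s t := by
    have hne : -y ≠ y := fun e => hy (neg_eq_self.1 e)
    rcases pm h s with hs | hs <;> rcases pm h t with ht | ht <;>
      simp [AlgEquiv.mul_apply, hs, ht, hne]

theorem chi_eq [CharZero L] {y y' : L} {a a' : k} (hy : y ≠ 0) (h : y ^ 2 = algebraMap k L a)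
    (hy' : y' ≠ 0) (h' : y' ^ 2 = algebraMap k L a') (e : chi hy h = chi hy' h')
    (s : L ≃ₐ[k] L) : s (y / y') = y / y' := by
  have e1 := DFunLike.congr_fun e s
  simp only [chi, MonoidHom.coe_mk, OneHom.coe_mk] at e1
  rw [map_div₀]
  by_cases hs : s y = y
  · by_cases hs' : s y' = y'
    · rw [hs, hs']
    · rw [if_pos hs, if_neg hs'] at e1
      exact absurd e1 (by decide)
  · by_cases hs' : s y' = y'
    · rw [if_neg hs, if_pos hs'] at e1
      exact absurd e1 (by decide)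
    · rw [(pm h s).resolve_left hs, (pm h' s).resolve_left hs', neg_div_neg_eq]

end Kummer

theorem kum (k L : Type) [Field k] [NumberField k] [Field L] [NumberField L] [Algebra k L]
    [IsGalois k L] : (Sq k).relIndex ((Sq L).comap (Un.inc k L)) ≠ 0 ∧
      (Sq k).relIndex ((Sq L).comap (Un.inc k L)) ≤ Nat.card ((L ≃ₐ[k] L) →* ℤˣ) := by
  have hx : ∀ x : (Sq L).comap (Un.inc k L), ∃ y : L, y ≠ 0 ∧
      y ^ 2 = algebraMap k L (x : Un k).val := by
    intro x
    obtain ⟨y, hy⟩ := mem_Sq.1 x.2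
    refine ⟨y.val, y.val_ne, ?_⟩
    have := congrArg Un.val hy
    simpa using this
  choose y hy0 hy using hx
  have : Finite ((L ≃ₐ[k] L) →* ℤˣ) := Finite.of_injective _ DFunLike.coe_injective
  refine idx _ _ (fun x => chi (hy0 x) (hy x)) fun x x' e => ?_
  obtain ⟨z, hz⟩ := (IsGalois.mem_range_algebraMap_iff_fixed (F := k) (y x / y x')).2
    (chi_eq _ _ _ _ e)
  have hz0 : z ≠ 0 := by
    rintro rfl
    rw [map_zero] at hz
    exact div_ne_zero (hy0 x) (hy0 x') hz.symm
  refine mem_Sq.2 ⟨Un.mk z hz0, Un.ext ?_⟩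
  apply (algebraMap k L).injective
  simp only [Un.val_nsmul, Un.val_mk, Un.val_sub, map_pow, map_div₀, hz, div_pow, hy]

theorem sgn (k L : Type) [Field k] [NumberField k] [Field L] [NumberField L] [Algebra k L]
    [IsGalois k L] : (Pos L).relIndex (Ivt k L) ≠ 0 ∧
      (Pos L).relIndex (Ivt k L) ≤ 2 ^ Module.finrank ℚ k := by
  classical
  have hinj : Function.Injective fun ψ : k →+* ℝ => Complex.ofRealHom.comp ψ := by
    intro ψ ψ' h
    ext x
    have := DFunLike.congr_fun h x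
    simpa using this
  have : Finite (k →+* ℝ) := Finite.of_injective _ hinj
  have hc : Nat.card (k →+* ℝ) ≤ Module.finrank ℚ k := by
    rw [← Embeddings.card k ℂ, ← Nat.card_eq_fintype_card]
    exact Nat.card_le_card_of_injective _ hinj
  have key := idx (Pos L) (Ivt k L)
    (fun x (ψ : k →+* ℝ) => if h : ∃ φ : L →+* ℝ, φ.comp (algebraMap k L) = ψ then
      decide (0 < h.choose (x : Un L).val) else true) fun x y e φ => by
    have h : ∃ φ' : L →+* ℝ, φ'.comp (algebraMap k L) = φ.comp (algebraMap k L) := ⟨φ, rfl⟩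
    have e1 := congrFun e (φ.comp (algebraMap k L))
    simp only [dif_pos h, decide_eq_decide] at e1
    obtain ⟨s, hs⟩ := ComplexEmbedding.exists_comp_symm_eq_of_comp_eq (k := k)
      (Complex.ofRealHom.comp h.choose) (Complex.ofRealHom.comp φ)
      (by rw [RingHom.comp_assoc, h.choose_spec, RingHom.comp_assoc])
    have hs' : ∀ w : L, φ w = h.choose (s.symm w) := fun w => by
      have := DFunLike.congr_fun hs w
      simpa using this.symm
    obtain ⟨z, hz⟩ := mem_Sq.1 ((sub_mem x.2 y.2 : (x : Un L) - y ∈ Ivt k L) s.symm)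
    have hz' := congrArg Un.val hz
    rw [Un.val_nsmul, Un.val_sub, Un.val_smul, eq_div_iff (Un.val_ne _)] at hz'
    have hx0 : h.choose (x : Un L).val ≠ 0 := by simp
    have hy0 : h.choose (y : Un L).val ≠ 0 := by simp
    have hz0 : h.choose z.val ≠ 0 := by simp
    rw [hs', show s.symm ((x : Un L) - y).val = s.symm • ((x : Un L) - y).val from rfl, ← hz',
      map_mul, map_pow, Un.val_sub, map_div₀]
    refine mul_pos (by positivity) ?_
    by_cases hp : 0 < h.choose (x : Un L).val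
    · exact div_pos hp (e1.1 hp)
    · exact div_pos_of_neg_of_neg (lt_of_le_of_ne (not_lt.1 hp) hx0)
        (lt_of_le_of_ne (not_lt.1 fun h' => hp (e1.2 h')) hy0)
  refine ⟨key.1, key.2.trans ?_⟩
  rw [Nat.card_fun, Nat.card_eq_fintype_card, Fintype.card_bool]
  exact Nat.pow_le_pow_right (by norm_num) hc

section Padic

variable {p : ℕ} [Fact p.Prime]

theorem toZMod_eq_zero (x : ℤ_[p]) : PadicInt.toZMod x = 0 ↔ ‖x‖ < 1 := by
  rw [← RingHom.mem_ker, PadicInt.ker_toZMod, IsLocalRing.mem_maximalIdeal, PadicInt.mem_nonunits]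

theorem hensel (hp : p ≠ 2) (w : ℤ_[p]) (h0 : PadicInt.toZMod w ≠ 0)
    (h : IsSquare (PadicInt.toZMod w)) : IsSquare w := by
  obtain ⟨c, hc⟩ := h
  obtain ⟨a, rfl⟩ := ZMod.ringHom_surjective (PadicInt.toZMod (p := p)) c
  have ha : PadicInt.toZMod a ≠ 0 := fun e => h0 (by rw [hc, e, mul_zero])
  have h2 : (2 : ZMod p) ≠ 0 := by
    intro e
    have : ((2 : ℕ) : ZMod p) = 0 := by exact_mod_cast e
    rw [ZMod.natCast_eq_zero_iff] at this
    exact hp ((Nat.prime_dvd_prime_iff_eq Fact.out Nat.prime_two).1 this)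
  have n1 : ‖a ^ 2 - w‖ < 1 := by
    rw [← toZMod_eq_zero, map_sub, map_pow, hc, sq, sub_self]
  have n2 : ‖2 * a‖ = 1 := by
    refine le_antisymm (PadicInt.norm_le_one _) (not_lt.1 fun e => ?_)
    rw [← toZMod_eq_zero, map_mul, map_ofNat] at e
    exact mul_ne_zero h2 ha e
  obtain ⟨z, hz, -⟩ := hensels_lemma (p := p) (F := (X ^ 2 - C w : ℤ_[p][X])) (a := a) (by
    have e : aeval a (derivative (X ^ 2 - C w : ℤ_[p][X])) = 2 * a := by
      simp [one_add_one_eq_two]
    rw [e, n2]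
    simpa using n1)
  refine ⟨z, ?_⟩
  have : z ^ 2 - w = 0 := by simpa using hz
  rw [← sq, ← sub_eq_zero.1 this]

theorem dec (a : ℚ_[p]) (ha : a ≠ 0) :
    ∃ (v : ℤ) (u : ℤ_[p]), PadicInt.toZMod u ≠ 0 ∧ a = (p : ℚ_[p]) ^ v * u := by
  have hp : (p : ℝ) ≠ 0 := by exact_mod_cast (Fact.out : p.Prime).ne_zero
  have hp' : (p : ℚ_[p]) ≠ 0 := by exact_mod_cast (Fact.out : p.Prime).ne_zero
  have n : ‖a * (p : ℚ_[p]) ^ (-a.valuation)‖ = 1 := by
    rw [norm_mul, Padic.norm_eq_zpow_neg_valuation ha, Padic.norm_p_zpow, neg_neg, ← zpow_add₀ hp,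
      neg_add_cancel, zpow_zero]
  refine ⟨a.valuation, ⟨_, n.le⟩, fun e => ?_, ?_⟩
  · exact absurd n ((toZMod_eq_zero (p := p) ⟨_, n.le⟩).1 e).ne
  · show a = _ * (a * _)
    rw [mul_left_comm, ← zpow_add₀ hp', add_neg_cancel, zpow_zero, mul_one]

theorem sq_mul {c d : ZMod p} (hc : c ≠ 0) (hd : d ≠ 0) (h : IsSquare c ↔ IsSquare d) :
    IsSquare (c * d) := by
  rw [← quadraticChar_one_iff_isSquare (mul_ne_zero hc hd), map_mul]
  by_cases h1 : IsSquare c
  · rw [(quadraticChar_one_iff_isSquare hc).2 h1, (quadraticChar_one_iff_isSquare hd).2 (h.1 h1),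
      mul_one]
  · rw [quadraticChar_neg_one_iff_not_isSquare.2 h1,
      quadraticChar_neg_one_iff_not_isSquare.2 fun h2 => h1 (h.2 h2)]
    norm_num

end Padic

theorem psq (p : ℕ) [Fact p.Prime] (L : Type) [Field L] (ι : L →+* ℚ_[p]) (hp : p ≠ 2) :
    (PSq ι).index ≠ 0 ∧ (PSq ι).index ≤ 4 := by
  classical
  have hp' : (p : ℚ_[p]) ≠ 0 := by exact_mod_cast (Fact.out : p.Prime).ne_zero
  choose v u hu ha using fun x : Un L => dec (ι x.val) (by simp)
  have key := idx (PSq ι) ⊤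
    (fun x => (decide (Even (v x)), decide (IsSquare (PadicInt.toZMod (u x))))) fun x y e => by
    simp only [Prod.mk.injEq, decide_eq_decide] at e
    obtain ⟨m, hm⟩ : Even (v x + v y) := Int.even_add.2 e.1
    obtain ⟨z, hz⟩ := hensel hp (u x * u y) (by rw [map_mul]; exact mul_ne_zero (hu _) (hu _))
      (by rw [map_mul]; exact sq_mul (hu _) (hu _) e.2)
    have hy0 : ι (y : Un L).val ≠ 0 := by simp
    have hz' : ((u x : ℤ_[p]) : ℚ_[p]) * u y = z * z := by exact_mod_cast congrArg Subtype.val hz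
    have hxy : ι (x : Un L).val * ι (y : Un L).val =
        ((p : ℚ_[p]) ^ m * z) * ((p : ℚ_[p]) ^ m * z) := by
      rw [ha x, ha y, mul_mul_mul_comm, ← zpow_add₀ hp', hm, zpow_add₀ hp', hz', mul_mul_mul_comm]
    refine ⟨(p : ℚ_[p]) ^ m * z / ι (y : Un L).val, ?_⟩
    rw [Un.val_sub, map_div₀, div_mul_div_comm, ← hxy]
    field_simp
  rw [AddSubgroup.relIndex_top_right] at key
  refine ⟨key.1, key.2.trans ?_⟩
  simp

theorem hen (p : ℕ) [Fact p.Prime] (a : ℤ) (hp : p ≠ 2) (h0 : (a : ZMod p) ≠ 0)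
    (h : IsSquare (a : ZMod p)) : IsSquare (a : ℚ_[p]) := by
  obtain ⟨z, hz⟩ := hensel hp (a : ℤ_[p]) (by simpa using h0) (by simpa using h)
  exact ⟨z, by exact_mod_cast congrArg Subtype.val hz⟩

end Pool.Agent.MP_542436_nt.H96.IDX

/-- the small index computations -/
theorem Pool.Agent.MP_542436_nt.H96.rowIDX : Pool.Agent.MP_542436_nt.H96.RowIDX where
  kum := Pool.Agent.MP_542436_nt.H96.IDX.kum
  sgn := fun k L _ _ _ _ _ _ _ => Pool.Agent.MP_542436_nt.H96.IDX.sgn k L
  psq := Pool.Agent.MP_542436_nt.H96.IDX.psq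
  hen := Pool.Agent.MP_542436_nt.H96.IDX.hen
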