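import Pool.Agent.MP_542436_nt.H96.Spec
import Pool.Agent.MP_db5b97_nt.H21.NT2

/-! Invariant characters of the relation module give invariant classes modulo squares. -/

namespace Pool.Agent.MP_542436_nt.H96

namespace INJ

open NumberField Pool.Agent.MP_db5b97_nt.H85

variable {k L : Type} [Field k] [Field L] [Algebra k L]

theorem sign_of_two {x : Un L} (h : 2 • x = 0) : x.val = 1 ∨ x.val = -1 := by
  have h1 : x.val ^ 2 = 1 := by
    rw [← Un.val_nsmul, h, Un.val_zero]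
  exact sq_eq_one_iff.1 h1

theorem smul_of_two (s : L ≃ₐ[k] L) {x : Un L} (h : 2 • x = 0) : s • x = x := by
  apply Un.ext
  rw [Un.val_smul]
  rcases sign_of_two h with h1 | h1 <;> rw [h1]
  · exact smul_one s
  · rw [smul_neg, smul_one]

theorem two_of_sign (u : ℤˣ) {x : Un L} (h : x.val = ((u : ℤ) : L)) : 2 • x = 0 := by
  apply Un.ext
  rw [Un.val_nsmul, h, Un.val_zero]
  rcases Int.units_eq_one_or u with rfl | rfl <;> simp

theorem exists_mu [FiniteDimensional k L] {E : Type} [Group E] (π : E →* (L ≃ₐ[k] L))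
    (hπ : Function.Surjective π) (β : E → Un L) (hβ : ∀ a b, β (a * b) = β a + π a • β b)
    (h2 : ∀ x : π.ker, 2 • β x = 0) : ∃ μ : Un L, ∀ e, 2 • β e = π e • μ - μ := by
  have key : ∀ a b, π a = π b → 2 • β a = 2 • β b := by
    intro a b hab
    have hx : a * b⁻¹ ∈ π.ker := by
      rw [MonoidHom.mem_ker, map_mul, map_inv, hab, mul_inv_cancel]
    have h1 := hβ (a * b⁻¹) b
    rw [inv_mul_cancel_right, MonoidHom.mem_ker.1 hx, one_smul] at h1
    rw [h1, nsmul_add, h2 ⟨_, hx⟩, zero_add]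
  obtain ⟨μ, hμ⟩ := rowNT2.h90 L (L ≃ₐ[k] L) ⊤ (fun g => 2 • β (Function.surjInv hπ g)) (by
    intro s _ t _
    have h1 := key (Function.surjInv hπ (s * t)) (Function.surjInv hπ s * Function.surjInv hπ t)
      (by rw [map_mul, Function.surjInv_eq hπ, Function.surjInv_eq hπ, Function.surjInv_eq hπ])
    rw [h1, hβ, Function.surjInv_eq hπ, nsmul_add, smul_comm])
  refine ⟨μ, fun e => ?_⟩
  rw [← hμ (π e) (Subgroup.mem_top _)]
  exact key _ _ (Function.surjInv_eq hπ _).symm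

theorem mem_Ivt {E : Type} [Group E] (π : E →* (L ≃ₐ[k] L))
    (hπ : Function.Surjective π) (β : E → Un L) (μ : Un L) (h : ∀ e, 2 • β e = π e • μ - μ) :
    μ ∈ Ivt k L := by
  intro s
  obtain ⟨e, rfl⟩ := hπ s
  exact mem_Sq.2 ⟨β e, h e⟩

theorem smul_inc (s : L ≃ₐ[k] L) (a : Un k) : s • Un.inc k L a = Un.inc k L a := by
  apply Un.ext
  rw [Un.val_smul, Un.val_inc]
  exact s.commutes a.val

theorem cast_inj [CharZero L] {u v : ℤˣ} (h : ((u : ℤ) : L) = ((v : ℤ) : L)) : u = v :=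
  Units.ext (Int.cast_injective h)

/-- a cocycle killed by two is a character -/
theorem exists_char [CharZero L] {E : Type} [Group E] (π : E →* (L ≃ₐ[k] L)) (χ : E → Un L)
    (hχ : ∀ a b, χ (a * b) = χ a + π a • χ b) (h2 : ∀ e, 2 • χ e = 0) :
    ∃ c : E →* ℤˣ, ∀ e, ((c e : ℤ) : L) = (χ e).val := by
  have h1 : ∀ e, ∃ u : ℤˣ, ((u : ℤ) : L) = (χ e).val := by
    intro e
    rcases sign_of_two (h2 e) with h | h
    · exact ⟨1, by rw [h]; simp⟩
    · exact ⟨-1, by rw [h]; simp⟩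
  choose c hc using h1
  refine ⟨MonoidHom.mk' c ?_, hc⟩
  intro a b
  apply cast_inj (L := L)
  rw [hc, hχ, smul_of_two _ (h2 b), Un.val_add, Units.val_mul, Int.cast_mul, hc, hc]

theorem inj [CharZero L] {E : Type} [Group E] (π : E →* (L ≃ₐ[k] L))
    (hE : ∀ χ : E →* ℤˣ, ∀ x ∈ π.ker, χ x = 1) (φ ψ : π.ker →* ℤˣ) (β γ : E → Un L)
    (hβ : ∀ a b, β (a * b) = β a + π a • β b) (hγ : ∀ a b, γ (a * b) = γ a + π a • γ b)
    (hφ : ∀ x : π.ker, (β x).val = ((φ x : ℤ) : L))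
    (hψ : ∀ x : π.ker, (γ x).val = ((ψ x : ℤ) : L)) (μ ν : Un L)
    (hμ : ∀ e, 2 • β e = π e • μ - μ) (hν : ∀ e, 2 • γ e = π e • ν - ν)
    (h : -μ + ν ∈ (Un.inc k L).range ⊔ Sq L) : φ = ψ := by
  obtain ⟨y, ⟨a, rfl⟩, z, hz, hyz⟩ := AddSubgroup.mem_sup.1 h
  obtain ⟨w, rfl⟩ := mem_Sq.1 hz
  have hν' : ν = μ + (Un.inc k L a + 2 • w) := by rw [hyz]; abel
  obtain ⟨c, hc⟩ := exists_char π (fun e => γ e - β e - (π e • w - w)) (by
    intro x y
    simp only [hβ, hγ, map_mul, mul_smul, smul_sub]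
    abel) (by
    intro e
    simp only [nsmul_sub, hμ, hν]
    rw [hν', smul_add, smul_add, smul_inc, smul_comm (π e) 2 w]
    abel)
  ext x
  have h1 := hc x
  rw [hE c x x.2, MonoidHom.mem_ker.1 x.2, one_smul, sub_self, sub_zero, Un.val_sub, hφ, hψ] at h1
  have h0 : ((φ x : ℤ) : L) ≠ 0 := by
    rw [← hφ]
    exact Un.val_ne _
  have h2 : ((φ x : ℤ) : L) = ((ψ x : ℤ) : L) := by
    rw [eq_div_iff h0] at h1
    simpa using h1
  rw [cast_inj h2]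

end INJ

open NumberField Pool.Agent.MP_db5b97_nt.H85 in
theorem rowINJ : RowEXT → RowGS → RowINJ := by
  intro hEXT hGS k L _ _ _ _ _ hG
  have := hG.gal
  obtain ⟨j, hj⟩ := hG.two
  have hp : IsPGroup 2 (L ≃ₐ[k] L) := IsPGroup.of_card (n := j) (by
    rw [IsGalois.card_aut_eq_finrank, hj])
  obtain ⟨d, r, hd, hr, E, _, π, hπ, hE, Φ, hΦ, hinv⟩ := hGS _ hp
  refine ⟨d, r, hd, hr, fun hne => hΦ.trans ?_⟩
  have h1 : ∀ φ : Φ, ∃ (β : E → Un L) (μ : Ivt k L), (∀ a b, β (a * b) = β a + π a • β b) ∧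
      (∀ x : π.ker, (β x).val = ((φ.1 x : ℤ) : L)) ∧ ∀ e, 2 • β e = π e • μ.1 - μ.1 := by
    intro φ
    obtain ⟨β, hβ, hφ⟩ := hEXT k L hG E π φ.1 hπ (hinv φ.1 φ.2)
    obtain ⟨μ, hμ⟩ := INJ.exists_mu π hπ β hβ (fun x => INJ.two_of_sign _ (hφ x))
    exact ⟨β, ⟨μ, INJ.mem_Ivt π hπ β μ hμ⟩, hβ, hφ, hμ⟩
  choose β μ hβ hφ hμ using h1
  have : Finite (Ivt k L ⧸ ((Un.inc k L).range ⊔ Sq L).addSubgroupOf (Ivt k L)) :=
    Nat.finite_of_card_ne_zero hne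
  have h2 : Function.Injective (fun φ : Φ => (QuotientAddGroup.mk (μ φ) :
      Ivt k L ⧸ ((Un.inc k L).range ⊔ Sq L).addSubgroupOf (Ivt k L))) := by
    intro φ ψ h
    have h3 := QuotientAddGroup.eq.1 h
    rw [AddSubgroup.mem_addSubgroupOf] at h3
    exact Subtype.ext (INJ.inj π hE φ.1 ψ.1 (β φ) (β ψ) (hβ φ) (hβ ψ) (hφ φ) (hφ ψ) (μ φ).1 (μ ψ).1
      (hμ φ) (hμ ψ) h3)
  have h4 := Nat.card_le_card_of_injective _ h2
  rw [Nat.card_eq_fintype_card, Fintype.card_coe] at h4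
  exact h4

end Pool.Agent.MP_542436_nt.H96
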