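import Pool.Agent.MP_542436_nt.H96.Spec
import Pool.Agent.MP_db5b97_nt.H21.NT2

/-! The next radicand exists: index bookkeeping. -/

namespace Pool.Agent.MP_542436_nt.H96

open NumberField Pool.Agent.MP_db5b97_nt.H85 AddSubgroup

namespace MU

section

variable {A A' : Type} [AddCommGroup A] [AddCommGroup A']

/-- the relative index is finite and at most `n` -/
def B (U W : AddSubgroup A) (n : ℕ) : Prop := U.relIndex W ≠ 0 ∧ U.relIndex W ≤ n

variable {U V W : AddSubgroup A} {m n : ℕ}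

lemma B.right (h : B U W n) (h' : V ≤ W) : B U V n :=
  ⟨mt (relIndex_eq_zero_of_le_right h') h.1, (relIndex_le_of_le_right h' h.1).trans h.2⟩

lemma B.left (h : B U W n) (h' : U ≤ V) : B V W n :=
  ⟨mt (relIndex_eq_zero_of_le_left h') h.1, (relIndex_le_of_le_left h' h.1).trans h.2⟩

lemma B.inf (h : B U W m) (h' : B V W n) : B (U ⊓ V) W (m * n) :=
  ⟨relIndex_inf_ne_zero h.1 h'.1, relIndex_inf_le.trans (Nat.mul_le_mul h.2 h'.2)⟩

lemma B.trans (h : B U V m) (h' : B V W n) : B U W (m * n) := by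
  have h1 := h.right (inf_le_left : V ⊓ W ≤ V)
  refine B.left (U := U ⊓ V) ?_ inf_le_left
  rw [B, ← relIndex_inf_mul_relIndex]
  exact ⟨mul_ne_zero h1.1 h'.1, Nat.mul_le_mul h1.2 h'.2⟩

lemma B.sup (h : B U W n) : B U (W ⊔ U) n := by
  rwa [B, relIndex_sup_right]

lemma B.self (h : B U W n) : B (U ⊓ W) W n := by
  rwa [B, inf_relIndex_right]

lemma B.top (h : U.index ≠ 0 ∧ U.index ≤ n) : B U ⊤ n := by
  rwa [B, relIndex_top_right]

lemma B_comap (f : A' →+ A) (K : AddSubgroup A') : B (U.comap f) K n ↔ B U (K.map f) n := by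
  rw [B, B, relIndex_comap]

end

variable {k L : Type} [Field k] [NumberField k] [Field L] [NumberField L] [Algebra k L]

omit [NumberField k] [NumberField L] in
lemma inc_Ivt (x : Un k) : Un.inc k L x ∈ Ivt k L := fun s => by
  have : s • Un.inc k L x = Un.inc k L x := Un.ext (s.commutes x.val)
  rw [this, sub_self]
  exact zero_mem _

lemma inc_Ev {x : Un k} (h : x ∈ Ev k) : Un.inc k L x ∈ Ev L := fun w => by
  rw [rowNT2.ord_inc]
  exact (h (w.und k)).mul_left _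

lemma inc_Dy : Dy k ≤ (Dy L).comap (Un.inc k L) := by
  refine sup_le ?_ fun x hx => mem_sup_right ((rowNT2.inc_Ray k L 2 3 x).2 hx)
  rintro _ ⟨y, rfl⟩
  exact mem_sup_left ⟨Un.inc k L y, (map_nsmul _ _ _).symm⟩

end MU

open MU in
theorem rowMU : RowINJ → RowIDX → RowDY → RowCL → RowMU := by
  intro hinj hidx hdy hcl p _ k L _ _ _ _ _ ι hp hk hg hd
  by_contra hno
  have := hg.gal
  obtain ⟨d, r, e, hgs, hr⟩ := hinj k L hg
  have b1 : B (Pos L) (Ivt k L) (2 ^ 2) := hk ▸ hidx.sgn k L hg.real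
  have b2 : B (Dy L) (Ivt k L) (2 ^ 8) := by
    have := (B_comap _ _).1 ((B.top (hdy.loc k hk)).left (inc_Dy (L := L)))
    rw [← AddMonoidHom.range_eq_map] at this
    exact this.sup.right (hdy.apx k L hg)
  have b3 : B (PSq ι) (Ivt k L) 4 := (B.top (hidx.psq p L ι hp)).right le_top
  have b4 : B (Sq L) (Ivt k L ⊓ Ev L) (2 ^ 2 * 2 ^ 8 * 4) := by
    refine (((b1.inf b2).inf b3).right inf_le_left).self.left fun μ hμ => ?_
    by_contra h
    exact hno ⟨μ, hμ.2.1, hμ.2.2, hμ.1.1.1, hμ.1.1.2, hμ.1.2, h⟩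
  have b5 : B (Sq k) (Ev k) (2 ^ d * (2 ^ 2 * 2 ^ 8 * 4)) := by
    refine B.trans (e ▸ hidx.kum k L) ((B_comap _ _).2 (b4.right ?_))
    rintro _ ⟨x, hx, rfl⟩
    exact ⟨inc_Ivt x, inc_Ev hx⟩
  have b6 : B ((Ivt k L ⊓ Ev L) ⊔ (Un.inc k L).range) (Ivt k L) (2 ^ d * (2 ^ 2 * 2 ^ 8 * 4)) :=
    ⟨(hcl.par k L hg).2.1, (hcl.par k L hg).2.2.trans (((hcl.cls k).2 b5.1).trans b5.2)⟩
  have b7 : B ((Un.inc k L).range ⊔ Sq L) ((Ivt k L ⊓ Ev L) ⊔ (Un.inc k L).range)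
      (2 ^ 2 * 2 ^ 8 * 4) :=
    (b4.left le_sup_right).sup.right (sup_le_sup_left le_sup_left _)
  have b8 := b7.trans b6
  have h1 : 2 ^ r ≤ 2 ^ (d + 24) := ((hr b8.1).trans b8.2).trans_eq (by ring)
  have h2 := (Nat.pow_le_pow_iff_right (by norm_num)).1 h1
  have h3 := (Nat.pow_le_pow_iff_right (by norm_num)).1 (e ▸ hd)
  have h4 := hgs (by omega)
  nlinarith

end Pool.Agent.MP_542436_nt.H96
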