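import Pool.Agent.MP_542436_nt.H96.P2

/-! The choice of the parameters over the rational numbers: the real bound. -/

namespace Pool.Agent.MP_542436_nt.H96

theorem rowP3 : RowREA → RowARI → RowP3 := by
  rintro ⟨C, hC, hP⟩ hA
  have he : (1 : ℝ) ≤ Real.exp 2 := Real.one_le_exp (by norm_num)
  obtain ⟨C', hC', hpar⟩ := P2.par hA C (82 * Real.exp 2) hC (by linarith)
  refine ⟨C', 12, hC', ?_⟩
  intro P b H hF
  obtain ⟨κ, hκd⟩ : ∃ κ : ℝ, κ = (P.card + 1 : ℝ) := ⟨_, rfl⟩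
  have hκ : 1 ≤ κ := by
    have : (0 : ℝ) ≤ P.card := Nat.cast_nonneg _
    linarith
  have hκe : 1 ≤ Real.exp κ := Real.one_le_exp (by linarith)
  have hk2 : 1 ≤ κ * Real.exp κ := one_le_mul_of_one_le_of_one_le hκ hκe
  have hG1 : 80 * κ * Real.exp κ ≤ (⌈80 * κ * Real.exp κ⌉₊ : ℝ) := Nat.le_ceil _
  have hG2 := Nat.ceil_lt_add_one (a := 80 * κ * Real.exp κ) (by positivity)
  have hQ : (⌈80 * κ * Real.exp κ⌉₊ : ℝ) + 1 ≤ (82 * Real.exp 2) ^ (P.card + 1) * 1 := by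
    have k : (82 : ℝ) ≤ 82 ^ (P.card + 1) := le_self_pow₀ (by norm_num) (by omega)
    have k2 : κ * Real.exp κ ≤ Real.exp κ * Real.exp κ :=
      mul_le_mul_of_nonneg_right (P2.le_exp κ) (by linarith)
    have k3 : Real.exp 2 ^ (P.card + 1) = Real.exp κ * Real.exp κ := by
      rw [← Real.exp_nat_mul, ← Real.exp_add, hκd]
      congr 1
      push_cast
      ring
    rw [mul_one, mul_pow, k3]
    calc (⌈80 * κ * Real.exp κ⌉₊ : ℝ) + 1 ≤ 82 * (κ * Real.exp κ) := by linarith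
      _ ≤ 82 ^ (P.card + 1) * (Real.exp κ * Real.exp κ) := by gcongr
  obtain ⟨hm, hL, -, -⟩ := P2.frm hF (le_refl _)
  obtain ⟨Λ, T, h1, h2, h3, h4, h5, h6, h7⟩ := hpar P.card H (∏ r ∈ P, Real.log r)
    ((⌈80 * κ * Real.exp κ⌉₊ : ℝ) + 1) 1 hm hF.one hF.card (hA.low P hF.prime) hL le_rfl
    (Real.one_le_exp (by linarith [hF.one])) (by positivity) hQ
  obtain ⟨-, -, hb1, hb2⟩ := P2.frm hF h2
  have ht : (1 : ℝ) ≤ (T : ℝ) / 648 := by
    rw [le_div_iff₀ (by norm_num)]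
    linarith
  have key := hP P b ⌈80 * κ * Real.exp κ⌉₊ T ((T : ℝ) / 648) κ Λ hF.prime hF.ne hG1 hκ
    (by rw [hκd]; exact h1) h1 ht hb1 hb2 h3 h4 (by
      rw [← hκd]
      nlinarith) h6
  rw [mul_one] at h7
  exact (Real.exp_le_exp.2 (neg_le_neg h7)).trans key

end Pool.Agent.MP_542436_nt.H96
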