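import Pool.Agent.MP_542436_nt.H96.Spec

/-! Adjoining a square root: the primes. -/

namespace Pool.Agent.MP_542436_nt.H96.RAM

open NumberField IsDedekindDomain Polynomial Pool.Agent.MP_db5b97_nt.H85

variable {k L M : Type} [Field k] [Field L] [Field M] [Algebra k L] [Algebra L M] [Algebra k M]
  [IsScalarTower k L M]

theorem coe_smul (s : M ≃ₐ[k] M) (x : 𝓞 M) : ((s • x : 𝓞 M) : M) = s (x : M) := rfl

theorem smul_alg [Normal k L] (s : M ≃ₐ[k] M) (x : 𝓞 L) :
    s • algebraMap (𝓞 L) (𝓞 M) x =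
      algebraMap (𝓞 L) (𝓞 M) (AlgEquiv.restrictNormalHom L s • x) := by
  apply RingOfIntegers.ext
  exact (AlgEquiv.restrictNormal_commutes s L (x : L)).symm

theorem mem_und [NumberField L] [NumberField M] (W : Sp M) (x : 𝓞 L) :
    x ∈ (und L W).asIdeal ↔ algebraMap (𝓞 L) (𝓞 M) x ∈ W.asIdeal := Iff.rfl

theorem und_smul [NumberField L] [NumberField M] [Normal k L] (s : M ≃ₐ[k] M) (W : Sp M) :
    und L (s • W) = AlgEquiv.restrictNormalHom L s • und L W := by
  refine HeightOneSpectrum.ext (Ideal.ext fun x => ?_)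
  rw [mem_und, mem_smul_iff, mem_smul_iff, mem_und, smul_alg, map_inv]

omit [Algebra k L] [IsScalarTower k L M] in
theorem neg_of_fix {s : M ≃ₐ[k] M} {θ : M} {m : L} (hs : s ≠ 1)
    (hf : ∀ x : L, s (algebraMap L M x) = algebraMap L M x) (hθ : θ ^ 2 = algebraMap L M m)
    (hg : ∀ x : M, ∃ a b : L, x = algebraMap L M a + algebraMap L M b * θ) : s θ = -θ := by
  have h : (s θ) ^ 2 = θ ^ 2 := by rw [← map_pow, hθ, hf]
  rcases sq_eq_sq_iff_eq_or_eq_neg.1 h with h | h
  · refine absurd (AlgEquiv.ext fun x => ?_) hs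
    obtain ⟨a, b, rfl⟩ := hg x
    rw [map_add, map_mul, hf, hf, h, AlgEquiv.one_apply]
  · exact h

/-- at an odd prime the radicand can be made a unit -/
theorem exists_unit [NumberField L] (μ : Un L) (w : Sp L) (he : Even (ord w μ)) :
    ∃ (g : L) (n : 𝓞 L), μ.val * g ^ 2 = n ∧ n ∉ w.asIdeal := by
  obtain ⟨e, he⟩ := he
  obtain ⟨π, hπ⟩ := w.valuation_exists_uniformizer L
  have h1 : w.valuation L (μ.val * (π ^ (-e)) ^ 2) = 1 := by
    rw [map_mul, map_pow, map_zpow₀, hπ, val_eq_exp, he, ← WithZero.exp_zsmul,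
      ← WithZero.exp_nsmul, ← WithZero.exp_add, ← WithZero.exp_zero]
    congr 1
    simp only [smul_eq_mul, nsmul_eq_mul]
    push_cast
    ring
  obtain ⟨n, d, e1⟩ := w.exists_primeCompl_mul_eq_of_integer _ h1.le
  have hd : w.valuation L ((d : 𝓞 L) : L) = 1 := (val_eq_one_iff w d).2 d.2
  have e2 : μ.val * (π ^ (-e)) ^ 2 * ((d : 𝓞 L) : L) = n := e1
  refine ⟨π ^ (-e) * ((d : 𝓞 L) : L), n * d, ?_, ?_⟩
  · show _ = (n : L) * ((d : 𝓞 L) : L)
    linear_combination ((d : 𝓞 L) : L) * e2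
  · rw [← val_eq_one_iff]
    show w.valuation L ((n : L) * ((d : 𝓞 L) : L)) = 1
    rw [map_mul, hd, mul_one, ← e2, map_mul, h1, hd, mul_one]

omit [Algebra k L] [IsScalarTower k L M] in
theorem unr_odd [NumberField L] [NumberField M] {s : M ≃ₐ[k] M} {θ : M} {μ : Un L}
    (hf : ∀ x : L, s (algebraMap L M x) = algebraMap L M x) (hθ : θ ^ 2 = algebraMap L M μ.val)
    (hn : s θ = -θ) (hev : μ ∈ Ev L) (W : Sp M) (hW : (2 : 𝓞 M) ∉ W.asIdeal) :
    ∃ x : 𝓞 M, s • x - x ∉ W.asIdeal := by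
  have hw : ((2 : ℕ) : 𝓞 L) ∉ (und L W).asIdeal := by
    rw [mem_und, map_natCast]
    exact_mod_cast hW
  obtain ⟨g, n, e, hn'⟩ := exists_unit μ (und L W) (hev ⟨_, hw⟩)
  have e2 : (algebraMap L M g * θ) ^ 2 = ((algebraMap (𝓞 L) (𝓞 M) n : 𝓞 M) : M) := by
    rw [mul_pow, hθ, ← map_pow, ← map_mul, mul_comm, e]
    rfl
  have hi : IsIntegral ℤ (algebraMap L M g * θ) :=
    IsIntegral.of_pow two_pos (e2 ▸ RingOfIntegers.isIntegral_coe _)
  let x : 𝓞 M := ⟨_, hi⟩
  have hx : (x : M) = algebraMap L M g * θ := rfl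
  have hs : s • x = -x := by
    apply RingOfIntegers.ext
    rw [coe_smul, hx, map_mul, hf, hn, mul_neg]
    rfl
  have hx2 : x ^ 2 = algebraMap (𝓞 L) (𝓞 M) n := by
    apply RingOfIntegers.ext
    rw [← e2, ← hx]
    rfl
  refine ⟨x, fun h => ?_⟩
  have h2 : (2 : 𝓞 M) * x ∈ W.asIdeal := by
    have := neg_mem h
    rw [hs] at this
    convert this using 1
    ring
  rcases W.isPrime.mem_or_mem h2 with h3 | h3
  · exact hW h3
  · refine hn' ((mem_und W n).2 ?_)
    rw [← hx2]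
    exact Ideal.pow_mem_of_mem _ h3 2 two_pos

omit [Algebra k L] [IsScalarTower k L M] in
/-- the generator of Artin and Schreier above two -/
theorem exists_omega [NumberField L] [NumberField M] {s : M ≃ₐ[k] M} {θ : M} {μ : Un L}
    (hf : ∀ x : L, s (algebraMap L M x) = algebraMap L M x) (hθ : θ ^ 2 = algebraMap L M μ.val)
    (hn : s θ = -θ) (hdy : μ ∈ Dy L) :
    ∃ (ω c : 𝓞 M) (N : ℕ), N.Coprime 2 ∧ s • ω = N - ω ∧ ω * (ω - N) = 2 * c := by
  obtain ⟨_, ⟨y, rfl⟩, ρ, hρ, e⟩ := AddSubgroup.mem_sup.1 hdy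
  obtain ⟨z, ⟨N, hN, hz⟩, e1⟩ := (mem_Ray_iff two_ne_zero (by norm_num)).1 hρ
  have e2 : μ.val = y.val ^ 2 * (1 + 2 ^ 3 * z) := by
    rw [← e, Un.val_add, e1]
    simp
  have hy : algebraMap L M y.val ≠ 0 := by simp
  let c : 𝓞 M := N * algebraMap (𝓞 L) (𝓞 M) ⟨_, hz⟩
  have hc : (c : M) = N * (N * algebraMap L M z) := by
    have : ((algebraMap (𝓞 L) (𝓞 M) ⟨_, hz⟩ : 𝓞 M) : M) = algebraMap L M (N * z) := rfl
    rw [map_mul, map_natCast] at this
    rw [← this]
    simp only [c, map_mul, map_natCast]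
  set w : M := N * (1 + θ / algebraMap L M y.val) / 2 with hw
  have e3 : w * (w - N) = 2 * (c : M) := by
    have e4 : (θ / algebraMap L M y.val) ^ 2 = 1 + 2 ^ 3 * algebraMap L M z := by
      rw [div_pow, hθ, e2, map_mul, map_pow, mul_div_cancel_left₀ _ (pow_ne_zero 2 hy)]
      simp [map_ofNat]
    rw [hc, hw]
    linear_combination (N : M) ^ 2 / 4 * e4
  have hi : IsIntegral ℤ w := by
    refine isIntegral_trans (A := 𝓞 M) w ⟨X ^ 2 - C (N : 𝓞 M) * X - C (2 * c), ?_, ?_⟩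
    · monicity!
    · simp only [eval₂_sub, eval₂_mul, eval₂_pow, eval₂_X, eval₂_C, map_natCast, map_mul,
        map_ofNat, eval₂_natCast, eval₂_ofNat]
      linear_combination e3
  refine ⟨⟨w, hi⟩, c, N, hN, ?_, ?_⟩
  · apply RingOfIntegers.ext
    rw [coe_smul]
    simp only [map_sub, map_natCast, RingOfIntegers.map_mk]
    show s w = N - w
    rw [hw]
    simp only [map_div₀, map_mul, map_add, map_one, map_natCast, map_ofNat, hf, hn]
    ring
  · apply RingOfIntegers.ext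
    simp only [map_sub, map_natCast, map_mul, map_ofNat, RingOfIntegers.map_mk]
    exact e3

theorem odd_notMem [NumberField M] {N : ℕ} (hN : N.Coprime 2) {W : Sp M}
    (hW : ((2 : ℕ) : 𝓞 M) ∈ W.asIdeal) : (N : 𝓞 M) ∉ W.asIdeal := by
  rw [← val_eq_one_iff]
  simpa using val_coprime hW hN

end Pool.Agent.MP_542436_nt.H96.RAM

namespace Pool.Agent.MP_542436_nt.H96

open NumberField IsDedekindDomain Pool.Agent.MP_db5b97_nt.H85 RAM

theorem rowRAM : RowRAM := by
  intro k L M _ _ _ _ _ _ _ _ _ _ μ θ hG hgal hreal h2 hθ hgen hev hdy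
  have := hG.gal
  have hfix : ∀ s : M ≃ₐ[k] M, AlgEquiv.restrictNormalHom L s = 1 →
      ∀ x : L, s (algebraMap L M x) = algebraMap L M x := fun s h x => by
    have h' : s.restrictNormal L = 1 := h
    rw [← AlgEquiv.restrictNormal_commutes s L x, h', AlgEquiv.one_apply]
  refine ⟨hgal, ?_, hreal, fun s hs W => ?_, fun s hs W hW => ?_⟩
  · obtain ⟨j, hj⟩ := hG.two
    exact ⟨j + 1, by rw [← Module.finrank_mul_finrank k L M, hj, h2, pow_succ]⟩
  · by_cases h0 : AlgEquiv.restrictNormalHom L s = 1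
    · have hn := neg_of_fix hs (hfix s h0) hθ hgen
      by_cases hW : (2 : 𝓞 M) ∈ W.asIdeal
      · obtain ⟨ω, c, N, hN, e1, -⟩ := exists_omega (hfix s h0) hθ hn hdy
        refine ⟨ω, fun h => odd_notMem hN (W := W) (by exact_mod_cast hW) ?_⟩
        have := add_mem h (Ideal.mul_mem_right ω _ hW)
        rw [e1] at this
        convert this using 1
        ring
      · exact unr_odd (hfix s h0) hθ hn hev W hW
    · obtain ⟨x, hx⟩ := hG.unr _ h0 (und L W)
      refine ⟨algebraMap (𝓞 L) (𝓞 M) x, fun h => hx ?_⟩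
      rwa [mem_und, map_sub, ← smul_alg]
  · have hW1 : s • W.1 = W.1 := congrArg Subtype.val hW
    by_cases h0 : AlgEquiv.restrictNormalHom L s = 1
    · have hn := neg_of_fix hs (hfix s h0) hθ hgen
      obtain ⟨ω, c, N, hN, e1, e2⟩ := exists_omega (hfix s h0) hθ hn hdy
      have hst : ∀ x ∈ W.1.asIdeal, s • x ∈ W.1.asIdeal := fun x hx => by
        rw [← hW1, mem_smul_iff, inv_smul_smul]
        exact hx
      have h2W : (2 : 𝓞 M) ∈ W.1.asIdeal := by exact_mod_cast W.2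
      have hm : ω * (ω - N) ∈ W.1.asIdeal := e2 ▸ Ideal.mul_mem_right c _ h2W
      refine odd_notMem hN W.2 ?_
      rcases W.1.isPrime.mem_or_mem hm with h | h
      · have := add_mem (hst _ h) h
        rwa [e1, sub_add_cancel] at this
      · have := add_mem (hst _ h) h
        rw [smul_sub, e1, smul_natCast] at this
        convert neg_mem this using 1
        ring
    · refine hG.spl _ h0 (W.und L) (Subtype.ext ?_)
      show AlgEquiv.restrictNormalHom L s • und L W.1 = und L W.1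
      rw [← und_smul, hW1]

end Pool.Agent.MP_542436_nt.H96
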