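import Pool.Agent.MP_542436_nt.H96.Spec
import Pool.Agent.MP_db5b97_nt.H21.NT2

/-! Induction up the tower. -/

namespace Pool.Agent.MP_542436_nt.H96

open NumberField Pool.Agent.MP_db5b97_nt.H85

namespace TW

/-- a finite group has at most as many sign characters as elements -/
theorem card_hom_le (G : Type) [Group G] [Finite G] : Nat.card (G →* ℤˣ) ≤ Nat.card G := by
  classical
  have : Fintype G := Fintype.ofFinite G
  have : Finite (G →* ℤˣ) := Finite.of_injective (fun f : G →* ℤˣ => (f : G → ℤˣ))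
    DFunLike.coe_injective
  have : Fintype (G →* ℤˣ) := Fintype.ofFinite _
  let c : ℤˣ →* ℚ := (Int.castRingHom ℚ).toMonoidHom.comp (Units.coeHom ℤ)
  have hc : Function.Injective c := fun x y h => by
    have h' : ((x : ℤ) : ℚ) = ((y : ℤ) : ℚ) := h
    exact Units.ext (by exact_mod_cast h')
  have hi : Function.Injective fun f : G →* ℤˣ => c.comp f := fun f g h => by
    ext1 x
    exact hc (DFunLike.congr_fun h x)
  have := ((linearIndependent_monoidHom G ℚ).comp _ hi).fintype_card_le_finrank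
  rw [Module.finrank_pi] at this
  simpa [Nat.card_eq_fintype_card] using this

/-- independent classes give a large index -/
theorem pow_le_relIndex {A : Type} [AddCommGroup A] (U H : AddSubgroup A) (a : Fin 12 → A)
    (h2 : ∀ x, 2 • x ∈ U) (ind : ∀ I : Finset (Fin 12), ∑ i ∈ I, a i ∈ U → I = ∅)
    (S : Finset (Fin 12)) (hS : ∀ t ∈ S, a t ∈ H) (h0 : U.relIndex H ≠ 0) :
    2 ^ S.card ≤ U.relIndex H := by
  classical
  have : Finite (H ⧸ U.addSubgroupOf H) := Nat.finite_of_card_ne_zero h0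
  let f : S.powerset → H ⧸ U.addSubgroupOf H := fun I =>
    QuotientAddGroup.mk ⟨∑ i ∈ I.1, a i,
      sum_mem fun i hi => hS i (Finset.mem_powerset.1 I.2 hi)⟩
  have hf : Function.Injective f := by
    rintro ⟨I, hI⟩ ⟨J, hJ⟩ h
    have h1 := QuotientAddGroup.eq.1 h
    rw [AddSubgroup.mem_addSubgroupOf] at h1
    have h3 : -∑ i ∈ I, a i + ∑ i ∈ J, a i ∈ U := h1
    have e1 := Finset.sum_sdiff_sub_sum_sdiff (f := a) (s₁ := I) (s₂ := J)
    have e2 : ∑ i ∈ (I \ J) ∪ (J \ I), a i =
        (-∑ i ∈ I, a i + ∑ i ∈ J, a i) + 2 • ∑ i ∈ I \ J, a i := by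
      rw [Finset.sum_union disjoint_sdiff_sdiff, neg_add_eq_sub, ← e1, two_nsmul]
      abel
    have h4 := ind _ (e2 ▸ add_mem h3 (h2 _))
    rw [Finset.union_eq_empty, Finset.sdiff_eq_empty_iff_subset,
      Finset.sdiff_eq_empty_iff_subset] at h4
    exact Subtype.ext (Finset.Subset.antisymm h4.1 h4.2)
  have := Nat.card_le_card_of_injective f hf
  rw [Nat.card_eq_fintype_card, Fintype.card_coe, Finset.card_powerset] at this
  exact this

theorem good_self (k : Type) [Field k] [NumberField k] (h : IsTotallyReal k) : Good k k := by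
  have one : ∀ s : k ≃ₐ[k] k, s = 1 := fun s => AlgEquiv.ext fun x => s.commutes x
  exact ⟨inferInstance, ⟨0, by simp⟩, h, fun s hs => absurd (one s) hs,
    fun s hs => absurd (one s) hs⟩

section inc

variable {k L : Type} [Field k] [NumberField k] [Field L] [NumberField L] [Algebra k L]

omit [NumberField k] [NumberField L] in
theorem inc_Ivt (x : Un k) : Un.inc k L x ∈ Ivt k L := fun s => by
  have : s • Un.inc k L x = Un.inc k L x := Un.ext (s.commutes x.val)
  rw [this, sub_self]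
  exact zero_mem _

theorem inc_Ev {x : Un k} (h : x ∈ Ev k) : Un.inc k L x ∈ Ev L := fun w => by
  rw [rowNT2.ord_inc]
  exact (h (Pr.und k w)).mul_left _

omit [NumberField k] [NumberField L] in
theorem inc_Pos {x : Un k} (h : x ∈ Pos k) : Un.inc k L x ∈ Pos L := fun φ =>
  h (φ.comp (algebraMap k L))

theorem inc_Dy {x : Un k} (h : x ∈ Ray k 2 3) : Un.inc k L x ∈ Dy L :=
  AddSubgroup.mem_sup_right ((rowNT2.inc_Ray k L 2 3 x).2 h)

end inc

/-- a layer of degree `2 ^ i` in which many of the given elements are squares -/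
def Lay (p : ℕ) [Fact p.Prime] (k : Type) [Field k] [NumberField k] (a : Fin 12 → Un k) (i : ℕ) :
    Prop :=
  ∃ (L : Type) (_ : Field L) (_ : NumberField L) (_ : Algebra k L), Good k L ∧
    Module.finrank k L = 2 ^ i ∧ Nonempty (L →+* ℚ_[p]) ∧
    ∃ S : Finset (Fin 12), S.card = min i 12 ∧ ∀ t ∈ S, Un.inc k L (a t) ∈ Sq L

/-- adjoining the square root of a good radicand -/
theorem step (hADJ : RowADJ) (hRAM : RowRAM) (p : ℕ) [Fact p.Prime] (k L : Type) [Field k]
    [NumberField k] [Field L] [NumberField L] [Algebra k L] (ι : L →+* ℚ_[p]) (g : Good k L)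
    (μ : Un L) (h1 : μ ∈ Ivt k L) (h2 : μ ∈ Ev L) (h3 : μ ∈ Pos L) (h4 : μ ∈ Dy L)
    (h5 : μ ∈ PSq ι) (h6 : μ ∉ Sq L) :
    ∃ (M : Type) (_ : Field M) (_ : NumberField M) (_ : Algebra k M), Good k M ∧
      Module.finrank k M = Module.finrank k L * 2 ∧ Nonempty (M →+* ℚ_[p]) ∧
      ∀ x : Un k, Un.inc k L x ∈ Sq L ∨ Un.inc k L x = μ → Un.inc k M x ∈ Sq M := by
  have := g.gal
  obtain ⟨M, _, _, _, _, _, θ, a1, a2, a3, a4, a5, a6⟩ := hADJ k L μ h1 h6
  refine ⟨M, inferInstance, inferInstance, inferInstance,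
    hRAM k L M μ θ g a1 (a5 g.real h3) a2 a3 a4 h2 h4, ?_, a6 _ ι h5, ?_⟩
  · rw [← a2, Module.finrank_mul_finrank]
  · intro x hx
    have e : Un.inc k M x = Un.inc L M (Un.inc k L x) :=
      Un.ext (IsScalarTower.algebraMap_apply k L M x.val)
    rw [e]
    rcases hx with ⟨y, hy⟩ | hx
    · exact ⟨Un.inc L M y, by rw [← hy]; exact (map_nsmul _ 2 y).symm⟩
    · have hθ : θ ≠ 0 := by
        rintro rfl
        have : algebraMap L M μ.val = 0 := by rw [← a3]; simp
        simp at this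
      exact ⟨Un.mk θ hθ, Un.ext (by rw [hx]; exact a3)⟩

theorem lay (hIDX : RowIDX) (hMU : RowMU) (hADJ : RowADJ) (hRAM : RowRAM) (p : ℕ) [Fact p.Prime]
    (hp : p ≠ 2) (k : Type) [Field k] [NumberField k] (a : Fin 12 → Un k)
    (b1 : Module.finrank ℚ k = 2) (b2 : IsTotallyReal k) (b3 : Nonempty (k →+* ℚ_[p]))
    (b4 : ∀ I : Finset (Fin 12), ∑ i ∈ I, a i ∈ Sq k → I = ∅)
    (b5 : ∀ i, a i ∈ Ev k ∧ a i ∈ Pos k ∧ a i ∈ Ray k 2 3 ∧
      ∃ n : ℤ, (a i).val = n ∧ IsSquare (n : ℚ_[p])) (i : ℕ) : Lay p k a i := by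
  classical
  induction i with
  | zero =>
    exact ⟨k, inferInstance, inferInstance, inferInstance, good_self k b2, by simp, b3, ∅, by simp,
      by simp⟩
  | succ i ih =>
    obtain ⟨L, _, _, _, g, hd, ⟨ι⟩, S, hS, hsq⟩ := ih
    have := g.gal
    have key : ∀ T : Finset (Fin 12), (∀ t ∈ T, Un.inc k L (a t) ∈ Sq L) →
        2 ^ T.card ≤ Nat.card ((L ≃ₐ[k] L) →* ℤˣ) := fun T hT =>
      (pow_le_relIndex (Sq k) _ a (fun x => ⟨x, rfl⟩) b4 T hT (hIDX.kum k L).1).trans
        (hIDX.kum k L).2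
    by_cases hi : i < 12
    · obtain ⟨t, ht⟩ : ∃ t, t ∉ S := by
        by_contra hc
        push Not at hc
        have : S = Finset.univ := Finset.eq_univ_of_forall hc
        rw [this] at hS
        simp at hS
        omega
      have hc : (insert t S).card = i + 1 := by
        rw [Finset.card_insert_of_notMem ht, hS]
        omega
      have h6 : Un.inc k L (a t) ∉ Sq L := fun h => by
        have h1 := key (insert t S) (by
          intro u hu
          rcases Finset.mem_insert.1 hu with rfl | hu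
          · exact h
          · exact hsq u hu)
        have h2 := card_hom_le (L ≃ₐ[k] L)
        rw [IsGalois.card_aut_eq_finrank, hd] at h2
        rw [hc, pow_succ] at h1
        have : 0 < 2 ^ i := by positivity
        omega
      obtain ⟨c1, c2, c3, n, c4, c5⟩ := b5 t
      have h5 : Un.inc k L (a t) ∈ PSq ι := by
        show IsSquare _
        rw [Un.val_inc, c4, map_intCast, map_intCast]
        exact c5
      obtain ⟨M, _, _, _, g', d', e', s'⟩ := step hADJ hRAM p k L ι g _ (inc_Ivt _) (inc_Ev c1)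
        (inc_Pos c2) (inc_Dy c3) h5 h6
      refine ⟨M, inferInstance, inferInstance, inferInstance, g', by rw [d', hd, pow_succ], e',
        insert t S, by rw [hc]; omega, fun u hu => ?_⟩
      rcases Finset.mem_insert.1 hu with rfl | hu
      · exact s' _ (Or.inr rfl)
      · exact s' _ (Or.inl (hsq u hu))
    · have hc : S.card = 12 := by omega
      obtain ⟨μ, m1, m2, m3, m4, m5, m6⟩ := hMU p k L ι hp b1 g (hc ▸ key S hsq)
      obtain ⟨M, _, _, _, g', d', e', s'⟩ := step hADJ hRAM p k L ι g μ m1 m2 m3 m4 m5 m6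
      exact ⟨M, inferInstance, inferInstance, inferInstance, g', by rw [d', hd, pow_succ], e',
        S, by omega, fun u hu => s' _ (Or.inl (hsq u hu))⟩

end TW

theorem rowTW : RowIDX → RowMU → RowADJ → RowRAM → RowDISC → RowBASE → RowTW := by
  intro hIDX hMU hADJ hRAM hDISC hBASE
  obtain ⟨C, hC⟩ := hBASE
  refine ⟨C + 1, fun p _ hp j hj => ?_⟩
  obtain ⟨k, _, _, a, b1, b2, b0, b3, b4, b5⟩ := hC p hp
  obtain ⟨i, rfl⟩ : ∃ i, j = i + 1 := ⟨j - 1, by omega⟩
  obtain ⟨L, _, _, _, g, hd, e, -⟩ := TW.lay hIDX hMU hADJ hRAM p hp k a b1 b2 b3 b4 b5 i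
  refine ⟨L, inferInstance, inferInstance, g.real, ?_, ?_, e⟩
  · rw [← Module.finrank_mul_finrank ℚ k L, b1, hd, pow_succ']
  · rw [hDISC k L g, hd]
    calc (discr k).natAbs ^ 2 ^ i ≤ (C + 1) ^ 2 ^ i := Nat.pow_le_pow_left (by omega) _
      _ ≤ (C + 1) ^ 2 ^ (i + 1) :=
        Nat.pow_le_pow_right (by omega) (Nat.pow_le_pow_right (by omega) (by omega))

end Pool.Agent.MP_542436_nt.H96
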