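import Pool.Agent.MP_542436_nt.H96.ABC
import Pool.Agent.MP_542436_nt.H96.ADJ
import Pool.Agent.MP_542436_nt.H96.ARI
import Pool.Agent.MP_542436_nt.H96.AUXY
import Pool.Agent.MP_542436_nt.H96.BASE
import Pool.Agent.MP_542436_nt.H96.BOX
import Pool.Agent.MP_542436_nt.H96.CL
import Pool.Agent.MP_542436_nt.H96.CORE
import Pool.Agent.MP_542436_nt.H96.DISC
import Pool.Agent.MP_542436_nt.H96.DY
import Pool.Agent.MP_542436_nt.H96.EXP
import Pool.Agent.MP_542436_nt.H96.EXT
import Pool.Agent.MP_542436_nt.H96.GS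
import Pool.Agent.MP_542436_nt.H96.HN
import Pool.Agent.MP_542436_nt.H96.IDL
import Pool.Agent.MP_542436_nt.H96.IDX
import Pool.Agent.MP_542436_nt.H96.INJ
import Pool.Agent.MP_542436_nt.H96.KUM
import Pool.Agent.MP_542436_nt.H96.LAT
import Pool.Agent.MP_542436_nt.H96.LOCP
import Pool.Agent.MP_542436_nt.H96.LOCR
import Pool.Agent.MP_542436_nt.H96.LV
import Pool.Agent.MP_542436_nt.H96.MID
import Pool.Agent.MP_542436_nt.H96.MU
import Pool.Agent.MP_542436_nt.H96.NEW
import Pool.Agent.MP_542436_nt.H96.P1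
import Pool.Agent.MP_542436_nt.H96.P2
import Pool.Agent.MP_542436_nt.H96.P3
import Pool.Agent.MP_542436_nt.H96.PAD
import Pool.Agent.MP_542436_nt.H96.PAR
import Pool.Agent.MP_542436_nt.H96.RAM
import Pool.Agent.MP_542436_nt.H96.REA
import Pool.Agent.MP_542436_nt.H96.SEP
import Pool.Agent.MP_542436_nt.H96.SIE
import Pool.Agent.MP_542436_nt.H96.TW

/-! Assembly. -/

namespace Pool.Agent.MP_542436_nt.H96

theorem allTW : RowTW :=
  rowTW rowIDX (rowMU (rowINJ (rowEXT rowHN) rowGS) rowIDX rowDY rowCL) rowADJ rowRAM rowDISC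
    (rowBASE rowIDX)

theorem allMID : RowMID := rowMID (rowCORE rowKUM) rowSIE rowLAT rowSEP rowPAR

theorem allPAD : RowPAD := rowPAD allMID (rowLOCP rowLV rowNEW rowEXP) rowEXP rowBOX

theorem allREA : RowREA := rowREA allMID (rowLOCR rowLV rowNEW) rowBOX

theorem allP1 : RowP1 := rowP1 allPAD (rowAUX rowIDL) allTW rowARI

theorem allP2 : RowP2 := rowP2 allPAD rowARI

theorem allP3 : RowP3 := rowP3 allREA rowARI

theorem allABC : RowABC := rowABC allP1 allP2 allP3 rowARI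

end Pool.Agent.MP_542436_nt.H96
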