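import Pool.Agent.MP_542436_nt.H96.Spec

/-! The inequality of Golod and Shafarevich, in dual form: functions on the Cayley graph. -/

namespace Pool.Agent.MP_542436_nt.H96

namespace GS

open Module Submodule

/-! ### Generators -/

section Gen

variable {G : Type} [Group G] [Finite G]

lemma exists_char (hG : IsPGroup 2 G) {H : Subgroup G} (hH : H ≠ ⊤) :
    ∃ χ : G →* ℤˣ, χ ≠ 1 ∧ ∀ x ∈ H, χ x = 1 := by
  classical
  obtain ⟨m, hm⟩ := IsPGroup.iff_card.1 hG
  obtain ⟨n, hn⟩ := IsPGroup.iff_card.1 (hG.to_subgroup H)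
  have h1 : n < m := by
    by_contra hc
    exact hH (H.eq_top_of_le_card (by rw [hm, hn]; exact Nat.pow_le_pow_right two_pos (by omega)))
  obtain ⟨m, rfl⟩ : ∃ k, m = k + 1 := ⟨m - 1, by omega⟩
  obtain ⟨K, h2, h3⟩ := Sylow.exists_subgroup_card_pow_prime_le 2 (m := m)
    (by rw [hm]; exact pow_dvd_pow _ m.le_succ) H hn (by omega)
  have h4 : K.index = 2 := by
    have := K.card_mul_index
    rw [h2, hm, pow_succ] at this
    exact Nat.eq_of_mul_eq_mul_left (by positivity) this
  refine ⟨MonoidHom.mk' (fun a => if a ∈ K then 1 else -1) fun a b => ?_, fun h => ?_,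
    fun x hx => if_pos (h3 hx)⟩
  · rw [K.mul_mem_iff_of_index_two h4]
    by_cases ha : a ∈ K <;> by_cases hb : b ∈ K <;> simp [ha, hb]
  · have : K = ⊤ := eq_top_iff.2 fun a _ => by
      by_contra ha
      have := DFunLike.congr_fun h a
      simp [ha] at this
    rw [this, Subgroup.index_top] at h4
    exact absurd h4 (by norm_num)

lemma exists_gen (hG : IsPGroup 2 G) : ∃ (d : ℕ) (g : Fin d → G),
    (Function.Bijective fun (χ : G →* ℤˣ) i => χ (g i)) ∧ Subgroup.closure (Set.range g) = ⊤ := by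
  classical
  have : Finite (G →* ℤˣ) := Finite.of_injective _ DFunLike.coe_injective
  let P : ℕ → Prop := fun d => ∃ g : Fin d → G, Function.Surjective fun (χ : G →* ℤˣ) i => χ (g i)
  have h0 : P 0 := ⟨Fin.elim0, fun _ => ⟨1, Subsingleton.elim _ _⟩⟩
  have hb : ∀ d, P d → d ≤ Nat.card (G →* ℤˣ) := by
    rintro d ⟨g, hg⟩
    have := Nat.card_le_card_of_surjective _ hg
    simp only [Nat.card_eq_fintype_card, Fintype.card_pi, Fintype.card_units_int, Finset.prod_const,
      Finset.card_univ, Fintype.card_fin] at this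
    exact Nat.lt_two_pow_self.le.trans this
  obtain ⟨g, hg⟩ := Nat.findGreatest_spec (Nat.zero_le (Nat.card (G →* ℤˣ))) h0
  have key : ∀ χ : G →* ℤˣ, (∀ i, χ (g i) = 1) → χ = 1 := fun χ hχ => by
    by_contra hc
    obtain ⟨x, hx⟩ := DFunLike.ne_iff.1 hc
    have : P (Nat.findGreatest P (Nat.card (G →* ℤˣ)) + 1) := ⟨Fin.cons x g, fun ε => by
      obtain ⟨ψ, hψ⟩ := hg (Fin.tail ε)
      by_cases e : ψ x = ε 0
      · exact ⟨ψ, funext (Fin.cases e (congrFun hψ))⟩
      · refine ⟨ψ * χ, funext (Fin.cases ?_ fun i => ?_)⟩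
        · have := (Int.units_eq_one_or (χ x)).resolve_left hx
          simp [this, Int.units_ne_iff_eq_neg.1 e]
        · simpa [hχ, Fin.tail] using congrFun hψ i⟩
    exact Nat.findGreatest_is_greatest (Nat.lt_succ_self _) (hb _ this) this
  refine ⟨_, g, ⟨fun χ ψ h => ?_, hg⟩, ?_⟩
  · exact div_eq_one.1 (key _ fun i => div_eq_one.2 (congrFun h i))
  · by_contra hc
    obtain ⟨χ, h1, h2⟩ := exists_char hG hc
    exact h1 (key χ fun i => h2 _ (Subgroup.subset_closure ⟨i, rfl⟩))

end Gen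

/-! ### Path integrals -/

section Path

variable {G ι M : Type} [Group G] [AddCommGroup M] (g : ι → G)

/-- the cocycle rule -/
def Coc (c : FreeGroup ι → G → M) : Prop :=
  ∀ w w' x, c (w * w') x = c w' x + c w (FreeGroup.lift g w' * x)

lemma exists_coc (a : ι → G → M) : ∃ c, Coc g c ∧ ∀ i x, c (.of i) x = a i x := by
  let σ : ι → Equiv.Perm (G × M) := fun i =>
    { toFun p := (g i * p.1, p.2 + a i p.1)
      invFun p := ((g i)⁻¹ * p.1, p.2 + -a i ((g i)⁻¹ * p.1))
      left_inv p := by simp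
      right_inv p := by simp }
  have key : ∀ w, ∃ c : G → M, ∀ x m,
      FreeGroup.lift σ w (x, m) = (FreeGroup.lift g w * x, m + c x) := fun w => by
    induction w with
    | C1 => exact ⟨0, by simp⟩
    | of i => exact ⟨a i, fun x m => by rw [FreeGroup.lift_apply_of, FreeGroup.lift_apply_of]; rfl⟩
    | inv_of i _ =>
      exact ⟨fun x => -a i ((g i)⁻¹ * x), fun x m => by
        rw [map_inv, map_inv, FreeGroup.lift_apply_of, FreeGroup.lift_apply_of]; rfl⟩
    | mul w w' h h' =>
      obtain ⟨c, h⟩ := h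
      obtain ⟨c', h'⟩ := h'
      exact ⟨fun x => c' x + c (FreeGroup.lift g w' * x), fun x m => by
        rw [map_mul, map_mul, Equiv.Perm.mul_apply, h', h, mul_assoc, add_assoc]⟩
  choose c hc using key
  refine ⟨c, fun w w' x => ?_, fun i x => ?_⟩
  · have := hc (w * w') x 0
    rw [map_mul, Equiv.Perm.mul_apply, hc, hc, zero_add, zero_add] at this
    exact (congrArg Prod.snd this).symm
  · have := hc (.of i) x 0
    rw [FreeGroup.lift_apply_of, zero_add] at this
    exact (congrArg Prod.snd this).symm.trans (zero_add _)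

variable {g}

lemma Coc.one {c : FreeGroup ι → G → M} (h : Coc g c) (x : G) : c 1 x = 0 := by
  simpa using h 1 1 x

lemma Coc.ext {c c' : FreeGroup ι → G → M} (h : Coc g c) (h' : Coc g c')
    (e : ∀ i x, c (.of i) x = c' (.of i) x) (w : FreeGroup ι) : ∀ x, c w x = c' w x := by
  induction w with
  | C1 => intro x; rw [h.one, h'.one]
  | of i => exact e i
  | inv_of i _ =>
    intro x
    have a := h (.of i) (FreeGroup.of i)⁻¹ x
    have b := h' (.of i) (FreeGroup.of i)⁻¹ x
    rw [mul_inv_cancel] at a b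
    rw [h.one, e] at a
    rw [h'.one] at b
    exact add_right_cancel (a.symm.trans b)
  | mul w w' a b => intro x; rw [h, h', a, b]

end Path

/-! ### The socle filtration -/

section Soc

variable {K G V W : Type} [Field K] [AddCommGroup V] [Module K V] [AddCommGroup W] [Module K W]

/-- the ascending filtration above `U` -/
def soc (ρ : G → V →ₗ[K] V) (U : Submodule K V) : ℕ → Submodule K V
  | 0 => U
  | k + 1 => ⨅ x, (soc ρ U k).comap (ρ x - 1)

variable {ρ : G → V →ₗ[K] V} {ρ' : G → W →ₗ[K] W} {U : Submodule K V} {U' : Submodule K W}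

lemma mem_succ {k : ℕ} {v : V} : v ∈ soc ρ U (k + 1) ↔ ∀ x, ρ x v - v ∈ soc ρ U k := by
  simp [soc]

lemma soc_map (f : V →ₗ[K] W) (hf : ∀ x v, f (ρ x v) = ρ' x (f v)) (h : ∀ v ∈ U, f v ∈ U')
    (k : ℕ) : ∀ v ∈ soc ρ U k, f v ∈ soc ρ' U' k := by
  induction k with
  | zero => exact h
  | succ k ih =>
    intro v hv
    exact mem_succ.2 fun x => by rw [← hf, ← map_sub]; exact ih _ (mem_succ.1 hv x)

lemma soc_comap (f : V →ₗ[K] W) (hf : ∀ x v, f (ρ x v) = ρ' x (f v)) (h : ∀ v, f v ∈ U' → v ∈ U)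
    (k : ℕ) : ∀ v, f v ∈ soc ρ' U' k → v ∈ soc ρ U k := by
  induction k with
  | zero => exact h
  | succ k ih =>
    intro v hv
    exact mem_succ.2 fun x => ih _ (by rw [map_sub, hf]; exact mem_succ.1 hv x)

lemma soc_shift (k : ℕ) : soc ρ (soc ρ U 1) k = soc ρ U (k + 1) := by
  induction k with
  | zero => rfl
  | succ k ih => rw [soc, ih]; rfl

lemma finrank_split [FiniteDimensional K V] (f : V →ₗ[K] W) (U : Submodule K V) :
    finrank K U = finrank K (U.map f) + finrank K (U ⊓ LinearMap.ker f : Submodule K V) := by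
  rw [← (f.domRestrict U).finrank_range_add_finrank_ker, LinearMap.range_domRestrict,
    LinearMap.ker_domRestrict, ← finrank_map_subtype_eq, map_comap_subtype]

variable [Group G]

/-- right translation -/
def tr (K ι : Type) [Field K] (x : G) : (ι → G → K) →ₗ[K] (ι → G → K) where
  toFun v i y := v i (y * x)
  map_add' _ _ := rfl
  map_smul' _ _ := rfl

lemma mem_pi {ι : Type} (k : ℕ) (v : ι → G → K) :
    v ∈ soc (tr K ι) ⊥ k ↔ ∀ i, (fun _ => v i) ∈ soc (tr K Unit) ⊥ k := by
  induction k generalizing v with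
  | zero => exact ⟨fun h i => funext fun _ => congrFun h i, fun h => funext fun i => congrFun (h i) ()⟩
  | succ k ih =>
    simp only [mem_succ, ih]
    exact forall_comm

lemma finrank_pi [Finite G] (n k : ℕ) : finrank K (soc (G := G) (tr K (Fin n)) ⊥ k) =
    n * finrank K (soc (G := G) (tr K Unit) ⊥ k) := by
  let e : soc (G := G) (tr K (Fin n)) ⊥ k ≃ₗ[K] Fin n → soc (G := G) (tr K Unit) ⊥ k :=
    { toFun v i := ⟨fun _ => v.1 i, (mem_pi k _).1 v.2 i⟩
      invFun w := ⟨fun i => (w i).1 (), (mem_pi k _).2 fun i => (w i).2⟩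
      map_add' _ _ := rfl
      map_smul' _ _ := rfl
      left_inv _ := rfl
      right_inv _ := rfl }
  rw [e.finrank_eq, finrank_pi_fintype]
  simp

variable (K) in
/-- the coboundary on the Cayley graph -/
def cob {ι : Type} (g : ι → G) : (Unit → G → K) →ₗ[K] (ι → G → K) where
  toFun f i y := f () (g i * y) - f () y
  map_add' _ _ := by funext i y; simp only [Pi.add_apply]; ring
  map_smul' _ _ := by funext i y; simp only [Pi.smul_apply, smul_eq_mul, RingHom.id_apply]; ring

lemma cob_tr {ι : Type} (g : ι → G) (x : G) (f : Unit → G → K) :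
    cob K g (tr K Unit x f) = tr K ι x (cob K g f) := by
  funext i y; simp [cob, tr, mul_assoc]

/-- the recursion for the dimensions -/
lemma step [Finite G] {d r : ℕ} {g : Fin d → G} (hg : Subgroup.closure (Set.range g) = ⊤)
    (h1 : ∀ a : Fin d → K, (fun i _ => a i) ∈ LinearMap.range (cob K g))
    (l : (Fin d → G → K) →ₗ[K] (Fin r → K)) (h2 : ∀ f, l (cob K g f) = 0)
    (h3 : ∀ v ∈ soc (tr K _) (LinearMap.range (cob K g)) 1, l v = 0 →
      v ∈ LinearMap.range (cob K g)) (k : ℕ) :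
    d * finrank K (soc (G := G) (tr K Unit) ⊥ (k + 1)) + 1 ≤
      r * finrank K (soc (G := G) (tr K Unit) ⊥ k) +
        finrank K (soc (G := G) (tr K Unit) ⊥ (k + 2)) := by
  let ψ : (Fin d → G → K) →ₗ[K] (Fin r → G → K) :=
    LinearMap.pi fun j => LinearMap.pi fun x => (LinearMap.proj j).comp (l.comp (tr K _ x))
  have e : ∀ x v, ψ (tr K _ x v) = tr K _ x (ψ v) := fun x v => by
    funext j y
    exact congrArg (fun u => l u j) (funext fun i => funext fun z => congrArg (v i) (mul_assoc ..))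
  have a0 : ∀ v ∈ LinearMap.range (cob K g), ψ v ∈ (⊥ : Submodule K (Fin r → G → K)) := by
    rintro _ ⟨f, rfl⟩
    funext j y
    exact (congrArg (fun u => l u j) (cob_tr g y f).symm).trans (congrFun (h2 _) j)
  have a1 : ∀ v ∈ soc (G := G) (tr K (Fin d)) ⊥ (k + 1),
      v ∈ soc (tr K _) (LinearMap.range (cob K g)) k := by
    rw [← soc_shift]
    refine soc_map (ρ := tr K _) (ρ' := tr K _) .id (fun _ _ => rfl) (fun v hv => ?_) k
    convert h1 fun i => v i 1 using 1
    funext i y
    simpa [tr, sub_eq_zero] using congrFun (congrFun (mem_succ.1 hv y) i) 1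
  have a2 : ∀ k, ∀ v ∈ soc (tr K _) (LinearMap.range (cob K g)) k, ψ v = 0 →
      v ∈ LinearMap.range (cob K g) := fun k => by
    induction k with
    | zero => exact fun v hv _ => hv
    | succ k ih =>
      refine fun v hv h0 => h3 v (mem_succ.2 fun x => ih _ (mem_succ.1 hv x) ?_) (funext fun j => ?_)
      · rw [map_sub, e, h0, map_zero, sub_zero]
      · refine Eq.trans ?_ (congrFun (congrFun h0 j) 1)
        exact congrArg (fun u => l u j) (funext fun i => funext fun z => congrArg (v i) (by simp))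
  have a3 : ∀ f, cob K g f ∈ (⊥ : Submodule K (Fin d → G → K)) → f ∈ soc (tr K Unit) ⊥ 1 := by
    intro f hf
    have : ∀ y ∈ Subgroup.closure (Set.range g), ∀ z, f () (y * z) = f () z := fun y hy => by
      induction hy using Subgroup.closure_induction with
      | mem _ h => obtain ⟨i, rfl⟩ := h; exact fun z => sub_eq_zero.1 (congrFun (congrFun hf i) z)
      | one => simp
      | mul _ _ _ _ a b => intro z; rw [mul_assoc, a, b]
      | inv _ _ a => intro z; rw [← a, mul_inv_cancel_left]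
    have c : ∀ y, f () y = f () 1 := fun y => by rw [← this y (hg ▸ trivial) 1, mul_one]
    exact mem_succ.2 fun x => funext fun _ => funext fun y => sub_eq_zero.2 ((c _).trans (c _).symm)
  have b1 := finrank_split ψ (soc (tr K _) ⊥ (k + 1))
  have b2 := finrank_split (cob K g) (soc (tr K _) ⊥ (k + 2))
  have b3 : finrank K ((soc (tr K _) ⊥ (k + 1)).map ψ) ≤ finrank K (soc (tr K (Fin r)) ⊥ k) :=
    finrank_mono (by rintro _ ⟨v, hv, rfl⟩; exact soc_map ψ e a0 k v (a1 v hv))
  have b4 : finrank K (soc (tr K _) ⊥ (k + 1) ⊓ LinearMap.ker ψ : Submodule K (Fin d → G → K)) ≤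
      finrank K ((soc (tr K _) ⊥ (k + 2)).map (cob K g)) := finrank_mono (by
    rintro v ⟨hv, h0⟩
    obtain ⟨f, rfl⟩ := a2 k v (a1 v hv) h0
    exact ⟨f, (soc_shift (k + 1)).le (soc_comap _ (cob_tr g) a3 _ f hv), rfl⟩)
  have b5 : 1 ≤ finrank K (soc (tr K _) ⊥ (k + 2) ⊓ LinearMap.ker (cob K g) :
      Submodule K (Unit → G → K)) := by
    rw [one_le_finrank_iff, Submodule.ne_bot_iff]
    refine ⟨1, ⟨mem_succ.2 fun x => ?_, funext fun i => funext fun y => sub_self _⟩, one_ne_zero⟩
    exact (sub_self (1 : Unit → G → K)).symm ▸ zero_mem _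
  rw [finrank_pi] at b1 b3
  omega

end Soc

lemma num {c : ℕ → ℕ} {d r N : ℕ} (h0 : c 0 = 0) (hN : ∀ k, c k ≤ N)
    (h : ∀ k, d * c (k + 1) + 1 ≤ r * c k + c (k + 2)) (hd : 2 ≤ d) : d ^ 2 < 4 * r := by
  by_contra hc
  have key : ∀ k, d * c k + 2 * k ≤ 2 * c (k + 1) := fun k => by
    induction k with
    | zero => simp [h0]
    | succ k ih =>
      have a := h k
      have b := Nat.mul_le_mul_left d ih
      have e := Nat.mul_le_mul_right (c k) (not_lt.1 hc)
      have f := Nat.mul_le_mul_right k hd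
      nlinarith
  have := key (N + 1)
  have := hN (N + 1 + 1)
  omega

/-- the sign attached to a residue -/
def sg (a : ZMod 2) : ℤˣ := if a = 0 then 1 else -1

/-- the residue attached to a sign -/
def lg (u : ℤˣ) : ZMod 2 := if u = 1 then 0 else 1

lemma sg_add : ∀ a b, sg (a + b) = sg a * sg b := by decide

lemma lg_sg : ∀ a, lg (sg a) = a := by decide

lemma lg_mul : ∀ u v, lg (u * v) - lg v = lg u := by decide

/-- the characters given by path integrals -/
lemma chars {G : Type} [Group G] {d : ℕ} {g : Fin d → G}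
    (hg : Function.Surjective (FreeGroup.lift g)) :
    ∃ φ : (Fin d → G → ZMod 2) → (FreeGroup.lift g).ker →* ℤˣ,
      (∀ v v', φ v = φ v' → v - v' ∈ LinearMap.range (cob (ZMod 2) g)) ∧
      ∀ v ∈ soc (tr (ZMod 2) _) (LinearMap.range (cob (ZMod 2) g)) 1,
        ∀ u (x y : (FreeGroup.lift g).ker), (y : FreeGroup (Fin d)) = u * x * u⁻¹ →
          φ v y = φ v x := by
  obtain ⟨c, hc, hc'⟩ := exists_coc (M := Dual (ZMod 2) (Fin d → G → ZMod 2)) g
    fun i x => ⟨⟨fun v => v i x, fun _ _ => rfl⟩, fun _ _ => rfl⟩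
  have c0 : ∀ v i x, c (.of i) x v = v i x := fun v i x => by rw [hc']; rfl
  have cv : ∀ v w w' x, c (w * w') x v = c w' x v + c w (FreeGroup.lift g w' * x) v :=
    fun v w w' x => by rw [hc]; rfl
  have c1 : ∀ v y w x, c w x (tr _ _ y v) = c w (x * y) v := fun v y =>
    Coc.ext (g := g) (cv _) (fun w w' x => by rw [cv, mul_assoc]) fun i x => by rw [c0, c0]; rfl
  have c2 : ∀ f w x, c w x (cob _ g f) = f () (FreeGroup.lift g w * x) - f () x := fun f =>
    Coc.ext (g := g) (cv _) (fun w w' x => by rw [map_mul, mul_assoc]; ring) fun i x => by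
      rw [c0, FreeGroup.lift_apply_of]; rfl
  refine ⟨fun v => MonoidHom.mk' (fun w => sg (c w 1 v)) fun w w' => by
    rw [Subgroup.coe_mul, cv, w'.2, mul_one, add_comm, sg_add], fun v v' h => ?_,
    fun v hv u x y hy => congrArg sg ?_⟩
  · choose t ht using hg
    have h0 : ∀ w ∈ (FreeGroup.lift g).ker, c w 1 (v - v') = 0 := fun w hw => by
      rw [map_sub, sub_eq_zero]
      exact (lg_sg _).symm.trans ((congrArg lg (DFunLike.congr_fun h ⟨w, hw⟩)).trans (lg_sg _))
    refine ⟨fun _ y => c (t y) 1 (v - v'), funext fun i => funext fun y => ?_⟩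
    have a3 : FreeGroup.lift g ((t (g i * y))⁻¹ * (.of i * t y)) = 1 := by simp [ht]
    have a1 := cv (v - v') (.of i) (t y) 1
    have a2 := cv (v - v') (t (g i * y)) ((t (g i * y))⁻¹ * (.of i * t y)) 1
    rw [mul_inv_cancel_left, h0 _ a3, a3, mul_one, zero_add] at a2
    rw [ht, mul_one, c0] at a1
    show c (t (g i * y)) 1 (v - v') - c (t y) 1 (v - v') = _
    rw [← a2, a1, add_sub_cancel_left]
  · obtain ⟨f, hf⟩ := mem_succ.1 hv (FreeGroup.lift g u⁻¹)
    have a1 := c2 f x 1
    have a2 := cv v u u⁻¹ 1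
    rw [hf, map_sub, c1, x.2, mul_one, one_mul, sub_self, sub_eq_zero] at a1
    rw [mul_inv_cancel, hc.one, mul_one, LinearMap.zero_apply] at a2
    rw [hy, cv, cv, x.2, mul_one, one_mul, a1]
    linear_combination -a2

lemma exists_fun {K V : Type} [Field K] [AddCommGroup V] [Module K V] [FiniteDimensional K V]
    (U W : Submodule K V) : ∃ (r : ℕ) (l : V →ₗ[K] (Fin r → K)), (∀ v ∈ U, l v = 0) ∧
      (∀ v ∈ W, l v = 0 → v ∈ U) ∧ ∀ a, ∃ v ∈ W, l v = a := by
  let e := (finBasis K (W.map U.mkQ)).equivFun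
  obtain ⟨l, hl⟩ := LinearMap.exists_extend e.toLinearMap
  have hl' : ∀ q : W.map U.mkQ, l q = e q := LinearMap.congr_fun hl
  refine ⟨_, l.comp U.mkQ, fun v hv => ?_, fun v hv h => ?_, fun a => ?_⟩
  · rw [LinearMap.comp_apply, mkQ_apply, (Submodule.Quotient.mk_eq_zero U).2 hv, map_zero]
  · exact (Submodule.Quotient.mk_eq_zero U).1
      (congrArg Subtype.val (e.map_eq_zero_iff.1 ((hl' ⟨_, v, hv, rfl⟩).symm.trans h)))
  · obtain ⟨v, hv, h⟩ := (e.symm a).2
    exact ⟨v, hv, by rw [LinearMap.comp_apply, h, hl', e.apply_symm_apply]⟩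

end GS

open GS Module in
theorem rowGS : RowGS := by
  classical
  intro G _ _ hG
  obtain ⟨d, g, hb, hg⟩ := exists_gen hG
  have hs : Function.Surjective (FreeGroup.lift g) := by
    rw [← MonoidHom.range_eq_top, FreeGroup.range_lift_eq_closure, hg]
  obtain ⟨r, l, h1, h2, h3⟩ := exists_fun (LinearMap.range (cob (ZMod 2) g))
    (soc (tr (ZMod 2) _) (LinearMap.range (cob (ZMod 2) g)) 1)
  obtain ⟨φ, h4, h5⟩ := chars hs
  choose s hs1 hs2 using h3
  refine ⟨d, r, ?_, num (finrank_bot _ _) (fun _ => Submodule.finrank_le _)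
    (step hg (fun a => ?_) l (fun f => h1 _ ⟨f, rfl⟩) h2), FreeGroup (Fin d), inferInstance,
    FreeGroup.lift g, hs, fun χ x hx => ?_, Finset.univ.image fun a => φ (s a), ?_, fun ψ hψ => ?_⟩
  · rw [Nat.card_eq_of_bijective _ hb]; simp
  · obtain ⟨χ, hχ⟩ := hb.2 fun i => sg (a i)
    refine ⟨fun _ y => lg (χ y), funext fun i => funext fun y => ?_⟩
    show lg (χ (g i * y)) - lg (χ y) = a i
    rw [map_mul, lg_mul, show χ (g i) = _ from congrFun hχ i, lg_sg]
  · obtain ⟨ψ, hψ⟩ := hb.2 fun i => χ (.of i)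
    have : χ = ψ.comp (FreeGroup.lift g) := FreeGroup.ext_hom _ _ fun i => by
      simpa using (congrFun hψ i).symm
    rw [this, MonoidHom.comp_apply, hx, map_one]
  · rw [Finset.card_image_of_injective _ fun a b h => ?_]
    · simp
    · have := h1 _ (h4 _ _ h)
      rwa [map_sub, hs2, hs2, sub_eq_zero] at this
  · obtain ⟨a, -, rfl⟩ := Finset.mem_image.1 hψ
    exact h5 _ (hs1 a)

end Pool.Agent.MP_542436_nt.H96
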