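import Pool.Agent.MP_542436_nt.H96.Spec
import Pool.Agent.MP_db5b97_nt.H79.UQ
import Pool.Agent.MP_db5b97_nt.H25.HQ

/-! The Herbrand quotient of the units of a totally real cyclic extension of prime degree. -/

namespace Pool.Agent.MP_542436_nt.H96.HN

open NumberField IsDedekindDomain Pool.Agent.MP_db5b97_nt Pool.Agent.MP_db5b97_nt.H85
open Pool.Agent.MP_db5b97_nt.H79

theorem rank_tr (F : Type) [Field F] [NumberField F] [IsTotallyReal F] :
    Units.rank F + 1 = Module.finrank ℚ F := by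
  rw [IsTotallyReal.finrank, Units.rank, Nat.sub_add_cancel Fintype.card_pos,
    InfinitePlace.card_eq_nrRealPlaces_add_nrComplexPlaces,
    IsTotallyReal.nrComplexPlaces_eq_zero, add_zero]

theorem uq (p : ℕ) (hp : p.Prime) (k F G : Type) [Field k] [NumberField k] [Field F]
    [NumberField F] [Algebra k F] [Group G] [MulSemiringAction G F] [IsGaloisGroup G k F] (σ : G)
    (l : ℕ) (E : AddSubgroup (Un F)) (hG : Nat.card G = p) (hσ : σ ≠ 1) (hi : IsTotallyReal F)
    (hE : ∀ x ∈ E, σ • x ∈ E) (hle : E ≤ Ru F l ⊓ (dv F l).ker)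
    (hidx : E.relIndex (Ru F l ⊓ (dv F l).ker) ≠ 0) :
    p * hs E (Df σ) (Nm σ p) = hs E (Nm σ p) (Df σ) ∧ hs E (Nm σ p) (Df σ) ≠ 0 := by
  have hHQ := H25.rowHQ
  rw [units_eq] at hle hidx
  have : Fact p.Prime := ⟨hp⟩
  have : Finite G := Nat.finite_of_card_ne_zero (hG ▸ hp.ne_zero)
  have hσp : σ ^ p = 1 := hG ▸ pow_card_eq_one'
  have hgen : ∀ s : G, ∃ n : ℕ, σ ^ n = s := fun s =>
    (mem_powers_iff_mem_zpowers.2 (mem_zpowers_of_prime_card hG hσ (g' := s)))
  have stab : ∀ B : AddSubgroup (Un F), (∀ x ∈ B, σ • x ∈ B) → ∀ s : G, ∀ x ∈ B, s • x ∈ B := by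
    intro B hB s x hx
    obtain ⟨n, rfl⟩ := hgen s
    induction n with
    | zero => simpa using hx
    | succ n ih => rw [pow_succ', mul_smul]; exact hB _ ih
  have stf : ∀ B : AddSubgroup (Un F), (∀ x ∈ B, σ • x ∈ B) → ∀ x ∈ B, Df σ x ∈ B :=
    fun B hB x hx => sub_mem (hB x hx) hx
  have stg : ∀ B : AddSubgroup (Un F), (∀ x ∈ B, σ • x ∈ B) → ∀ x ∈ B, Nm σ p x ∈ B :=
    fun B hB x hx => by
      rw [Nm_apply]
      exact sum_mem fun j _ => stab B hB _ x hx
  set n := Units.torsionOrder F with hn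
  have hn0 : n ≠ 0 := Units.torsionOrder_ne_zero F
  set A : AddSubgroup (Un F) := E.map (nsmulAddMonoidHom n) with hA
  have hAE : A ≤ E := by
    rintro _ ⟨x, hx, rfl⟩
    exact nsmul_mem hx n
  have hAs : ∀ x ∈ A, σ • x ∈ A := by
    rintro _ ⟨x, hx, rfl⟩
    exact ⟨σ • x, hE x hx, (smul_comm σ n x).symm⟩
  have hEf : Module.Finite ℤ E :=
    fin_of (io F) E.subtype (io_inj F) E.subtype_injective (by rwa [E.range_subtype])
  have hEfg : E.FG := (AddGroup.fg_iff_addSubgroup_fg E).1 (Module.Finite.iff_addGroup_fg.1 hEf)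
  have hAi : A.relIndex E ≠ 0 :=
    (AddSubgroup.isFiniteRelIndex_map_nsmulAddMonoidHom_of_fg hEfg hn0).relIndex_ne_zero
  have hAU : A.relIndex (io F).range ≠ 0 := AddSubgroup.relIndex_ne_zero_trans hAi hidx
  have : Module.Finite ℤ A :=
    fin_of (io F) A.subtype (io_inj F) A.subtype_injective
      (by rw [A.range_subtype]; exact hAE.trans hle)
  have : IsAddTorsionFree A := by
    refine ⟨fun m hm a b hab => ?_⟩
    obtain ⟨x, hx, hx'⟩ := (a - b).2
    have h0 : m • (a - b) = 0 := by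
      rw [smul_sub]
      exact sub_eq_zero.2 hab
    have h1 : (m * n) • x = 0 := by
      rw [mul_smul]
      have := congrArg Subtype.val h0
      rw [AddSubgroup.coe_nsmul, ← hx'] at this
      exact this
    have h2 := tors F (hle hx) (mul_ne_zero hm hn0) h1
    exact sub_eq_zero.1 (Subtype.ext (hx'.symm.trans h2))
  let : DistribMulAction G A := subAct A (stab A hAs)
  have cs : ∀ (s : G) (x : A), ((s • x : A) : Un F) = s • (x : Un F) := fun _ _ => rfl
  have : SMulCommClass G ℤ A := ⟨fun s m x => (DistribSMul.toAddMonoidHom A s).map_zsmul m x⟩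
  have cf : ∀ x : A, ((Df σ x : A) : Un F) = Df σ (x : Un F) := fun _ => rfl
  have cg : ∀ x : A, ((Nm σ p x : A) : Un F) = Nm σ p (x : Un F) := fun x => by
    rw [Nm_apply, Nm_apply, AddSubgroup.val_finsetSum]
    rfl
  set Φ : Submodule ℤ A := (Df σ : A →+ A).ker.toIntSubmodule with hΦ
  have hΦm : ∀ x, x ∈ Φ ↔ σ • x = x := fun x => sub_eq_zero
  obtain ⟨-, q2, q3⟩ := hHQ p hp ℤ A G σ Φ
    (by rw [Nat.card_congr (Int.quotientSpanNatEquivZMod p).toEquiv, Nat.card_zmod])
    (fun x => by rw [hσp, one_smul]) hΦm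
  rw [hc_sub A _ _ _ _ cg cf] at q2 q3
  rw [hc_sub A _ _ _ _ cf cg] at q3
  have r1 : Module.finrank ℤ A = Units.rank F := by
    rw [← Units.finrank_eq]
    exact rank_of (io F) A.subtype (io_inj F) A.subtype_injective
      (by rw [A.range_subtype]; exact hAE.trans hle) (by rwa [A.range_subtype])
  have r2 : Module.finrank ℤ Φ = Units.rank k := by
    rw [← Units.finrank_eq]
    have hinc : Function.Injective (Un.inc k F) := fun x y h =>
      Un.ext ((algebraMap k F).injective (by rw [← Un.val_inc, ← Un.val_inc, h]))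
    have hr : (A.subtype.comp Φ.subtype.toAddMonoidHom).range = A ⊓ (Df σ).ker := by
      ext y
      constructor
      · rintro ⟨x, rfl⟩
        exact ⟨x.1.2, (cf x.1).symm.trans (congrArg Subtype.val x.2)⟩
      · rintro ⟨h1, h2⟩
        exact ⟨⟨⟨y, h1⟩, Subtype.ext h2⟩, rfl⟩
    have hk : ((Un.inc k F).comp (io k)).range = (io F).range ⊓ (Df σ).ker := by
      ext y
      constructor
      · rintro ⟨u, rfl⟩
        obtain ⟨h1, h2⟩ := (mem_io k).1 ⟨u, rfl⟩
        refine ⟨(mem_io F).2 ⟨h1.algebraMap, ?_⟩, sub_eq_zero.2 (Un.ext ?_)⟩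
        · show IsIntegral ℤ (algebraMap k F (io k u).val)⁻¹
          rw [← map_inv₀]
          exact h2.algebraMap
        · exact smul_algebraMap σ _
      · rintro ⟨h1, h2⟩
        have h3 : σ • y = y := sub_eq_zero.1 h2
        have h4 : ∀ s : G, s • y.val = y.val := by
          intro s
          obtain ⟨m, rfl⟩ := hgen s
          induction m with
          | zero => simp
          | succ m ih => rw [pow_succ, mul_smul, ← Un.val_smul σ, h3, ih]
        obtain ⟨z, hz⟩ := Algebra.IsInvariant.isInvariant (A := k) (G := G) y.val h4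
        have hz0 : z ≠ 0 := fun h => y.val_ne (by rw [← hz, h, map_zero])
        obtain ⟨a1, a2⟩ := (mem_io F).1 h1
        rw [← hz] at a1 a2
        rw [← map_inv₀] at a2
        obtain ⟨u, hu⟩ := (mem_io k (x := Un.mk z hz0)).2
          ⟨(isIntegral_algebraMap_iff (algebraMap k F).injective).1 a1,
            (isIntegral_algebraMap_iff (algebraMap k F).injective).1 a2⟩
        refine ⟨u, Un.ext ?_⟩
        show algebraMap k F (io k u).val = y.val
        rw [hu, ← hz]
        rfl
    refine rank_of ((Un.inc k F).comp (io k)) (A.subtype.comp Φ.subtype.toAddMonoidHom)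
      (hinc.comp (io_inj k)) (A.subtype_injective.comp Φ.subtype_injective) ?_ ?_
    · rw [hr, hk]
      exact inf_le_inf_right _ (hAE.trans hle)
    · rw [hr, hk, ← AddSubgroup.inf_relIndex_right, inf_assoc, inf_comm (Df σ).ker, inf_assoc,
        inf_idem, AddSubgroup.inf_relIndex_right]
      exact fun h => hAU (AddSubgroup.relIndex_eq_zero_of_le_right inf_le_left h)
  have : IsTotallyReal k := IsTotallyReal.of_algebra k F
  have d1 := rank_tr k
  have d2 := rank_tr F
  rw [← Module.finrank_mul_finrank ℚ k F, ← IsGaloisGroup.card_eq_finrank G k F, hG, ← d1] at d2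
  have d3 : Units.rank F = p * Units.rank k + (p - 1) := by
    have := hp.one_le
    zify [this] at d2 ⊢
    linarith
  rw [r1, r2, d3, pow_add] at q3
  have q4 : (p * hs A (Df σ) (Nm σ p)) ^ (p - 1) = hs A (Nm σ p) (Df σ) ^ (p - 1) := by
    refine Nat.eq_of_mul_eq_mul_right (pow_pos hp.pos (p * Units.rank k)) ?_
    rw [← q3]
    ring
  have q5 := Nat.pow_left_injective (Nat.sub_ne_zero_of_lt hp.one_lt) q4
  exact hs_up p A E hAE hAi _ _ (Df_Nm σ p hσp) (Nm_Df σ p hσp) (stf A hAs) (stg A hAs)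
    (stf E hE) (stg E hE) q5 q2

end Pool.Agent.MP_542436_nt.H96.HN
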