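import Pool.Agent.MP_542436_nt.H96.Spec

/-! The choice of the parameters with a field of degree about `log p`. -/

namespace Pool.Agent.MP_542436_nt.H96.P1

open NumberField

theorem count (n T D m : ℕ) (C Λ p Q t C' Y E ch : ℝ) (hD : 1 ≤ D) (hm : 1 ≤ m)
    (hn : n + 1 = D + m) (hT : n ≤ T) (hnΛ : (n : ℝ) ≤ Λ) (hC : 0 ≤ C) (hC' : 1 ≤ C')
    (hp : 0 ≤ p) (hQ : 0 ≤ Q) (hE : 0 < E) (ht0 : 0 ≤ t) (hY0 : 0 ≤ Y)
    (hch : ch * (2 * T) * (n : ℝ) ^ n ≤ n * (2 * E * T) ^ n)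
    (ht : 16 * E ^ 2 * C' * T ≤ D * t) (hY : (t / 2) ^ (D - 1) ≤ Y * C' ^ D)
    (hT2 : C * Λ ^ 6 * p * (m : ℝ) ^ m * Q * (1 / (4 * E)) ^ n ≤ T) :
    C * Λ ^ 5 * ch * p * Q ≤ Y * (t / m) ^ m := by
  have hDn : D ≤ n := by omega
  have hn1 : 1 ≤ n := by omega
  have hnR : (0 : ℝ) < n := by exact_mod_cast hn1
  have hTR : (0 : ℝ) < T := by exact_mod_cast (by omega : 0 < T)
  have hmR : (0 : ℝ) < m := by exact_mod_cast hm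
  have hΛ : 0 < Λ := hnR.trans_le hnΛ
  have hC0 : 0 < C' := by linarith
  have hmm : (0 : ℝ) < (m : ℝ) ^ m := pow_pos hmR m
  have hnn : (0 : ℝ) < (n : ℝ) ^ n := pow_pos hnR n
  rw [div_pow, ← mul_div_assoc, le_div_iff₀ hmm]
  have s1 : C * Λ ^ 5 * ch * p * Q * (m : ℝ) ^ m ≤ (8 * E ^ 2 * T / n) ^ n := by
    rw [div_pow, le_div_iff₀ hnn]
    refine le_of_mul_le_mul_right ?_ (show (0 : ℝ) < 2 * T by positivity)
    have hB : 0 ≤ C * Λ ^ 5 * p * Q * (m : ℝ) ^ m := by positivity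
    have e1 : (2 * E * T) ^ n = (1 / (4 * E)) ^ n * (8 * E ^ 2 * T) ^ n := by
      rw [← mul_pow]; congr 1; field_simp; ring
    have hW : (0 : ℝ) ≤ (8 * E ^ 2 * T) ^ n := by positivity
    have hZ : (0 : ℝ) ≤ (2 * E * T) ^ n := by positivity
    calc C * Λ ^ 5 * ch * p * Q * (m : ℝ) ^ m * (n : ℝ) ^ n * (2 * T)
        = C * Λ ^ 5 * p * Q * (m : ℝ) ^ m * (ch * (2 * T) * (n : ℝ) ^ n) := by ring
      _ ≤ C * Λ ^ 5 * p * Q * (m : ℝ) ^ m * (n * (2 * E * T) ^ n) :=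
          mul_le_mul_of_nonneg_left hch hB
      _ ≤ C * Λ ^ 5 * p * Q * (m : ℝ) ^ m * (Λ * (2 * E * T) ^ n) :=
          mul_le_mul_of_nonneg_left (mul_le_mul_of_nonneg_right hnΛ hZ) hB
      _ = C * Λ ^ 6 * p * (m : ℝ) ^ m * Q * (1 / (4 * E)) ^ n * (8 * E ^ 2 * T) ^ n := by
          rw [e1]; ring
      _ ≤ T * (8 * E ^ 2 * T) ^ n := mul_le_mul_of_nonneg_right hT2 hW
      _ ≤ (8 * E ^ 2 * T) ^ n * (2 * T) := by nlinarith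
  have s2 : 8 * E ^ 2 * T / n ≤ t / 2 / C' := by
    rw [div_le_div_iff₀ hnR hC0]
    have : (D : ℝ) * t ≤ n * t := mul_le_mul_of_nonneg_right (by exact_mod_cast hDn) ht0
    linarith
  have s3 : (t / 2 / C') ^ n ≤ Y * t ^ m := by
    rw [div_pow, div_le_iff₀ (pow_pos hC0 n)]
    have e2 : n = (D - 1) + m := by omega
    have h1 : (t / 2) ^ m ≤ t ^ m := pow_le_pow_left₀ (by positivity) (by linarith) m
    have h2 : C' ^ D ≤ C' ^ n := pow_le_pow_right₀ hC' hDn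
    calc (t / 2) ^ n = (t / 2) ^ (D - 1) * (t / 2) ^ m := by rw [← pow_add, ← e2]
      _ ≤ (Y * C' ^ D) * t ^ m := mul_le_mul hY h1 (by positivity) (by positivity)
      _ ≤ (Y * C' ^ n) * t ^ m :=
          mul_le_mul_of_nonneg_right (mul_le_mul_of_nonneg_left h2 hY0) (by positivity)
      _ = Y * t ^ m * C' ^ n := by ring
  exact s1.trans ((pow_le_pow_left₀ (by positivity) s2 n).trans s3)

theorem size (C H Λ X T : ℝ) (hC : 1 ≤ C) (hH : 1 ≤ H) (hΛ : Λ = (6 + 368640 * C) * H ^ 2)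
    (hX : X ≤ Real.exp (3 * H ^ 2)) (hT : T ≤ C * Λ ^ 6 * X + C * Λ ^ 3 + 2) :
    T ≤ Real.exp Λ := by
  have hH2 : 1 ≤ H ^ 2 := one_le_pow₀ hH
  have hΛ1 : 1 ≤ Λ := by rw [hΛ]; nlinarith
  have h6 : 1 ≤ Λ ^ 6 := one_le_pow₀ hΛ1
  have h36 : Λ ^ 3 ≤ Λ ^ 6 := pow_le_pow_right₀ hΛ1 (by norm_num)
  have hG : 1 ≤ Real.exp (3 * H ^ 2) := Real.one_le_exp (by positivity)
  have hA : 1 ≤ C * Λ ^ 6 := by nlinarith
  have h1 : T ≤ 4 * (C * Λ ^ 6) * Real.exp (3 * H ^ 2) := by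
    have a1 : C * Λ ^ 6 * X ≤ C * Λ ^ 6 * Real.exp (3 * H ^ 2) :=
      mul_le_mul_of_nonneg_left hX (by linarith)
    have a2 : C * Λ ^ 3 ≤ C * Λ ^ 6 := mul_le_mul_of_nonneg_left h36 (by linarith)
    have a3 : C * Λ ^ 6 ≤ C * Λ ^ 6 * Real.exp (3 * H ^ 2) := by nlinarith
    linarith
  have h2 : Λ ^ 6 ≤ 46080 * Real.exp (Λ / 2) := by
    have := Real.pow_div_factorial_le_exp (Λ / 2) (by linarith) 6
    rw [div_le_iff₀ (by positivity), div_pow] at this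
    norm_num [Nat.factorial] at this
    linarith
  have h3 : 184320 * C ≤ Real.exp (184320 * C * H ^ 2) := by
    have := Real.add_one_le_exp (184320 * C * H ^ 2)
    nlinarith
  have e : Real.exp Λ =
      Real.exp (Λ / 2) * Real.exp (184320 * C * H ^ 2) * Real.exp (3 * H ^ 2) := by
    rw [← Real.exp_add, ← Real.exp_add]; congr 1; rw [hΛ]; ring
  rw [e]
  refine h1.trans (mul_le_mul_of_nonneg_right ?_ (by positivity))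
  have h4 : 0 < Real.exp (Λ / 2) := Real.exp_pos _
  calc 4 * (C * Λ ^ 6) ≤ 4 * (C * (46080 * Real.exp (Λ / 2))) := by gcongr
    _ = Real.exp (Λ / 2) * (184320 * C) := by ring
    _ ≤ _ := mul_le_mul_of_nonneg_left h3 h4.le

theorem fin (n : ℕ) (C Λ p q M Q T E : ℝ) (hC : 1 ≤ C) (hΛ : 1 ≤ Λ) (hE : 0 < E) (hM : 1 ≤ M)
    (hQ : 1 / 2 ≤ Q) (h1 : p * (1 / E) ^ n ≤ 2 * q) (h2 : (4 : ℝ) ^ n ≤ q)
    (hT : T ≤ C * Λ ^ 6 * (p * M * Q * (1 / (4 * E)) ^ n) + C * Λ ^ 3 + 2) :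
    C * 4 ^ n * Λ ^ 6 * T ≤ 8 * C ^ 2 * Λ ^ 12 * M * q * Q := by
  have h6 : 1 ≤ Λ ^ 6 := one_le_pow₀ hΛ
  have h36 : Λ ^ 3 ≤ Λ ^ 6 := pow_le_pow_right₀ hΛ (by norm_num)
  have hA : 1 ≤ C * Λ ^ 6 := by nlinarith
  have a2 : C * Λ ^ 3 ≤ C * Λ ^ 6 := mul_le_mul_of_nonneg_left h36 (by linarith)
  have h4 : (0 : ℝ) < 4 ^ n := by positivity
  have hq : 0 < q := h4.trans_le h2
  have e1 : (4 : ℝ) ^ n * (1 / (4 * E)) ^ n = (1 / E) ^ n := by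
    rw [← mul_pow]; congr 1; field_simp
  have hMQ : 1 / 2 ≤ M * Q := by nlinarith
  have b1 : (4 : ℝ) ^ n * (p * M * Q * (1 / (4 * E)) ^ n) ≤ 2 * q * (M * Q) := by
    calc (4 : ℝ) ^ n * (p * M * Q * (1 / (4 * E)) ^ n)
        = p * (4 ^ n * (1 / (4 * E)) ^ n) * (M * Q) := by ring
      _ ≤ 2 * q * (M * Q) := by
          rw [e1]; exact mul_le_mul_of_nonneg_right h1 (by linarith)
  have b2 : (4 : ℝ) ^ n * 3 ≤ 6 * q * (M * Q) := by nlinarith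
  have b3 : T ≤ C * Λ ^ 6 * (p * M * Q * (1 / (4 * E)) ^ n + 3) := by linarith
  calc C * 4 ^ n * Λ ^ 6 * T = C * Λ ^ 6 * (4 ^ n * T) := by ring
    _ ≤ C * Λ ^ 6 * (4 ^ n * (C * Λ ^ 6 * (p * M * Q * (1 / (4 * E)) ^ n + 3))) := by gcongr
    _ = (C * Λ ^ 6) ^ 2 * (4 ^ n * (p * M * Q * (1 / (4 * E)) ^ n) + 4 ^ n * 3) := by ring
    _ ≤ (C * Λ ^ 6) ^ 2 * (2 * q * (M * Q) + 6 * q * (M * Q)) := by gcongr
    _ = 8 * C ^ 2 * Λ ^ 12 * M * q * Q := by ring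

theorem prod_log_le (P : Finset ℕ) :
    ∏ r ∈ P, Real.log r ≤ Real.exp (∑ r ∈ P, Real.log r) := by
  rw [Real.exp_sum]
  refine Finset.prod_le_prod (fun r _ => Real.log_natCast_nonneg r) fun r _ => ?_
  linarith [Real.add_one_le_exp (Real.log r)]

theorem pow_self_le (m : ℕ) (H : ℝ) (h : (m : ℝ) ≤ H) : (m : ℝ) ^ m ≤ Real.exp (H ^ 2) := by
  have h0 : (0 : ℝ) ≤ m := Nat.cast_nonneg m
  calc (m : ℝ) ^ m ≤ Real.exp H ^ m :=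
        pow_le_pow_left₀ h0 (by linarith [Real.add_one_le_exp H]) m
    _ = Real.exp (m * H) := (Real.exp_nat_mul H m).symm
    _ ≤ Real.exp (H ^ 2) := Real.exp_le_exp.2 (by nlinarith)

theorem jpar (κ g : ℝ) (hg0 : 0 < g) (hκg : 8192 * g ≤ κ) :
    ∃ j : ℕ, 13 ≤ j ∧ 2 ^ j * g ≤ κ ∧ κ ≤ 2 * 2 ^ j * g := by
  obtain ⟨j, hj1, hj2⟩ := exists_nat_pow_near (x := κ / g) (y := (2 : ℝ))
    (by rw [le_div_iff₀ hg0]; linarith) (by norm_num)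
  refine ⟨j, ?_, (le_div_iff₀ hg0).1 hj1, ?_⟩
  · have h1 : (2 : ℝ) ^ 13 < 2 ^ (j + 1) := by
      refine lt_of_le_of_lt ?_ hj2
      rw [le_div_iff₀ hg0]; norm_num; linarith
    have := (pow_lt_pow_iff_right₀ (by norm_num : (1 : ℝ) < 2)).1 h1
    omega
  · rw [div_lt_iff₀ hg0, pow_succ] at hj2; linarith

theorem Tpar (C Λ X : ℝ) (hC : 1 ≤ C) (hΛ1 : 1 ≤ Λ) (hX0 : 0 ≤ X) :
    ∃ T : ℕ, C * Λ ^ 6 * X ≤ T ∧ C * Λ ^ 3 ≤ T ∧ Λ ≤ T ∧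
      (T : ℝ) ≤ C * Λ ^ 6 * X + C * Λ ^ 3 + 2 := by
  have hA0 : 0 ≤ C * Λ ^ 6 * X := by positivity
  have hB0 : 0 ≤ C * Λ ^ 3 := by positivity
  have hΛ3 : Λ ≤ C * Λ ^ 3 := by
    have : Λ ≤ Λ ^ 3 := le_self_pow₀ hΛ1 (by norm_num)
    nlinarith
  have a1 := Nat.le_ceil (C * Λ ^ 6 * X)
  have a2 := Nat.le_ceil (C * Λ ^ 3)
  have a3 := Nat.ceil_lt_add_one hA0
  have a4 := Nat.ceil_lt_add_one hB0
  refine ⟨⌈C * Λ ^ 6 * X⌉₊ + ⌈C * Λ ^ 3⌉₊, ?_, ?_, ?_, ?_⟩ <;> push_cast <;> linarith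

theorem tpar (n D T : ℕ) (κ E C' g : ℝ) (hg : g = 20736 * E ^ 2 * C') (hE4 : 4 ≤ E ^ 2)
    (hC' : 1 ≤ C') (hD : 1 ≤ D) (hDT : (D : ℝ) ≤ T) (hng : (n + 1 : ℝ) * g ≤ 2 * κ) :
    ∃ (t : ℝ) (M : ℕ), 648 * (n + 1) * D * t = κ * T ∧ 1 ≤ t ∧ 16 * E ^ 2 * C' * T ≤ D * t ∧
      1 ≤ M ∧ t / 2 ≤ M ∧ C' * Real.exp M ≤ Real.exp t := by
  have hDR1 : (1 : ℝ) ≤ D := by exact_mod_cast hD
  have hT0 : (0 : ℝ) ≤ T := Nat.cast_nonneg T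
  obtain ⟨t, ht⟩ : ∃ t, t = κ * T / (648 * (n + 1) * D) := ⟨_, rfl⟩
  have ht1 : 648 * (n + 1) * D * t = κ * T := by rw [ht]; field_simp
  have ht2 : 16 * E ^ 2 * C' * T ≤ D * t := by
    refine le_of_mul_le_mul_left ?_ (show (0 : ℝ) < 648 * (n + 1) by positivity)
    have h1 : (n + 1 : ℝ) * g * T ≤ 2 * κ * T := mul_le_mul_of_nonneg_right hng hT0
    rw [hg] at h1
    linarith
  have ht3 : 64 * C' ≤ t := by
    refine le_of_mul_le_mul_left ?_ (show (0 : ℝ) < D by linarith)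
    have h1 : 64 * C' ≤ 16 * E ^ 2 * C' := by nlinarith
    have h2 : 64 * C' * D ≤ 16 * E ^ 2 * C' * T := mul_le_mul h1 hDT (by linarith) (by positivity)
    linarith
  have hlC : Real.log C' ≤ C' - 1 := Real.log_le_sub_one_of_pos (by linarith)
  obtain ⟨M, hM⟩ : ∃ M : ℕ, M = ⌊t - Real.log C'⌋₊ := ⟨_, rfl⟩
  have hMu : (M : ℝ) ≤ t - Real.log C' := by rw [hM]; exact Nat.floor_le (by linarith)
  have hMl : t / 2 ≤ M := by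
    have := Nat.lt_floor_add_one (t - Real.log C')
    rw [← hM] at this
    linarith
  have hM1 : 1 ≤ M := by
    have : (1 : ℝ) ≤ M := by linarith
    exact_mod_cast this
  refine ⟨t, M, ht1, by linarith, ht2, hM1, hMl, ?_⟩
  rw [← Real.exp_log (show 0 < C' by linarith), ← Real.exp_add]
  exact Real.exp_le_exp.2 (by linarith)

theorem sav (n : ℕ) (p κ g D : ℝ) (hp0 : 0 < p) (hκ : κ = Real.log p - Real.log 2) (hg : 8 ≤ g)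
    (hDl : κ ≤ 2 * D * g) (hDn : D ≤ n) (hng : (n + 1 : ℝ) * g ≤ 2 * κ) :
    p * (1 / Real.exp 1) ^ n ≤ 2 * p ^ (1 - 1 / (2 * g)) ∧ (4 : ℝ) ^ n ≤ p ^ (1 - 1 / (2 * g)) := by
  have hl2 : 0 < Real.log 2 := Real.log_pos (by norm_num)
  have hn0 : (0 : ℝ) ≤ n := Nat.cast_nonneg n
  obtain ⟨δ, hδ⟩ : ∃ δ, δ = 1 / (2 * g) := ⟨_, rfl⟩
  have hg0 : 0 < g := by linarith
  have hδg : δ * (2 * g) = 1 := by rw [hδ]; field_simp
  have hδ0 : 0 < δ := by rw [hδ]; positivity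
  have hδ1 : δ ≤ 1 / 2 := by nlinarith
  rw [← hδ, Real.rpow_def_of_pos hp0]
  have hlp : Real.log p = κ + Real.log 2 := by linarith
  have hκδ : κ * δ ≤ n := by
    have : κ * δ ≤ 2 * D * g * δ := mul_le_mul_of_nonneg_right hDl hδ0.le
    have e : 2 * D * g * δ = D * (δ * (2 * g)) := by ring
    rw [e, hδg] at this
    linarith
  have a2 : 4 * (n : ℝ) ≤ κ := by nlinarith
  have a3 : Real.log 2 * δ ≤ Real.log 2 := by nlinarith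
  have a4 : κ * δ ≤ κ / 2 := by nlinarith
  constructor
  · have e1 : (1 / Real.exp 1) ^ n = Real.exp (-n) := by
      rw [one_div, ← Real.exp_neg, ← Real.exp_nat_mul]; congr 1; ring
    have e2 : 2 * Real.exp (Real.log p * (1 - δ)) =
        Real.exp (Real.log 2 + Real.log p * (1 - δ)) := by
      rw [Real.exp_add, Real.exp_log (by norm_num)]
    have e3 : (p : ℝ) * Real.exp (-n) = Real.exp (Real.log p + -n) := by
      rw [Real.exp_add, Real.exp_log hp0]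
    rw [e1, e2, e3, hlp]
    exact Real.exp_le_exp.2 (by linarith)
  · have a1 : (4 : ℝ) ≤ Real.exp 2 := by
      have : Real.exp 2 = Real.exp 1 ^ 2 := by rw [← Real.exp_nat_mul]; norm_num
      have := Real.add_one_le_exp (1 : ℝ)
      nlinarith
    calc (4 : ℝ) ^ n ≤ Real.exp 2 ^ n := pow_le_pow_left₀ (by norm_num) a1 n
      _ = Real.exp (n * 2) := (Real.exp_nat_mul 2 n).symm
      _ ≤ _ := by
          rw [hlp]
          exact Real.exp_le_exp.2 (by linarith)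

theorem Xle (n : ℕ) (p M Q E H : ℝ) (hH : 1 ≤ H) (hE : 2 ≤ E) (hM0 : 0 ≤ M)
    (hQ0 : 0 ≤ Q) (hp : p ≤ Real.exp H) (hM : M ≤ Real.exp (H ^ 2)) (hQ : Q ≤ Real.exp H) :
    p * M * Q * (1 / (4 * E)) ^ n ≤ Real.exp (3 * H ^ 2) := by
  have hθ1 : (1 / (4 * E)) ^ n ≤ (1 : ℝ) :=
    pow_le_one₀ (by positivity) (by rw [div_le_one (by positivity)]; linarith)
  have hH2 : H ≤ H ^ 2 := by nlinarith
  calc p * M * Q * (1 / (4 * E)) ^ n ≤ Real.exp H * Real.exp (H ^ 2) * Real.exp H * 1 := by gcongr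
    _ = Real.exp (H + H ^ 2 + H) := by rw [mul_one, ← Real.exp_add, ← Real.exp_add]
    _ ≤ _ := Real.exp_le_exp.2 (by linarith)

theorem small (n D m : ℕ) (κ g H Λ C3 lp : ℝ) (hg : 8 ≤ g) (hH : 1 ≤ H) (hC3 : 6 ≤ C3)
    (hΛ : Λ = C3 * H ^ 2) (hn : n + 1 = D + m) (hκ : κ = lp - Real.log 2) (hκg : 8192 * g ≤ κ)
    (hlp : lp ≤ H) (hDu : D * g ≤ κ) (hm : (m : ℝ) ≤ 1 / (2 * g) * lp) :
    (n + 1 : ℝ) * g ≤ 2 * κ ∧ 1 ≤ κ ∧ κ ≤ Λ ∧ (n + 1 : ℝ) ≤ Λ ∧ 1 ≤ Λ ∧ (D : ℝ) ≤ Λ ∧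
      (D : ℝ) ≤ Real.exp H ∧ H ≤ Real.exp H ∧ Real.exp H * Real.exp H ≤ Real.exp Λ := by
  have hl2 : 0 < Real.log 2 := Real.log_pos (by norm_num)
  have hl2' : Real.log 2 ≤ 1 := by
    linarith [Real.log_le_sub_one_of_pos (show (0 : ℝ) < 2 by norm_num)]
  have hmu : m * g ≤ κ := by
    rw [div_mul_eq_mul_div, le_div_iff₀ (by positivity)] at hm
    linarith
  have hnR : (n : ℝ) + 1 = D + m := by exact_mod_cast hn
  have hn0 : (0 : ℝ) ≤ n := Nat.cast_nonneg n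
  have hm0 : (0 : ℝ) ≤ m := Nat.cast_nonneg m
  have hng : (n + 1 : ℝ) * g ≤ 2 * κ := by rw [hnR]; linarith
  have hnκ : (n + 1 : ℝ) ≤ κ := by nlinarith
  have hH2 : H ≤ H ^ 2 := by nlinarith
  have hΛH : 6 * H ≤ Λ := by rw [hΛ]; nlinarith
  have hHe : H ≤ Real.exp H := by linarith [Real.add_one_le_exp H]
  refine ⟨hng, by linarith, by linarith, by linarith, by linarith, by linarith, by linarith, hHe, ?_⟩
  rw [← Real.exp_add]; exact Real.exp_le_exp.2 (by linarith)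

theorem last (C C3 G H M q Q Z : ℝ) (hG : 0 ≤ G) (hM : 0 ≤ M) (hq : 0 ≤ q) (hQ : 0 ≤ Q)
    (h : Z ≤ 8 * C ^ 2 * (C3 * H ^ 2) ^ 12 * M * q * Q) :
    Z ≤ (8 * C ^ 2 * C3 ^ 12 + G) * M * q * Q * H ^ 24 := by
  have : 0 ≤ G * M * q * Q * H ^ 24 := by positivity
  calc Z ≤ _ := h
    _ = 8 * C ^ 2 * C3 ^ 12 * M * q * Q * H ^ 24 := by ring
    _ ≤ _ := by linarith

theorem start (C C' E g C3 p : ℝ) (hC' : 1 ≤ C') (hE2 : 2 ≤ E) (hg : g = 20736 * E ^ 2 * C') :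
    4 ≤ E ^ 2 ∧ 8 ≤ g ∧ 1 ≤ 8 * C ^ 2 * C3 ^ 12 + 4 * Real.exp (8192 * g) ∧
      (8 * C ^ 2 * C3 ^ 12 + 4 * Real.exp (8192 * g) ≤ p →
        4 ≤ p ∧ 2 * Real.exp (Real.log p - Real.log 2) = p ∧ 8192 * g ≤ Real.log p - Real.log 2) := by
  have hE4 : 4 ≤ E ^ 2 := by nlinarith
  have hg1 : 8 ≤ g := by rw [hg]; nlinarith
  have hF0 : 0 ≤ 8 * C ^ 2 * C3 ^ 12 := by positivity
  have hX1 : 1 ≤ Real.exp (8192 * g) := Real.one_le_exp (by positivity)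
  refine ⟨hE4, hg1, by linarith, fun h => ?_⟩
  have hp0 : 0 < p := by linarith
  have hκe : 2 * Real.exp (Real.log p - Real.log 2) = p := by
    rw [Real.exp_sub, Real.exp_log hp0, Real.exp_log (by norm_num)]; ring
  refine ⟨by linarith, hκe, ?_⟩
  rw [← Real.exp_le_exp]; linarith

end Pool.Agent.MP_542436_nt.H96.P1

namespace Pool.Agent.MP_542436_nt.H96

open NumberField

theorem rowP1 : RowPAD → RowAUX → RowTW → RowARI → RowP1 := by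
  rintro ⟨C, hC, pad⟩ aux ⟨C0, tw⟩ ari
  obtain ⟨C', hC', aux⟩ := aux C0
  obtain ⟨E, hE⟩ : ∃ E, E = Real.exp 1 := ⟨_, rfl⟩
  have hE2 : 2 ≤ E := by rw [hE]; linarith [Real.add_one_le_exp (1 : ℝ)]
  have hE0 : 0 < E := lt_of_lt_of_le two_pos hE2
  obtain ⟨g, hg⟩ : ∃ g, g = 20736 * E ^ 2 * C' := ⟨_, rfl⟩
  obtain ⟨C3, hC3⟩ : ∃ C3, C3 = 6 + 368640 * C := ⟨_, rfl⟩
  have hC31 : 6 ≤ C3 := by rw [hC3]; linarith
  have hC0 : 0 ≤ C := zero_le_one.trans hC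
  obtain ⟨hE4, hg8, hF1, -⟩ := P1.start C C' E g C3 0 hC' hE2 hg
  have hg0 : 0 < g := lt_of_lt_of_le (by norm_num) hg8
  refine ⟨1 / (2 * g), 1 / (2 * g), 8 * C ^ 2 * C3 ^ 12 + 4 * Real.exp (8192 * g), 24,
    by positivity, by positivity, hF1, ?_⟩
  intro p _ P b H hF hpP hpH hCp hm
  obtain ⟨hp4, hκe, hκg⟩ := (P1.start C C' E g C3 p hC' hE2 hg).2.2.2 hCp
  have hp0 : (0 : ℝ) < p := lt_of_lt_of_le (by norm_num) hp4
  have hp2 : p ≠ 2 := by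
    rintro rfl
    norm_num at hp4
  obtain ⟨κ, hκ⟩ : ∃ κ, κ = Real.log p - Real.log 2 := ⟨_, rfl⟩
  rw [← hκ] at hκe hκg
  have hH := hF.one
  obtain ⟨j, hj, hDu, hDl⟩ := P1.jpar κ g hg0 hκg
  obtain ⟨K, _, _, hK, hD, hdisc, ⟨ι⟩⟩ := tw p hp2 j hj
  obtain ⟨D, hDdef⟩ : ∃ D, D = Module.finrank ℚ K := ⟨_, rfl⟩
  have hDj : D = 2 ^ j := hDdef.trans hD
  have hD1 : 1 ≤ D := by rw [hDj]; exact Nat.one_le_two_pow
  have hDR : (D : ℝ) = 2 ^ j := by rw [hDj]; norm_num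
  rw [← hDR] at hDu hDl
  obtain ⟨m, hmdef⟩ : ∃ m, m = P.card := ⟨_, rfl⟩
  have hm1 : 1 ≤ m := by
    obtain ⟨r, hr, _⟩ := hF.ne
    rw [hmdef]; exact Finset.card_pos.2 ⟨r, hr⟩
  rw [← hmdef] at hm
  obtain ⟨n, hn⟩ : ∃ n, n + 1 = D + m := ⟨D + m - 1, by omega⟩
  obtain ⟨Λ, hΛ⟩ : ∃ Λ, Λ = C3 * H ^ 2 := ⟨_, rfl⟩
  obtain ⟨hng, hκ1, hκΛ, hnΛ, hΛ1, hDΛ, hDe, hHe, he2⟩ :=
    P1.small n D m κ g H Λ C3 (Real.log p) hg8 hH hC31 hΛ hn hκ hκg hpH hDu hm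
  have hnΛ' : (n : ℝ) ≤ Λ := (le_add_of_nonneg_right zero_le_one).trans hnΛ
  obtain ⟨Q, hQ⟩ : ∃ Q, Q = ∏ r ∈ P, Real.log r := ⟨_, rfl⟩
  have hQl : 1 / 2 ≤ Q := by rw [hQ]; exact ari.low P hF.prime
  have hQ0 : 0 ≤ Q := le_trans (by norm_num) hQl
  have hQu : Q ≤ Real.exp H := by
    rw [hQ]; exact (P1.prod_log_le P).trans (Real.exp_le_exp.2 hF.sum)
  have hmm1 : (1 : ℝ) ≤ (m : ℝ) ^ m := one_le_pow₀ (by exact_mod_cast hm1)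
  have hmm0 : (0 : ℝ) ≤ (m : ℝ) ^ m := zero_le_one.trans hmm1
  have hmmu : (m : ℝ) ^ m ≤ Real.exp (H ^ 2) := P1.pow_self_le m H (by rw [hmdef]; exact hF.card)
  have hpu : (p : ℝ) ≤ Real.exp H := by
    rw [← Real.exp_log hp0]; exact Real.exp_le_exp.2 hpH
  have hXu := P1.Xle n p ((m : ℝ) ^ m) Q E H hH hE2 hmm0 hQ0 hpu hmmu hQu
  obtain ⟨T, hT6, hT3, hΛT, hTu⟩ :=
    P1.Tpar C Λ (p * (m : ℝ) ^ m * Q * (1 / (4 * E)) ^ n) hC hΛ1 (by positivity)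
  have hnT : n ≤ T := by exact_mod_cast hnΛ'.trans hΛT
  obtain ⟨t, M, ht1, ht, ht2, hM1, hMl, hCM⟩ :=
    P1.tpar n D T κ E C' g hg hE4 hC' hD1 (hDΛ.trans hΛT) hng
  have ht0 : 0 ≤ t := zero_le_one.trans ht
  obtain ⟨Y, hY1, hY2, hY3⟩ := aux K M (by rw [hD]; exact hdisc) hM1
  rw [← hDdef] at hY1
  have hYc : (t / 2) ^ (D - 1) ≤ Y.card * C' ^ D :=
    (pow_le_pow_left₀ (by positivity) hMl _).trans hY1
  have hbin := ari.bin n T (by omega) hnT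
  rw [← hE] at hbin
  have hcnt := P1.count n T D m C Λ p Q t C' Y.card E _ hD1 hm1 hn hnT hnΛ' hC0
    hC' hp0.le hQ0 hE0 ht0 (Nat.cast_nonneg _) hbin ht2 hYc (le_of_eq_of_le (by ring) hT6)
  have key := pad p K ι P b Y 1 n T t κ Λ hF.prime hpP hF.ne (by rw [← hDdef, ← hmdef]; exact hn)
    (fun y hy => ⟨(hY2 y hy).1, fun σ => ((hY2 y hy).2 σ).trans hCM⟩) hY3
    (by rw [pow_one, hκe]) hκ1 hκΛ hnΛ ht
    (fun r hr => by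
      rw [← hDdef]
      exact (mul_le_mul hDe (hF.coef r hr) (abs_nonneg _) (Real.exp_pos H).le).trans he2)
    (by
      calc ∑ r ∈ P, |(b r : ℝ)| * Real.log r ≤ ∑ r ∈ P, Real.exp H * Real.log r :=
            Finset.sum_le_sum fun r hr =>
              mul_le_mul_of_nonneg_right (hF.coef r hr) (Real.log_natCast_nonneg r)
        _ = Real.exp H * ∑ r ∈ P, Real.log r := (Finset.mul_sum _ _ _).symm
        _ ≤ Real.exp H * Real.exp H :=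
            mul_le_mul_of_nonneg_left (hF.sum.trans hHe) (Real.exp_pos H).le
        _ ≤ _ := he2)
    (P1.size C H Λ _ T hC hH (by rw [hΛ, hC3]) hXu hTu) hT3
    (by rw [← hDdef]; exact ht1.le)
    (by rw [pow_one, ← hQ, ← hmdef]; exact hcnt)
  refine le_trans (Real.exp_le_exp.2 (neg_le_neg ?_)) key
  rw [← hQ, ← hmdef]
  obtain ⟨h1, h2⟩ := P1.sav n p κ g D hp0 hκ hg8 hDl (by exact_mod_cast (by omega : D ≤ n)) hng
  rw [← hE] at h1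
  have h3 := P1.fin n C Λ p _ ((m : ℝ) ^ m) Q T E hC hΛ1 hE0 hmm1 hQl h1 h2 hTu
  refine P1.last C C3 _ H _ _ Q _ (by positivity) hmm0 (Real.rpow_nonneg hp0.le _) hQ0 ?_
  rw [← hΛ]
  exact h3

end Pool.Agent.MP_542436_nt.H96
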