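import Pool.Agent.MP_db5b97_nt.H85.Spec2

/-! Statements of the pieces: a tower of number fields, linear forms in logarithms, abc. -/

namespace Pool.Agent.MP_542436_nt.H96

open NumberField IsDedekindDomain Polynomial Pool.Agent.MP_db5b97_nt.H85

/-! ### Part T: the tower -/

section Tower

/-- squares -/
def Sq (F : Type) [Field F] : AddSubgroup (Un F) := (nsmulAddMonoidHom 2 : Un F →+ Un F).range

theorem mem_Sq {F : Type} [Field F] {x : Un F} : x ∈ Sq F ↔ ∃ y : Un F, 2 • y = x := Iff.rfl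

/-- even order at all odd primes -/
def Ev (F : Type) [Field F] [NumberField F] : AddSubgroup (Un F) where
  carrier := {x | ∀ w : Pr F 2, Even (ord w.1 x)}
  zero_mem' := fun w => by simp
  add_mem' := fun hx hy w => by rw [map_add]; exact (hx w).add (hy w)
  neg_mem' := fun hx w => by rw [map_neg]; exact (hx w).neg

/-- totally positive -/
def Pos (F : Type) [Field F] : AddSubgroup (Un F) where
  carrier := {x | ∀ φ : F →+* ℝ, 0 < φ x.val}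
  zero_mem' := fun φ => by simp
  add_mem' := fun hx hy φ => by rw [Un.val_add, map_mul]; exact mul_pos (hx φ) (hy φ)
  neg_mem' := fun hx φ => by rw [Un.val_neg, map_inv₀]; exact inv_pos.2 (hx φ)

/-- squares under an embedding -/
def PSq {F A : Type} [Field F] [Field A] (ι : F →+* A) : AddSubgroup (Un F) where
  carrier := {x | IsSquare (ι x.val)}
  zero_mem' := by simp
  add_mem' := fun hx hy => by
    show IsSquare _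
    rw [Un.val_add, map_mul]
    exact IsSquare.mul hx hy
  neg_mem' := fun hx => by
    show IsSquare _
    rw [Un.val_neg, map_inv₀]
    exact IsSquare.inv hx

/-- congruent to a square at the primes above two -/
def Dy (F : Type) [Field F] [NumberField F] : AddSubgroup (Un F) := Sq F ⊔ Ray F 2 3

/-- classes modulo squares fixed by the Galois group -/
def Ivt (k L : Type) [Field k] [Field L] [Algebra k L] : AddSubgroup (Un L) where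
  carrier := {x | ∀ s : L ≃ₐ[k] L, s • x - x ∈ Sq L}
  zero_mem' := fun s => by simp
  add_mem' := fun hx hy s => by
    rw [smul_add, add_sub_add_comm]
    exact add_mem (hx s) (hy s)
  neg_mem' := fun hx s => by
    rw [smul_neg, neg_sub_neg, ← neg_sub]
    exact neg_mem (hx s)

/-- a layer of the tower -/
structure Good (k L : Type) [Field k] [NumberField k] [Field L] [NumberField L]
    [Algebra k L] : Prop where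
  gal : IsGalois k L
  two : ∃ j, Module.finrank k L = 2 ^ j
  real : IsTotallyReal L
  unr : ∀ s : L ≃ₐ[k] L, s ≠ 1 → ∀ w : Sp L, ∃ θ : 𝓞 L, s • θ - θ ∉ w.asIdeal
  spl : ∀ s : L ≃ₐ[k] L, s ≠ 1 → ∀ w : Pl L 2, s • w ≠ w

/-- the norm theorem for an unramified totally real quadratic extension split above two -/
def RowHN : Prop :=
  ∀ (k F G : Type) [Field k] [NumberField k] [Field F] [NumberField F] [Algebra k F] [Group G]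
    [MulSemiringAction G F] [IsGaloisGroup G k F] (σ : G), Nat.card G = 2 → σ ≠ 1 →
    IsTotallyReal F → Unr k F 2 → (∀ w : Pl F 2, σ • w ≠ w) →
    ∀ x : Un k, dv k 2 x ∈ (nrD F 2 k).range → x ∈ (Un.nrm k F).range

/-- central extensions by a sign split over the multiplicative group -/
def RowEXT : Prop :=
  ∀ (k L : Type) [Field k] [NumberField k] [Field L] [NumberField L] [Algebra k L], Good k L →
    ∀ (E : Type) [Group E] (π : E →* (L ≃ₐ[k] L)) (φ : π.ker →* ℤˣ), Function.Surjective π →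
    (∀ (e : E) (x y : π.ker), (y : E) = e * x * e⁻¹ → φ y = φ x) →
    ∃ β : E → Un L, (∀ a b, β (a * b) = β a + π a • β b) ∧
      ∀ x : π.ker, (β x).val = ((φ x : ℤ) : L)

/-- the inequality of Golod and Shafarevich -/
def RowGS : Prop :=
  ∀ (G : Type) [Group G] [Finite G], IsPGroup 2 G →
    ∃ d r : ℕ, Nat.card (G →* ℤˣ) = 2 ^ d ∧ (2 ≤ d → d ^ 2 < 4 * r) ∧
      ∃ (E : Type) (_ : Group E) (π : E →* G), Function.Surjective π ∧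
        (∀ χ : E →* ℤˣ, ∀ x ∈ π.ker, χ x = 1) ∧
        ∃ Φ : Finset (π.ker →* ℤˣ), 2 ^ r ≤ Φ.card ∧
          ∀ φ ∈ Φ, ∀ (e : E) (x y : π.ker), (y : E) = e * x * e⁻¹ → φ y = φ x

/-- many invariant classes -/
def RowINJ : Prop :=
  ∀ (k L : Type) [Field k] [NumberField k] [Field L] [NumberField L] [Algebra k L], Good k L →
    ∃ d r : ℕ, Nat.card ((L ≃ₐ[k] L) →* ℤˣ) = 2 ^ d ∧ (2 ≤ d → d ^ 2 < 4 * r) ∧
      (((Un.inc k L).range ⊔ Sq L).relIndex (Ivt k L) ≠ 0 →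
        2 ^ r ≤ ((Un.inc k L).range ⊔ Sq L).relIndex (Ivt k L))

/-- small index computations -/
structure RowIDX : Prop where
  kum : ∀ (k L : Type) [Field k] [NumberField k] [Field L] [NumberField L] [Algebra k L]
    [IsGalois k L], (Sq k).relIndex ((Sq L).comap (Un.inc k L)) ≠ 0 ∧
      (Sq k).relIndex ((Sq L).comap (Un.inc k L)) ≤ Nat.card ((L ≃ₐ[k] L) →* ℤˣ)
  sgn : ∀ (k L : Type) [Field k] [NumberField k] [Field L] [NumberField L] [Algebra k L]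
    [IsGalois k L], IsTotallyReal L → (Pos L).relIndex (Ivt k L) ≠ 0 ∧
      (Pos L).relIndex (Ivt k L) ≤ 2 ^ Module.finrank ℚ k
  psq : ∀ (p : ℕ) [Fact p.Prime] (L : Type) [Field L] (ι : L →+* ℚ_[p]), p ≠ 2 →
    (PSq ι).index ≠ 0 ∧ (PSq ι).index ≤ 4
  hen : ∀ (p : ℕ) [Fact p.Prime] (a : ℤ), p ≠ 2 → (a : ZMod p) ≠ 0 → IsSquare (a : ZMod p) →
    IsSquare (a : ℚ_[p])

/-- the primes above two -/
structure RowDY : Prop where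
  loc : ∀ (k : Type) [Field k] [NumberField k], Module.finrank ℚ k = 2 →
    (Dy k).index ≠ 0 ∧ (Dy k).index ≤ 2 ^ 8
  apx : ∀ (k L : Type) [Field k] [NumberField k] [Field L] [NumberField L] [Algebra k L],
    Good k L → Ivt k L ≤ (Un.inc k L).range ⊔ Dy L

/-- the class group modulo squares -/
structure RowCL : Prop where
  cls : ∀ (k : Type) [Field k] [NumberField k],
    ((dv k 2).range ⊔ (nsmulAddMonoidHom 2 : Dv k 2 →+ Dv k 2).range).index ≠ 0 ∧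
      ((Sq k).relIndex (Ev k) ≠ 0 →
        ((dv k 2).range ⊔ (nsmulAddMonoidHom 2 : Dv k 2 →+ Dv k 2).range).index ≤
          (Sq k).relIndex (Ev k))
  par : ∀ (k L : Type) [Field k] [NumberField k] [Field L] [NumberField L] [Algebra k L],
    Good k L → Unr k L 2 ∧ ((Ivt k L ⊓ Ev L) ⊔ (Un.inc k L).range).relIndex (Ivt k L) ≠ 0 ∧
      ((Ivt k L ⊓ Ev L) ⊔ (Un.inc k L).range).relIndex (Ivt k L) ≤
        ((dv k 2).range ⊔ (nsmulAddMonoidHom 2 : Dv k 2 →+ Dv k 2).range).index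

/-- the next radicand exists -/
def RowMU : Prop :=
  ∀ (p : ℕ) [Fact p.Prime] (k L : Type) [Field k] [NumberField k] [Field L] [NumberField L]
    [Algebra k L] (ι : L →+* ℚ_[p]), p ≠ 2 → Module.finrank ℚ k = 2 → Good k L →
    2 ^ 12 ≤ Nat.card ((L ≃ₐ[k] L) →* ℤˣ) →
    ∃ μ : Un L, μ ∈ Ivt k L ∧ μ ∈ Ev L ∧ μ ∈ Pos L ∧ μ ∈ Dy L ∧ μ ∈ PSq ι ∧ μ ∉ Sq L

/-- adjoining a square root: the field -/
def RowADJ : Prop :=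
  ∀ (k L : Type) [Field k] [NumberField k] [Field L] [NumberField L] [Algebra k L] [IsGalois k L]
    (μ : Un L), μ ∈ Ivt k L → μ ∉ Sq L →
    ∃ (M : Type) (_ : Field M) (_ : NumberField M) (_ : Algebra L M) (_ : Algebra k M)
      (_ : IsScalarTower k L M) (θ : M), IsGalois k M ∧ Module.finrank L M = 2 ∧
      θ ^ 2 = algebraMap L M μ.val ∧ (∀ x : M, ∃ a b : L, x = algebraMap L M a + algebraMap L M b * θ) ∧
      (IsTotallyReal L → μ ∈ Pos L → IsTotallyReal M) ∧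
      ∀ (A : Type) [Field A] (ι : L →+* A), μ ∈ PSq ι → Nonempty (M →+* A)

/-- adjoining a square root: the primes -/
def RowRAM : Prop :=
  ∀ (k L M : Type) [Field k] [NumberField k] [Field L] [NumberField L] [Field M] [NumberField M]
    [Algebra k L] [Algebra L M] [Algebra k M] [IsScalarTower k L M] (μ : Un L) (θ : M),
    Good k L → IsGalois k M → IsTotallyReal M → Module.finrank L M = 2 →
    θ ^ 2 = algebraMap L M μ.val →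
    (∀ x : M, ∃ a b : L, x = algebraMap L M a + algebraMap L M b * θ) →
    μ ∈ Ev L → μ ∈ Dy L → Good k M

/-- the discriminant -/
def RowDISC : Prop :=
  ∀ (k L : Type) [Field k] [NumberField k] [Field L] [NumberField L] [Algebra k L], Good k L →
    (discr L).natAbs = (discr k).natAbs ^ Module.finrank k L

/-- the base of the tower -/
def RowBASE : Prop :=
  ∃ C : ℕ, ∀ (p : ℕ) [Fact p.Prime], p ≠ 2 →
    ∃ (k : Type) (_ : Field k) (_ : NumberField k) (a : Fin 12 → Un k),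
      Module.finrank ℚ k = 2 ∧ IsTotallyReal k ∧ (discr k).natAbs ≤ C ∧ Nonempty (k →+* ℚ_[p]) ∧
      (∀ I : Finset (Fin 12), ∑ i ∈ I, a i ∈ Sq k → I = ∅) ∧
      ∀ i, a i ∈ Ev k ∧ a i ∈ Pos k ∧ a i ∈ Ray k 2 3 ∧
        ∃ n : ℤ, (a i).val = n ∧ IsSquare (n : ℚ_[p])

/-- totally real fields of bounded root discriminant inside the `p`-adic numbers -/
def RowTW : Prop :=
  ∃ C : ℕ, ∀ (p : ℕ) [Fact p.Prime], p ≠ 2 → ∀ j : ℕ, 13 ≤ j →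
    ∃ (K : Type) (_ : Field K) (_ : NumberField K), IsTotallyReal K ∧
      Module.finrank ℚ K = 2 ^ j ∧ (discr K).natAbs ≤ C ^ 2 ^ j ∧ Nonempty (K →+* ℚ_[p])

end Tower

/-! ### Part L: linear forms in logarithms -/

/-- the inequality of Liouville -/
def Lv (A : Type) [NormedField A] : Prop :=
  ∀ (M : Type) [Field M] [NumberField M] (j : M →+* A) (x : M) (W : ℝ), IsIntegral ℤ x → x ≠ 0 →
    1 ≤ W → (∀ σ : M →+* ℂ, ‖σ x‖ ≤ W) → 1 ≤ ‖j x‖ * W ^ Module.finrank ℚ M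

/-- extrapolation of zeros of exponential sums -/
def Ext {A : Type} [NormedField A] (E : A → A) (B : AddSubgroup A) (q : ℕ) (κ ρ : ℝ) : Prop :=
  ∀ (S Δ : ℕ) (ε : ℝ) (X : Type) (t : Finset X) (a : X → ℤ) (g lam : X → A), 1 ≤ S → 1 ≤ Δ →
    0 ≤ ε → ε ≤ 1 → (∀ y ∈ t, g y ∈ B ∧ ‖g y‖ ≤ ρ * Δ ∧ ‖g y - lam y‖ ≤ ε) →
    (∀ i < S, ∀ m < Δ, ∑ y ∈ t, (a y : A) * lam y ^ m * E (g y * ((1 + q * i : ℕ) : A)) = 0) →
    ∀ s u : ℕ, s ≤ 2 * q * S → (u = 1 ∨ u = q) →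
      ‖∑ y ∈ t, (a y : A) * E (g y * ((s : A) / u))‖ ≤ (∑ y ∈ t, |(a y : ℝ)|) *
        (ε * (100 * q * S : ℝ) ^ (S * Δ) + Real.exp (-(κ * (S * Δ))))

/-- the local data -/
structure Loc {K A : Type} [Field K] [NormedField A] (ι : K →+* A) (E : A → A) (B : AddSubgroup A)
    (q : ℕ) (κ ρ : ℝ) : Prop where
  lv : Lv A
  ext : Ext E B q κ ρ
  q23 : q = 2 ∨ q = 3
  root : ∀ ζ : A, ζ ^ q = 1 → ζ ∈ ι.range
  add : ∀ a ∈ B, ∀ b ∈ B, E (a + b) = E a * E b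
  zero : E 0 = 1
  div : ∀ a ∈ B, a / q ∈ B
  qinv : ‖(q : A)⁻¹‖ ≤ 1
  rat : ∀ a b : ℤ, ‖(a : A) / b‖ ≤ |(a : ℝ)| * |(b : ℝ)|

/-- both instances of the inequality of Liouville -/
def RowLV : Prop := Lv ℝ ∧ ∀ (p : ℕ) [Fact p.Prime], Lv ℚ_[p]

/-- the polynomial with prescribed zeros -/
noncomputable def Wz {A : Type} [Field A] (ν : ℕ → A) (S Δ : ℕ) : A[X] :=
  ∏ i ∈ Finset.range S, (X - C (ν i)) ^ Δ

/-- interpolation -/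
structure RowNEW : Prop where
  rem : ∀ (A : Type) [NormedField A] (P : A[X]) (ν : ℕ → A) (S Δ : ℕ) (ω Z ε : ℝ) (x : A),
    0 < ω → ω ≤ 1 → 1 ≤ Z → 0 ≤ ε → (∀ i < S, ∀ i' < S, i ≠ i' → 2 * ω ≤ ‖ν i - ν i'‖) →
    (∀ i < S, ‖x - ν i‖ ≤ Z) → (∀ i < S, ∀ m < Δ, ‖(hasseDeriv m P).eval (ν i)‖ ≤ ε) →
    ‖(P %ₘ Wz ν S Δ).eval x‖ ≤ ε * (2 * Z / ω) ^ (S * Δ)
  quo : ∀ (A : Type) [NormedField A] (ν : ℕ → A) (S Δ k : ℕ) (Z : ℝ) (x : A), ‖x‖ ≤ Z →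
    (∀ i < S, ‖ν i‖ ≤ Z) →
    ‖(X ^ k /ₘ Wz ν S Δ).eval x‖ ≤ (k.choose (S * Δ) : ℝ) * Z ^ (k - S * Δ)
  ult : ∀ (A : Type) [NormedField A] [IsUltrametricDist A] (ν : ℕ → A) (S Δ k : ℕ) (x : A),
    ‖x‖ ≤ 1 → (∀ i < S, ‖ν i‖ ≤ 1) → ‖(X ^ k /ₘ Wz ν S Δ).eval x‖ ≤ 1

/-- the `p`-adic exponential series -/
noncomputable def Ep (p : ℕ) [Fact p.Prime] (x : ℚ_[p]) : ℚ_[p] := ∑' k : ℕ, x ^ k / (k.factorial : ℚ_[p])

/-- a closed ball -/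
def Bp (p : ℕ) [Fact p.Prime] (η : ℝ) (h : 0 ≤ η) : AddSubgroup ℚ_[p] where
  carrier := {x | ‖x‖ ≤ η}
  zero_mem' := by simpa using h
  add_mem' := fun hx hy => (IsUltrametricDist.norm_add_le_max _ _).trans (max_le hx hy)
  neg_mem' := fun hx => by simpa using hx

/-- the `p`-adic exponential and logarithm -/
structure RowEXP : Prop where
  fac : ∀ (p : ℕ) [Fact p.Prime] (k : ℕ), ‖((k.factorial : ℚ_[p]))⁻¹‖ ≤ 2 ^ (k - 1)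
  sum : ∀ (p : ℕ) [Fact p.Prime] (x : ℚ_[p]), ‖x‖ ≤ 1 / 4 →
    HasSum (fun k : ℕ => x ^ k / (k.factorial : ℚ_[p])) (Ep p x)
  add : ∀ (p : ℕ) [Fact p.Prime] (x y : ℚ_[p]), ‖x‖ ≤ 1 / 4 → ‖y‖ ≤ 1 / 4 →
    Ep p (x + y) = Ep p x * Ep p y
  log : ∀ (p : ℕ) [Fact p.Prime], ∃ l : ℚ_[p] → ℚ_[p],
    (∀ u v, ‖u‖ = 1 → ‖v‖ = 1 → l (u * v) = l u + l v) ∧
      ∀ u, ‖u - 1‖ ≤ 1 / 4 → ‖l u‖ ≤ ‖u - 1‖ ∧ Ep p (l u) = u

/-- the `p`-adic local data -/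
def RowLOCP : Prop :=
  ∀ (p : ℕ) [Fact p.Prime] (K : Type) [Field K] (ι : K →+* ℚ_[p]) (η κ : ℝ) (h : 0 ≤ η),
    η ≤ 1 / 4 → 2 * η ≤ Real.exp (-κ) → Loc ι (Ep p) (Bp p η h) (if p = 2 then 3 else 2) κ 1

/-- the real local data -/
def RowLOCR : Prop :=
  ∀ (K : Type) [Field K] (ι : K →+* ℝ) (κ ρ : ℝ), 0 ≤ κ → 0 ≤ ρ → 80 * ρ ≤ Real.exp (-κ) →
    Loc ι Real.exp ⊤ 2 κ ρ

/-- the lemma of Siegel -/
def RowSIE : Prop :=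
  ∀ (K : Type) [Field K] [NumberField K] [IsTotallyReal K] (X R : Type) (t : Finset X)
    (r : Finset R) (a : R → X → K) (W : ℝ), 1 ≤ W → t.Nonempty →
    2 * Module.finrank ℚ K * r.card ≤ t.card →
    (∀ e ∈ r, ∀ y ∈ t, IsIntegral ℤ (a e y) ∧ ∀ σ : K →+* ℂ, ‖σ (a e y)‖ ≤ W) →
    ∃ c : X → ℤ, (∃ y ∈ t, c y ≠ 0) ∧ (∀ y ∈ t, |(c y : ℝ)| ≤ 4 * t.card * W) ∧
      ∀ e ∈ r, ∑ y ∈ t, (c y : K) * a e y = 0

/-- sums of roots -/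
structure RowKUM : Prop where
  lio : ∀ (A M : Type) [NormedField A] [Field M] [NumberField M] (j : M →+* A) (X : Type)
    (t : Finset X) (a : X → ℤ) (θ Y : X → M) (b : M) (Q s d : ℕ) (h w : ℝ), Lv A → 0 < Q →
    0 ≤ h → 0 ≤ w → Module.finrank ℚ M ≤ d → b ≠ 0 → ‖j b‖ ≤ Real.exp (h * d) →
    (∀ y ∈ t, θ y ^ Q * b = Y y ∧ IsIntegral ℤ (Y y) ∧ ∀ σ : M →+* ℂ, ‖σ (Y y)‖ ≤ Real.exp h) →
    ∑ y ∈ t, |(a y : ℝ)| ≤ Real.exp w → ∑ y ∈ t, (a y : M) * θ y ^ s ≠ 0 →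
    Real.exp (-(d * (w + 2 * s * h / Q))) ≤ ‖j (∑ y ∈ t, (a y : M) * θ y ^ s)‖
  fld : ∀ (K A : Type) [Field K] [NumberField K] [Field A] (ι : K →+* A) (q : ℕ)
    (Γ : Subgroup Kˣ) (R : Finset Kˣ), 0 < q → (∀ ζ : A, ζ ^ q = 1 → ζ ∈ ι.range) →
    (∀ z ∈ Γ, ∃ r ∈ R, ∃ u : Kˣ, z = r * u ^ q) →
    ∃ (M : Type) (_ : Field M) (_ : NumberField M) (_ : Algebra K M) (j : M →+* A),
      (∀ x : K, j (algebraMap K M x) = ι x) ∧ Module.finrank K M ≤ R.card ∧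
      ∀ θ : A, (∃ z ∈ Γ, θ ^ q = ι (z : K)) → θ ∈ j.range
  ind : ∀ (K A : Type) [Field K] [NumberField K] [Field A] (ι : K →+* A) (q : ℕ) (X : Type)
    (t : Finset X) (a : X → K) (θ : X → A) [DecidablePred fun y => θ y ∈ ι.range], q.Prime →
    (∀ ζ : A, ζ ^ q = 1 → ζ ∈ ι.range) → (∀ y ∈ t, θ y ^ q ∈ ι.range) →
    ∑ y ∈ t, ι (a y) * θ y = 0 → ∑ y ∈ t with θ y ∈ ι.range, ι (a y) * θ y = 0

/-- the descent -/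
def RowCORE : Prop :=
  ∀ (K A : Type) [Field K] [NumberField K] [NormedField A] (ι : K →+* A) (E : A → A)
    (B : AddSubgroup A) (q : ℕ) (κ ρ : ℝ), Loc ι E B q κ ρ →
    ∀ (Γ : Subgroup Kˣ) (R X : Finset Kˣ) (n k0 J T : ℕ) (c : Kˣ → ℤ) (x : Kˣ → Fin n → ℤ)
      (γ : Kˣ → A) (ξ : Fin n → A) (S Δ : ℕ → ℕ) (L w ε : ℝ),
      (∀ z : Kˣ, z ^ q ∈ Γ → z ∈ Γ) → (∀ z ∈ Γ, ∃ r ∈ R, ∃ u : Kˣ, z = r * u ^ q) →
      R.card ≤ 2 ^ k0 → 1 ≤ k0 → 0 ≤ L → 0 ≤ w → 0 ≤ ε → 0 ≤ κ →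
      (∀ y ∈ X, IsIntegral ℤ (y : K) ∧
        (∀ σ : K →+* ℂ, ‖σ y‖ ≤ Real.exp (L / Module.finrank ℚ K)) ∧ ‖ι y‖ ≤ Real.exp L ∧
        ‖γ y - ∑ i, ξ i * x y i‖ ≤ ε) →
      (∀ y ∈ X, ∀ y' ∈ X, y / y' ∈ Γ ∧ γ y - γ y' ∈ B ∧ ι (y / y' : Kˣ) = E (γ y - γ y') ∧
        (∀ j < J, ‖(γ y - γ y') / (q : A) ^ j‖ ≤ ρ * Δ j) ∧
        ∀ z ∈ Γ, z ^ q ^ J * y' = y → y = y') →
      (∀ τ : Fin n → ℕ, ∑ i, τ i ≤ T →
        ∑ y ∈ X, |((c y * ∏ i, x y i ^ τ i : ℤ) : ℝ)| ≤ Real.exp w) →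
      (∀ j ≤ J, 1 ≤ S j) →
      (∀ j < J, S (j + 1) ≤ 4 * S j ∧ 1 ≤ Δ j ∧
        ((Module.finrank ℚ K + 1) * w + 1) / S j + 12 * L / (q : ℝ) ^ j ≤ κ * Δ j ∧
        ε * (100 * q * (2 ^ k0 * S j) * Real.exp κ) ^ (2 ^ k0 * S j * Δ j) ≤ 1) →
      (k0 + 1) * ∑ j ∈ Finset.range J, Δ j ≤ T →
      (∀ i < S 0, ∀ τ : Fin n → ℕ, ∑ i, τ i ≤ T →
        ∑ y ∈ X, ((c y * ∏ i, x y i ^ τ i : ℤ) : K) * (y : K) ^ (1 + q * i) = 0) →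
      ∀ y ∈ X, c y = 0

/-- small integer coordinates on a lattice -/
def RowLAT : Prop :=
  ∀ (G : Type) [AddCommGroup G] (n : ℕ) (Λ : G →+ (Fin n → ℝ)) (P : Finset G) (l r : ℝ), 0 < l →
    0 ≤ r → (∀ a, ‖Λ a‖ < l → Λ a = 0) → (∀ a ∈ P, ‖Λ a‖ ≤ r) →
    ∃ (m : ℕ) (H : AddSubgroup G) (Ψ : H →+ (Fin m → ℤ)), m ≤ n ∧ (∀ a ∈ P, a ∈ H) ∧
      (∀ (a : G) (k : ℕ), k ≠ 0 → k • a ∈ H → a ∈ H) ∧ (∀ a : H, Ψ a = 0 ↔ Λ a = 0) ∧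
      (∀ a : H, (a : G) ∈ P → ∀ i, |(Ψ a i : ℝ)| ≤ (2 * n * r / l + 1) ^ n) ∧
      ∀ q : ℕ, 0 < q → ∃ R : Finset G, R.card ≤ q ^ m ∧
        ∀ a ∈ H, ∃ b ∈ R, ∃ a' : G, Λ (a - b - q • a') = 0

/-- the saturation of the group generated by the units and a set of integers -/
def Gam (K : Type) [Field K] (P : Finset ℕ) : Subgroup Kˣ where
  carrier := {z | ∃ k : ℕ, k ≠ 0 ∧ z ^ k ∈ (Units.map (algebraMap (𝓞 K) K : 𝓞 K →* K)).range ⊔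
    Subgroup.closure {u : Kˣ | ∃ r ∈ P, (u : K) = r}}
  one_mem' := ⟨1, one_ne_zero, by simp⟩
  mul_mem' := by
    rintro a b ⟨k, hk, h⟩ ⟨k', hk', h'⟩
    refine ⟨k * k', mul_ne_zero hk hk', ?_⟩
    rw [mul_pow, pow_mul, mul_comm k k', pow_mul b]
    exact mul_mem (pow_mem h _) (pow_mem h' _)
  inv_mem' := by
    rintro a ⟨k, hk, h⟩
    exact ⟨k, hk, by rw [inv_pow]; exact inv_mem h⟩

/-- size of an element -/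
def Sz (K : Type) [Field K] [NumberField K] (P : Finset ℕ) (t : ℝ) (z : Kˣ) : Prop :=
  (∀ σ : K →+* ℂ, |Real.log ‖σ z‖| ≤ t) ∧
    ∀ r ∈ P, |(padicValRat r (Algebra.norm ℚ (z : K)) : ℝ)| ≤ t

/-- the logarithmic embedding -/
structure RowSEP : Prop where
  emb : ∀ (K : Type) [Field K] [NumberField K] [IsTotallyReal K] (P : Finset ℕ) (n : ℕ),
    (∀ r ∈ P, r.Prime) → n + 1 = Module.finrank ℚ K + P.card →
    ∃ Λ : Additive (Gam K P) →+ (Fin n → ℝ),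
      (∀ (z : Gam K P) (t : ℝ), 0 ≤ t → Sz K P t z → ‖Λ (Additive.ofMul z)‖ ≤ t) ∧
      ∀ z : Gam K P, ‖Λ (Additive.ofMul z)‖ < 1 / 20 ^ Module.finrank ℚ K →
        (z : Kˣ) = 1 ∨ (z : Kˣ) = -1
  quo : ∀ (K : Type) [Field K] [NumberField K] (P : Finset ℕ) (y y' : Kˣ) (L : ℝ), 0 ≤ L →
    (∀ r ∈ P, r.Prime) → IsIntegral ℤ (y : K) → IsIntegral ℤ (y' : K) →
    (∀ σ : K →+* ℂ, ‖σ y‖ ≤ Real.exp (L / Module.finrank ℚ K)) →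
    (∀ σ : K →+* ℂ, ‖σ y'‖ ≤ Real.exp (L / Module.finrank ℚ K)) → Sz K P (2 * L) (y / y')

/-- the choice of the parameters -/
def RowPAR : Prop :=
  ∃ C : ℝ, 1 ≤ C ∧ ∀ (n D T q e : ℕ) (L Λ κ I : ℝ), 1 ≤ D → D ≤ n + 1 → (q = 2 ∨ q = 3) → 1 ≤ κ →
    κ ≤ Λ → (n + 1 : ℝ) ≤ Λ → 1 ≤ L → (T : ℝ) ≤ Real.exp Λ → C * Λ ^ 3 ≤ T →
    324 * (n + 1) * L ≤ κ * T → I = (2 * n * max (2 * L) (Real.exp Λ) / (1 / 20 ^ D) + 1) ^ n →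
    1 ≤ e → e ≤ (T + 1) ^ n →
    ∃ (S J : ℕ) (Δ : ℕ → ℕ) (w : ℝ), 1 ≤ S ∧ 0 ≤ w ∧ I < (q : ℝ) ^ J ∧
      (2 * D * S : ℝ) ≤ C * Λ ^ 5 ∧
      (2 * D * S * e : ℝ) * (4 * (2 * D * S * e) * ((2 * I ^ 2) ^ T * Real.exp (q * S * L / D))) *
        (2 * I ^ 2) ^ T ≤ Real.exp w ∧
      (2 * (n + 1) + 1) * ∑ j ∈ Finset.range J, Δ j ≤ T ∧
      ∀ j < J, 1 ≤ Δ j ∧ L / (κ * (q : ℝ) ^ j) ≤ Δ j ∧
        ((D + 1) * w + 1) / (((j + 1) ^ 2 * S : ℕ) : ℝ) + 12 * L / (q : ℝ) ^ j ≤ κ * Δ j ∧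
        I ^ 2 * Real.exp (-(C * 4 ^ n * Λ ^ 6 * T)) *
          (100 * q * (2 ^ (2 * (n + 1)) * (((j + 1) ^ 2 * S : ℕ) : ℝ)) * Real.exp κ) ^
            (2 ^ (2 * (n + 1)) * ((j + 1) ^ 2 * S) * Δ j) ≤ 1

/-- the abstract lower bound -/
def RowMID : Prop :=
  ∃ C : ℝ, 1 ≤ C ∧ ∀ (K A : Type) [Field K] [NumberField K] [IsTotallyReal K] [NormedField A]
    (ι : K →+* A) (E : A → A) (B : AddSubgroup A) (q : ℕ) (κ ρ : ℝ), Loc ι E B q κ ρ →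
    ∀ (P : Finset ℕ) (l : Kˣ → A) (X : Finset Kˣ) (β : Kˣ) (n T : ℕ) (L Λ : ℝ),
      (∀ r ∈ P, r.Prime) → n + 1 = Module.finrank ℚ K + P.card →
      (∀ a ∈ Gam K P, ∀ b ∈ Gam K P, l (a * b) = l a + l b) →
      (∀ y ∈ X, IsIntegral ℤ (y : K) ∧
        (∀ σ : K →+* ℂ, ‖σ y‖ ≤ Real.exp (L / Module.finrank ℚ K)) ∧ ‖ι y‖ ≤ Real.exp L) →
      (∀ y ∈ X, ∀ y' ∈ X, y / y' ∈ Gam K P ∧ y ≠ -y' ∧ l (y / y') ∈ B ∧
        ι (y / y' : Kˣ) = E (l (y / y')) ∧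
        ∀ j : ℕ, ‖l (y / y') / (q : A) ^ j‖ ≤ ρ * max 1 (L / (κ * (q : ℝ) ^ j))) →
      β ∈ Gam K P → β ≠ 1 → β ≠ -1 → Sz K P (Real.exp Λ) β → 0 ≤ ρ → 1 ≤ κ → κ ≤ Λ →
      (n + 1 : ℝ) ≤ Λ → 1 ≤ L → (T : ℝ) ≤ Real.exp Λ → C * Λ ^ 3 ≤ T →
      324 * (n + 1) * L ≤ κ * T → C * Λ ^ 5 * ((T + (n - 1)).choose (n - 1) : ℝ) ≤ X.card →
      Real.exp (-(C * 4 ^ n * Λ ^ 6 * T)) ≤ ‖l β‖

/-- products of small powers of primes -/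
def RowBOX : Prop :=
  ∀ (P : Finset ℕ) (t : ℝ), (∀ r ∈ P, r.Prime) → 0 ≤ t →
    ∃ Z : Finset ℕ, t ^ P.card ≤ Z.card * ∏ r ∈ P, Real.log r ∧
      ∀ z ∈ Z, 0 < z ∧ (z : ℝ) ≤ Real.exp (P.card * t) ∧ ∃ e : ℕ → ℕ, z = ∏ r ∈ P, r ^ e r

/-- the number of ideals of small norm -/
def RowIDL : Prop :=
  ∀ (K : Type) [Field K] [NumberField K] (F : Finset (Ideal (𝓞 K))) (Y : ℝ),
    (∀ I ∈ F, I ≠ ⊥ ∧ (Ideal.absNorm I : ℝ) ≤ Y) →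
    (F.card : ℝ) ≤ Y ^ 2 * Real.exp (2 * Module.finrank ℚ K)

/-- many small generators of one ideal -/
def RowAUX : Prop :=
  ∀ C : ℕ, ∃ C' : ℝ, 1 ≤ C' ∧ ∀ (K : Type) [Field K] [NumberField K] [IsTotallyReal K] (M : ℕ),
    (discr K).natAbs ≤ C ^ Module.finrank ℚ K → 1 ≤ M →
    ∃ Y : Finset Kˣ, (M : ℝ) ^ (Module.finrank ℚ K - 1) ≤ Y.card * C' ^ Module.finrank ℚ K ∧
      (∀ y ∈ Y, IsIntegral ℤ (y : K) ∧ ∀ σ : K →+* ℂ, ‖σ y‖ ≤ C' * Real.exp M) ∧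
      ∀ y ∈ Y, ∀ y' ∈ Y, IsIntegral ℤ ((y / y' : Kˣ) : K)

/-- the `p`-adic lower bound with free parameters -/
def RowPAD : Prop :=
  ∃ C : ℝ, 1 ≤ C ∧ ∀ (p : ℕ) [Fact p.Prime] (K : Type) [Field K] [NumberField K] [IsTotallyReal K]
    (_ : K →+* ℚ_[p]) (P : Finset ℕ) (b : ℕ → ℤ) (Y : Finset Kˣ) (a n T : ℕ) (t κ Λ : ℝ),
    (∀ r ∈ P, r.Prime) → p ∉ P → (∃ r ∈ P, b r ≠ 0) → n + 1 = Module.finrank ℚ K + P.card →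
    (∀ y ∈ Y, IsIntegral ℤ (y : K) ∧ ∀ σ : K →+* ℂ, ‖σ y‖ ≤ Real.exp t) →
    (∀ y ∈ Y, ∀ y' ∈ Y, IsIntegral ℤ ((y / y' : Kˣ) : K)) →
    2 * Real.exp κ ≤ (p : ℝ) ^ a → 1 ≤ κ → κ ≤ Λ → (n + 1 : ℝ) ≤ Λ → 1 ≤ t →
    (∀ r ∈ P, Module.finrank ℚ K * |(b r : ℝ)| ≤ Real.exp Λ) →
    ∑ r ∈ P, |(b r : ℝ)| * Real.log r ≤ Real.exp Λ →
    (T : ℝ) ≤ Real.exp Λ → C * Λ ^ 3 ≤ T →
    648 * (n + 1) * Module.finrank ℚ K * t ≤ κ * T →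
    C * Λ ^ 5 * ((T + (n - 1)).choose (n - 1) : ℝ) * (p : ℝ) ^ a * ∏ r ∈ P, Real.log r ≤
      Y.card * (t / P.card) ^ P.card →
    Real.exp (-(C * 4 ^ n * Λ ^ 6 * T)) ≤ ‖∏ r ∈ P, (r : ℚ_[p]) ^ b r - 1‖

/-- the real lower bound with free parameters -/
def RowREA : Prop :=
  ∃ C : ℝ, 1 ≤ C ∧ ∀ (P : Finset ℕ) (b : ℕ → ℤ) (G T : ℕ) (L κ Λ : ℝ),
    (∀ r ∈ P, r.Prime) → (∃ r ∈ P, b r ≠ 0) → 80 * κ * Real.exp κ ≤ G → 1 ≤ κ → κ ≤ Λ →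
    (P.card + 1 : ℝ) ≤ Λ → 1 ≤ L → (∀ r ∈ P, |(b r : ℝ)| ≤ Real.exp Λ) →
    ∑ r ∈ P, |(b r : ℝ)| * Real.log r ≤ Real.exp Λ →
    (T : ℝ) ≤ Real.exp Λ → C * Λ ^ 3 ≤ T → 324 * (P.card + 1) * L ≤ κ * T →
    C * Λ ^ 5 * ((T + (P.card - 1)).choose (P.card - 1) : ℝ) * (G + 1) * ∏ r ∈ P, Real.log r ≤
      (L / P.card) ^ P.card →
    Real.exp (-(C * 4 ^ P.card * Λ ^ 6 * T)) ≤ |∑ r ∈ P, (b r : ℝ) * Real.log r|

/-- the hypotheses on a linear form in logarithms of primes -/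
structure Frm (P : Finset ℕ) (b : ℕ → ℤ) (H : ℝ) : Prop where
  prime : ∀ r ∈ P, r.Prime
  ne : ∃ r ∈ P, b r ≠ 0
  one : 1 ≤ H
  card : (P.card : ℝ) ≤ H
  sum : ∑ r ∈ P, Real.log r ≤ H
  coef : ∀ r ∈ P, |(b r : ℝ)| ≤ Real.exp H

/-- a power saving in the prime -/
def RowP1 : Prop :=
  ∃ (δ c C : ℝ) (k : ℕ), 0 < δ ∧ 0 < c ∧ 1 ≤ C ∧ ∀ (p : ℕ) [Fact p.Prime] (P : Finset ℕ)
    (b : ℕ → ℤ) (H : ℝ), Frm P b H → p ∉ P → Real.log p ≤ H → C ≤ p →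
    (P.card : ℝ) ≤ c * Real.log p →
    Real.exp (-(C * (P.card : ℝ) ^ P.card * (p : ℝ) ^ (1 - δ) * (∏ r ∈ P, Real.log r) * H ^ k)) ≤
      ‖∏ r ∈ P, (r : ℚ_[p]) ^ b r - 1‖

/-- the `p`-adic bound -/
def RowP2 : Prop :=
  ∃ (C : ℝ) (k : ℕ), 1 ≤ C ∧ ∀ (p : ℕ) [Fact p.Prime] (P : Finset ℕ) (b : ℕ → ℤ) (H : ℝ),
    Frm P b H → p ∉ P → Real.log p ≤ H →
    Real.exp (-(C ^ (P.card + 1) * p * (∏ r ∈ P, Real.log r) * H ^ k)) ≤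
      ‖∏ r ∈ P, (r : ℚ_[p]) ^ b r - 1‖

/-- the real bound -/
def RowP3 : Prop :=
  ∃ (C : ℝ) (k : ℕ), 1 ≤ C ∧ ∀ (P : Finset ℕ) (b : ℕ → ℤ) (H : ℝ), Frm P b H →
    Real.exp (-(C ^ (P.card + 1) * (∏ r ∈ P, Real.log r) * H ^ k)) ≤
      |∑ r ∈ P, (b r : ℝ) * Real.log r|

/-- elementary estimates -/
structure RowARI : Prop where
  prod : ∀ C ε : ℝ, 0 ≤ C → 0 < ε → ∃ C' : ℝ, 1 ≤ C' ∧ ∀ N : Finset ℕ, (∀ r ∈ N, r.Prime) →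
    ∏ r ∈ N, C * Real.log r ≤ C' * (∏ r ∈ N, (r : ℝ)) ^ ε
  card : ∀ N : Finset ℕ, (∀ r ∈ N, r.Prime) →
    (2 : ℝ) ^ N.card ≤ ∏ r ∈ N, (r : ℝ) ∧ (N.card : ℝ) ^ N.card ≤ (∏ r ∈ N, (r : ℝ)) ^ 3
  boot : ∀ (C θ η : ℝ) (k : ℕ), 0 ≤ θ → θ ≤ 1 → 0 < η → ∃ C' : ℝ, ∀ X R : ℝ, 1 ≤ X → 1 ≤ R →
    X ≤ C * R ^ θ * (3 + 2 * Real.log R + Real.log X) ^ k → X ≤ C' * R ^ (θ + η)
  low : ∀ N : Finset ℕ, (∀ r ∈ N, r.Prime) → 1 / 2 ≤ ∏ r ∈ N, Real.log r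
  bin : ∀ n T : ℕ, 1 ≤ n → n ≤ T →
    ((T + (n - 1)).choose (n - 1) : ℝ) * (2 * T) * (n : ℝ) ^ n ≤ n * (2 * Real.exp 1 * T) ^ n

/-- the theorem -/
def RowABC : Prop :=
  ∃ δ C : ℝ, 0 < δ ∧ ∀ a b c : ℕ, 0 < a → 0 < b → a + b = c → Nat.Coprime a b →
    Real.log c ≤ C * (∏ r ∈ (a * b * c).primeFactors, (r : ℝ)) ^ (1 / 3 - δ)

end Pool.Agent.MP_542436_nt.H96
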